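import Mathlib

/-!
# Analytic families of left invertible operators with invariant ranges

MODULE. Paper proof. `l ↦ L0 * A l` is differentiable, hence continuous, and equals `1` at `l0`, so
for `s` small it is invertible on `ball l0 s` (units are open in the Banach algebra `H →L[ℂ] H`).
Put `L l = Ring.inverse (L0 * A l) * L0`: differentiable on the ball (`differentiableAt_inverse`),
`L l * A l = 1`. Let `F l = A l * (L l * (P * A l)) - P * A l`, differentiable on `ball l0 s`. By
hypothesis there is `l` in `ball l0 s` and a neighbourhood of `l` on which `P * A l' = A l' * B`, and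
there `F l' = A l' * (L l' * (A l' * B)) - A l' * B = 0`. By the identity theorem
(`DifferentiableOn.analyticOnNhd`, `AnalyticOnNhd.eqOn_zero_of_preconnected_of_eventuallyEq_zero`,
the ball is convex) `F = 0` on the ball.
-/

open Complex Set Filter Topology Metric

namespace Pool.Agent.TBir

theorem abs_left {H : Type*} [NormedAddCommGroup H] [NormedSpace ℂ H] [CompleteSpace H]
    {A : ℂ → H →L[ℂ] H} {l0 : ℂ} {r : ℝ} (hr : 0 < r) (hA : DifferentiableOn ℂ A (ball l0 r))
    {L0 : H →L[ℂ] H} (hL : L0 * A l0 = 1) {P : H →L[ℂ] H}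
    (hP : ∀ eps > 0, ∃ l ∈ ball l0 eps, ∀ᶠ l' in 𝓝 l, ∃ B : H →L[ℂ] H, P * A l' = A l' * B) :
    ∃ (s : ℝ) (L : ℂ → H →L[ℂ] H), 0 < s ∧ s ≤ r ∧ DifferentiableOn ℂ L (ball l0 s) ∧
      (∀ l ∈ ball l0 s, L l * A l = 1) ∧
      (∀ l ∈ ball l0 s, A l * (L l * (P * A l)) = P * A l) := by
  have hM : DifferentiableOn ℂ (fun l => L0 * A l) (ball l0 r) := hA.const_mul L0
  have hMc : ContinuousAt (fun l => L0 * A l) l0 :=
    hM.continuousOn.continuousAt (ball_mem_nhds l0 hr)
  have hu : ∀ᶠ l in 𝓝 l0, IsUnit (L0 * A l) := by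
    refine hMc.eventually (Units.isOpen.mem_nhds ?_)
    change IsUnit (L0 * A l0)
    rw [hL]
    exact isUnit_one
  obtain ⟨s', hs', hs's⟩ := Metric.eventually_nhds_iff_ball.1 hu
  obtain ⟨s, hs⟩ : ∃ s, s = min s' r := ⟨_, rfl⟩
  have hs0 : 0 < s := by rw [hs]; exact lt_min hs' hr
  have hsr : s ≤ r := by rw [hs]; exact min_le_right _ _
  have hsu : ∀ l ∈ ball l0 s, IsUnit (L0 * A l) := fun l hl =>
    hs's l (ball_subset_ball (by rw [hs]; exact min_le_left _ _) hl)
  have hAs : DifferentiableOn ℂ A (ball l0 s) := hA.mono (ball_subset_ball hsr)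
  have hMs : DifferentiableOn ℂ (fun l => L0 * A l) (ball l0 s) := hM.mono (ball_subset_ball hsr)
  have hLd : DifferentiableOn ℂ (fun l => Ring.inverse (L0 * A l) * L0) (ball l0 s) := by
    refine DifferentiableOn.mul_const ?_ L0
    intro l hl
    have h1 : DifferentiableAt ℂ (Ring.inverse : (H →L[ℂ] H) → (H →L[ℂ] H)) (L0 * A l) :=
      differentiableAt_inverse (hsu l hl)
    exact (h1.comp l (hMs.differentiableAt (isOpen_ball.mem_nhds hl))).differentiableWithinAt
  have hLA : ∀ l ∈ ball l0 s, Ring.inverse (L0 * A l) * L0 * A l = 1 := by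
    intro l hl
    rw [mul_assoc]
    exact Ring.inverse_mul_cancel _ (hsu l hl)
  refine ⟨s, fun l => Ring.inverse (L0 * A l) * L0, hs0, hsr, hLd, hLA, ?_⟩
  have hF : DifferentiableOn ℂ (fun l => A l * ((Ring.inverse (L0 * A l) * L0) * (P * A l)) -
      P * A l) (ball l0 s) :=
    (hAs.mul (hLd.mul (hAs.const_mul P))).sub (hAs.const_mul P)
  obtain ⟨l, hl, hl'⟩ := hP s hs0
  have hz : (fun l => A l * ((Ring.inverse (L0 * A l) * L0) * (P * A l)) - P * A l) =ᶠ[𝓝 l] 0 := by
    filter_upwards [hl', isOpen_ball.mem_nhds hl] with l' h1 h2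
    obtain ⟨B, hB⟩ := h1
    change A l' * ((Ring.inverse (L0 * A l') * L0) * (P * A l')) - P * A l' = 0
    rw [hB, ← mul_assoc (Ring.inverse (L0 * A l') * L0) (A l') B, hLA l' h2, one_mul, sub_self]
  have hE := (hF.analyticOnNhd isOpen_ball).eqOn_zero_of_preconnected_of_eventuallyEq_zero
    (convex_ball l0 s).isPreconnected hl hz
  intro l hl
  exact sub_eq_zero.1 (hE hl)

end Pool.Agent.TBir
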