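import Pool.Agent.TBir.WdLD

/-!
# The conjugate symbol

MODULE. Paper proof. On the circle `(conj w)⁻¹ = w`, so `pstar phi = conj phi` there. `pstar phi` is
analytic near the circle: `w ↦ conj (phi (conj v))` is analytic (`AnalyticAt` under conjugation, or
`HasDerivAt.conj_conj`, `DifferentiableAt.conj_conj`) composed with `v = w⁻¹`. Derivative on the
circle: `w * deriv (pstar phi) w = - conj (w * deriv phi w)`. So `der`, `triple` are clear, and
`(w1 p*'(w1)) conj (w2 p*'(w2)) = conj ((w1 phi'(w1)) conj (w2 phi'(w2)))` has nonzero imaginary part.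
`J (pstar phi)` is the set of conjugates of points of `J phi`. Winding number:
`wind f = ∫ e x * deriv f (e x) / f (e x) dx` (`integral_circle`), so
`wd (pstar phi) (conj l) = ∫ - conj (e x phi'(e x)) / conj (phi(e x) - l) dx = - conj (wd phi l)`.
-/

open MeasureTheory Complex Set Filter Topology Metric AddCircle
open scoped ComplexConjugate InnerProductSpace ENNReal

namespace Pool.Agent.TBir

/-- The conjugate symbol, `w ↦ conj (phi (1 / conj w))`. -/
noncomputable def pstar (phi : ℂ → ℂ) (w : ℂ) : ℂ := conj (phi (conj w)⁻¹)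

private theorem adjN_inv_conj {w : ℂ} (hw : w ∈ sphere (0 : ℂ) 1) : (conj w)⁻¹ = w := by
  have h1 : ‖w‖ = 1 := by simpa using hw
  have h2 : w * conj w = 1 := by
    rw [Complex.mul_conj, Complex.normSq_eq_norm_sq, h1]
    norm_num
  exact (eq_inv_of_mul_eq_one_left h2).symm

private theorem adjN_ne {w : ℂ} (hw : w ∈ sphere (0 : ℂ) 1) : w ≠ 0 := by
  rintro rfl
  simp at hw

private theorem adjN_pstar {phi : ℂ → ℂ} {w : ℂ} (hw : w ∈ sphere (0 : ℂ) 1) :
    pstar phi w = conj (phi w) := by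
  rw [pstar, adjN_inv_conj hw]

private theorem adjN_hasDerivAt {phi : ℂ → ℂ} {w f' : ℂ} (hw : w ≠ 0)
    (h : HasDerivAt phi f' (conj w)⁻¹) :
    HasDerivAt (pstar phi) (conj f' * -(w ^ 2)⁻¹) w := by
  have h1 : HasDerivAt (conj ∘ phi ∘ conj) (conj f') w⁻¹ := by
    have := h.conj_conj
    rwa [map_inv₀, Complex.conj_conj] at this
  have h2 : HasDerivAt (fun v : ℂ => v⁻¹) (-(w ^ 2)⁻¹) w := hasDerivAt_inv hw
  have h3 := h1.comp w h2
  refine h3.congr_of_eventuallyEq (Eventually.of_forall fun v => ?_)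
  simp [pstar, map_inv₀]

private theorem adjN_analyticAt {phi : ℂ → ℂ} {w : ℂ} (hw : w ∈ sphere (0 : ℂ) 1)
    (h : AnalyticAt ℂ phi w) : AnalyticAt ℂ (pstar phi) w := by
  rw [Complex.analyticAt_iff_eventually_differentiableAt] at h ⊢
  have hc : ContinuousAt (fun v : ℂ => (conj v)⁻¹) w :=
    (Complex.continuous_conj.continuousAt).inv₀ (by simpa using adjN_ne hw)
  have hc' : Tendsto (fun v : ℂ => (conj v)⁻¹) (𝓝 w) (𝓝 w) := by
    have := hc.tendsto
    rwa [adjN_inv_conj hw] at this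
  have h0 : ∀ᶠ v in 𝓝 w, v ≠ 0 := isOpen_ne.mem_nhds (adjN_ne hw)
  filter_upwards [hc'.eventually h, h0] with v hv hv0
  exact (adjN_hasDerivAt hv0 hv.hasDerivAt).differentiableAt

private theorem adjN_deriv {phi : ℂ → ℂ} {w : ℂ} (hw : w ∈ sphere (0 : ℂ) 1)
    (h : AnalyticAt ℂ phi w) : w * deriv (pstar phi) w = -conj (w * deriv phi w) := by
  have h1 : HasDerivAt phi (deriv phi w) (conj w)⁻¹ := by
    rw [adjN_inv_conj hw]
    exact h.differentiableAt.hasDerivAt
  rw [(adjN_hasDerivAt (adjN_ne hw) h1).deriv, map_mul]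
  have h2 : conj w = w⁻¹ := by
    have := adjN_inv_conj hw
    rw [← inv_inv (conj w), this]
  rw [h2]
  have h3 := adjN_ne hw
  field_simp

theorem pstar_e (phi : ℂ → ℂ) (x : UnitAddCircle) : pstar phi (e x) = conj (phi (e x)) :=
  adjN_pstar (by simpa using norm_e x)

theorem normal_pstar {phi : ℂ → ℂ} (hphi : Normal phi) : Normal (pstar phi) where
  ana := fun z hz => adjN_analyticAt hz (hphi.ana z hz)
  der := by
    intro z hz h
    have h1 := adjN_deriv hz (hphi.ana z hz)
    rw [h, mul_zero, zero_eq_neg, map_eq_zero, mul_eq_zero] at h1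
    rcases h1 with h1 | h1
    · exact adjN_ne hz h1
    · exact hphi.der z hz h1
  triple := by
    intro z1 h1 z2 h2 z3 h3 e1 e2
    rw [adjN_pstar h1, adjN_pstar h2] at e1
    rw [adjN_pstar h2, adjN_pstar h3] at e2
    exact hphi.triple z1 h1 z2 h2 z3 h3 ((starRingEnd ℂ).injective e1)
      ((starRingEnd ℂ).injective e2)
  trans := by
    intro z1 h1 z2 h2 hne e1 him
    rw [adjN_pstar h1, adjN_pstar h2] at e1
    apply hphi.trans z1 h1 z2 h2 hne ((starRingEnd ℂ).injective e1)
    rw [adjN_deriv h1 (hphi.ana z1 h1), adjN_deriv h2 (hphi.ana z2 h2), map_neg, neg_mul_neg,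
      ← map_mul, Complex.conj_im, neg_eq_zero] at him
    exact him

theorem mem_J_pstar {phi : ℂ → ℂ} (l : ℂ) : conj l ∈ J (pstar phi) ↔ l ∈ J phi := by
  constructor
  · rintro ⟨z, hz, h⟩
    rw [adjN_pstar hz] at h
    exact ⟨z, hz, (starRingEnd ℂ).injective h⟩
  · rintro ⟨z, hz, h⟩
    exact ⟨z, hz, by rw [adjN_pstar hz, h]⟩

private theorem adjN_wd {phi : ℂ → ℂ} (hphi : AnalyticOnNhd ℂ phi (sphere 0 1)) {l : ℂ}
    (hl : l ∉ J phi) : wd phi l =
      ∫ x : UnitAddCircle, e x * (deriv phi (e x) / (phi (e x) - l)) ∂haarAddCircle := by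
  have h1 : ∀ z ∈ sphere (0 : ℂ) 1, phi z - l ≠ 0 := by
    intro z hz h
    exact hl ⟨z, hz, sub_eq_zero.1 h⟩
  have hg : ContinuousOn (fun w => deriv (fun w => phi w - l) w / (phi w - l)) (sphere 0 1) := by
    refine ContinuousOn.div ?_ ?_ h1
    · exact (hphi.sub analyticOnNhd_const).deriv.continuousOn
    · exact (hphi.sub analyticOnNhd_const).continuousOn
  rw [wd, wind, integral_circle hg]
  refine integral_congr_ae (Eventually.of_forall fun x => ?_)
  simp only [deriv_sub_const]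

theorem wd_pstar {phi : ℂ → ℂ} (hphi : AnalyticOnNhd ℂ phi (sphere 0 1)) {l : ℂ}
    (hl : l ∉ J phi) : (wd (pstar phi) (conj l)).re = -(wd phi l).re := by
  have hp : AnalyticOnNhd ℂ (pstar phi) (sphere 0 1) :=
    fun z hz => adjN_analyticAt hz (hphi z hz)
  have hl' : conj l ∉ J (pstar phi) := fun h => hl ((mem_J_pstar l).1 h)
  rw [adjN_wd hphi hl, adjN_wd hp hl']
  have key : ∀ x : UnitAddCircle,
      e x * (deriv (pstar phi) (e x) / (pstar phi (e x) - conj l)) =
        -conj (e x * (deriv phi (e x) / (phi (e x) - l))) := by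
    intro x
    have hx : e x ∈ sphere (0 : ℂ) 1 := by simpa using norm_e x
    rw [← mul_div_assoc, adjN_deriv hx (hphi _ hx), adjN_pstar hx, ← mul_div_assoc, map_div₀,
      map_sub, neg_div]
  rw [integral_congr_ae (Eventually.of_forall key), integral_neg, integral_conj,
    Complex.neg_re, Complex.conj_re]

end Pool.Agent.TBir
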