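import Pool.Agent.TBir.Defs

/-!
# Completely irreducible operators and idempotents of the commutant

MODULE. Proofs. `bir_iff`, from left to right: let `P` be an idempotent commuting with `A`, `M` its
range and `N` its kernel: closed (`M` is the kernel of `1 - P`), invariant, `M ⊓ N = ⊥`, `M ⊔ N = ⊤`;
`M = ⊥` gives `P = 0` and `N = ⊥` gives `P = 1` (`P (x - P x) = 0`). From right to left: for closed
complementary `M`, `N` the projection onto `M` along `N` is continuous
(`Submodule.linearProjOfClosedCompl`, `Submodule.IsCompl.projectionL` or similar, by the open mapping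
theorem); it commutes with `A` as both subspaces are invariant.

`bir_adj`: an idempotent `P` commutes with `adjoint A` iff the idempotent `adjoint P` commutes with `A`.
-/

open MeasureTheory Complex Set Filter Topology Metric AddCircle
open scoped ComplexConjugate InnerProductSpace ENNReal

namespace Pool.Agent.TBir

private theorem bir_mem_ker {H : Type*} [NormedAddCommGroup H] [NormedSpace ℂ H]
    (P : H →L[ℂ] H) (x : H) : x ∈ P.ker ↔ P x = 0 := LinearMap.mem_ker

theorem bir_iff {H : Type*} [NormedAddCommGroup H] [NormedSpace ℂ H] [CompleteSpace H]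
    (A : H →L[ℂ] H) : CompletelyIrreducible A ↔
      ∀ P : H →L[ℂ] H, P * P = P → P * A = A * P → P = 0 ∨ P = 1 := by
  constructor
  · intro hA P hP hPA
    have hPP : ∀ x, P (P x) = P x := fun x =>
      congrArg (fun f : H →L[ℂ] H => f x) hP
    have hc : ∀ x, P (A x) = A (P x) := fun x =>
      congrArg (fun f : H →L[ℂ] H => f x) hPA
    have h1 : ∀ x, x ∈ (1 - P : H →L[ℂ] H).ker ↔ P x = x := by
      intro x
      rw [bir_mem_ker]
      change x - P x = 0 ↔ P x = x
      rw [sub_eq_zero]
      exact eq_comm
    have h2 : ∀ x, x ∈ P.ker ↔ P x = 0 := bir_mem_ker P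
    have h := hA ((1 - P : H →L[ℂ] H).ker) (P.ker) (ContinuousLinearMap.isClosed_ker _)
      (ContinuousLinearMap.isClosed_ker _) (by
        intro f hf
        rw [h1] at hf ⊢
        rw [hc, hf]) (by
        intro f hf
        rw [h2] at hf ⊢
        rw [hc, hf, map_zero]) (by
        rw [Submodule.eq_bot_iff]
        intro x hx
        rw [Submodule.mem_inf, h1, h2] at hx
        rw [← hx.1, hx.2]) (by
        rw [Submodule.eq_top_iff']
        intro x
        rw [Submodule.mem_sup]
        refine ⟨P x, (h1 _).2 (hPP x), x - P x, (h2 _).2 ?_, by abel⟩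
        rw [map_sub, hPP, sub_self])
    rcases h with h | h
    · left
      ext x
      have : P x ∈ (1 - P : H →L[ℂ] H).ker := (h1 _).2 (hPP x)
      rw [h, Submodule.mem_bot] at this
      rw [this]
      rfl
    · right
      ext x
      have : x - P x ∈ P.ker := by
        rw [h2, map_sub, hPP, sub_self]
      rw [h, Submodule.mem_bot, sub_eq_zero] at this
      exact this.symm
  · intro h M N hM hN hAM hAN hi hs
    have hcompl : IsCompl M N := IsCompl.of_eq hi hs
    have ht : Submodule.IsTopCompl M N :=
      Submodule.IsCompl.isTopCompl_of_isClosed hcompl hM hN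
    have hPM : ∀ x ∈ M, M.projectionL N ht x = x := fun x hx =>
      (Submodule.projectionL_eq_self_iff ht x).2 hx
    have hPN : ∀ x ∈ N, M.projectionL N ht x = 0 := fun x hx =>
      (Submodule.projectionL_apply_eq_zero_iff ht).2 hx
    have hdec : ∀ x : H, ∃ m ∈ M, ∃ n ∈ N, m + n = x := by
      intro x
      have : x ∈ M ⊔ N := by
        rw [hs]
        exact Submodule.mem_top
      exact Submodule.mem_sup.1 this
    have hres := h (M.projectionL N ht) (by
      ext x
      obtain ⟨m, hm, n, hn, rfl⟩ := hdec x
      change M.projectionL N ht (M.projectionL N ht (m + n)) = M.projectionL N ht (m + n)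
      rw [map_add, hPM m hm, hPN n hn, add_zero, hPM m hm]) (by
      ext x
      obtain ⟨m, hm, n, hn, rfl⟩ := hdec x
      change M.projectionL N ht (A (m + n)) = A (M.projectionL N ht (m + n))
      rw [map_add A, map_add, map_add, hPM m hm, hPN n hn, add_zero,
        hPM _ (hAM m hm), hPN _ (hAN n hn), add_zero])
    rcases hres with h0 | h0
    · left
      rw [Submodule.eq_bot_iff]
      intro x hx
      have := hPM x hx
      rw [h0] at this
      exact this.symm
    · right
      rw [Submodule.eq_bot_iff]
      intro x hx
      have := hPN x hx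
      rw [h0] at this
      exact this

theorem bir_adj {H : Type*} [NormedAddCommGroup H] [InnerProductSpace ℂ H] [CompleteSpace H]
    (A : H →L[ℂ] H) :
    CompletelyIrreducible (ContinuousLinearMap.adjoint A) ↔ CompletelyIrreducible A := by
  have hmul : ∀ X Y : H →L[ℂ] H, ContinuousLinearMap.adjoint (X * Y) =
      ContinuousLinearMap.adjoint Y * ContinuousLinearMap.adjoint X := fun X Y =>
    ContinuousLinearMap.adjoint_comp X Y
  have hone : ContinuousLinearMap.adjoint (1 : H →L[ℂ] H) = 1 := by
    have := star_one (H →L[ℂ] H)
    rwa [ContinuousLinearMap.star_eq_adjoint] at this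
  have key : ∀ B : H →L[ℂ] H, CompletelyIrreducible B →
      CompletelyIrreducible (ContinuousLinearMap.adjoint B) := by
    intro B hB
    rw [bir_iff] at hB ⊢
    intro P hP hPA
    have h1 := congrArg (fun X : H →L[ℂ] H => ContinuousLinearMap.adjoint X) hP
    have h2 := congrArg (fun X : H →L[ℂ] H => ContinuousLinearMap.adjoint X) hPA
    simp only [hmul, ContinuousLinearMap.adjoint_adjoint] at h1 h2
    rcases hB (ContinuousLinearMap.adjoint P) h1 h2.symm with h | h
    · left
      have := congrArg (fun X : H →L[ℂ] H => ContinuousLinearMap.adjoint X) h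
      simp only [ContinuousLinearMap.adjoint_adjoint, map_zero] at this
      exact this
    · right
      have := congrArg (fun X : H →L[ℂ] H => ContinuousLinearMap.adjoint X) h
      simp only [ContinuousLinearMap.adjoint_adjoint, hone] at this
      exact this
  constructor
  · intro h
    have := key _ h
    rwa [ContinuousLinearMap.adjoint_adjoint] at this
  · exact key A

end Pool.Agent.TBir
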