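import Pool.Agent.TBir.Defs
import Pool.Agent.Lib.CauchyPompeiu

/-!
# Completely irreducible Toeplitz operators: auxiliary definitions
-/

open MeasureTheory Complex Set Filter Topology Metric AddCircle
open scoped ComplexConjugate InnerProductSpace ENNReal

namespace Pool.Agent.TBir

theorem fourierLp_mem (n : ℕ) : (fourierLp 2 (n : ℤ) : L2) ∈ H2 := by
  intro k hk
  have h := (fourierBasis (T := (1 : ℝ))).repr_self (n : ℤ)
  rw [coe_fourierBasis] at h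
  rw [← fourierBasis_repr, h]
  have : (n : ℤ) ≠ k := by omega
  simp [lp.single_apply, this.symm]

/-- The monomial `zeta ^ n`, `n ≥ 0`, in the Hardy space. -/
noncomputable def mono (n : ℕ) : Hardy := (⟨fourierLp 2 (n : ℤ), fourierLp_mem n⟩ : H2)

/-- The `n`-th Fourier coefficient of an element of the Hardy space. -/
noncomputable def co (f : Hardy) (n : ℕ) : ℂ := fourierCoeff (incl f : UnitAddCircle → ℂ) (n : ℤ)

/-- The `n`-th Fourier coefficient as a bounded functional. -/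
noncomputable def coL (n : ℕ) : Hardy →L[ℂ] ℂ := innerSL ℂ (mono n)

/-- Evaluation at a point `z` of the disc, `f ↦ sum f_n z ^ n`. -/
noncomputable def ev (z : ℂ) : Hardy →L[ℂ] ℂ := ∑' n : ℕ, z ^ n • coL n

/-- The symbol has no Fourier coefficient of negative index. -/
def Plus (u : CT) : Prop := ∀ n : ℤ, n < 0 → fourierCoeff u n = 0

/-- The symbol has no Fourier coefficient of positive index. -/
def Minus (u : CT) : Prop := ∀ n : ℤ, 0 < n → fourierCoeff u n = 0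

/-- The unilateral shift. -/
noncomputable def S : Hardy →L[ℂ] Hardy := T (fourier 1)

/-- The backward shift. -/
noncomputable def Sa : Hardy →L[ℂ] Hardy := T (fourier (-1))

/-- `sum b_j zeta ^ j`, `j ≥ 0`. -/
noncomputable def plusS (b : ℕ → ℂ) : CT := ∑' j : ℕ, b j • fourier (j : ℤ)

/-- `sum b_j zeta ^ (-j)`, `j ≥ 0`. -/
noncomputable def minusS (b : ℕ → ℂ) : CT := ∑' j : ℕ, b j • fourier (-(j : ℤ))

/-- Exponential decay. -/
def Dec (C eta : ℝ) (b : ℕ → ℂ) : Prop := ∀ j, ‖b j‖ ≤ C * Real.exp (-(eta * j))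

/-- Wiener-Hopf factorisation with index `n` and with constants `C`, `eta`. -/
def HasWH (C eta : ℝ) (Psi : CT) (n : ℤ) : Prop :=
  ∃ bp bm cp cm : ℕ → ℂ, Dec C eta bp ∧ Dec C eta bm ∧ Dec C eta cp ∧ Dec C eta cm ∧
    plusS bp * plusS cp = 1 ∧ minusS bm * minusS cm = 1 ∧
    Psi = fourier n * (minusS cm * plusS cp)

/-- The annulus `1 - d < |w| < 1 + d`. -/
def ann (d : ℝ) : Set ℂ := {w | 1 - d < ‖w‖ ∧ ‖w‖ < 1 + d}

/-- Winding number of the curve around `l`. -/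
noncomputable def wd (phi : ℂ → ℂ) (l : ℂ) : ℂ := wind (fun w => phi w - l)

/-- Closure of the set of negative winding number. -/
def KN (phi : ℂ → ℂ) : Set ℂ := closure {l | l ∉ J phi ∧ (wd phi l).re < 0}

/-- Closure of the set of positive winding number. -/
def KP (phi : ℂ → ℂ) : Set ℂ := closure {l | l ∉ J phi ∧ 0 < (wd phi l).re}

/-- Local data at the point `l0`: near the circle, `phi - l` has the zeros `z1 l`, `z2 l` (a zero
which does not exist is replaced by a point of absolute value at least `2`), the quotient `psi l` is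
analytic, bounded and bounded below on an annulus, with winding number `x`. -/
structure LD (phi : ℂ → ℂ) (l0 : ℂ) where
  r : ℝ
  del : ℝ
  m : ℝ
  M : ℝ
  B : ℝ
  x : ℤ
  z1 : ℂ → ℂ
  z2 : ℂ → ℂ
  k1 : ℂ
  k2 : ℂ
  psi : ℂ → ℂ → ℂ
  Psi : ℂ → CT
  r_pos : 0 < r
  del_pos : 0 < del
  del_lt : del < 1
  m_pos : 0 < m
  z1_diff : DifferentiableOn ℂ z1 (ball l0 r)
  z2_diff : DifferentiableOn ℂ z2 (ball l0 r)
  z_ne : ∀ l ∈ ball l0 r, z1 l ≠ z2 l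
  z1_cases : (‖z1 l0‖ = 1 ∧ ∀ l ∈ ball l0 r, z1 l ∈ ann del ∧ phi (z1 l) = l) ∨
    (∀ l ∈ ball l0 r, 2 ≤ ‖z1 l‖)
  z2_cases : (‖z2 l0‖ = 1 ∧ ∀ l ∈ ball l0 r, z2 l ∈ ann del ∧ phi (z2 l) = l) ∨
    (∀ l ∈ ball l0 r, 2 ≤ ‖z2 l‖)
  z1_exp : ‖z1 l0‖ = 1 → k1 ≠ 0 ∧
    ∀ l ∈ ball l0 r, |‖z1 l‖ ^ 2 - 1 - 2 * (k1 * (l - l0)).re| ≤ B * ‖l - l0‖ ^ 2
  z2_exp : ‖z2 l0‖ = 1 → k2 ≠ 0 ∧
    ∀ l ∈ ball l0 r, |‖z2 l‖ ^ 2 - 1 - 2 * (k2 * (l - l0)).re| ≤ B * ‖l - l0‖ ^ 2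
  indep : ‖z1 l0‖ = 1 → ‖z2 l0‖ = 1 → (k1 * conj k2).im ≠ 0
  psi_diff : ∀ l ∈ ball l0 r, DifferentiableOn ℂ (psi l) (ann del)
  fac : ∀ l ∈ ball l0 r, ∀ w ∈ ann del, phi w - l = psi l w * ((w - z1 l) * (w - z2 l))
  psi_lb : ∀ l ∈ ball l0 r, ∀ w ∈ ann del, m ≤ ‖psi l w‖
  psi_ub : ∀ l ∈ ball l0 r, ∀ w ∈ ann del, ‖psi l w‖ ≤ M
  Psi_eq : ∀ l ∈ ball l0 r, ∀ t, Psi l t = psi l (e t)
  Psi_diff : DifferentiableOn ℂ Psi (ball l0 r)
  wind_eq : ∀ l ∈ ball l0 r, wind (psi l) = x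

/-- Local data with the two zeros exchanged. -/
def LD.swap {phi : ℂ → ℂ} {l0 : ℂ} (D : LD phi l0) : LD phi l0 where
  r := D.r
  del := D.del
  m := D.m
  M := D.M
  B := D.B
  x := D.x
  z1 := D.z2
  z2 := D.z1
  k1 := D.k2
  k2 := D.k1
  psi := D.psi
  Psi := D.Psi
  r_pos := D.r_pos
  del_pos := D.del_pos
  del_lt := D.del_lt
  m_pos := D.m_pos
  z1_diff := D.z2_diff
  z2_diff := D.z1_diff
  z_ne := fun l hl => (D.z_ne l hl).symm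
  z1_cases := D.z2_cases
  z2_cases := D.z1_cases
  z1_exp := D.z2_exp
  z2_exp := D.z1_exp
  indep := by
    intro h1 h2 h
    apply D.indep h2 h1
    have : D.k1 * conj D.k2 = conj (D.k2 * conj D.k1) := by
      rw [map_mul, Complex.conj_conj, mul_comm]
    rw [this, Complex.conj_im, h, neg_zero]
  psi_diff := D.psi_diff
  fac := by
    intro l hl w hw
    rw [D.fac l hl w hw, mul_comm (w - D.z1 l)]
  psi_lb := D.psi_lb
  psi_ub := D.psi_ub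
  Psi_eq := D.Psi_eq
  Psi_diff := D.Psi_diff
  wind_eq := D.wind_eq

/-- An analytic family of left inverses of `T (Psi l)` near `l0`, such that the ranges of the
operators `T (Psi l)` are invariant for `P`. -/
structure Frame {phi : ℂ → ℂ} {l0 : ℂ} (D : LD phi l0) (P : Hardy →L[ℂ] Hardy) where
  s : ℝ
  L : ℂ → Hardy →L[ℂ] Hardy
  s_pos : 0 < s
  s_le : s ≤ D.r
  L_diff : DifferentiableOn ℂ L (ball l0 s)
  left : ∀ l ∈ ball l0 s, L l * T (D.Psi l) = 1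
  inv : ∀ l ∈ ball l0 s, T (D.Psi l) * (L l * (P * T (D.Psi l))) = P * T (D.Psi l)

/-- The compression of `P`, in coordinates given by `T (Psi l)`. -/
noncomputable def Frame.PP {phi : ℂ → ℂ} {l0 : ℂ} {D : LD phi l0} {P : Hardy →L[ℂ] Hardy}
    (F : Frame D P) (l : ℂ) : Hardy →L[ℂ] Hardy := F.L l * (P * T (D.Psi l))

/-- The frame with the two zeros exchanged. -/
def Frame.swap {phi : ℂ → ℂ} {l0 : ℂ} {D : LD phi l0} {P : Hardy →L[ℂ] Hardy}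
    (F : Frame D P) : Frame D.swap P where
  s := F.s
  L := F.L
  s_pos := F.s_pos
  s_le := F.s_le
  L_diff := F.L_diff
  left := F.left
  inv := F.inv

/-- For `z` in the disc: `P` acts as the scalar `k` on the functional attached to `z`. -/
def Cz (phi : ℂ → ℂ) (Phi : CT) (P : Hardy →L[ℂ] Hardy) (k z : ℂ) : Prop :=
  ∀ q : CT, q * (fourier 1 - algebraMap ℂ CT z) = Phi - algebraMap ℂ CT (phi z) →
    ∀ g : Hardy, ∃ h : Hardy, P (T q g) - k • T q g = (T Phi - phi z • (1 : Hardy →L[ℂ] Hardy)) h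

/-- The cutoff at the scale `1/(n+1)` around the points of `Q`. -/
noncomputable def kap (Q : Finset ℂ) (n : ℕ) (l : ℂ) : ℂ :=
  ∏ q ∈ Q, ((Real.smoothTransition (((n : ℝ) + 1) ^ 2 * ‖l - q‖ ^ 2 - 1) : ℝ) : ℂ)

open Pool.Lib (dbar)

/-- The angular cutoff function separating the sets of negative and positive winding number. -/
structure Cut (phi : ℂ → ℂ) where
  Q : Finset ℂ
  chi : ℂ → ℂ
  D : ∀ q ∈ Q, LD phi q
  rho : ℝ
  c : ℝ
  C : ℝ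
  rho_pos : 0 < rho
  c_pos : 0 < c
  rho_le : ∀ q, ∀ hq : q ∈ Q, rho ≤ (D q hq).r
  x_eq : ∀ q, ∀ hq : q ∈ Q, (D q hq).x = -1
  real1 : ∀ q, ∀ hq : q ∈ Q, ‖(D q hq).z1 q‖ = 1
  real2 : ∀ q, ∀ hq : q ∈ Q, ‖(D q hq).z2 q‖ = 1
  norm_le : ∀ l, ‖chi l‖ ≤ 1
  norm_le' : ∀ l, ‖1 - chi l‖ ≤ 1
  smooth : ContDiffOn ℝ 1 chi ((Q : Set ℂ)ᶜ)
  cpt : HasCompactSupport chi
  neg : ∀ l ∈ KN phi, l ∉ Q → ∀ᶠ l' in 𝓝 l, chi l' = 1
  pos : ∀ l ∈ KP phi, l ∉ Q → ∀ᶠ l' in 𝓝 l, chi l' = 0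
  grad : ∀ q, q ∈ Q → ∀ l ∈ ball q rho, l ≠ q → ‖dbar chi l‖ ≤ C / ‖l - q‖
  loc : ∀ q, ∀ hq : q ∈ Q, ∀ l ∈ ball q rho, l ≠ q → dbar chi l ≠ 0 →
    (‖(D q hq).z1 l‖ ≤ 1 - c * ‖l - q‖ ∧ 1 + c * ‖l - q‖ ≤ ‖(D q hq).z2 l‖) ∨
    (‖(D q hq).z2 l‖ ≤ 1 - c * ‖l - q‖ ∧ 1 + c * ‖l - q‖ ≤ ‖(D q hq).z1 l‖)
  loc' : ∀ q, ∀ hq : q ∈ Q, ∀ l ∈ ball q rho, l ≠ q → chi l ≠ 1 →
    ‖(D q hq).z1 l‖ ≤ 1 - c * ‖l - q‖ ∨ ‖(D q hq).z2 l‖ ≤ 1 - c * ‖l - q‖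

/-- The truncated Cauchy transform of `dbar chi`. -/
noncomputable def Cut.s {phi : ℂ → ℂ} (K : Cut phi) (n : ℕ) (mu : ℂ) : ℂ :=
  -(Real.pi : ℂ)⁻¹ * ∫ l : ℂ, (kap K.Q n l * dbar K.chi l) / (l - mu)

/-- The truncated functional calculus `chi (T Phi)`. -/
noncomputable def Cut.P {phi : ℂ → ℂ} (K : Cut phi) (Phi : CT) (n : ℕ) : Hardy →L[ℂ] Hardy :=
  -(Real.pi : ℂ)⁻¹ • ∫ l : ℂ, (kap K.Q n l * dbar K.chi l) • resolvent (T Phi) l

/-- Majorant of `|f(z)|` depending on `|z|` only. -/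
noncomputable def FF (f : Hardy) (t : ℝ) : ℝ := ∑' n : ℕ, ‖co f n‖ * t ^ n

/-- The annihilator of the eigenvectors of the adjoint with eigenvalues of positive winding
number. -/
def NN (phi : ℂ → ℂ) (Phi : CT) : Set Hardy :=
  {y | ∀ mu ∉ J phi, 0 < (wd phi mu).re → ∀ v : Hardy,
    ContinuousLinearMap.adjoint (T Phi) v = conj mu • v → inner ℂ v y = 0}

end Pool.Agent.TBir
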