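import Pool.Agent.TBir.FrameEx

/-!
# The scalar attached to a zero in the disc is constant near a point of the circle

MODULE. Paper proof. If `z1` does not exist (`2 ≤ |z1 l|` on the ball) there is nothing to prove:
`kp = 0`, `rho = F.s`. Otherwise let `t = z1 l0`, `|t| = 1`, `phi t = l0`. `phi` is continuous at `t`
(by `fac`: `phi w = l0 + psi l0 w (w - z1 l0)(w - z2 l0)` on the annulus, so `phi` is differentiable
on `ann del`). Choose `rho1 > 0` with: `ball t rho1 ⊆ ann del`, `phi (ball t rho1) ⊆ ball l0 F.s`, and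
`z2 (phi z) ≠ z` for `z ∈ ball t rho1` (continuity: `z2 l0 ≠ t`). Then for `z ∈ ball t rho1`,
`fac` at `l = phi z`, `w = z` and `psi_lb` give `z = z1 (phi z)`.

Let `U = ball 0 1 ∩ ball t rho1`: open, convex, nonempty. For `g` in the Hardy space,
`G z = ev z (PP (phi z) g) - ev z (PP (phi z) 1) * ev z g` (where `1 = mono 0`) is differentiable on
`U`: `ev` is (`ev_diffOn`), `phi` is, `PP l = L l * (P * T (Psi l))` is (`LD.T_diff`, `L_diff`).
Let `V` be the set of `z ∈ U` with `1 < |z2 (phi z)|`: open, and nonempty: by `sgn_b` there are `l`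
arbitrarily near `l0` with `|z1 l| < 1 < |z2 l|`, and `z = z1 l → t`, `phi z = l`.
For `z ∈ V`, `l = phi z`: if `ev z f = 0` then `f = (S - z) h` (`div_of_ev`) and
`h = (S - z2 l) h'` (`isUnit_S_sub`), so by `Frame.PP_mul`
`PP l f = (S - z)(S - z2 l) P h'` has `ev z (PP l f) = 0` (`ev_S_sub`). Apply to
`f = g - (ev z g) • 1` (`ev z 1 = 1`, `ev_mono`): `G z = 0`. So `G = 0` on `U` (identity theorem).

Let `c z = ev z (PP (phi z) 1)`, differentiable on `U`. By `PP_idem`,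
`c z = ev z (PP (PP 1)) = c z * ev z (PP 1) = (c z)^2`: `c` has values in `{0, 1}`, so it is constant
on the connected set `U`, `= kp`. Choose `rho ≤ F.s` with `z1 (ball l0 rho) ⊆ ball t rho1`; for
`l ∈ ball l0 rho` with `|z1 l| < 1`, `z = z1 l ∈ U` and `phi z = l`.
-/

open MeasureTheory Complex Set Filter Topology Metric AddCircle
open scoped ComplexConjugate InnerProductSpace ENNReal

namespace Pool.Agent.TBir

/-- Near a zero on the circle: `z = z1 (phi z)`. -/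
theorem LD.inv1 {phi : ℂ → ℂ} {l0 : ℂ} (D : LD phi l0) (h1 : ‖D.z1 l0‖ = 1) {s : ℝ} (hs : 0 < s) :
    ∃ rho > 0, DifferentiableOn ℂ phi (ball (D.z1 l0) rho) ∧ ∀ z ∈ ball (D.z1 l0) rho,
      phi z ∈ ball l0 s ∧ phi z ∈ ball l0 D.r ∧ D.z1 (phi z) = z := by
  have hl0 : l0 ∈ ball l0 D.r := mem_ball_self D.r_pos
  have hc : ∀ l ∈ ball l0 D.r, D.z1 l ∈ ann D.del ∧ phi (D.z1 l) = l := by
    rcases D.z1_cases with h | h
    · exact h.2
    · have := h l0 hl0
      rw [h1] at this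
      norm_num at this
  obtain ⟨ht, hpt⟩ := hc l0 hl0
  have hopen : IsOpen (ann D.del) :=
    (isOpen_lt continuous_const continuous_norm).inter (isOpen_lt continuous_norm continuous_const)
  have hdiff : DifferentiableOn ℂ phi (ann D.del) := by
    have h2 : DifferentiableOn ℂ (fun w => l0 + D.psi l0 w * ((w - D.z1 l0) * (w - D.z2 l0)))
        (ann D.del) := by
      have := D.psi_diff l0 hl0
      fun_prop
    refine h2.congr fun w hw => ?_
    rw [← D.fac l0 hl0 w hw]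
    ring
  have hct : ContinuousAt phi (D.z1 l0) := hdiff.continuousOn.continuousAt (hopen.mem_nhds ht)
  have hcz2 : ContinuousAt D.z2 (phi (D.z1 l0)) := by
    rw [hpt]
    exact D.z2_diff.continuousOn.continuousAt (isOpen_ball.mem_nhds hl0)
  have hcc : ContinuousAt (fun z => D.z2 (phi z) - z) (D.z1 l0) :=
    (ContinuousAt.comp (f := phi) (g := D.z2) hcz2 hct).sub continuousAt_id
  have hne : D.z2 (phi (D.z1 l0)) - D.z1 l0 ≠ 0 := by
    rw [hpt]
    exact sub_ne_zero.2 (D.z_ne l0 hl0).symm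
  have e1 : ∀ᶠ z in 𝓝 (D.z1 l0), D.z2 (phi z) - z ≠ 0 := hcc.eventually_ne hne
  have e2 : ∀ᶠ z in 𝓝 (D.z1 l0), phi z ∈ ball l0 s :=
    hct.eventually_mem (isOpen_ball.mem_nhds (by rw [hpt]; exact mem_ball_self hs))
  have e3 : ∀ᶠ z in 𝓝 (D.z1 l0), phi z ∈ ball l0 D.r :=
    hct.eventually_mem (isOpen_ball.mem_nhds (by rw [hpt]; exact hl0))
  have e4 : ∀ᶠ z in 𝓝 (D.z1 l0), z ∈ ann D.del := hopen.mem_nhds ht
  obtain ⟨rho, hrho, hb⟩ := Metric.eventually_nhds_iff_ball.1 (e1.and (e2.and (e3.and e4)))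
  refine ⟨rho, hrho, hdiff.mono fun z hz => (hb z hz).2.2.2, fun z hz => ?_⟩
  obtain ⟨g1, g2, g3, g4⟩ := hb z hz
  refine ⟨g2, g3, ?_⟩
  have hf := D.fac (phi z) g3 z g4
  have hm := D.psi_lb (phi z) g3 z g4
  have hpsi : D.psi (phi z) z ≠ 0 := by
    intro h
    rw [h, norm_zero] at hm
    exact absurd D.m_pos (not_lt.2 hm)
  rw [sub_self] at hf
  rcases mul_eq_zero.1 hf.symm with h | h
  · exact absurd h hpsi
  · rcases mul_eq_zero.1 h with h | h
    · exact (sub_eq_zero.1 h).symm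
    · exact absurd (by rw [← neg_sub, h, neg_zero]) g1

/-- If `ev z f = 0`, `z = z1 l`, and `z2 l` is outside the closed disc, then `ev z (PP l f) = 0`. -/
theorem Frame.ev_PP_zero {phi : ℂ → ℂ} {Phi : CT} (hPhi : ∀ x, Phi x = phi (e x)) {l0 : ℂ}
    {D : LD phi l0} {P : Hardy →L[ℂ] Hardy} (hP : P * T Phi = T Phi * P) (F : Frame D P)
    {l : ℂ} (hl : l ∈ ball l0 F.s) (h1 : ‖D.z1 l‖ < 1) (h2 : 1 < ‖D.z2 l‖) {f : Hardy}
    (hf : ev (D.z1 l) f = 0) : ev (D.z1 l) (F.PP l f) = 0 := by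
  obtain ⟨h, hh⟩ := div_of_ev h1 hf
  obtain ⟨u, hu⟩ := isUnit_S_sub h2
  set v : Hardy →L[ℂ] Hardy := ((u⁻¹ : (Hardy →L[ℂ] Hardy)ˣ) : Hardy →L[ℂ] Hardy) with hv
  have h3 : (S - D.z2 l • (1 : Hardy →L[ℂ] Hardy)) (v h) = h := by
    have h4 : (u : Hardy →L[ℂ] Hardy) * v = 1 :=
      u.mul_inv
    have h5 := congrArg (fun B : Hardy →L[ℂ] Hardy => B h) h4
    rw [← hu]
    simpa using h5
  have h6 := congrArg (fun B : Hardy →L[ℂ] Hardy => B (v h))
    (F.PP_mul hPhi hP hl)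
  have h7 : F.PP l f = (S - D.z1 l • (1 : Hardy →L[ℂ] Hardy))
      ((S - D.z2 l • (1 : Hardy →L[ℂ] Hardy)) (P (v h))) := by
    rw [← hh]
    conv_lhs => rw [← h3]
    exact h6
  rw [h7, ev_S_sub h1, sub_self, zero_mul]

theorem Frame.PP_diff {phi : ℂ → ℂ} {l0 : ℂ} {D : LD phi l0} {P : Hardy →L[ℂ] Hardy}
    (F : Frame D P) : DifferentiableOn ℂ F.PP (ball l0 F.s) := by
  have h1 := F.L_diff
  have h2 : DifferentiableOn ℂ (fun l => T (D.Psi l)) (ball l0 F.s) :=
    D.T_diff.mono (ball_subset_ball F.s_le)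
  have h3 : DifferentiableOn ℂ (fun l => P * T (D.Psi l)) (ball l0 F.s) := h2.const_mul P
  exact h1.mul h3

theorem c_const {phi : ℂ → ℂ} {Phi : CT} (hPhi : ∀ x, Phi x = phi (e x)) {l0 : ℂ} {D : LD phi l0}
    {P : Hardy →L[ℂ] Hardy} (hP : P * T Phi = T Phi * P) (hP2 : P * P = P) (F : Frame D P) :
    ∃ kp : ℂ, (kp = 0 ∨ kp = 1) ∧ ∃ rho > 0, rho ≤ F.s ∧ ∀ l ∈ ball l0 rho, ‖D.z1 l‖ < 1 →
      ∀ g : Hardy, ev (D.z1 l) (F.PP l g) = kp * ev (D.z1 l) g := by
  rcases D.z1_cases with ⟨h1, hc⟩ | hc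
  swap
  · refine ⟨0, Or.inl rfl, F.s, F.s_pos, le_rfl, fun l hl hlt => ?_⟩
    have := hc l (ball_subset_ball F.s_le hl)
    linarith
  obtain ⟨rho1, hrho1, hdphi, hinv⟩ := D.inv1 h1 F.s_pos
  set t : ℂ := D.z1 l0 with ht
  have hl0 : l0 ∈ ball l0 D.r := mem_ball_self D.r_pos
  set U : Set ℂ := ball 0 1 ∩ ball t rho1 with hU
  have hUo : IsOpen U := isOpen_ball.inter isOpen_ball
  have hUc : IsPreconnected U := ((convex_ball 0 1).inter (convex_ball t rho1)).isPreconnected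
  -- the functions
  have hmaps : MapsTo phi (ball t rho1) (ball l0 F.s) := fun z hz => (hinv z hz).1
  have hPPd : DifferentiableOn ℂ (fun z => F.PP (phi z)) U :=
    F.PP_diff.comp (hdphi.mono inter_subset_right) fun z hz => hmaps hz.2
  have hevd : DifferentiableOn ℂ (fun z => ev z) U := ev_diffOn.mono inter_subset_left
  have hevPP : ∀ g : Hardy, DifferentiableOn ℂ (fun z => ev z (F.PP (phi z) g)) U := fun g =>
    hevd.clm_apply (hPPd.clm_apply (differentiableOn_const g))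
  have hevg : ∀ g : Hardy, DifferentiableOn ℂ (fun z => ev z g) U := fun g =>
    hevd.clm_apply (differentiableOn_const g)
  -- a radius for z1
  have hcz1 : ContinuousAt D.z1 l0 := D.z1_diff.continuousOn.continuousAt (isOpen_ball.mem_nhds hl0)
  have hev1 : ∀ᶠ l in 𝓝 l0, D.z1 l ∈ ball t rho1 :=
    hcz1.eventually_mem (isOpen_ball.mem_nhds (mem_ball_self hrho1))
  obtain ⟨rho2, hrho2, hb2⟩ := Metric.eventually_nhds_iff_ball.1 hev1
  -- a point of V
  obtain ⟨l1, hl1, hl1', ha, hb⟩ := sgn_b D h1 hrho2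
  set z0 : ℂ := D.z1 l1 with hz0
  have hz0U : z0 ∈ U := ⟨by simpa using ha, hb2 l1 hl1⟩
  have hz0phi : phi z0 = l1 := (hc l1 hl1').2
  have hcphi : ContinuousAt phi z0 := hdphi.continuousOn.continuousAt (isOpen_ball.mem_nhds hz0U.2)
  have hcz2 : ContinuousAt D.z2 (phi z0) := by
    rw [hz0phi]
    exact D.z2_diff.continuousOn.continuousAt (isOpen_ball.mem_nhds hl1')
  have hcc : ContinuousAt (fun z => ‖D.z2 (phi z)‖) z0 :=
    (ContinuousAt.comp (f := phi) (g := D.z2) hcz2 hcphi).norm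
  have hV : ∀ᶠ z in 𝓝 z0, 1 < ‖D.z2 (phi z)‖ := by
    apply hcc.eventually_const_lt
    change 1 < ‖D.z2 (phi z0)‖
    rw [hz0phi]
    exact hb
  -- G vanishes near z0
  have hG0 : ∀ g : Hardy, (fun z => ev z (F.PP (phi z) g) - ev z (F.PP (phi z) (mono 0)) * ev z g)
      =ᶠ[𝓝 z0] 0 := by
    intro g
    filter_upwards [hV, hUo.mem_nhds hz0U] with z hz hzU
    obtain ⟨i1, i2, i3⟩ := hinv z hzU.2
    have hzn : ‖z‖ < 1 := by simpa using hzU.1
    have hf : ev (D.z1 (phi z)) (g - ev z g • mono 0) = 0 := by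
      rw [i3, map_sub, map_smul, ev_mono hzn, pow_zero, smul_eq_mul, mul_one, sub_self]
    have h5 := F.ev_PP_zero hPhi hP i1 (by rw [i3]; exact hzn) hz hf
    rw [i3, map_sub, map_sub, map_smul, map_smul, smul_eq_mul] at h5
    change ev z (F.PP (phi z) g) - ev z (F.PP (phi z) (mono 0)) * ev z g = 0
    linear_combination h5
  have hG : ∀ g : Hardy, ∀ z ∈ U,
      ev z (F.PP (phi z) g) = ev z (F.PP (phi z) (mono 0)) * ev z g := by
    intro g z hz
    have hd : DifferentiableOn ℂ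
        (fun z => ev z (F.PP (phi z) g) - ev z (F.PP (phi z) (mono 0)) * ev z g) U :=
      (hevPP g).sub ((hevPP (mono 0)).mul (hevg g))
    have han := hd.analyticOnNhd hUo
    have := han.eqOn_zero_of_preconnected_of_eventuallyEq_zero hUc hz0U (hG0 g) hz
    exact sub_eq_zero.1 this
  -- the scalar
  have hval : ∀ z ∈ U, ev z (F.PP (phi z) (mono 0)) ∈ ({0, 1} : Set ℂ) := by
    intro z hz
    obtain ⟨i1, i2, i3⟩ := hinv z hz.2
    have h5 := hG (F.PP (phi z) (mono 0)) z hz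
    have h6 : F.PP (phi z) (F.PP (phi z) (mono 0)) = F.PP (phi z) (mono 0) :=
      congrArg (fun B : Hardy →L[ℂ] Hardy => B (mono 0)) (F.PP_idem hP2 i1)
    rw [h6] at h5
    set c := ev z (F.PP (phi z) (mono 0))
    have h7 : c * (c - 1) = 0 := by linear_combination -h5
    rcases mul_eq_zero.1 h7 with h | h
    · left; exact h
    · right; exact sub_eq_zero.1 h
  have hconst : ∀ z ∈ U, ev z (F.PP (phi z) (mono 0)) = ev z0 (F.PP (phi z0) (mono 0)) := by
    intro z hz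
    exact hUc.constant_of_mapsTo (T := ({0, 1} : Set ℂ)) (Set.Finite.isDiscrete (by simp))
      (hevPP (mono 0)).continuousOn (fun z hz => hval z hz) hz hz0U
  refine ⟨ev z0 (F.PP (phi z0) (mono 0)), hval z0 hz0U, min rho2 F.s, lt_min hrho2 F.s_pos,
    min_le_right _ _, fun l hl hlt g => ?_⟩
  have hl2 : l ∈ ball l0 rho2 := ball_subset_ball (min_le_left _ _) hl
  have hlF : l ∈ ball l0 F.s := ball_subset_ball (min_le_right _ _) hl
  have hlr : l ∈ ball l0 D.r := ball_subset_ball F.s_le hlF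
  have hzU : D.z1 l ∈ U := ⟨by simpa using hlt, hb2 l hl2⟩
  have hphi := (hc l hlr).2
  have h8 := hG g (D.z1 l) hzU
  rw [hconst _ hzU, hphi] at h8
  exact h8

end Pool.Agent.TBir
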