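import Pool.Agent.TBir.Base

/-!
# The angular cutoff in the plane

MODULE. Paper proof. Let `a_i(v) = Re (k_i v)`, `N(v) = sqrt (a_1^2 + a_2^2)`. As `k_1`, `k_2` are
linearly independent over the reals, `c0 |v| ≤ N(v) ≤ C0 |v|` with `c0 > 0`. Let
`sg(v) = (a_1 + a_2)/N` and `ch v = Real.smoothTransition (sg v + 1/2)`: it is `1` for `sg ≥ 1/2` and `0`
for `sg ≤ -1/2`, smooth off the origin, values in `[0, 1]`. Put `c = (3/10) c0`.

Gradient: `sg` is smooth off `0` with `|d sg| ≤ 4 K / N` where `K` bounds `|k_1|`, `|k_2|`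
(quotient rule), or: `sg` is positively homogeneous of degree `0`, so its derivative is homogeneous of
degree `-1`, bounded on the unit circle by compactness. The derivative of `smoothTransition` is bounded.

If `dbar ch v ≠ 0` then `|sg v| ≤ 1/2` (`ch` is locally constant where `|sg| > 1/2`), so
`2 a_1 a_2 = (a_1 + a_2)^2 - N^2 ≤ -(3/4) N^2`, so `a_1`, `a_2` have opposite signs and
`|a_i| ≥ (3/8) N ≥ (3/8) c0 |v| ≥ c |v|` (as `|a_j| ≤ N`).

If `a_i ≥ - c |v|` for `i = 1, 2` then `a_i ≥ -(3/10) N`; if both are `≥ 0` then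
`a_1 + a_2 ≥ N`; if `a_1 = - s N`, `0 < s ≤ 3/10`, then `a_2 = sqrt(1 - s^2) N` (the value
`- sqrt(1 - s^2) N` is less than `-(3/10) N`), `sg ≥ sqrt(0.91) - 0.3 > 1/2`. So `sg > 1/2` at `v`, also
near `v`, and `ch = 1` near `v`. The last property is the same with opposite signs.
-/

open MeasureTheory Complex Set Filter Topology Metric AddCircle
open scoped ComplexConjugate InnerProductSpace ENNReal
open Pool.Lib (dbar)

namespace Pool.Agent.TBir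

private noncomputable def plN (k1 k2 v : ℂ) : ℝ := √((k1 * v).re ^ 2 + (k2 * v).re ^ 2)

private noncomputable def plS (k1 k2 v : ℂ) : ℝ := ((k1 * v).re + (k2 * v).re) / plN k1 k2 v

private noncomputable def plC (k1 k2 v : ℂ) : ℂ :=
  ((Real.smoothTransition (plS k1 k2 v + 1 / 2) : ℝ) : ℂ)

private theorem pl_lower {k1 k2 : ℂ} (h : (k1 * conj k2).im ≠ 0) :
    ∃ c : ℝ, 0 < c ∧ ∀ v : ℂ, c * ‖v‖ ≤ |(k1 * v).re| + |(k2 * v).re| := by
  have hk : 0 < ‖k1‖ + ‖k2‖ := by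
    have h1 : k1 ≠ 0 := by
      rintro rfl
      apply h
      simp
    have := norm_pos_iff.mpr h1
    have := norm_nonneg k2
    linarith
  have hD : 0 < |(k1 * conj k2).im| := abs_pos.mpr h
  refine ⟨|(k1 * conj k2).im| / (‖k1‖ + ‖k2‖), div_pos hD hk, fun v => ?_⟩
  have e : (((k1 * conj k2).im : ℝ) : ℂ) * v =
      I * ((((k2 * v).re : ℝ) : ℂ) * conj k1 - (((k1 * v).re : ℝ) : ℂ) * conj k2) := by
    apply Complex.ext
    · simp
      ring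
    · simp
      ring
  have hn : |(k1 * conj k2).im| * ‖v‖ ≤
      (|(k1 * v).re| + |(k2 * v).re|) * (‖k1‖ + ‖k2‖) := by
    have h1 : ‖(((k1 * conj k2).im : ℝ) : ℂ) * v‖ = |(k1 * conj k2).im| * ‖v‖ := by
      rw [norm_mul, Complex.norm_real, Real.norm_eq_abs]
    rw [← h1, e, norm_mul, Complex.norm_I, one_mul]
    refine (norm_sub_le _ _).trans ?_
    rw [norm_mul, norm_mul, Complex.norm_real, Complex.norm_real, Real.norm_eq_abs,
      Real.norm_eq_abs, RCLike.norm_conj, RCLike.norm_conj]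
    have a1 := abs_nonneg (k1 * v).re
    have a2 := abs_nonneg (k2 * v).re
    have n1 := norm_nonneg k1
    have n2 := norm_nonneg k2
    nlinarith [mul_nonneg a1 n1, mul_nonneg a2 n2]
  rw [div_mul_eq_mul_div, div_le_iff₀ hk]
  exact hn

private theorem plN_nonneg (k1 k2 v : ℂ) : 0 ≤ plN k1 k2 v := Real.sqrt_nonneg _

private theorem plN_sq (k1 k2 v : ℂ) :
    plN k1 k2 v ^ 2 = (k1 * v).re ^ 2 + (k2 * v).re ^ 2 :=
  Real.sq_sqrt (by positivity)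

private theorem plN_abs1 (k1 k2 v : ℂ) : |(k1 * v).re| ≤ plN k1 k2 v :=
  Real.abs_le_sqrt (by nlinarith [sq_nonneg (k2 * v).re])

private theorem plN_abs2 (k1 k2 v : ℂ) : |(k2 * v).re| ≤ plN k1 k2 v :=
  Real.abs_le_sqrt (by nlinarith [sq_nonneg (k1 * v).re])

private theorem plN_smul (k1 k2 v : ℂ) {t : ℝ} (ht : 0 ≤ t) :
    plN k1 k2 (t • v) = t * plN k1 k2 v := by
  unfold plN
  have e : ∀ k : ℂ, (k * (t • v)).re = t * (k * v).re := by
    intro k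
    rw [mul_smul_comm, Complex.smul_re, smul_eq_mul]
  rw [e, e, show (t * (k1 * v).re) ^ 2 + (t * (k2 * v).re) ^ 2 =
    t ^ 2 * ((k1 * v).re ^ 2 + (k2 * v).re ^ 2) by ring, Real.sqrt_mul (by positivity),
    Real.sqrt_sq ht]

private theorem plC_smul (k1 k2 v : ℂ) {t : ℝ} (ht : 0 < t) :
    plC k1 k2 (t • v) = plC k1 k2 v := by
  unfold plC plS
  have e : ∀ k : ℂ, (k * (t • v)).re = t * (k * v).re := by
    intro k
    rw [mul_smul_comm, Complex.smul_re, smul_eq_mul]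
  rw [plN_smul k1 k2 v ht.le, e, e, ← mul_add, mul_div_mul_left _ _ ht.ne']

private theorem plS_contDiffAt {k1 k2 v : ℂ} (hN : 0 < plN k1 k2 v) :
    ContDiffAt ℝ 1 (plS k1 k2) v := by
  have hlin : ∀ k : ℂ, ContDiffAt ℝ 1 (fun w : ℂ => (k * w).re) v := fun k =>
    (Complex.reCLM.contDiff.comp (contDiff_const.mul contDiff_id)).contDiffAt
  unfold plS
  apply ContDiffAt.div
  · exact (hlin k1).add (hlin k2)
  · unfold plN
    apply ContDiffAt.sqrt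
    · exact ((hlin k1).pow 2).add ((hlin k2).pow 2)
    · rw [← plN_sq]
      positivity
  · exact hN.ne'

private theorem plC_contDiffAt {k1 k2 v : ℂ} (hN : 0 < plN k1 k2 v) :
    ContDiffAt ℝ 1 (plC k1 k2) v := by
  unfold plC
  have h1 : ContDiffAt ℝ 1 (fun w => plS k1 k2 w + 1 / 2) v :=
    (plS_contDiffAt hN).add contDiffAt_const
  have h2 : ContDiff ℝ 1 (Real.smoothTransition) :=
    Real.smoothTransition.contDiff (n := ((1 : ℕ) : ℕ∞))
  have h3 : ContDiffAt ℝ 1 (fun w => Real.smoothTransition (plS k1 k2 w + 1 / 2)) v :=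
    ContDiffAt.comp (f := fun w => plS k1 k2 w + 1 / 2) v h2.contDiffAt h1
  exact ContDiffAt.comp (f := fun w => Real.smoothTransition (plS k1 k2 w + 1 / 2)) v
    Complex.ofRealCLM.contDiff.contDiffAt h3

private theorem plC_one {k1 k2 v : ℂ} (hN : 0 < plN k1 k2 v)
    (h : plN k1 k2 v / 2 < (k1 * v).re + (k2 * v).re) :
    ∀ᶠ v' in 𝓝 v, plC k1 k2 v' = 1 := by
  have hc : ContinuousAt (plS k1 k2) v := (plS_contDiffAt hN).continuousAt
  have h1 : 1 / 2 < plS k1 k2 v := by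
    unfold plS
    rw [lt_div_iff₀ hN]
    linarith
  have h2 : ∀ᶠ v' in 𝓝 v, 1 / 2 < plS k1 k2 v' := hc.eventually (lt_mem_nhds h1)
  filter_upwards [h2] with w hw
  unfold plC
  rw [Real.smoothTransition.one_of_one_le (by linarith)]
  simp

private theorem plC_zero {k1 k2 v : ℂ} (hN : 0 < plN k1 k2 v)
    (h : (k1 * v).re + (k2 * v).re < -(plN k1 k2 v / 2)) :
    ∀ᶠ v' in 𝓝 v, plC k1 k2 v' = 0 := by
  have hc : ContinuousAt (plS k1 k2) v := (plS_contDiffAt hN).continuousAt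
  have h1 : plS k1 k2 v < -(1 / 2) := by
    unfold plS
    rw [div_lt_iff₀ hN]
    linarith
  have h2 : ∀ᶠ v' in 𝓝 v, plS k1 k2 v' < -(1 / 2) := hc.eventually (gt_mem_nhds h1)
  filter_upwards [h2] with w hw
  unfold plC
  rw [Real.smoothTransition.zero_of_nonpos (by linarith)]
  simp

private theorem pl_sum {a b N : ℝ} (hN : 0 < N) (h : N ^ 2 = a ^ 2 + b ^ 2)
    (ha : -(3 / 10 * N) ≤ a) (hb : -(3 / 10 * N) ≤ b) : N / 2 < a + b := by
  by_contra hlt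
  rw [not_lt] at hlt
  have hU : 0 ≤ a + 3 / 10 * N := by linarith
  have hW : 0 ≤ b + 3 / 10 * N := by linarith
  have h1 : 0 ≤ (a + 3 / 10 * N) * (b + 3 / 10 * N) := mul_nonneg hU hW
  have h2 : 0 ≤ ((a + 3 / 10 * N) + (b + 3 / 10 * N)) *
      (11 / 10 * N - ((a + 3 / 10 * N) + (b + 3 / 10 * N))) :=
    mul_nonneg (by linarith) (by linarith)
  have h3 : 0 ≤ N * (N / 2 - (a + b)) := mul_nonneg hN.le (by linarith)
  have h4 : 0 < N ^ 2 := by positivity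
  nlinarith

private theorem pl_opp {a b N : ℝ} (hN : 0 < N) (h : N ^ 2 = a ^ 2 + b ^ 2)
    (h1 : a + b ≤ N / 2) (h2 : -(N / 2) ≤ a + b) :
    (a ≤ -(3 / 10 * N) ∧ 3 / 10 * N ≤ b) ∨ (b ≤ -(3 / 10 * N) ∧ 3 / 10 * N ≤ a) := by
  by_contra hcon
  rw [not_or, not_and_or, not_and_or] at hcon
  have k1 : ¬ (-(3 / 10 * N) ≤ a ∧ -(3 / 10 * N) ≤ b) := fun hh =>
    absurd (pl_sum hN h hh.1 hh.2) (not_lt.mpr h1)
  have k2 : ¬ (-(3 / 10 * N) ≤ -a ∧ -(3 / 10 * N) ≤ -b) := fun hh =>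
    absurd (pl_sum hN (by rw [neg_sq, neg_sq]; exact h) hh.1 hh.2) (not_lt.mpr (by linarith))
  rw [not_and_or] at k1 k2
  obtain ⟨c1, c2⟩ := hcon
  simp only [not_le] at c1 c2 k1 k2
  rcases k1 with k1 | k1 <;> rcases k2 with k2 | k2 <;> rcases c1 with c1 | c1 <;>
    rcases c2 with c2 | c2 <;> linarith

private theorem pl_grad {k1 k2 : ℂ} (hN : ∀ v : ℂ, v ≠ 0 → 0 < plN k1 k2 v) :
    ∃ C : ℝ, 0 < C ∧ ∀ v : ℂ, v ≠ 0 → ‖dbar (plC k1 k2) v‖ ≤ C / ‖v‖ := by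
  have hCD : ContDiffOn ℝ 1 (plC k1 k2) {(0 : ℂ)}ᶜ := fun v hv =>
    (plC_contDiffAt (hN v hv)).contDiffWithinAt
  have hcont : ContinuousOn (fderiv ℝ (plC k1 k2)) {(0 : ℂ)}ᶜ :=
    hCD.continuousOn_fderiv_of_isOpen isOpen_compl_singleton le_rfl
  have hsub : sphere (0 : ℂ) 1 ⊆ {(0 : ℂ)}ᶜ := by
    intro z hz h0
    rw [mem_singleton_iff] at h0
    rw [h0, mem_sphere_iff_norm] at hz
    simp at hz
  obtain ⟨M, hM⟩ := (isCompact_sphere (0 : ℂ) 1).exists_bound_of_continuousOn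
    (hcont.mono hsub)
  have hM0 : 0 ≤ M := (norm_nonneg _).trans (hM 1 (by simp))
  refine ⟨M + 1, by linarith, fun v hv => ?_⟩
  have hv0 : 0 < ‖v‖ := norm_pos_iff.mpr hv
  have ht : 0 < ‖v‖⁻¹ := inv_pos.mpr hv0
  have e1 : (fun w : ℂ => plC k1 k2 (‖v‖⁻¹ • w)) = plC k1 k2 := by
    funext w
    exact plC_smul k1 k2 w ht
  have e2 : fderiv ℝ (plC k1 k2) v = ‖v‖⁻¹ • fderiv ℝ (plC k1 k2) (‖v‖⁻¹ • v) := by
    conv_lhs => rw [← e1]
    exact fderiv_comp_smul ‖v‖⁻¹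
  have hsph : ‖v‖⁻¹ • v ∈ sphere (0 : ℂ) 1 := by
    rw [mem_sphere_iff_norm, sub_zero, norm_smul, norm_inv, norm_norm,
      inv_mul_cancel₀ hv0.ne']
  have h3 : ‖fderiv ℝ (plC k1 k2) v‖ ≤ ‖v‖⁻¹ * M := by
    rw [e2, norm_smul, norm_inv, norm_norm]
    exact mul_le_mul_of_nonneg_left (hM _ hsph) ht.le
  have h4 : ∀ u : ℂ, ‖u‖ = 1 → ‖fderiv ℝ (plC k1 k2) v u‖ ≤ ‖v‖⁻¹ * M := by
    intro u hu
    have := (fderiv ℝ (plC k1 k2) v).le_opNorm u
    rw [hu, mul_one] at this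
    exact this.trans h3
  have h5 : ‖dbar (plC k1 k2) v‖ ≤ ‖v‖⁻¹ * M := by
    unfold Pool.Lib.dbar
    rw [norm_div]
    have h6 : ‖fderiv ℝ (plC k1 k2) v 1 + I * fderiv ℝ (plC k1 k2) v I‖ ≤
        ‖v‖⁻¹ * M + ‖v‖⁻¹ * M := by
      refine (norm_add_le _ _).trans ?_
      rw [norm_mul, Complex.norm_I, one_mul]
      exact add_le_add (h4 1 (by simp)) (h4 I (by simp))
    have h7 : ‖(2 : ℂ)‖ = 2 := by simp
    rw [h7, div_le_iff₀ (by norm_num)]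
    linarith
  rw [div_eq_inv_mul]
  exact h5.trans (mul_le_mul_of_nonneg_left (by linarith) ht.le)

theorem planar {k1 k2 : ℂ} (h : (k1 * conj k2).im ≠ 0) :
    ∃ (ch : ℂ → ℂ) (c C : ℝ), 0 < c ∧ 0 < C ∧ ContDiffOn ℝ 1 ch {(0 : ℂ)}ᶜ ∧
      (∀ v, ∃ t : ℝ, 0 ≤ t ∧ t ≤ 1 ∧ ch v = t) ∧
      (∀ v, v ≠ 0 → ‖dbar ch v‖ ≤ C / ‖v‖) ∧
      (∀ v, v ≠ 0 → dbar ch v ≠ 0 →
        ((k1 * v).re ≤ -(c * ‖v‖) ∧ c * ‖v‖ ≤ (k2 * v).re) ∨
        ((k2 * v).re ≤ -(c * ‖v‖) ∧ c * ‖v‖ ≤ (k1 * v).re)) ∧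
      (∀ v, v ≠ 0 → -(c * ‖v‖) ≤ (k1 * v).re → -(c * ‖v‖) ≤ (k2 * v).re →
        ∀ᶠ v' in 𝓝 v, ch v' = 1) ∧
      (∀ v, v ≠ 0 → (k1 * v).re ≤ c * ‖v‖ → (k2 * v).re ≤ c * ‖v‖ →
        ∀ᶠ v' in 𝓝 v, ch v' = 0) := by
  obtain ⟨c1, hc1, hlow⟩ := pl_lower h
  have hNlow : ∀ v : ℂ, c1 / 2 * ‖v‖ ≤ plN k1 k2 v := by
    intro v
    have := hlow v
    have h1 := plN_abs1 k1 k2 v
    have h2 := plN_abs2 k1 k2 v
    linarith
  have hN : ∀ v : ℂ, v ≠ 0 → 0 < plN k1 k2 v := by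
    intro v hv
    have := norm_pos_iff.mpr hv
    exact lt_of_lt_of_le (by positivity) (hNlow v)
  obtain ⟨C, hC, hgrad⟩ := pl_grad hN
  have hc : ∀ v : ℂ, 3 / 10 * (c1 / 2) * ‖v‖ ≤ 3 / 10 * plN k1 k2 v := by
    intro v
    have := hNlow v
    nlinarith
  refine ⟨plC k1 k2, 3 / 10 * (c1 / 2), C, by positivity, hC, ?_, ?_, hgrad, ?_, ?_, ?_⟩
  · exact fun v hv => (plC_contDiffAt (hN v hv)).contDiffWithinAt
  · intro v
    exact ⟨_, Real.smoothTransition.nonneg _, Real.smoothTransition.le_one _, rfl⟩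
  · intro v hv hd
    have h1 : (k1 * v).re + (k2 * v).re ≤ plN k1 k2 v / 2 := by
      by_contra hlt
      rw [not_le] at hlt
      apply hd
      rw [Pool.Lib.dbar_congr (plC_one (hN v hv) hlt : plC k1 k2 =ᶠ[𝓝 v] fun _ => 1)]
      exact Pool.Lib.dbar_eq_zero (differentiableAt_const _)
    have h2 : -(plN k1 k2 v / 2) ≤ (k1 * v).re + (k2 * v).re := by
      by_contra hlt
      rw [not_le] at hlt
      apply hd
      rw [Pool.Lib.dbar_congr (plC_zero (hN v hv) hlt : plC k1 k2 =ᶠ[𝓝 v] fun _ => 0)]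
      exact Pool.Lib.dbar_eq_zero (differentiableAt_const _)
    have hcv := hc v
    rcases pl_opp (hN v hv) (plN_sq k1 k2 v) h1 h2 with ⟨h3, h4⟩ | ⟨h3, h4⟩
    · left
      exact ⟨by linarith, by linarith⟩
    · right
      exact ⟨by linarith, by linarith⟩
  · intro v hv h1 h2
    have hcv := hc v
    exact plC_one (hN v hv) (pl_sum (hN v hv) (plN_sq k1 k2 v) (by linarith) (by linarith))
  · intro v hv h1 h2
    have hcv := hc v
    have h3 := pl_sum (a := -(k1 * v).re) (b := -(k2 * v).re) (hN v hv)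
      (by rw [neg_sq, neg_sq]; exact plN_sq k1 k2 v) (by linarith) (by linarith)
    exact plC_zero (hN v hv) (by linarith)

/-- `max |Re (k_i v)|` is comparable with `|v|`. -/
theorem indep_lower {k1 k2 : ℂ} (h : (k1 * conj k2).im ≠ 0) :
    ∃ c : ℝ, 0 < c ∧ ∀ v : ℂ, c * ‖v‖ ≤ |(k1 * v).re| + |(k2 * v).re| := pl_lower h

end Pool.Agent.TBir
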