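import Pool.Agent.TBir.KNP

/-!
# Existence of the cutoff function

MODULE. Paper proof. Let `Q = KN ∩ KP`, finite (`finite_KN_KP`). For `q ∈ Q` choose local data `D q`
(`exists_LD`); `x = -1` and both zeros exist (`cross_of_mem`). Let `ch q`, `c q`, `C q` be the angular
function of `planar` for `k1`, `k2` of `D q` (`indep`). Choose `R > 0` with, for all `q ∈ Q`:
`4 R ≤ (D q).r`, `|B| * 4 R ≤ c q`, `c q * 4 R ≤ 1`, and the balls `ball q (4 R)`, `q ∈ Q`, pairwise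
disjoint.
(1) For `l ∈ ball q (4 R)`, `l ≠ q`, `v = l - q`: `| |zi l|^2 - 1 - 2 Re (ki v) | ≤ B |v|^2 ≤ c |v|`.
If `Re (ki v) ≤ -c |v|` then `|zi l|^2 ≤ 1 - c|v|`, `|zi l| ≤ 1 - (c/3)|v|`; if `Re (ki v) ≥ c |v|`
then `|zi l|^2 ≥ 1 + c |v|`, `|zi l| ≥ 1 + (c/3)|v|`. If `|zi l| ≥ 1` then `Re (ki v) ≥ -c|v|/2`; if
`|zi l| ≤ 1` then `Re (ki v) ≤ c |v|/2`.
(2) So by `norm_of_KN` / `norm_of_KP`: if moreover `l ∈ KN`, `ch q (l' - q) = 1` for `l'` near `l`; if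
`l ∈ KP`, `ch q (l' - q) = 0` for `l'` near `l`.
(3) Let `U = ⋃ ball q R`. The compact sets `KN \ U` and `KP \ U` are disjoint. Let `chi1` be smooth with
compact support, values in `[0, 1]`, equal to `1` near `KN \ U` and to `0` near `KP \ U`
(`exists_contMDiff_one_nhds_of_subset_interior` and similar results of
Mathlib/Geometry/Manifold/PartitionOfUnity.lean, or `ContDiffBump` and compactness).
(4) Let `eta q` be a smooth bump function: `1` on `closedBall q (2 R)`, support in `ball q (3 R)`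
(`ContDiffBump`). Put `chi l = sum_q eta q l * ch q (l - q) + (1 - sum_q eta q l) * chi1 l`.
On `ball q (2 R)`, `chi l = ch q (l - q)`. Take `rho = R`. Then `grad`, `loc`, `loc'` are (1) and `planar`
(`dbar` of a translate; `loc'`: if both `Re (ki v) > -c|v|` then `ch = 1`), with `c = min (c q) / 3`,
`C = max (C q)` (if `Q` is empty take `c = 1`, `C = 0`, `rho = 1`).
`neg`: let `l ∈ KN`, `l ∉ Q`. If `l ∈ U`, near `l` `chi = ch q (· - q) = 1` by (2). If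
`l ∈ closedBall q (3 R)` and `l ∉ U`, then near `l` `ch q (· - q) = 1` and `chi1 = 1` and the other
`eta`'s vanish. If `l` is in no such closed ball, near `l` all `eta` vanish and `chi = chi1 = 1`.
`pos` is the same. `norm_le`, `norm_le'`: `chi` is a convex combination of numbers of `[0, 1]`.
-/

open MeasureTheory Complex Set Filter Topology Metric AddCircle
open scoped ComplexConjugate InnerProductSpace ENNReal
open Pool.Lib (dbar)

namespace Pool.Agent.TBir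

private theorem cutx_lem1 {z a t : ℝ} (_hz : 0 ≤ z) (ht0 : 0 ≤ t) (_ht1 : t ≤ 1)
    (h : |z ^ 2 - 1 - 2 * a| ≤ t) (ha : a ≤ -t) : z ≤ 1 - t / 3 := by
  have h1 := (abs_le.1 h).2
  nlinarith [sq_nonneg (z - 1)]

private theorem cutx_lem2 {z a t : ℝ} (hz : 0 ≤ z) (ht0 : 0 ≤ t) (ht1 : t ≤ 1)
    (h : |z ^ 2 - 1 - 2 * a| ≤ t) (ha : t ≤ a) : 1 + t / 3 ≤ z := by
  have h1 := (abs_le.1 h).1
  by_contra hc
  push Not at hc
  nlinarith [sq_nonneg t]

private theorem cutx_loc {phi : ℂ → ℂ} {q : ℂ} (D : LD phi q) (hx : D.x = -1)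
    (h1 : ‖D.z1 q‖ = 1) (h2 : ‖D.z2 q‖ = 1) :
    ∃ (f : ℂ → ℂ) (R c C : ℝ), 0 < R ∧ 0 < c ∧ R ≤ D.r ∧ ContDiffOn ℝ 1 f {q}ᶜ ∧
      (∀ l, ∃ t : ℝ, 0 ≤ t ∧ t ≤ 1 ∧ f l = t) ∧
      (∀ l, l ≠ q → ‖dbar f l‖ ≤ C / ‖l - q‖) ∧
      (∀ l ∈ ball q R, l ≠ q → dbar f l ≠ 0 →
        (‖D.z1 l‖ ≤ 1 - c * ‖l - q‖ ∧ 1 + c * ‖l - q‖ ≤ ‖D.z2 l‖) ∨
        (‖D.z2 l‖ ≤ 1 - c * ‖l - q‖ ∧ 1 + c * ‖l - q‖ ≤ ‖D.z1 l‖)) ∧
      (∀ l ∈ ball q R, l ≠ q → f l ≠ 1 →
        ‖D.z1 l‖ ≤ 1 - c * ‖l - q‖ ∨ ‖D.z2 l‖ ≤ 1 - c * ‖l - q‖) ∧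
      (∀ l ∈ ball q R, l ≠ q → l ∈ KN phi → ∀ᶠ l' in 𝓝 l, f l' = 1) ∧
      (∀ l ∈ ball q R, l ≠ q → l ∈ KP phi → ∀ᶠ l' in 𝓝 l, f l' = 0) := by
  obtain ⟨-, e1⟩ := D.z1_exp h1
  obtain ⟨-, e2⟩ := D.z2_exp h2
  obtain ⟨ch, c, C, hc, hC, hsm, hval, hgr, hloc, hone, hzero⟩ := planar (D.indep h1 h2)
  have hB : 0 < |D.B| + 1 := by positivity
  set R : ℝ := min D.r (min (c / (|D.B| + 1)) (1 / c)) with hR
  have hR0 : 0 < R := lt_min D.r_pos (lt_min (by positivity) (by positivity))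
  have hRr : R ≤ D.r := min_le_left _ _
  have hball : ball q R ⊆ ball q D.r := ball_subset_ball hRr
  have hdb : ∀ l, dbar (fun l => ch (l - q)) l = dbar ch (l - q) := by
    intro l
    unfold dbar
    rw [fderiv_comp_sub]
  have key : ∀ l ∈ ball q R, c * ‖l - q‖ ≤ 1 ∧
      |‖D.z1 l‖ ^ 2 - 1 - 2 * (D.k1 * (l - q)).re| ≤ c * ‖l - q‖ ∧
      |‖D.z2 l‖ ^ 2 - 1 - 2 * (D.k2 * (l - q)).re| ≤ c * ‖l - q‖ := by
    intro l hl
    have hv : ‖l - q‖ < R := mem_ball_iff_norm.1 hl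
    have hv1 : ‖l - q‖ < c / (|D.B| + 1) := lt_of_lt_of_le hv
      ((min_le_right _ _).trans (min_le_left _ _))
    have hv2 : ‖l - q‖ < 1 / c := lt_of_lt_of_le hv
      ((min_le_right _ _).trans (min_le_right _ _))
    rw [lt_div_iff₀ hB] at hv1
    rw [lt_div_iff₀ hc] at hv2
    have hn := norm_nonneg (l - q)
    have hBB : D.B * ‖l - q‖ ^ 2 ≤ c * ‖l - q‖ := by
      have a1 : D.B ≤ |D.B| := le_abs_self _
      have a2 : D.B * ‖l - q‖ ≤ c := by nlinarith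
      nlinarith
    exact ⟨by linarith [mul_comm c ‖l - q‖], (e1 l (hball hl)).trans hBB,
      (e2 l (hball hl)).trans hBB⟩
  have hcont : ∀ l : ℂ, Tendsto (fun l' : ℂ => l' - q) (𝓝 l) (𝓝 (l - q)) := fun l =>
    (continuous_id.sub continuous_const).tendsto l
  refine ⟨fun l => ch (l - q), R, c / 3, C, hR0, by positivity, hRr, ?_, fun l => hval _, ?_, ?_,
    ?_, ?_, ?_⟩
  · refine hsm.comp (contDiff_id.sub contDiff_const).contDiffOn ?_
    intro l hl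
    exact fun h => hl (sub_eq_zero.1 h)
  · intro l hl
    rw [hdb]
    exact hgr _ (sub_ne_zero.2 hl)
  · intro l hl hlq hd
    rw [hdb] at hd
    obtain ⟨k0, k1, k2⟩ := key l hl
    have hn := norm_nonneg (l - q)
    have hcn : 0 ≤ c * ‖l - q‖ := by positivity
    have e : c / 3 * ‖l - q‖ = c * ‖l - q‖ / 3 := by ring
    rw [e]
    rcases hloc _ (sub_ne_zero.2 hlq) hd with ⟨u1, u2⟩ | ⟨u1, u2⟩
    · exact Or.inl ⟨cutx_lem1 (norm_nonneg _) hcn k0 k1 u1, cutx_lem2 (norm_nonneg _) hcn k0 k2 u2⟩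
    · exact Or.inr ⟨cutx_lem1 (norm_nonneg _) hcn k0 k2 u1, cutx_lem2 (norm_nonneg _) hcn k0 k1 u2⟩
  · intro l hl hlq hd
    obtain ⟨k0, k1, k2⟩ := key l hl
    have hcn : 0 ≤ c * ‖l - q‖ := by positivity
    have e : c / 3 * ‖l - q‖ = c * ‖l - q‖ / 3 := by ring
    rw [e]
    by_cases u1 : (D.k1 * (l - q)).re ≤ -(c * ‖l - q‖)
    · exact Or.inl (cutx_lem1 (norm_nonneg _) hcn k0 k1 u1)
    · by_cases u2 : (D.k2 * (l - q)).re ≤ -(c * ‖l - q‖)
      · exact Or.inr (cutx_lem1 (norm_nonneg _) hcn k0 k2 u2)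
      · exact absurd (hone _ (sub_ne_zero.2 hlq) (not_le.1 u1).le (not_le.1 u2).le).self_of_nhds hd
  · intro l hl hlq hK
    obtain ⟨k0, k1, k2⟩ := key l hl
    have hcn : 0 ≤ c * ‖l - q‖ := by positivity
    obtain ⟨n1, n2⟩ := norm_of_KN D hx (hball hl) hK
    refine (hcont l).eventually (hone _ (sub_ne_zero.2 hlq) ?_ ?_)
    · have := (abs_le.1 k1).2
      nlinarith
    · have := (abs_le.1 k2).2
      nlinarith
  · intro l hl hlq hK
    obtain ⟨k0, k1, k2⟩ := key l hl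
    have hcn : 0 ≤ c * ‖l - q‖ := by positivity
    obtain ⟨n1, n2⟩ := norm_of_KP D hx (hball hl) hK
    refine (hcont l).eventually (hzero _ (sub_ne_zero.2 hlq) ?_ ?_)
    · have := (abs_le.1 k1).1
      nlinarith [norm_nonneg (D.z1 l)]
    · have := (abs_le.1 k2).1
      nlinarith [norm_nonneg (D.z2 l)]

private theorem cutx_smooth {A B : Set ℂ} (hA : IsCompact A) (hB : IsClosed B)
    (hAB : Disjoint A B) : ∃ g : ℂ → ℝ, ContDiff ℝ 1 g ∧ HasCompactSupport g ∧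
      (∀ l, 0 ≤ g l ∧ g l ≤ 1) ∧ (∀ l ∈ A, ∀ᶠ l' in 𝓝 l, g l' = 1) ∧
      (∀ l ∈ B, ∀ᶠ l' in 𝓝 l, g l' = 0) := by
  obtain ⟨L, hL, hAL, hLB⟩ := exists_compact_between hA hB.isOpen_compl
    (subset_compl_iff_disjoint_right.2 hAB)
  obtain ⟨f, f1, f0, hf⟩ := exists_contMDiffMap_one_nhds_of_subset_interior
    (modelWithCornersSelf ℝ ℂ) (n := 1) hA.isClosed hAL
  refine ⟨f, f.contMDiff.contDiff, HasCompactSupport.intro hL f0, fun l => hf l, ?_, ?_⟩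
  · intro l hl
    exact (eventually_nhdsSet_iff_forall.1 f1) l hl
  · intro l hl
    have : Lᶜ ∈ 𝓝 l := hL.isClosed.isOpen_compl.mem_nhds (fun h => hLB h hl)
    filter_upwards [this] with l' hl'
    exact f0 l' hl'

theorem exists_cut {phi : ℂ → ℂ} (hphi : Normal phi) : Nonempty (Cut phi) := by
  have hfin := finite_KN_KP hphi
  have hex : ∀ q : ℂ, ∃ D : LD phi q, q ∈ KN phi ∩ KP phi → D.x = -1 ∧ ‖D.z1 q‖ = 1 ∧
      ‖D.z2 q‖ = 1 := by
    intro q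
    obtain ⟨D⟩ := exists_LD hphi q
    exact ⟨D, fun h => cross_of_mem D h.1 h.2⟩
  choose D hD using hex
  have hex2 : ∀ q : ℂ, ∃ (f : ℂ → ℂ) (R c C : ℝ), q ∈ KN phi ∩ KP phi → (0 < R ∧ 0 < c ∧
      R ≤ (D q).r ∧ ContDiffOn ℝ 1 f {q}ᶜ ∧
      (∀ l, ∃ t : ℝ, 0 ≤ t ∧ t ≤ 1 ∧ f l = t) ∧
      (∀ l, l ≠ q → ‖dbar f l‖ ≤ C / ‖l - q‖) ∧
      (∀ l ∈ ball q R, l ≠ q → dbar f l ≠ 0 →
        (‖(D q).z1 l‖ ≤ 1 - c * ‖l - q‖ ∧ 1 + c * ‖l - q‖ ≤ ‖(D q).z2 l‖) ∨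
        (‖(D q).z2 l‖ ≤ 1 - c * ‖l - q‖ ∧ 1 + c * ‖l - q‖ ≤ ‖(D q).z1 l‖)) ∧
      (∀ l ∈ ball q R, l ≠ q → f l ≠ 1 →
        ‖(D q).z1 l‖ ≤ 1 - c * ‖l - q‖ ∨ ‖(D q).z2 l‖ ≤ 1 - c * ‖l - q‖) ∧
      (∀ l ∈ ball q R, l ≠ q → l ∈ KN phi → ∀ᶠ l' in 𝓝 l, f l' = 1) ∧
      (∀ l ∈ ball q R, l ≠ q → l ∈ KP phi → ∀ᶠ l' in 𝓝 l, f l' = 0)) := by
    intro q
    by_cases hq : q ∈ KN phi ∩ KP phi
    · obtain ⟨hx, h1, h2⟩ := hD q hq
      obtain ⟨f, R, c, C, h⟩ := cutx_loc (D q) hx h1 h2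
      exact ⟨f, R, c, C, fun _ => h⟩
    · exact ⟨0, 0, 0, 0, fun h => absurd h hq⟩
  choose f Rq cq Cq hF using hex2
  set Q : Finset ℂ := hfin.toFinset with hQdef
  have hQ : ∀ {q : ℂ}, q ∈ Q ↔ q ∈ KN phi ∩ KP phi := fun {q} => by
    rw [hQdef, Set.Finite.mem_toFinset]
  -- the radius
  obtain ⟨R, ⟨hR1, hR2⟩, hR0⟩ : ∃ R : ℝ, ((∀ q ∈ Q, 4 * R < Rq q) ∧
      (∀ q ∈ Q, ∀ q' ∈ Q, q ≠ q' → 8 * R < dist q q')) ∧ 0 < R := by
    have ev : ∀ a : ℝ, ∀ b : ℝ, 0 < b → ∀ᶠ R : ℝ in 𝓝[>] 0, a * R < b := by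
      intro a b hb
      have : Tendsto (fun R : ℝ => a * R) (𝓝[>] 0) (𝓝 0) := by
        have h : Tendsto (fun R : ℝ => a * R) (𝓝 0) (𝓝 (a * 0)) :=
          (continuous_const.mul continuous_id).tendsto 0
        rw [mul_zero] at h
        exact h.mono_left nhdsWithin_le_nhds
      exact this.eventually (gt_mem_nhds hb)
    have A1 : ∀ᶠ R : ℝ in 𝓝[>] 0, ∀ q ∈ Q, 4 * R < Rq q :=
      (eventually_all_finset Q).2 fun q hq => ev 4 _ (hF q (hQ.1 hq)).1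
    have A2 : ∀ᶠ R : ℝ in 𝓝[>] 0, ∀ q ∈ Q, ∀ q' ∈ Q, q ≠ q' → 8 * R < dist q q' := by
      refine (eventually_all_finset Q).2 fun q hq => (eventually_all_finset Q).2 fun q' hq' => ?_
      by_cases h : q = q'
      · exact Eventually.of_forall fun _ h' => absurd h h'
      · filter_upwards [ev 8 _ (dist_pos.2 h)] with R hR _ using hR
    have A3 : ∀ᶠ R : ℝ in 𝓝[>] 0, (0 : ℝ) < R := self_mem_nhdsWithin
    exact ((A1.and A2).and A3).exists
  obtain ⟨c, hc1, hc0⟩ : ∃ c : ℝ, (∀ q ∈ Q, c < cq q) ∧ 0 < c := by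
    have A1 : ∀ᶠ c : ℝ in 𝓝[>] 0, ∀ q ∈ Q, c < cq q :=
      (eventually_all_finset Q).2 fun q hq =>
        nhdsWithin_le_nhds (gt_mem_nhds (hF q (hQ.1 hq)).2.1)
    have A3 : ∀ᶠ c : ℝ in 𝓝[>] 0, (0 : ℝ) < c := self_mem_nhdsWithin
    exact (A1.and A3).exists
  obtain ⟨C, hC1⟩ : ∃ C : ℝ, ∀ q ∈ Q, Cq q ≤ C :=
    ((eventually_all_finset Q).2 fun q _ => eventually_ge_atTop (Cq q)).exists
  -- the far cutoff
  set U : Set ℂ := ⋃ q ∈ Q, ball q R with hU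
  have hUo : IsOpen U := isOpen_biUnion fun q _ => isOpen_ball
  obtain ⟨g, gsm, gcs, gI, g1, g0⟩ := cutx_smooth (A := KN phi \ U) (B := KP phi \ U)
    ((isCompact_KN hphi.ana).diff hUo) ((isCompact_KP hphi.ana).diff hUo).isClosed (by
      rw [Set.disjoint_left]
      rintro l ⟨h1, h2⟩ ⟨h3, -⟩
      exact h2 (mem_iUnion₂.2 ⟨l, hQ.2 ⟨h1, h3⟩, mem_ball_self hR0⟩))
  -- the bumps
  let eta : ∀ q : ℂ, ContDiffBump q := fun q =>
    { rIn := 2 * R, rOut := 3 * R, rIn_pos := by positivity, rIn_lt_rOut := by linarith }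
  have eta1 : ∀ q l : ℂ, dist l q ≤ 2 * R → eta q l = 1 := fun q l h =>
    (eta q).one_of_mem_closedBall (mem_closedBall.2 h)
  have eta0 : ∀ q l : ℂ, 3 * R ≤ dist l q → eta q l = 0 := fun q l h =>
    (eta q).zero_of_le_dist h
  set chi : ℂ → ℂ := fun l => ∑ q ∈ Q, ((eta q l : ℝ) : ℂ) * f q l +
    (1 - ∑ q ∈ Q, ((eta q l : ℝ) : ℂ)) * ((g l : ℝ) : ℂ) with hchi
  have near : ∀ q ∈ Q, ∀ l, dist l q < 4 * R → chi l = ((eta q l : ℝ) : ℂ) * f q l +
      (1 - ((eta q l : ℝ) : ℂ)) * ((g l : ℝ) : ℂ) := by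
    intro q hq l hl
    have hz : ∀ q' ∈ Q, q' ≠ q → eta q' l = 0 := by
      intro q' hq' hne
      apply eta0
      have h1 := hR2 q' hq' q hq hne
      have h2 := dist_triangle_left q' q l
      linarith
    simp only [hchi]
    rw [Finset.sum_eq_single_of_mem q hq (fun q' hq' hne => by rw [hz q' hq' hne]; simp),
      Finset.sum_eq_single_of_mem q hq (fun q' hq' hne => by rw [hz q' hq' hne]; simp)]
  have far : ∀ l, (∀ q ∈ Q, 3 * R ≤ dist l q) → chi l = ((g l : ℝ) : ℂ) := by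
    intro l hl
    simp only [hchi]
    rw [Finset.sum_eq_zero (fun q hq => by rw [eta0 q l (hl q hq)]; simp),
      Finset.sum_eq_zero (fun q hq => by rw [eta0 q l (hl q hq)]; simp)]
    simp
  have near1 : ∀ q ∈ Q, ∀ l, dist l q ≤ 2 * R → chi l = f q l := by
    intro q hq l hl
    rw [near q hq l (by linarith), eta1 q l hl]
    simp
  have near1' : ∀ q ∈ Q, ∀ l, dist l q < 2 * R → chi =ᶠ[𝓝 l] f q := by
    intro q hq l hl
    have : ball q (2 * R) ∈ 𝓝 l := isOpen_ball.mem_nhds hl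
    filter_upwards [this] with l' hl'
    exact near1 q hq l' (mem_ball.1 hl').le
  have hvalue : ∀ l, ∃ t : ℝ, 0 ≤ t ∧ t ≤ 1 ∧ chi l = t := by
    intro l
    by_cases h : ∃ q ∈ Q, dist l q < 4 * R
    · obtain ⟨q, hq, hl⟩ := h
      obtain ⟨t, t0, t1, ht⟩ := (hF q (hQ.1 hq)).2.2.2.2.1 l
      have e0 := (eta q).nonneg (x := l)
      have e1 := (eta q).le_one (x := l)
      refine ⟨eta q l * t + (1 - eta q l) * g l, ?_, ?_, ?_⟩
      · have := gI l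
        have a1 := mul_nonneg e0 t0
        have a2 := mul_nonneg (sub_nonneg.2 e1) this.1
        linarith
      · have := gI l
        have a1 := mul_le_mul_of_nonneg_left t1 e0
        have a2 := mul_le_mul_of_nonneg_left this.2 (sub_nonneg.2 e1)
        linarith
      · rw [near q hq l hl, ht]
        push_cast
        ring
    · push Not at h
      exact ⟨g l, (gI l).1, (gI l).2, far l fun q hq => by linarith [h q hq]⟩
  have hU1 : ∀ q ∈ Q, ∀ l, 2 * R ≤ dist l q → dist l q < 4 * R → l ∉ U := by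
    intro q hq l h1 h2 h3
    obtain ⟨q', hq', h4⟩ := mem_iUnion₂.1 h3
    have h4' := mem_ball.1 h4
    by_cases hne : q' = q
    · subst hne
      linarith
    · have h5 := hR2 q' hq' q hq hne
      have h6 := dist_triangle_left q' q l
      linarith
  have hU2 : ∀ l, (∀ q ∈ Q, 4 * R ≤ dist l q) → l ∉ U := by
    intro l h h3
    obtain ⟨q', hq', h4⟩ := mem_iUnion₂.1 h3
    have h4' := mem_ball.1 h4
    have := h q' hq'
    linarith
  have hball4 : ∀ q ∈ Q, ∀ l, dist l q < 4 * R → l ∈ ball q (Rq q) := fun q hq l hl =>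
    mem_ball.2 (hl.trans (hR1 q hq))
  -- common part of `neg` and `pos`
  have common : ∀ (v : ℝ) (l : ℂ), (∀ q ∈ Q, dist l q < 4 * R → ∀ᶠ l' in 𝓝 l, f q l' = (v : ℂ)) →
      (l ∉ U → ∀ᶠ l' in 𝓝 l, g l' = v) → ∀ᶠ l' in 𝓝 l, chi l' = (v : ℂ) := by
    intro v l h1 h2
    by_cases h : ∃ q ∈ Q, dist l q < 4 * R
    · obtain ⟨q, hq, hl⟩ := h
      by_cases hl2 : dist l q < 2 * R
      · filter_upwards [h1 q hq hl, near1' q hq l hl2] with l' a1 a2
        rw [a2, a1]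
      · have hlU := hU1 q hq l (not_lt.1 hl2) hl
        have : ball q (4 * R) ∈ 𝓝 l := isOpen_ball.mem_nhds hl
        filter_upwards [h1 q hq hl, h2 hlU, this] with l' a1 a2 a3
        rw [near q hq l' (mem_ball.1 a3), a1, a2]
        ring
    · push Not at h
      have hlU := hU2 l h
      have : ∀ᶠ l' in 𝓝 l, ∀ q ∈ Q, 3 * R < dist l' q := by
        refine (eventually_all_finset Q).2 fun q hq => ?_
        have hc : Tendsto (fun l' : ℂ => dist l' q) (𝓝 l) (𝓝 (dist l q)) :=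
          (continuous_id.dist continuous_const).tendsto l
        exact hc.eventually (lt_mem_nhds (by linarith [h q hq]))
      filter_upwards [h2 hlU, this] with l' a2 a3
      rw [far l' fun q hq => (a3 q hq).le, a2]
  have hdb : ∀ q ∈ Q, ∀ l ∈ ball q R, dbar chi l = dbar (f q) l := by
    intro q hq l hl
    exact Pool.Lib.dbar_congr (near1' q hq l (by linarith [mem_ball.1 hl]))
  refine ⟨{
    Q := Q
    chi := chi
    D := fun q _ => D q
    rho := R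
    c := c
    C := C
    rho_pos := hR0
    c_pos := hc0
    rho_le := ?_
    x_eq := fun q hq => (hD q (hQ.1 hq)).1
    real1 := fun q hq => (hD q (hQ.1 hq)).2.1
    real2 := fun q hq => (hD q (hQ.1 hq)).2.2
    norm_le := ?_
    norm_le' := ?_
    smooth := ?_
    cpt := ?_
    neg := ?_
    pos := ?_
    grad := ?_
    loc := ?_
    loc' := ?_ }⟩
  · intro q hq
    have h1 := hR1 q hq
    have h2 := (hF q (hQ.1 hq)).2.2.1
    linarith
  · intro l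
    obtain ⟨t, t0, t1, ht⟩ := hvalue l
    rw [ht, Complex.norm_real, Real.norm_eq_abs, abs_of_nonneg t0]
    exact t1
  · intro l
    obtain ⟨t, t0, t1, ht⟩ := hvalue l
    have : (1 : ℂ) - (t : ℂ) = ((1 - t : ℝ) : ℂ) := by push_cast; ring
    rw [ht, this, Complex.norm_real, Real.norm_eq_abs, abs_of_nonneg (by linarith)]
    linarith
  · have hof : ContDiff ℝ 1 (fun x : ℝ => (x : ℂ)) := Complex.ofRealCLM.contDiff
    have he : ∀ q, ContDiff ℝ 1 (fun l => ((eta q l : ℝ) : ℂ)) := fun q =>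
      hof.comp (eta q).contDiff
    have hg : ContDiff ℝ 1 (fun l => ((g l : ℝ) : ℂ)) := hof.comp gsm
    have hf : ∀ q ∈ Q, ContDiffOn ℝ 1 (f q) ((Q : Set ℂ)ᶜ) := by
      intro q hq
      refine ((hF q (hQ.1 hq)).2.2.2.1).mono ?_
      intro l hl h
      rw [mem_singleton_iff.1 h] at hl
      exact hl hq
    refine ContDiffOn.add (ContDiffOn.sum fun q hq => ?_) (ContDiff.contDiffOn ?_)
    · exact (he q).contDiffOn.mul (hf q hq)
    · exact (contDiff_const.sub (ContDiff.sum fun q _ => he q)).mul hg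
  · refine HasCompactSupport.intro (K := (⋃ q ∈ Q, closedBall q (3 * R)) ∪ tsupport g) ?_ ?_
    · exact (Q.finite_toSet.isCompact_biUnion fun q _ => isCompact_closedBall q _).union gcs
    · intro l hl
      rw [far l fun q hq => ?_, image_eq_zero_of_notMem_tsupport fun h => hl (Or.inr h)]
      · simp
      · by_contra h
        push Not at h
        exact hl (Or.inl (mem_iUnion₂.2 ⟨q, hq, mem_closedBall.2 h.le⟩))
  · intro l hl hlQ
    have := common 1 l (fun q hq h => ?_) (fun h => g1 l ⟨hl, h⟩)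
    · simpa using this
    · have h' := (hF q (hQ.1 hq)).2.2.2.2.2.2.2.2.1 l (hball4 q hq l h)
        (fun h2 => hlQ (h2 ▸ hq)) hl
      simpa using h'
  · intro l hl hlQ
    have := common 0 l (fun q hq h => ?_) (fun h => g0 l ⟨hl, h⟩)
    · simpa using this
    · have h' := (hF q (hQ.1 hq)).2.2.2.2.2.2.2.2.2 l (hball4 q hq l h)
        (fun h2 => hlQ (h2 ▸ hq)) hl
      simpa using h'
  · intro q hq l hl hlq
    rw [hdb q hq l hl]
    refine ((hF q (hQ.1 hq)).2.2.2.2.2.1 l hlq).trans ?_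
    exact div_le_div_of_nonneg_right (hC1 q hq) (norm_nonneg _)
  · intro q hq l hl hlq hd
    rw [hdb q hq l hl] at hd
    have hl4 := hball4 q hq l (by linarith [mem_ball.1 hl])
    have hcc : c * ‖l - q‖ ≤ cq q * ‖l - q‖ :=
      mul_le_mul_of_nonneg_right (hc1 q hq).le (norm_nonneg _)
    rcases (hF q (hQ.1 hq)).2.2.2.2.2.2.1 l hl4 hlq hd with ⟨a, b⟩ | ⟨a, b⟩
    · exact Or.inl ⟨by linarith, by linarith⟩
    · exact Or.inr ⟨by linarith, by linarith⟩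
  · intro q hq l hl hlq hd
    rw [near1 q hq l (by linarith [mem_ball.1 hl])] at hd
    have hl4 := hball4 q hq l (by linarith [mem_ball.1 hl])
    have hcc : c * ‖l - q‖ ≤ cq q * ‖l - q‖ :=
      mul_le_mul_of_nonneg_right (hc1 q hq).le (norm_nonneg _)
    rcases (hF q (hQ.1 hq)).2.2.2.2.2.2.2.1 l hl4 hlq hd with a | a
    · exact Or.inl (by linarith)
    · exact Or.inr (by linarith)

end Pool.Agent.TBir
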