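import Pool.Agent.TBir.FrameEx

/-!
# The scalar attached to a zero in the disc, intrinsically

Paper proof. Let `z = z1 l`, `l ∉ J`, so `phi z = l` (`z1_cases`: the zero exists as
`|z| < 1 < 2`) and `|z2 l| ≠ 1` (`LD.mem_J_iff`). A symbol `q` with `q (zeta - z) = Phi - l` satisfies
`q = Psi l * (zeta - z2 l)` (cancel `zeta - z`, which has no zero on the circle; `fac`), so
`T q = T (Psi l) (S - z2 l)` (`T_mul_right`). Put `v = PP l (S - z2 l) g - k (S - z2 l) g`. Then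
`P (T q g) - k • T q g = T (Psi l) v` (`Frame.intertw`), and the condition
`T (Psi l) v = (T Phi - l) h = T (Psi l) (S - z1 l)(S - z2 l) h` is `v = (S - z1 l)(S - z2 l) h`
(`Frame.inj`).

If `Cz` holds with the scalar `k`: take `g = mono 0`: `ev z v = 0` (`ev_S_sub`) and
`ev z v = (k1 - k)(z - z2 l)`, so `k = k1`.
Conversely let `k = k1`. Then `ev z v = 0` by `h1`, so `v = (S - z1 l) u` (`div_of_ev`). If
`|z2 l| > 1`, `u` is in the range of `S - z2 l` (`isUnit_S_sub`). If `|z2 l| < 1`,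
`ev (z2 l) v = k2 * 0 - k * 0 = 0` by `h2` and `ev_S_sub`, and
`0 = ev (z2 l) v = (z2 l - z1 l) ev (z2 l) u`, so `u = (S - z2 l) h` (`div_of_ev`).
-/

open MeasureTheory Complex Set Filter Topology Metric AddCircle
open scoped ComplexConjugate InnerProductSpace ENNReal

namespace Pool.Agent.TBir

private theorem cz_phi {phi : ℂ → ℂ} {l0 : ℂ} (D : LD phi l0) {l : ℂ} (hl : l ∈ ball l0 D.r)
    (hz : ‖D.z1 l‖ < 1) : phi (D.z1 l) = l := by
  rcases D.z1_cases with h | h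
  · exact (h.2 l hl).2
  · have := h l hl
    linarith

private theorem cz_sym {phi : ℂ → ℂ} {Phi : CT} (hPhi : ∀ x, Phi x = phi (e x)) {l0 : ℂ}
    (D : LD phi l0) {l : ℂ} (hl : l ∈ ball l0 D.r) :
    (D.Psi l * (fourier 1 - algebraMap ℂ CT (D.z2 l))) *
      (fourier 1 - algebraMap ℂ CT (D.z1 l)) = Phi - algebraMap ℂ CT l := by
  ext x
  have := D.fac l hl (e x) (e_mem_ann D.del_pos x)
  simp only [Algebra.algebraMap_eq_smul_one, ContinuousMap.sub_apply, ContinuousMap.mul_apply,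
    ContinuousMap.smul_apply, ContinuousMap.one_apply, smul_eq_mul, mul_one]
  rw [hPhi, D.Psi_eq l hl, fourier_one_apply, this]
  ring

private theorem cz_q {phi : ℂ → ℂ} {Phi : CT} (hPhi : ∀ x, Phi x = phi (e x)) {l0 : ℂ}
    (D : LD phi l0) {l : ℂ} (hl : l ∈ ball l0 D.r) (hz : ‖D.z1 l‖ < 1) {q : CT}
    (hq : q * (fourier 1 - algebraMap ℂ CT (D.z1 l)) = Phi - algebraMap ℂ CT l) :
    q = D.Psi l * (fourier 1 - algebraMap ℂ CT (D.z2 l)) := by
  have h2 := cz_sym hPhi D hl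
  rw [← hq] at h2
  ext x
  have h3 := congrArg (fun f : CT => f x) h2
  simp only [ContinuousMap.mul_apply] at h3
  have hne : (fourier 1 - algebraMap ℂ CT (D.z1 l) : CT) x ≠ 0 := by
    intro h0
    simp only [Algebra.algebraMap_eq_smul_one, ContinuousMap.sub_apply,
      ContinuousMap.smul_apply, ContinuousMap.one_apply, smul_eq_mul, mul_one] at h0
    rw [fourier_one_apply, sub_eq_zero] at h0
    have : ‖e x‖ = 1 := Circle.norm_coe _
    rw [h0] at this
    linarith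
  rw [ContinuousMap.mul_apply]
  exact (mul_right_cancel₀ hne h3).symm

private theorem cz_T {phi : ℂ → ℂ} {l0 : ℂ} (D : LD phi l0) (l : ℂ) :
    T (D.Psi l * (fourier 1 - algebraMap ℂ CT (D.z2 l))) =
      T (D.Psi l) * (S - D.z2 l • (1 : Hardy →L[ℂ] Hardy)) := by
  have p2 : Plus ((fourier 1 : CT) - algebraMap ℂ CT (D.z2 l)) :=
    (plus_fourier (by norm_num)).sub (plus_algebraMap _)
  rw [T_mul_right _ p2, T_sub, T_algebraMap]
  rfl

theorem cz_iff {phi : ℂ → ℂ} {Phi : CT} (hPhi : ∀ x, Phi x = phi (e x)) {l0 : ℂ} {D : LD phi l0}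
    {P : Hardy →L[ℂ] Hardy} (F : Frame D P) {k1 k2 l : ℂ}
    (hl : l ∈ ball l0 F.s) (hJ : l ∉ J phi) (hz : ‖D.z1 l‖ < 1)
    (h1 : ∀ g : Hardy, ev (D.z1 l) (F.PP l g) = k1 * ev (D.z1 l) g)
    (h2 : ‖D.z2 l‖ < 1 → ∀ g : Hardy, ev (D.z2 l) (F.PP l g) = k2 * ev (D.z2 l) g) (k : ℂ) :
    Cz phi Phi P k (D.z1 l) ↔ k = k1 := by
  have hlr : l ∈ ball l0 D.r := ball_subset_ball F.s_le hl
  have hphi := cz_phi D hlr hz
  have hne : D.z1 l ≠ D.z2 l := D.z_ne l hlr
  have hfac := D.fac_T hPhi hlr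
  have hint := F.intertw hl
  have hint' : ∀ w : Hardy, P (T (D.Psi l) w) = T (D.Psi l) (F.PP l w) := fun w => by
    have := congrArg (fun B : Hardy →L[ℂ] Hardy => B w) hint
    exact this.symm
  have hfac' : ∀ h : Hardy, (T Phi - l • (1 : Hardy →L[ℂ] Hardy)) h =
      T (D.Psi l) ((S - D.z1 l • (1 : Hardy →L[ℂ] Hardy))
        ((S - D.z2 l • (1 : Hardy →L[ℂ] Hardy)) h)) := fun h => by
    rw [hfac]; rfl
  have key : ∀ g : Hardy, P (T (D.Psi l * (fourier 1 - algebraMap ℂ CT (D.z2 l))) g) -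
      k • T (D.Psi l * (fourier 1 - algebraMap ℂ CT (D.z2 l))) g =
      T (D.Psi l) (F.PP l ((S - D.z2 l • (1 : Hardy →L[ℂ] Hardy)) g) -
        k • (S - D.z2 l • (1 : Hardy →L[ℂ] Hardy)) g) := fun g => by
    rw [cz_T]
    have h3 : (T (D.Psi l) * (S - D.z2 l • (1 : Hardy →L[ℂ] Hardy))) g =
      T (D.Psi l) ((S - D.z2 l • (1 : Hardy →L[ℂ] Hardy)) g) := rfl
    rw [h3, hint', map_sub, map_smul]
  constructor
  · intro h
    obtain ⟨h', hh'⟩ := h _ (by rw [hphi]; exact cz_sym hPhi D hlr) (mono 0)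
    rw [key, hphi, hfac'] at hh'
    have h4 := F.inj hl hh'
    have h5 := congrArg (ev (D.z1 l)) h4
    rw [ev_S_sub hz, sub_self, zero_mul, map_sub, map_smul, h1, ev_S_sub hz, ev_mono hz, pow_zero,
      smul_eq_mul] at h5
    have h6 : (k1 - k) * (D.z1 l - D.z2 l) = 0 := by linear_combination h5
    rcases mul_eq_zero.1 h6 with h7 | h7
    · exact (sub_eq_zero.1 h7).symm
    · exact absurd (sub_eq_zero.1 h7) hne
  · intro hk q hq g
    rw [hphi] at hq ⊢
    rw [cz_q hPhi D hlr hz hq, key]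
    set v := F.PP l ((S - D.z2 l • (1 : Hardy →L[ℂ] Hardy)) g) -
        k • (S - D.z2 l • (1 : Hardy →L[ℂ] Hardy)) g with hv
    have hv1 : ev (D.z1 l) v = 0 := by
      rw [hv, map_sub, map_smul, h1, hk, smul_eq_mul, sub_self]
    obtain ⟨u, hu⟩ := div_of_ev hz hv1
    have hex : ∃ h : Hardy, (S - D.z2 l • (1 : Hardy →L[ℂ] Hardy)) h = u := by
      rcases lt_trichotomy ‖D.z2 l‖ 1 with hlt | heq | hgt
      · apply div_of_ev hlt
        have h8 : ev (D.z2 l) v = 0 := by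
          rw [hv, map_sub, map_smul, h2 hlt, ev_S_sub hlt, sub_self, zero_mul, mul_zero, smul_zero,
            sub_zero]
        rw [← hu, ev_S_sub hlt] at h8
        rcases mul_eq_zero.1 h8 with h9 | h9
        · exact absurd (sub_eq_zero.1 h9).symm hne
        · exact h9
      · exact absurd ((D.mem_J_iff hlr).2 (Or.inr heq)) hJ
      · obtain ⟨U, hU⟩ := isUnit_S_sub hgt
        refine ⟨(U⁻¹ : (Hardy →L[ℂ] Hardy)ˣ).1 u, ?_⟩
        rw [← hU]
        have := congrArg (fun B : Hardy →L[ℂ] Hardy => B u) U.mul_inv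
        exact this
    obtain ⟨h, hh⟩ := hex
    refine ⟨h, ?_⟩
    rw [hfac', hh, hu]

end Pool.Agent.TBir
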