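import Pool.Agent.TBir.FacT
import Pool.Agent.TBir.AbsL

/-!
# Existence of frames
-/

open MeasureTheory Complex Set Filter Topology Metric AddCircle
open scoped ComplexConjugate InnerProductSpace ENNReal

namespace Pool.Agent.TBir

theorem LD.hasWH {phi : ℂ → ℂ} {l0 : ℂ} (D : LD phi l0) :
    ∃ C eta : ℝ, 0 < C ∧ 0 < eta ∧ ∀ l ∈ ball l0 D.r, HasWH C eta (D.Psi l) D.x := by
  obtain ⟨C, eta, hC, heta, h⟩ := Pool.Agent.TBir.hasWH (M := D.M) D.del_pos D.del_lt D.m_pos D.x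
  exact ⟨C, eta, hC, heta, fun l hl => h (D.psi l) (D.psi_diff l hl)
    (fun w hw => ⟨D.psi_lb l hl w hw, D.psi_ub l hl w hw⟩) (D.wind_eq l hl) _ (D.Psi_eq l hl)⟩

theorem LD.T_diff {phi : ℂ → ℂ} {l0 : ℂ} (D : LD phi l0) :
    DifferentiableOn ℂ (fun l => T (D.Psi l)) (ball l0 D.r) := by
  obtain ⟨TL, hTL⟩ := exists_TL
  have h : (fun l => T (D.Psi l)) = fun l => TL (D.Psi l) := funext fun l => (hTL _).symm
  rw [h]
  exact TL.differentiable.comp_differentiableOn D.Psi_diff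

theorem exists_frame {phi : ℂ → ℂ} {Phi : CT}
    (hPhi : ∀ x, Phi x = phi (e x)) {l0 : ℂ} (D : LD phi l0) (hx : 0 ≤ D.x)
    {P : Hardy →L[ℂ] Hardy} (hP : P * T Phi = T Phi * P) : Nonempty (Frame D P) := by
  obtain ⟨C, eta, _, heta, hW⟩ := D.hasWH
  obtain ⟨L0, hL0⟩ := (hW l0 (mem_ball_self D.r_pos)).exists_left heta hx
  obtain ⟨s, L, hs, hsr, h1, h2, h3⟩ := abs_left D.r_pos D.T_diff hL0 (P := P) (by
    intro eps heps
    obtain ⟨l, hl, hl', ha, hb⟩ := sgn_a D heps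
    refine ⟨l, hl, ?_⟩
    have c1 : ContinuousAt D.z1 l := (D.z1_diff.continuousOn).continuousAt (isOpen_ball.mem_nhds hl')
    have c2 : ContinuousAt D.z2 l := (D.z2_diff.continuousOn).continuousAt (isOpen_ball.mem_nhds hl')
    filter_upwards [c1.norm.eventually_const_lt ha, c2.norm.eventually_const_lt hb,
      isOpen_ball.mem_nhds hl'] with l' ha' hb' hl''
    obtain ⟨u1, hu1⟩ := isUnit_S_sub ha'
    obtain ⟨u2, hu2⟩ := isUnit_S_sub hb'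
    have hf := D.fac_T hPhi hl''
    rw [← hu1, ← hu2, ← Units.val_mul] at hf
    have hf' : T (D.Psi l') = (T Phi - l' • (1 : Hardy →L[ℂ] Hardy)) *
        ((u1 * u2)⁻¹ : (Hardy →L[ℂ] Hardy)ˣ) := by
      rw [hf, mul_assoc, Units.mul_inv, mul_one]
    refine ⟨((u1 * u2 : (Hardy →L[ℂ] Hardy)ˣ) : Hardy →L[ℂ] Hardy) *
      (P * (((u1 * u2)⁻¹ : (Hardy →L[ℂ] Hardy)ˣ) : Hardy →L[ℂ] Hardy)), ?_⟩
    have hcomm : P * (T Phi - l' • (1 : Hardy →L[ℂ] Hardy)) =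
        (T Phi - l' • (1 : Hardy →L[ℂ] Hardy)) * P := by
      rw [mul_sub, sub_mul, hP, mul_smul_comm, smul_mul_assoc, mul_one, one_mul]
    calc P * T (D.Psi l') = (P * (T Phi - l' • (1 : Hardy →L[ℂ] Hardy))) *
        (((u1 * u2)⁻¹ : (Hardy →L[ℂ] Hardy)ˣ) : Hardy →L[ℂ] Hardy) := by rw [hf', mul_assoc]
      _ = (T (D.Psi l') * ((u1 * u2 : (Hardy →L[ℂ] Hardy)ˣ) : Hardy →L[ℂ] Hardy)) *
          (P * (((u1 * u2)⁻¹ : (Hardy →L[ℂ] Hardy)ˣ) : Hardy →L[ℂ] Hardy)) := by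
        rw [hcomm, ← hf, mul_assoc]
      _ = _ := by rw [mul_assoc])
  exact ⟨⟨s, L, hs, hsr, h1, h2, h3⟩⟩

/-- The frame of the complementary projection. -/
def Frame.compl {phi : ℂ → ℂ} {l0 : ℂ} {D : LD phi l0} {P Q : Hardy →L[ℂ] Hardy}
    (F : Frame D P) (hQ : Q = 1 - P) : Frame D Q where
  s := F.s
  L := F.L
  s_pos := F.s_pos
  s_le := F.s_le
  L_diff := F.L_diff
  left := F.left
  inv := by
    intro l hl
    have h1 := F.left l hl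
    have h2 := F.inv l hl
    rw [hQ, sub_mul, one_mul, mul_sub, mul_sub, h2, h1, mul_one]

theorem Frame.compl_PP {phi : ℂ → ℂ} {l0 : ℂ} {D : LD phi l0} {P Q : Hardy →L[ℂ] Hardy}
    (F : Frame D P) (hQ : Q = 1 - P) {l : ℂ} (hl : l ∈ ball l0 F.s) :
    (F.compl hQ).PP l = 1 - F.PP l := by
  have h1 := F.left l hl
  change F.L l * (Q * T (D.Psi l)) = 1 - F.L l * (P * T (D.Psi l))
  rw [hQ, sub_mul, one_mul, mul_sub, h1]

/-- `T (Psi l) * PP l = P * T (Psi l)`. -/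
theorem Frame.intertw {phi : ℂ → ℂ} {l0 : ℂ} {D : LD phi l0} {P : Hardy →L[ℂ] Hardy}
    (F : Frame D P) {l : ℂ} (hl : l ∈ ball l0 F.s) : T (D.Psi l) * F.PP l = P * T (D.Psi l) :=
  F.inv l hl

theorem Frame.inj {phi : ℂ → ℂ} {l0 : ℂ} {D : LD phi l0} {P : Hardy →L[ℂ] Hardy}
    (F : Frame D P) {l : ℂ} (hl : l ∈ ball l0 F.s) {f g : Hardy}
    (h : T (D.Psi l) f = T (D.Psi l) g) : f = g := by
  have h1 := F.left l hl
  have h2 : ∀ x, F.L l (T (D.Psi l) x) = x := fun x => by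
    have := congrArg (fun B : Hardy →L[ℂ] Hardy => B x) h1
    simpa using this
  rw [← h2 f, ← h2 g, h]

theorem Frame.cancel {phi : ℂ → ℂ} {l0 : ℂ} {D : LD phi l0} {P : Hardy →L[ℂ] Hardy}
    (F : Frame D P) {l : ℂ} (hl : l ∈ ball l0 F.s) {X Y : Hardy →L[ℂ] Hardy}
    (h : T (D.Psi l) * X = T (D.Psi l) * Y) : X = Y := by
  have h1 := F.left l hl
  rw [← one_mul X, ← one_mul Y, ← h1, mul_assoc, mul_assoc, h]

theorem Frame.PP_idem {phi : ℂ → ℂ} {l0 : ℂ} {D : LD phi l0} {P : Hardy →L[ℂ] Hardy}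
    (F : Frame D P) (hP2 : P * P = P) {l : ℂ} (hl : l ∈ ball l0 F.s) :
    F.PP l * F.PP l = F.PP l := by
  have h1 := F.intertw hl
  apply F.cancel hl
  rw [← mul_assoc, h1, mul_assoc, h1, ← mul_assoc, hP2]

/-- `PP l` intertwines the product of the two linear factors with `P`. -/
theorem Frame.PP_mul {phi : ℂ → ℂ} {Phi : CT} (hPhi : ∀ x, Phi x = phi (e x)) {l0 : ℂ}
    {D : LD phi l0} {P : Hardy →L[ℂ] Hardy} (hP : P * T Phi = T Phi * P)
    (F : Frame D P) {l : ℂ} (hl : l ∈ ball l0 F.s) :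
    F.PP l * ((S - D.z1 l • (1 : Hardy →L[ℂ] Hardy)) * (S - D.z2 l • (1 : Hardy →L[ℂ] Hardy))) =
      ((S - D.z1 l • (1 : Hardy →L[ℂ] Hardy)) * (S - D.z2 l • (1 : Hardy →L[ℂ] Hardy))) * P := by
  have h1 := F.intertw hl
  have h2 := D.fac_T hPhi (ball_subset_ball F.s_le hl)
  have hcomm : P * (T Phi - l • (1 : Hardy →L[ℂ] Hardy)) =
      (T Phi - l • (1 : Hardy →L[ℂ] Hardy)) * P := by
    rw [mul_sub, sub_mul, hP, mul_smul_comm, smul_mul_assoc, mul_one, one_mul]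
  apply F.cancel hl
  rw [← mul_assoc, h1, mul_assoc, ← h2, hcomm, h2, mul_assoc]

end Pool.Agent.TBir
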