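import Pool.Agent.TBir.TpB

/-!
# The semicommutator of a co-analytic and an analytic Toeplitz operator

MODULE. Paper proof. Let `a` be `Plus` and `d` be `Minus`. For `f` in `H2` write
`d f = P (d f) + (1 - P) (d f)` in `L2`. Then `T (a d) f = P (a d f) = P (a P (d f)) + P (a (1-P)(d f))
= T a T d f + P (a (1 - P)(d f))`. Hence
`inner g ((T (a d) - T a T d) f) = inner g (a (1-P)(d f)) = inner (star a g) ((1-P)(d f))`,
and by Parseval (`fourierBasis`) this is the sum over the indices `m < 0`, `m = -(k+1)`, of
`conj (fourierCoeff (star a g) m) * fourierCoeff (d f) m`.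
By `hasSum_fourierCoeff_mul`, `fourierCoeff (d f) (-(k+1)) = sum_n fourierCoeff d (-(k+1) - n) f_n`
(only `n ≥ 0` contributes as `f` is in `H2`), and
`conj (fourierCoeff (star a g) (-(k+1))) = sum_n fourierCoeff a (n + k + 1) conj g_n`
(`fourierCoeff_star`).
-/

open MeasureTheory Complex Set Filter Topology Metric AddCircle
open scoped ComplexConjugate InnerProductSpace ENNReal

namespace Pool.Agent.TBir

namespace TpCAux

theorem co_neg (f : Hardy) (n : ℤ) (hn : n < 0) :
    fourierCoeff (incl f : UnitAddCircle → ℂ) n = 0 := by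
  have h : incl f ∈ H2 := Subtype.mem (f : H2)
  exact h n hn

theorem hasSum_nat (psi : CT) (f : Hardy) (m : ℤ) :
    HasSum (fun n : ℕ => fourierCoeff psi (m - n) * co f n)
      (fourierCoeff (mul psi (incl f) : UnitAddCircle → ℂ) m) := by
  have h := hasSum_fourierCoeff_mul psi (incl f) m
  have hinj : Function.Injective (fun n : ℕ => (n : ℤ)) := Nat.cast_injective
  rw [← hinj.hasSum_iff] at h
  · exact h
  · intro x hx
    have hx0 : x < 0 := by
      by_contra hcon
      push Not at hcon
      exact hx ⟨x.toNat, by simpa using hcon⟩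
    rw [co_neg f x hx0, mul_zero]

theorem inner_proj (g : Hardy) (x : L2) : inner ℂ g (proj x) = inner ℂ (incl g) x := by
  have h := Submodule.inner_orthogonalProjectionOnto_eq_of_mem_left (K := H2) (g : H2) x
  exact h

theorem coeff_eq (x : L2) (n : ℤ) :
    fourierCoeff (x : UnitAddCircle → ℂ) n = inner ℂ (fourierBasis n : L2) x := by
  rw [← fourierBasis_repr, HilbertBasis.repr_apply_apply]

theorem coeff_sub (x y : L2) (n : ℤ) :
    fourierCoeff ((x - y : L2) : UnitAddCircle → ℂ) n =
      fourierCoeff (x : UnitAddCircle → ℂ) n - fourierCoeff (y : UnitAddCircle → ℂ) n := by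
  rw [coeff_eq, coeff_eq, coeff_eq, inner_sub_right]

theorem coeff_compl (x : L2) (n : ℕ) :
    fourierCoeff ((x - incl (proj x) : L2) : UnitAddCircle → ℂ) (n : ℤ) = 0 := by
  rw [coeff_sub, coeff_eq, coeff_eq, coe_fourierBasis]
  have h := inner_proj (mono n) x
  have h2 : inner ℂ (mono n) (proj x) = inner ℂ (incl (mono n)) (incl (proj x)) := rfl
  have h3 : incl (mono n) = (fourierLp 2 (n : ℤ) : L2) := rfl
  rw [h2, h3] at h
  rw [h, sub_self]

end TpCAux

open TpCAux in
theorem hankel {a d : CT} (ha : Plus a) (hd : Minus d) (f g : Hardy) :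
    inner ℂ g ((T (a * d) - T a * T d) f) =
      ∑' k : ℕ, (∑' n : ℕ, fourierCoeff a ((n : ℤ) + k + 1) * conj (co g n)) *
        (∑' n : ℕ, fourierCoeff d (-((n : ℤ) + k + 1)) * co f n) := by
  have e1 : (T (a * d) - T a * T d) f =
      proj (mul a (mul d (incl f))) - proj (mul a (incl (proj (mul d (incl f))))) := by
    have h1 : T (a * d) f = proj (mul (a * d) (incl f)) := rfl
    have h2 : (T a * T d) f = proj (mul a (incl (proj (mul d (incl f))))) := rfl
    rw [sub_apply, h1, h2, mul_mul_symbol]
    rfl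
  rw [e1, inner_sub_right, inner_proj, inner_proj, ← inner_sub_right, ← map_sub,
    inner_mul_symbol]
  set X : L2 := mul d (incl f) with hX
  rw [← (fourierBasis (T := (1 : ℝ))).tsum_inner_mul_inner]
  have hinj : Function.Injective (fun k : ℕ => -((k : ℤ) + 1)) := by
    intro x y hxy
    have : -((x : ℤ) + 1) = -((y : ℤ) + 1) := hxy
    omega
  rw [← hinj.tsum_eq]
  · refine tsum_congr fun k => ?_
    congr 1
    · rw [← inner_conj_symm, ← coeff_eq]
      have h := (hasSum_nat (star a) g (-((k : ℤ) + 1))).star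
      have h2 : (fun n : ℕ => fourierCoeff a ((n : ℤ) + k + 1) * conj (co g n)) =
          fun n : ℕ => star (fourierCoeff (star a : CT) (-((k : ℤ) + 1) - n) * co g n) := by
        funext n
        rw [fourierCoeff_star]
        have h3 : -(-((k : ℤ) + 1) - n) = (n : ℤ) + k + 1 := by ring
        rw [h3]
        simp [mul_comm]
      rw [h2, h.tsum_eq]
      rfl
    · rw [← coeff_eq, coeff_sub, co_neg _ _ (by omega), sub_zero]
      have h := hasSum_nat d f (-((k : ℤ) + 1))
      have h2 : (fun n : ℕ => fourierCoeff d (-((n : ℤ) + k + 1)) * co f n) =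
          fun n : ℕ => fourierCoeff d (-((k : ℤ) + 1) - n) * co f n := by
        funext n
        have h3 : -((n : ℤ) + k + 1) = -((k : ℤ) + 1) - n := by ring
        rw [h3]
      rw [h2, h.tsum_eq]
  · intro m hm
    rw [Function.mem_support] at hm
    by_contra hcon
    apply hm
    have hm0 : 0 ≤ m := by
      by_contra hneg
      push Not at hneg
      refine hcon ⟨(-m - 1).toNat, ?_⟩
      have : (((-m - 1).toNat : ℕ) : ℤ) = -m - 1 := Int.toNat_of_nonneg (by omega)
      simp only [this]
      ring
    obtain ⟨n, rfl⟩ := Int.eq_ofNat_of_zero_le hm0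
    have h := coeff_compl X n
    rw [coeff_eq] at h
    rw [h, mul_zero]

end Pool.Agent.TBir
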