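import Pool.Agent.TBir.Sdef

/-!
# Completely irreducible Toeplitz operators: definitions

The Hardy space `H2` as a closed subspace of `L2` of the circle (written additively, `UnitAddCircle`),
the multiplication operator `mul psi` and the Toeplitz operator `T psi` of a continuous function,
completely irreducible operators, winding numbers, normal curves.
-/

open MeasureTheory Complex Set Filter Topology Metric AddCircle
open scoped ComplexConjugate InnerProductSpace ENNReal

namespace Pool.Agent.TBir

/-- Continuous functions on the circle. -/
abbrev CT : Type := C(UnitAddCircle, ℂ)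

theorem mem_H2 (f : L2) :
    f ∈ H2 ↔ ∀ n : ℤ, n < 0 → fourierCoeff (f : UnitAddCircle → ℂ) n = 0 := Iff.rfl

theorem isClosed_H2 : IsClosed (H2 : Set L2) := by
  have : (H2 : Set L2) = ⋂ n : ℤ, ⋂ _ : n < 0, {f : L2 | inner ℂ (fourierBasis n : L2) f = 0} := by
    ext f
    simp only [mem_iInter, mem_ofPred_eq, SetLike.mem_coe, mem_H2]
    constructor
    · intro h n hn
      have := h n hn
      rwa [← fourierBasis_repr, HilbertBasis.repr_apply_apply] at this
    · intro h n hn
      have := h n hn
      rwa [← fourierBasis_repr, HilbertBasis.repr_apply_apply]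
  rw [this]
  refine isClosed_iInter fun n => isClosed_iInter fun _ => isClosed_eq ?_ continuous_const
  exact continuous_const.inner continuous_id

instance : CompleteSpace H2 := isClosed_H2.completeSpace_coe

/-- The Hardy space as a Hilbert space (the subspace `H2` with the inner product of `L2`). -/
def Hardy : Type := H2

noncomputable instance : NormedAddCommGroup Hardy := inferInstanceAs (NormedAddCommGroup H2)

noncomputable instance : InnerProductSpace ℂ Hardy := inferInstanceAs (InnerProductSpace ℂ H2)

instance : CompleteSpace Hardy := inferInstanceAs (CompleteSpace H2)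

/-- The inclusion of the Hardy space in `L2`. -/
noncomputable def incl : Hardy →L[ℂ] L2 := H2.subtypeL

/-- The orthogonal projection of `L2` onto the Hardy space. -/
noncomputable def proj : L2 →L[ℂ] Hardy := H2.orthogonalProjectionOnto

/-- The multiplication operator `f ↦ psi f` on `L2`. -/
noncomputable def mul (psi : CT) : L2 →L[ℂ] L2 :=
  (ContinuousLinearMap.mul ℂ ℂ).holderL (haarAddCircle (T := (1 : ℝ))) ∞ 2 2
    (ContinuousMap.toLp (p := ∞) haarAddCircle ℂ psi)

/-- The Toeplitz operator `f ↦ P (psi f)` on the Hardy space, `P` the orthogonal projection. -/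
noncomputable def T (psi : CT) : Hardy →L[ℂ] Hardy := proj ∘L mul psi ∘L incl

/-- An operator is completely irreducible if the space is not the direct sum of two closed invariant
subspaces, both different from the null space. -/
def CompletelyIrreducible {H : Type*} [NormedAddCommGroup H] [NormedSpace ℂ H]
    (A : H →L[ℂ] H) : Prop :=
  ∀ M N : Submodule ℂ H, IsClosed (M : Set H) → IsClosed (N : Set H) →
    (∀ f ∈ M, A f ∈ M) → (∀ f ∈ N, A f ∈ N) → M ⊓ N = ⊥ → M ⊔ N = ⊤ → M = ⊥ ∨ N = ⊥

/-- The curve `phi(circle)`. -/
def J (phi : ℂ → ℂ) : Set ℂ := phi '' sphere 0 1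

end Pool.Agent.TBir
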