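import Pool.Agent.TBir.TpB

/-!
# Coefficients and evaluation functionals on `H2`

MODULE. `coL n = innerSL (mono n)`, `ev z = sum z^n coL n` (a norm convergent series of functionals
for `|z| < 1`).

Proofs. `coL_apply`: `fourierBasis_repr`, `HilbertBasis.repr_apply_apply`, `coe_fourierBasis`.
`norm_coL_le`: `‖mono n‖ = 1`. `hasSum_ev`: apply the summable series to `f`
(`ContinuousLinearMap.apply`). `ev_diffOn`: the power series has norm-bounded coefficients
(`differentiableOn_tsum_of_summable_norm`, or `FormalMultilinearSeries`).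
`ev_S`: `co (S f) 0 = 0`, `co (S f) (n+1) = co f n` from `hasSum_co_T` and
`fourierCoeff (fourier 1) k = 1` if `k = 1`, `0` otherwise. Parseval: `tsum_sq_fourierCoeff` or
`HilbertBasis`, the negative coefficients vanish.
-/

open MeasureTheory Complex Set Filter Topology Metric AddCircle
open scoped ComplexConjugate InnerProductSpace ENNReal

namespace Pool.Agent.TBir

theorem norm_mono (n : ℕ) : ‖mono n‖ = 1 := by
  have h := (orthonormal_fourier (T := (1 : ℝ))).1 (n : ℤ)
  exact h

theorem proj_incl (f : Hardy) : proj (incl f) = f :=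
  Submodule.orthogonalProjectionOnto_mem_subspace_eq_self (K := H2) f

/-- Sums over the integers of a function which vanishes at the negative ones. -/
theorem hasSum_nat_iff_int {E : Type*} [AddCommMonoid E] [TopologicalSpace E] (g : ℤ → E) (a : E)
    (hg : ∀ m : ℤ, m < 0 → g m = 0) : HasSum (fun n : ℕ => g (n : ℤ)) a ↔ HasSum g a := by
  have hinj : Function.Injective (fun n : ℕ => (n : ℤ)) := fun a b h => Int.ofNat_inj.mp h
  refine hinj.hasSum_iff (f := g) ?_
  intro m hm
  apply hg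
  by_contra hcon
  push Not at hcon
  exact hm ⟨m.toNat, Int.toNat_of_nonneg hcon⟩

theorem hasSum_of_eq {E ι : Type*} [AddCommMonoid E] [TopologicalSpace E]
    {f g : ι → E} {a : E} (h : HasSum f a) (hfg : ∀ i, g i = f i) : HasSum g a := by
  have : g = f := funext hfg
  rw [this]
  exact h

theorem coL_apply (n : ℕ) (f : Hardy) : coL n f = co f n := by
  change inner ℂ (mono n) f = co f n
  unfold co
  rw [← fourierBasis_repr, HilbertBasis.repr_apply_apply, coe_fourierBasis]
  rfl

theorem co_add (f g : Hardy) (n : ℕ) : co (f + g) n = co f n + co g n := by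
  rw [← coL_apply, ← coL_apply, ← coL_apply, map_add]

theorem co_smul (c : ℂ) (f : Hardy) (n : ℕ) : co (c • f) n = c * co f n := by
  rw [← coL_apply, ← coL_apply, map_smul, smul_eq_mul]

theorem norm_coL_le (n : ℕ) : ‖coL n‖ ≤ 1 := by
  refine ContinuousLinearMap.opNorm_le_bound _ zero_le_one fun f => ?_
  change ‖inner ℂ (mono n) f‖ ≤ 1 * ‖f‖
  have h := norm_inner_le_norm (𝕜 := ℂ) (mono n) f
  rwa [norm_mono] at h

theorem co_mono (k n : ℕ) : co (mono k) n = if n = k then 1 else 0 := by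
  unfold co
  have h : (incl (mono k) : L2) = fourierBasis (k : ℤ) := by
    rw [coe_fourierBasis]
    rfl
  rw [h, ← fourierBasis_repr, HilbertBasis.repr_self]
  by_cases hnk : n = k
  · subst hnk
    simp
  · have h2 : (n : ℤ) ≠ (k : ℤ) := by
      intro h3
      exact hnk (by exact_mod_cast h3)
    rw [if_neg hnk]
    simp [lp.single_apply, h2]

theorem hasSum_sq_co (f : Hardy) : HasSum (fun n => ‖co f n‖ ^ 2) (‖f‖ ^ 2) := by
  have H1 : HasSum (fun i : ℤ => ‖fourierBasis.repr (incl f) i‖ ^ 2)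
      (‖fourierBasis.repr (incl f)‖ ^ 2) := by
    apply_mod_cast lp.hasSum_norm ?_ (fourierBasis.repr (incl f))
    simp
  have H2' : ‖fourierBasis.repr (incl f)‖ ^ 2 = ‖f‖ ^ 2 := by
    rw [LinearIsometryEquiv.norm_map]
    rfl
  rw [H2'] at H1
  have H3 := (hasSum_nat_iff_int (fun i : ℤ => ‖fourierBasis.repr (incl f) i‖ ^ 2) (‖f‖ ^ 2) ?_).mpr H1
  · refine hasSum_of_eq H3 ?_
    intro n
    unfold co
    rw [fourierBasis_repr]
  · intro m hm
    have := f.2 m hm
    rw [fourierBasis_repr]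
    change ‖fourierCoeff (incl f : UnitAddCircle → ℂ) m‖ ^ 2 = 0
    have h4 : fourierCoeff (incl f : UnitAddCircle → ℂ) m = 0 := this
    rw [h4]
    simp

/-- `f` is the sum of its monomials. -/
theorem hasSum_mono (f : Hardy) : HasSum (fun n => co f n • mono n) f := by
  have h1 := hasSum_fourier_series_L2 (incl f)
  have h2 := (hasSum_nat_iff_int (fun i : ℤ => fourierCoeff (incl f : UnitAddCircle → ℂ) i •
    (fourierLp 2 i : L2)) (incl f) ?_).mpr h1
  · have h3 : HasSum (fun n : ℕ => incl (co f n • mono n)) (incl f) := by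
      refine hasSum_of_eq h2 ?_
      intro n
      rw [map_smul]
      rfl
    have h4 : HasSum (fun n : ℕ => proj (incl (co f n • mono n))) (proj (incl f)) :=
      h3.mapL proj
    simp only [proj_incl] at h4
    exact h4
  · intro m hm
    have h4 : fourierCoeff (incl f : UnitAddCircle → ℂ) m = 0 := f.2 m hm
    rw [h4, zero_smul]

theorem ext_co {f g : Hardy} (h : ∀ n, co f n = co g n) : f = g := by
  have h1 := hasSum_mono f
  have h2 := hasSum_mono g
  simp_rw [h] at h1
  exact h1.unique h2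

theorem norm_term_le (z : ℂ) (n : ℕ) : ‖z ^ n • coL n‖ ≤ ‖z‖ ^ n := by
  rw [norm_smul, norm_pow]
  exact mul_le_of_le_one_right (by positivity) (norm_coL_le n)

theorem summable_evL {z : ℂ} (hz : ‖z‖ < 1) : Summable fun n : ℕ => z ^ n • coL n :=
  Summable.of_norm_bounded (summable_geometric_of_lt_one (norm_nonneg z) hz)
    fun n => norm_term_le z n

theorem norm_co_le (f : Hardy) (n : ℕ) : ‖co f n‖ ≤ ‖f‖ := by
  rw [← coL_apply]
  have := (coL n).le_of_opNorm_le (norm_coL_le n) f
  rwa [one_mul] at this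

theorem hasSum_ev {z : ℂ} (hz : ‖z‖ < 1) (f : Hardy) : HasSum (fun n => co f n * z ^ n) (ev z f) := by
  have h := (summable_evL hz).hasSum
  have h2 : HasSum (fun n : ℕ => (z ^ n • coL n) f) ((∑' n : ℕ, z ^ n • coL n) f) :=
    h.mapL (ContinuousLinearMap.apply ℂ ℂ f)
  refine hasSum_of_eq h2 ?_
  intro n
  rw [smul_apply, coL_apply, smul_eq_mul, mul_comm]

theorem norm_ev_le {z : ℂ} (hz : ‖z‖ < 1) (f : Hardy) : ‖ev z f‖ ≤ (1 - ‖z‖)⁻¹ * ‖f‖ := by
  have h := tsum_geometric_of_norm_lt_one hz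
  have h1 : ‖ev z‖ ≤ (1 - ‖z‖)⁻¹ := by
    have h2 : HasSum (fun n : ℕ => ‖z‖ ^ n) (1 - ‖z‖)⁻¹ :=
      hasSum_geometric_of_lt_one (norm_nonneg z) hz
    exact tsum_of_norm_bounded h2 fun n => norm_term_le z n
  exact ContinuousLinearMap.le_of_opNorm_le _ h1 f

theorem ev_diffOn : DifferentiableOn ℂ ev (ball 0 1) := by
  intro z hz
  have hz' : ‖z‖ < 1 := by simpa using hz
  obtain ⟨r, hr1, hr2⟩ := exists_between hz'
  have hr0 : 0 ≤ r := (norm_nonneg z).trans hr1.le
  have h : DifferentiableOn ℂ (fun w : ℂ => ∑' n : ℕ, w ^ n • coL n) (ball 0 r) := by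
    refine differentiableOn_tsum_of_summable_norm (u := fun n : ℕ => r ^ n)
      (summable_geometric_of_lt_one hr0 hr2) ?_ isOpen_ball ?_
    · intro n
      exact ((differentiable_id.pow n).smul_const (coL n)).differentiableOn
    · intro n w hw
      have hw' : ‖w‖ ≤ r := by
        have : ‖w‖ < r := by simpa using hw
        exact this.le
      exact (norm_term_le w n).trans (pow_le_pow_left₀ (norm_nonneg w) hw' n)
  have hmem : ball (0 : ℂ) r ∈ 𝓝 z := isOpen_ball.mem_nhds (by simpa using hr1)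
  exact (h.differentiableAt hmem).differentiableWithinAt

theorem ev_mono {z : ℂ} (hz : ‖z‖ < 1) (n : ℕ) : ev z (mono n) = z ^ n := by
  have h := hasSum_ev hz (mono n)
  have h2 : HasSum (fun m : ℕ => co (mono n) m * z ^ m) (co (mono n) n * z ^ n) := by
    refine hasSum_single n ?_
    intro m hm
    rw [co_mono, if_neg hm, zero_mul]
  rw [h.unique h2, co_mono, if_pos rfl, one_mul]

theorem co_S_zero (f : Hardy) : co (S f) 0 = 0 := by
  have h := hasSum_co_T (fourier 1) f 0
  have h2 : HasSum (fun n : ℕ => fourierCoeff (fourier 1 : CT) (((0 : ℕ) : ℤ) - n) * co f n) 0 := by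
    have : (fun n : ℕ => fourierCoeff (fourier 1 : CT) (((0 : ℕ) : ℤ) - n) * co f n) = fun _ => 0 := by
      funext n
      rw [fourierCoeff_fourier, Pi.single_eq_of_ne (by omega), zero_mul]
    rw [this]
    exact hasSum_zero
  exact h.unique h2

theorem co_S_succ (f : Hardy) (n : ℕ) : co (S f) (n + 1) = co f n := by
  have h := hasSum_co_T (fourier 1) f (n + 1)
  have h2 : HasSum (fun m : ℕ => fourierCoeff (fourier 1 : CT) (((n + 1 : ℕ) : ℤ) - m) * co f m)
      (fourierCoeff (fourier 1 : CT) (((n + 1 : ℕ) : ℤ) - n) * co f n) := by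
    refine hasSum_single n ?_
    intro m hm
    rw [fourierCoeff_fourier, Pi.single_eq_of_ne (by omega), zero_mul]
  have h3 := h.unique h2
  have h4 : (((n + 1 : ℕ) : ℤ) - n) = 1 := by push_cast; ring
  rw [fourierCoeff_fourier, h4, Pi.single_eq_same, one_mul] at h3
  exact h3

theorem co_Sa (f : Hardy) (n : ℕ) : co (Sa f) n = co f (n + 1) := by
  have h := hasSum_co_T (fourier (-1)) f n
  have h2 : HasSum (fun m : ℕ => fourierCoeff (fourier (-1) : CT) ((n : ℤ) - m) * co f m)
      (fourierCoeff (fourier (-1) : CT) ((n : ℤ) - ((n + 1 : ℕ) : ℤ)) * co f (n + 1)) := by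
    refine hasSum_single (n + 1) ?_
    intro m hm
    rw [fourierCoeff_fourier, Pi.single_eq_of_ne (by omega), zero_mul]
  have h3 := h.unique h2
  have h4 : ((n : ℤ) - ((n + 1 : ℕ) : ℤ)) = -1 := by push_cast; ring
  rw [fourierCoeff_fourier, h4, Pi.single_eq_same, one_mul] at h3
  exact h3

theorem ev_S {z : ℂ} (hz : ‖z‖ < 1) (f : Hardy) : ev z (S f) = z * ev z f := by
  have h := hasSum_ev hz (S f)
  have h1 := (hasSum_nat_add_iff' (f := fun n : ℕ => co (S f) n * z ^ n) 1).mpr h
  have h2 : HasSum (fun n : ℕ => z * (co f n * z ^ n)) (z * ev z f) :=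
    (hasSum_ev hz f).mul_left z
  have h3 : HasSum (fun n : ℕ => z * (co f n * z ^ n))
      (ev z (S f) - ∑ i ∈ Finset.range 1, co (S f) i * z ^ i) := by
    refine hasSum_of_eq h1 ?_
    intro n
    rw [co_S_succ]
    ring
  have h4 := h3.unique h2
  rw [Finset.sum_range_one, co_S_zero, zero_mul, sub_zero] at h4
  exact h4

theorem summable_FF (f : Hardy) {t : ℝ} (ht : 0 ≤ t) (ht1 : t < 1) :
    Summable fun n : ℕ => ‖co f n‖ * t ^ n := by
  refine Summable.of_nonneg_of_le (fun n => by positivity) (fun n => ?_)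
    ((summable_geometric_of_lt_one ht ht1).mul_left ‖f‖)
  exact mul_le_mul_of_nonneg_right (norm_co_le f n) (by positivity)

theorem FF_nonneg (f : Hardy) {t : ℝ} (ht : 0 ≤ t) : 0 ≤ FF f t :=
  tsum_nonneg fun _ => by positivity

theorem FF_mono (f : Hardy) {s t : ℝ} (hs : 0 ≤ s) (hst : s ≤ t) (ht1 : t < 1) : FF f s ≤ FF f t := by
  refine (summable_FF f hs (hst.trans_lt ht1)).tsum_le_tsum ?_ (summable_FF f (hs.trans hst) ht1)
  intro n
  exact mul_le_mul_of_nonneg_left (pow_le_pow_left₀ hs hst n) (norm_nonneg _)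

theorem norm_ev_le_FF {z : ℂ} (hz : ‖z‖ < 1) (f : Hardy) : ‖ev z f‖ ≤ FF f ‖z‖ := by
  have h := hasSum_ev hz f
  have hs := summable_FF f (norm_nonneg z) hz
  rw [← h.tsum_eq]
  have h2 : (fun n : ℕ => ‖co f n * z ^ n‖) = fun n : ℕ => ‖co f n‖ * ‖z‖ ^ n := by
    funext n
    rw [norm_mul, norm_pow]
  have h3 : Summable fun n : ℕ => ‖co f n * z ^ n‖ := by
    rw [h2]
    exact hs
  calc ‖∑' n : ℕ, co f n * z ^ n‖ ≤ ∑' n : ℕ, ‖co f n * z ^ n‖ := norm_tsum_le_tsum_norm h3
    _ = FF f ‖z‖ := by rw [h2]; rfl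

end Pool.Agent.TBir
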