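import Pool.Agent.TBir.EvA

/-!
# Uniqueness, division, the operators `S - a`

MODULE. Proofs.
`ev_ext`: `z ↦ ev z f` is analytic on the unit disc (`ev_diffOn`), so it vanishes on the disc
(identity theorem); it is the power series of the coefficients (`hasSum_ev`), so all coefficients
vanish (`HasFPowerSeriesAt.eq_zero` or: successive division) and `f = 0` (`ext_co`).

`div_of_ev`: let `|z| < 1` and `ev z f = 0`. Put `h_n = sum_{j ≥ 0} f_{n+1+j} z^j` (the coefficient
sequence `sum_j z^j Sa^{j+1} f`, a norm convergent series in `H2` as `‖Sa‖ ≤ 1`: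
`h = sum_j z^j • Sa^(j+1) f`). Then `h_{n-1} - z h_n = f_n` for `n ≥ 1` and `- z h_0 = f_0 - ev z f = f_0`,
i.e. `S h - z h = f` coefficientwise (`ext_co`).

`S_sub_injective`: if `S f = a f` then `(z - a) ev z f = 0` for all `z` in the disc, so `ev z f = 0`
for `z ≠ a`, an open nonempty subset of the disc.

`isUnit_S_sub`: `‖S‖ ≤ 1` (`norm_T_le`, `fourier_norm`) and `|a| > 1`: `S - a = -a (1 - a⁻¹ S)`,
`Units.oneSub` or `spectrum.norm_le_norm_of_mem`.
-/

open MeasureTheory Complex Set Filter Topology Metric AddCircle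
open scoped ComplexConjugate InnerProductSpace ENNReal

namespace Pool.Agent.TBir

theorem norm_S_le : ‖S‖ ≤ 1 := by
  have h := norm_T_le (fourier 1)
  rw [fourier_norm] at h
  exact h

theorem norm_Sa_le : ‖Sa‖ ≤ 1 := by
  have h := norm_T_le (fourier (-1))
  rw [fourier_norm] at h
  exact h

theorem evB_norm_Sa (f : Hardy) : ‖Sa f‖ ≤ ‖f‖ := by
  have h := Sa.le_of_opNorm_le norm_Sa_le f
  rwa [one_mul] at h

theorem evB_norm_iter (f : Hardy) (j : ℕ) : ‖Sa^[j] f‖ ≤ ‖f‖ := by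
  induction j with
  | zero => exact le_rfl
  | succ j ih =>
    rw [Function.iterate_succ_apply']
    exact (evB_norm_Sa _).trans ih

theorem evB_co_iter (f : Hardy) (j n : ℕ) : co (Sa^[j] f) n = co f (n + j) := by
  induction j generalizing n with
  | zero => rfl
  | succ j ih =>
    rw [Function.iterate_succ_apply', co_Sa, ih]
    congr 1
    omega

theorem evB_zero (f : Hardy) : ev 0 f = co f 0 := by
  have h := hasSum_ev (z := 0) (by simp) f
  have h2 : HasSum (fun n : ℕ => co f n * (0 : ℂ) ^ n) (co f 0 * (0 : ℂ) ^ 0) := by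
    refine hasSum_single 0 fun n hn => ?_
    rw [zero_pow hn, mul_zero]
  rw [pow_zero, mul_one] at h2
  exact h.unique h2

theorem evB_Sa {z : ℂ} (hz : ‖z‖ < 1) (f : Hardy) : z * ev z (Sa f) = ev z f - co f 0 := by
  have h1 := (hasSum_ev hz (Sa f)).mul_left z
  have h2 := hasSum_ev hz f
  have h3 : HasSum (fun n : ℕ => co f (n + 1) * z ^ (n + 1)) (ev z f - co f 0) := by
    have h4 := (hasSum_nat_add_iff' (f := fun n : ℕ => co f n * z ^ n) 1).2 h2
    simpa using h4
  have e : (fun n : ℕ => z * (co (Sa f) n * z ^ n)) = fun n : ℕ => co f (n + 1) * z ^ (n + 1) := by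
    funext n
    rw [co_Sa, pow_succ]
    ring
  rw [e] at h1
  exact h1.unique h3

theorem evB_cont (f : Hardy) : ContinuousAt (fun z : ℂ => ev z f) 0 := by
  have h : DifferentiableOn ℂ (fun z : ℂ => ev z f) (ball 0 1) :=
    ev_diffOn.clm_apply (differentiableOn_const f)
  exact (h.continuousOn).continuousAt (isOpen_ball.mem_nhds (mem_ball_self one_pos))

theorem evB_step {f : Hardy} (h : ∀ z ∈ ball (0 : ℂ) 1, ev z f = 0) :
    co f 0 = 0 ∧ ∀ z ∈ ball (0 : ℂ) 1, ev z (Sa f) = 0 := by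
  have h0 : co f 0 = 0 := by
    rw [← evB_zero]
    exact h 0 (mem_ball_self one_pos)
  refine ⟨h0, ?_⟩
  have hne : ∀ z ∈ ball (0 : ℂ) 1, z ≠ 0 → ev z (Sa f) = 0 := by
    intro z hz hz0
    have hz1 : ‖z‖ < 1 := by simpa using hz
    have h1 := evB_Sa hz1 f
    rw [h z hz, h0, sub_zero] at h1
    exact (mul_eq_zero.1 h1).resolve_left hz0
  intro z hz
  by_cases hz0 : z = 0
  · rw [hz0]
    have hc := (evB_cont (Sa f)).tendsto
    have hc1 : Tendsto (fun z : ℂ => ev z (Sa f)) (𝓝[≠] 0) (𝓝 (ev 0 (Sa f))) :=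
      hc.mono_left nhdsWithin_le_nhds
    have hc2 : Tendsto (fun z : ℂ => ev z (Sa f)) (𝓝[≠] 0) (𝓝 0) := by
      refine (tendsto_const_nhds).congr' ?_
      have hb : ∀ᶠ z : ℂ in 𝓝[≠] 0, z ∈ ball (0 : ℂ) 1 :=
        nhdsWithin_le_nhds (isOpen_ball.mem_nhds (mem_ball_self one_pos))
      filter_upwards [hb, self_mem_nhdsWithin] with w hw hw0
      exact (hne w hw hw0).symm
    exact tendsto_nhds_unique hc1 hc2
  · exact hne z hz hz0

theorem evB_ball {f : Hardy} (h : ∀ z ∈ ball (0 : ℂ) 1, ev z f = 0) : f = 0 := by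
  have hz : ∀ j : ℕ, ∀ z ∈ ball (0 : ℂ) 1, ev z (Sa^[j] f) = 0 := by
    intro j
    induction j with
    | zero => exact h
    | succ j ih =>
      rw [Function.iterate_succ_apply']
      exact (evB_step ih).2
  refine ext_co fun n => ?_
  have h1 := (evB_step (hz n)).1
  rw [evB_co_iter, zero_add] at h1
  rw [h1, ← coL_apply, map_zero]

theorem ev_ext {U : Set ℂ} (hU : IsOpen U) (hne : U.Nonempty) (hsub : U ⊆ ball 0 1) {f : Hardy}
    (h : ∀ z ∈ U, ev z f = 0) : f = 0 := by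
  refine evB_ball ?_
  have hd : DifferentiableOn ℂ (fun z : ℂ => ev z f) (ball 0 1) :=
    ev_diffOn.clm_apply (differentiableOn_const f)
  have ha : AnalyticOnNhd ℂ (fun z : ℂ => ev z f) (ball 0 1) := hd.analyticOnNhd isOpen_ball
  obtain ⟨u, hu⟩ := hne
  have hpre : IsPreconnected (ball (0 : ℂ) 1) := (convex_ball 0 1).isPreconnected
  have hev : (fun z : ℂ => ev z f) =ᶠ[𝓝 u] 0 := by
    filter_upwards [hU.mem_nhds hu] with z hz
    exact h z hz
  intro z hz
  exact ha.eqOn_zero_of_preconnected_of_eventuallyEq_zero hpre (hsub hu) hev hz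

theorem div_of_ev {z : ℂ} (hz : ‖z‖ < 1) {f : Hardy} (h : ev z f = 0) :
    ∃ g : Hardy, (S - z • (1 : Hardy →L[ℂ] Hardy)) g = f := by
  have hsum : Summable (fun j : ℕ => z ^ j • Sa^[j + 1] f) := by
    refine Summable.of_norm_bounded
      ((summable_geometric_of_lt_one (norm_nonneg z) hz).mul_right ‖f‖) fun j => ?_
    rw [norm_smul, norm_pow]
    exact mul_le_mul_of_nonneg_left (evB_norm_iter f (j + 1)) (by positivity)
  obtain ⟨g, hg⟩ := hsum
  have hco : ∀ n : ℕ, HasSum (fun j : ℕ => co f (n + 1 + j) * z ^ j) (co g n) := by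
    intro n
    have h1 := (coL n).hasSum hg
    rw [coL_apply] at h1
    convert h1 using 1
    funext j
    rw [map_smul, coL_apply, evB_co_iter, smul_eq_mul, mul_comm]
    congr 2
    omega
  refine ⟨g, ext_co fun n => ?_⟩
  have e : (S - z • (1 : Hardy →L[ℂ] Hardy)) g = S g - z • g := rfl
  have e2 : co (S g - z • g) n = co (S g) n - z * co g n := by
    rw [← coL_apply, map_sub, map_smul, coL_apply, coL_apply, smul_eq_mul]
  rw [e, e2]
  cases n with
  | zero =>
    rw [co_S_zero]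
    have h2 := hasSum_ev hz f
    rw [h] at h2
    have h4 := (hasSum_nat_add_iff' (f := fun n : ℕ => co f n * z ^ n) 1).2 h2
    have h5 := (hco 0).mul_left z
    have e4 : (fun j : ℕ => z * (co f (0 + 1 + j) * z ^ j)) =
        fun j : ℕ => co f (j + 1) * z ^ (j + 1) := by
      funext j
      rw [pow_succ]
      have e3 : 0 + 1 + j = j + 1 := by omega
      rw [e3]
      ring
    rw [e4] at h5
    have h6 : z * co g 0 = 0 - ∑ i ∈ Finset.range 1, co f i * z ^ i := h5.unique h4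
    rw [h6]
    simp
  | succ n =>
    rw [co_S_succ]
    have h4 := (hasSum_nat_add_iff' (f := fun j : ℕ => co f (n + 1 + j) * z ^ j) 1).2 (hco n)
    have h5 := (hco (n + 1)).mul_left z
    have e4 : (fun j : ℕ => z * (co f (n + 1 + 1 + j) * z ^ j)) =
        fun j : ℕ => co f (n + 1 + (j + 1)) * z ^ (j + 1) := by
      funext j
      rw [pow_succ]
      have e3 : n + 1 + 1 + j = n + 1 + (j + 1) := by omega
      rw [e3]
      ring
    rw [e4] at h5
    have h6 : z * co g (n + 1) = co g n - ∑ i ∈ Finset.range 1, co f (n + 1 + i) * z ^ i :=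
      h5.unique h4
    rw [h6]
    simp

theorem ev_S_sub {z : ℂ} (hz : ‖z‖ < 1) (a : ℂ) (f : Hardy) :
    ev z ((S - a • (1 : Hardy →L[ℂ] Hardy)) f) = (z - a) * ev z f := by
  have h : (S - a • (1 : Hardy →L[ℂ] Hardy)) f = S f - a • f := rfl
  rw [h, map_sub, map_smul, ev_S hz, smul_eq_mul]
  ring

theorem S_sub_injective (a : ℂ) : Function.Injective (S - a • (1 : Hardy →L[ℂ] Hardy)) := by
  rw [injective_iff_map_eq_zero]
  intro f hf
  have hU : IsOpen (ball (0 : ℂ) 1 \ {a}) := isOpen_ball.sdiff isClosed_singleton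
  have hne : (ball (0 : ℂ) 1 \ {a}).Nonempty := by
    by_cases ha : a = 0
    · refine ⟨1 / 2, ?_, ?_⟩
      · rw [mem_ball_zero_iff]
        norm_num
      · rw [ha]
        norm_num
    · exact ⟨0, mem_ball_self one_pos, fun h => ha (h : (0 : ℂ) = a).symm⟩
  refine ev_ext hU hne sdiff_subset ?_
  intro z hz
  have hz1 : ‖z‖ < 1 := by simpa using hz.1
  have h := ev_S_sub hz1 a f
  rw [hf, map_zero] at h
  have h2 : z - a ≠ 0 := sub_ne_zero.2 hz.2
  exact (mul_eq_zero.1 h.symm).resolve_left h2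

theorem isUnit_S_sub {a : ℂ} (ha : 1 < ‖a‖) : IsUnit (S - a • (1 : Hardy →L[ℂ] Hardy)) := by
  have ha0 : a ≠ 0 := by
    intro h
    rw [h, norm_zero] at ha
    linarith
  have h1 : ‖a⁻¹ • S‖ < 1 := by
    rw [norm_smul, norm_inv]
    calc ‖a‖⁻¹ * ‖S‖ ≤ ‖a‖⁻¹ * 1 := mul_le_mul_of_nonneg_left norm_S_le (by positivity)
      _ < 1 := by
        rw [mul_one]
        exact inv_lt_one_of_one_lt₀ ha
  have h2 : IsUnit (1 - a⁻¹ • S) := isUnit_one_sub_of_norm_lt_one h1
  have h3 : IsUnit ((-a) • (1 : Hardy →L[ℂ] Hardy)) := by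
    have h4 : IsUnit (algebraMap ℂ (Hardy →L[ℂ] Hardy) (-a)) :=
      (IsUnit.mk0 _ (neg_ne_zero.2 ha0)).map _
    rwa [Algebra.algebraMap_eq_smul_one] at h4
  have h5 := h3.mul h2
  have e : ((-a) • (1 : Hardy →L[ℂ] Hardy)) * (1 - a⁻¹ • S) =
      S - a • (1 : Hardy →L[ℂ] Hardy) := by
    rw [smul_mul_assoc, one_mul, smul_sub, smul_smul, neg_mul, mul_inv_cancel₀ ha0, neg_smul,
      neg_smul, one_smul]
    abel
  rwa [e] at h5

theorem S_sub_comm (a b : ℂ) : (S - a • (1 : Hardy →L[ℂ] Hardy)) * (S - b • (1 : Hardy →L[ℂ] Hardy)) =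
    (S - b • (1 : Hardy →L[ℂ] Hardy)) * (S - a • (1 : Hardy →L[ℂ] Hardy)) := by
  simp only [sub_mul, mul_sub, smul_mul_assoc, mul_smul_comm, one_mul, mul_one, smul_sub, smul_smul]
  rw [mul_comm b a]
  abel

end Pool.Agent.TBir
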