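import Pool.Agent.TBir.EvB

/-!
# The backward shift

MODULE. Proofs. `isUnit_one_sub`: `‖z Sa‖ < 1` (`norm_Sa_le`).

`lim_Sa`: put `R_z = (1 - z Sa)⁻¹ = sum z^j Sa^j`, so `‖R_z‖ ≤ 1/(1-|z|)`. Given `eps`, choose a
polynomial `p = sum_{n < N} y_n mono n` with `‖y - p‖ < eps/2` (`hasSum_mono`). Then
`(1-|z|) ‖R_z (y - p)‖ < eps/2`, and `Sa^j p = 0` for `j ≥ N` (`co_Sa`), so
`‖R_z p‖` is bounded and `(1-|z|) ‖R_z p‖ < eps/2` for `1 - |z|` small.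
-/

open MeasureTheory Complex Set Filter Topology Metric AddCircle
open scoped ComplexConjugate InnerProductSpace ENNReal

namespace Pool.Agent.TBir

theorem isUnit_one_sub {z : ℂ} (hz : ‖z‖ < 1) : IsUnit ((1 : Hardy →L[ℂ] Hardy) - z • Sa) := by
  have h1 : ‖z • Sa‖ < 1 := by
    calc ‖z • Sa‖ = ‖z‖ * ‖Sa‖ := norm_smul _ _
      _ ≤ ‖z‖ * 1 := mul_le_mul_of_nonneg_left norm_Sa_le (norm_nonneg _)
      _ < 1 := by rwa [mul_one]
  exact isUnit_one_sub_of_norm_lt_one h1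

theorem EvC_apply (z : ℂ) (h : Hardy) :
    ((1 : Hardy →L[ℂ] Hardy) - z • Sa) h = h - z • Sa h := rfl

theorem norm_le_of_one_sub {z : ℂ} (hz : ‖z‖ < 1) {h y : Hardy}
    (hh : ((1 : Hardy →L[ℂ] Hardy) - z • Sa) h = y) : (1 - ‖z‖) * ‖h‖ ≤ ‖y‖ := by
  rw [EvC_apply] at hh
  have h1 : h = y + z • Sa h := by
    rw [← hh]
    abel
  have h2 : ‖Sa h‖ ≤ ‖h‖ := by
    calc ‖Sa h‖ ≤ ‖Sa‖ * ‖h‖ := Sa.le_opNorm h
      _ ≤ 1 * ‖h‖ := mul_le_mul_of_nonneg_right norm_Sa_le (norm_nonneg _)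
      _ = ‖h‖ := one_mul _
  have h3 : ‖h‖ ≤ ‖y‖ + ‖z‖ * ‖h‖ := by
    calc ‖h‖ = ‖y + z • Sa h‖ := by rw [← h1]
      _ ≤ ‖y‖ + ‖z • Sa h‖ := norm_add_le _ _
      _ = ‖y‖ + ‖z‖ * ‖Sa h‖ := by rw [norm_smul]
      _ ≤ ‖y‖ + ‖z‖ * ‖h‖ := by
        have := mul_le_mul_of_nonneg_left h2 (norm_nonneg z)
        linarith
  linarith

theorem EvC_bdd (N : ℕ) : ∀ p : Hardy, (∀ n, N ≤ n → co p n = 0) → ∃ C : ℝ, 0 ≤ C ∧
    ∀ z : ℂ, ‖z‖ < 1 → ∀ h : Hardy, ((1 : Hardy →L[ℂ] Hardy) - z • Sa) h = p → ‖h‖ ≤ C := by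
  induction N with
  | zero =>
    intro p hp
    have hp0 : p = 0 := by
      apply ext_co
      intro n
      rw [hp n (Nat.zero_le n), ← coL_apply, map_zero]
    refine ⟨0, le_rfl, fun z hz h hh => ?_⟩
    have h1 := norm_le_of_one_sub hz hh
    rw [hp0, norm_zero] at h1
    have h2 : 0 < 1 - ‖z‖ := by linarith
    nlinarith [norm_nonneg h]
  | succ N ih =>
    intro p hp
    obtain ⟨C, hC, H⟩ := ih (Sa p) (fun n hn => by
      rw [co_Sa]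
      exact hp (n + 1) (Nat.succ_le_succ hn))
    refine ⟨‖p‖ + C, by positivity, fun z hz h hh => ?_⟩
    have h1 : ((1 : Hardy →L[ℂ] Hardy) - z • Sa) (Sa h) = Sa p := by
      rw [← hh, EvC_apply, EvC_apply, map_sub, map_smul]
    have h2 := H z hz (Sa h) h1
    rw [EvC_apply] at hh
    have h3 : h = p + z • Sa h := by
      rw [← hh]
      abel
    calc ‖h‖ = ‖p + z • Sa h‖ := by rw [← h3]
      _ ≤ ‖p‖ + ‖z • Sa h‖ := norm_add_le _ _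
      _ = ‖p‖ + ‖z‖ * ‖Sa h‖ := by rw [norm_smul]
      _ ≤ ‖p‖ + C := by
        have h4 : ‖z‖ * ‖Sa h‖ ≤ 1 * C := mul_le_mul hz.le h2 (norm_nonneg _) zero_le_one
        linarith

theorem EvC_co_sum (y : Hardy) (N n : ℕ) (hn : N ≤ n) :
    co (∑ k ∈ Finset.range N, co y k • mono k) n = 0 := by
  rw [← coL_apply, map_sum]
  apply Finset.sum_eq_zero
  intro k hk
  rw [map_smul, coL_apply, co_mono, if_neg (by have := Finset.mem_range.1 hk; omega), smul_zero]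

theorem lim_Sa (y : Hardy) {eps : ℝ} (heps : 0 < eps) :
    ∃ dl > 0, ∀ z : ℂ, 1 - dl < ‖z‖ → ‖z‖ < 1 → ∀ h : Hardy,
      ((1 : Hardy →L[ℂ] Hardy) - z • Sa) h = y → (1 - ‖z‖) * ‖h‖ < eps := by
  have h1 := (hasSum_mono y).tendsto_sum_nat
  obtain ⟨N, hN⟩ := (Metric.tendsto_atTop.1 h1) (eps / 2) (half_pos heps)
  obtain ⟨p, hp⟩ : ∃ p : Hardy, p = ∑ k ∈ Finset.range N, co y k • mono k := ⟨_, rfl⟩
  have h2 : ‖y - p‖ < eps / 2 := by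
    have := hN N le_rfl
    rw [dist_comm, dist_eq_norm, ← hp] at this
    exact this
  obtain ⟨C, hC, H⟩ := EvC_bdd N p (fun n hn => by
    rw [hp]
    exact EvC_co_sum y N n hn)
  refine ⟨eps / (2 * (C + 1)), by positivity, fun z hz1 hz h hh => ?_⟩
  obtain ⟨u, hu⟩ := isUnit_one_sub hz
  obtain ⟨g, hg⟩ : ∃ g : Hardy, ((1 : Hardy →L[ℂ] Hardy) - z • Sa) g = p := by
    refine ⟨(↑u⁻¹ : Hardy →L[ℂ] Hardy) p, ?_⟩
    rw [← hu]
    have : ((u : Hardy →L[ℂ] Hardy) * (↑u⁻¹ : Hardy →L[ℂ] Hardy)) p = p := by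
      rw [Units.mul_inv]
      rfl
    exact this
  have h3 : ((1 : Hardy →L[ℂ] Hardy) - z • Sa) (h - g) = y - p := by
    rw [map_sub, hh, hg]
  have h4 := norm_le_of_one_sub hz h3
  have h5 := H z hz g hg
  have h6 : 0 < 1 - ‖z‖ := by linarith
  have h7 : (1 - ‖z‖) * ‖g‖ ≤ eps / 2 := by
    have h8 : (1 - ‖z‖) * ‖g‖ ≤ eps / (2 * (C + 1)) * (C + 1) := by
      apply mul_le_mul (by linarith) (by linarith) (norm_nonneg _) (by positivity)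
    have h9 : eps / (2 * (C + 1)) * (C + 1) = eps / 2 := by
      field_simp
    linarith
  have h10 : ‖h‖ ≤ ‖h - g‖ + ‖g‖ := by
    have := norm_add_le (h - g) g
    rwa [sub_add_cancel] at this
  calc (1 - ‖z‖) * ‖h‖ ≤ (1 - ‖z‖) * (‖h - g‖ + ‖g‖) := mul_le_mul_of_nonneg_left h10 h6.le
    _ = (1 - ‖z‖) * ‖h - g‖ + (1 - ‖z‖) * ‖g‖ := by ring
    _ < eps := by linarith

end Pool.Agent.TBir
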