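import Pool.Agent.TBir.WdLD
import Pool.Agent.TBir.ChiP

/-!
# The closures of the sets of negative and positive winding number
-/

open MeasureTheory Complex Set Filter Topology Metric AddCircle
open scoped ComplexConjugate InnerProductSpace ENNReal

namespace Pool.Agent.TBir

private theorem knp_ev_mem {phi : ℂ → ℂ} {l0 : ℂ} (D : LD phi l0) {l : ℂ}
    (hl : l ∈ ball l0 D.r) : ∀ᶠ l' in 𝓝 l, l' ∈ ball l0 D.r :=
  isOpen_ball.mem_nhds hl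

private theorem knp_cont {phi : ℂ → ℂ} {l0 : ℂ} (D : LD phi l0) {l : ℂ}
    (hl : l ∈ ball l0 D.r) : ContinuousAt (fun l' => ‖D.z1 l'‖) l :=
  ((D.z1_diff.continuousOn.continuousAt (isOpen_ball.mem_nhds hl))).norm

private theorem knp_wd {phi : ℂ → ℂ} {l0 : ℂ} (D : LD phi l0) {l : ℂ}
    (hl : l ∈ ball l0 D.r) (hJ : l ∉ J phi) :
    (wd phi l).re = D.x + (if ‖D.z1 l‖ < 1 then (1 : ℝ) else 0) +
      (if ‖D.z2 l‖ < 1 then (1 : ℝ) else 0) := by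
  rw [D.wd_eq hl hJ]
  split_ifs <;> simp

private theorem knp_KN1 {phi : ℂ → ℂ} {l0 : ℂ} (D : LD phi l0) (hx : D.x = -1) {l : ℂ}
    (hl : l ∈ ball l0 D.r) (hK : l ∈ KN phi) : 1 ≤ ‖D.z1 l‖ := by
  by_contra h
  rw [not_le] at h
  have h1 : ∀ᶠ l' in 𝓝 l, ‖D.z1 l'‖ < 1 := (knp_cont D hl).eventually_lt continuousAt_const h
  obtain ⟨l', ⟨h2, h3⟩, h4, h5⟩ := mem_closure_iff_nhds.1 hK _ (h1.and (knp_ev_mem D hl))
  have h6 := knp_wd D h3 h4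
  rw [if_pos h2, hx] at h6
  rw [h6] at h5
  push_cast at h5
  split_ifs at h5 <;> linarith

theorem norm_of_KN {phi : ℂ → ℂ} {l0 : ℂ} (D : LD phi l0) (hx : D.x = -1) {l : ℂ}
    (hl : l ∈ ball l0 D.r) (hK : l ∈ KN phi) : 1 ≤ ‖D.z1 l‖ ∧ 1 ≤ ‖D.z2 l‖ :=
  ⟨knp_KN1 D hx hl hK, knp_KN1 D.swap hx hl hK⟩

private theorem knp_KP1 {phi : ℂ → ℂ} {l0 : ℂ} (D : LD phi l0) (hx : D.x = -1) {l : ℂ}
    (hl : l ∈ ball l0 D.r) (hK : l ∈ KP phi) : ‖D.z1 l‖ ≤ 1 := by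
  by_contra h
  rw [not_le] at h
  have h1 : ∀ᶠ l' in 𝓝 l, 1 < ‖D.z1 l'‖ := continuousAt_const.eventually_lt (knp_cont D hl) h
  obtain ⟨l', ⟨h2, h3⟩, h4, h5⟩ := mem_closure_iff_nhds.1 hK _ (h1.and (knp_ev_mem D hl))
  have h6 := knp_wd D h3 h4
  rw [if_neg (not_lt.2 h2.le), hx] at h6
  rw [h6] at h5
  push_cast at h5
  split_ifs at h5 <;> linarith

theorem norm_of_KP {phi : ℂ → ℂ} {l0 : ℂ} (D : LD phi l0) (hx : D.x = -1) {l : ℂ}
    (hl : l ∈ ball l0 D.r) (hK : l ∈ KP phi) : ‖D.z1 l‖ ≤ 1 ∧ ‖D.z2 l‖ ≤ 1 :=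
  ⟨knp_KP1 D hx hl hK, knp_KP1 D.swap hx hl hK⟩

theorem cross_of_mem {phi : ℂ → ℂ} {l0 : ℂ} (D : LD phi l0) (h1 : l0 ∈ KN phi)
    (h2 : l0 ∈ KP phi) : D.x = -1 ∧ ‖D.z1 l0‖ = 1 ∧ ‖D.z2 l0‖ = 1 := by
  have h0 : l0 ∈ ball l0 D.r := mem_ball_self D.r_pos
  obtain ⟨a, ha1, ha2, ha3⟩ := mem_closure_iff_nhds.1 h1 _ (knp_ev_mem D h0)
  obtain ⟨b, hb1, hb2, hb3⟩ := mem_closure_iff_nhds.1 h2 _ (knp_ev_mem D h0)
  have ha1' : a ∈ ball l0 D.r := ha1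
  have hb1' : b ∈ ball l0 D.r := hb1
  rw [knp_wd D ha1' ha2] at ha3
  rw [knp_wd D hb1' hb2] at hb3
  have hx1 : D.x < 0 := by
    have : (D.x : ℝ) < 0 := by
      split_ifs at ha3 <;> linarith
    exact_mod_cast this
  have hx2 : -2 < D.x := by
    have : (-2 : ℝ) < D.x := by
      split_ifs at hb3 <;> linarith
    exact_mod_cast this
  have hx : D.x = -1 := by omega
  rw [hx] at hb3
  push_cast at hb3
  have hb4 : ‖D.z1 b‖ < 1 := by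
    by_contra h
    rw [if_neg h] at hb3
    split_ifs at hb3 <;> linarith
  have hb5 : ‖D.z2 b‖ < 1 := by
    by_contra h
    rw [if_neg h] at hb3
    split_ifs at hb3 <;> linarith
  refine ⟨hx, ?_, ?_⟩
  · rcases D.z1_cases with h | h
    · exact h.1
    · linarith [h b hb1']
  · rcases D.z2_cases with h | h
    · exact h.1
    · linarith [h b hb1']

theorem isolated {phi : ℂ → ℂ} {q : ℂ} (D : LD phi q) (hx : D.x = -1) (h1 : ‖D.z1 q‖ = 1)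
    (h2 : ‖D.z2 q‖ = 1) : ∃ s > 0, ∀ l ∈ ball q s, l ∈ KN phi → l ∈ KP phi → l = q := by
  obtain ⟨c, hc, hc2⟩ := indep_lower (D.indep h1 h2)
  have hB : 0 < |D.B| + 1 := by positivity
  refine ⟨min D.r (c / (|D.B| + 1)), lt_min D.r_pos (div_pos hc hB), fun l hl hN hP => ?_⟩
  have hl1 : l ∈ ball q D.r := ball_subset_ball (min_le_left _ _) hl
  have hl2 : ‖l - q‖ < c / (|D.B| + 1) := by
    rw [← dist_eq_norm]
    exact lt_of_lt_of_le hl (min_le_right _ _)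
  obtain ⟨a1, a2⟩ := norm_of_KN D hx hl1 hN
  obtain ⟨b1, b2⟩ := norm_of_KP D hx hl1 hP
  have e1 : ‖D.z1 l‖ = 1 := le_antisymm b1 a1
  have e2 : ‖D.z2 l‖ = 1 := le_antisymm b2 a2
  have f1 := (D.z1_exp h1).2 l hl1
  have f2 := (D.z2_exp h2).2 l hl1
  rw [e1] at f1
  rw [e2] at f2
  have g1 : |(1 : ℝ) ^ 2 - 1 - 2 * (D.k1 * (l - q)).re| = 2 * |(D.k1 * (l - q)).re| := by
    rw [show (1 : ℝ) ^ 2 - 1 - 2 * (D.k1 * (l - q)).re = -(2 * (D.k1 * (l - q)).re) by ring,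
      abs_neg, abs_mul, abs_two]
  have g2 : |(1 : ℝ) ^ 2 - 1 - 2 * (D.k2 * (l - q)).re| = 2 * |(D.k2 * (l - q)).re| := by
    rw [show (1 : ℝ) ^ 2 - 1 - 2 * (D.k2 * (l - q)).re = -(2 * (D.k2 * (l - q)).re) by ring,
      abs_neg, abs_mul, abs_two]
  rw [g1] at f1
  rw [g2] at f2
  have h3 := hc2 (l - q)
  by_contra hne
  have h4 : 0 < ‖l - q‖ := norm_pos_iff.2 (sub_ne_zero.2 hne)
  have h5 : c * ‖l - q‖ ≤ D.B * ‖l - q‖ ^ 2 := by linarith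
  have h6 : c ≤ D.B * ‖l - q‖ := by
    have : c * ‖l - q‖ ≤ (D.B * ‖l - q‖) * ‖l - q‖ := by
      calc c * ‖l - q‖ ≤ D.B * ‖l - q‖ ^ 2 := h5
        _ = (D.B * ‖l - q‖) * ‖l - q‖ := by ring
    exact le_of_mul_le_mul_right this h4
  have h7 : D.B * ‖l - q‖ ≤ (|D.B| + 1) * ‖l - q‖ := by
    apply mul_le_mul_of_nonneg_right _ h4.le
    linarith [le_abs_self D.B]
  have h8 : (|D.B| + 1) * ‖l - q‖ < c := by
    rw [lt_div_iff₀ hB] at hl2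
    linarith [mul_comm (|D.B| + 1) ‖l - q‖]
  linarith

private theorem knp_a {phi : ℂ → ℂ} {l0 : ℂ} (D : LD phi l0) {eps : ℝ} (heps : 0 < eps) :
    ∃ l ∈ ball l0 eps, l ∉ J phi ∧ (wd phi l).re = D.x := by
  obtain ⟨l, h1, h2, h3, h4⟩ := sgn_a D heps
  have h5 : l ∉ J phi := by
    intro h
    rcases (D.mem_J_iff h2).1 h with h6 | h6
    · exact h3.ne' h6
    · exact h4.ne' h6
  refine ⟨l, h1, h5, ?_⟩
  rw [knp_wd D h2 h5, if_neg (not_lt.2 h3.le), if_neg (not_lt.2 h4.le)]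
  ring

private theorem knp_b {phi : ℂ → ℂ} {l0 : ℂ} (D : LD phi l0) (h0 : ‖D.z1 l0‖ = 1) {eps : ℝ}
    (heps : 0 < eps) : ∃ l ∈ ball l0 eps, l ∉ J phi ∧ (wd phi l).re = D.x + 1 := by
  obtain ⟨l, h1, h2, h3, h4⟩ := sgn_b D h0 heps
  have h5 : l ∉ J phi := by
    intro h
    rcases (D.mem_J_iff h2).1 h with h6 | h6
    · exact h3.ne h6
    · exact h4.ne' h6
  refine ⟨l, h1, h5, ?_⟩
  rw [knp_wd D h2 h5, if_pos h3, if_neg (not_lt.2 h4.le)]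
  ring

private theorem knp_J {phi : ℂ → ℂ} {l0 : ℂ} (D : LD phi l0) (h0 : ‖D.z1 l0‖ = 1) :
    l0 ∈ KN phi ∪ KP phi := by
  rcases lt_trichotomy D.x 0 with hx | hx | hx
  · left
    rw [KN, Metric.mem_closure_iff]
    intro eps heps
    obtain ⟨l, h1, h2, h3⟩ := knp_a D heps
    refine ⟨l, ⟨h2, ?_⟩, ?_⟩
    · rw [h3]
      exact_mod_cast hx
    · rw [dist_comm]
      exact h1
  · right
    rw [KP, Metric.mem_closure_iff]
    intro eps heps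
    obtain ⟨l, h1, h2, h3⟩ := knp_b D h0 heps
    refine ⟨l, ⟨h2, ?_⟩, ?_⟩
    · rw [h3, hx]
      norm_num
    · rw [dist_comm]
      exact h1
  · right
    rw [KP, Metric.mem_closure_iff]
    intro eps heps
    obtain ⟨l, h1, h2, h3⟩ := knp_a D heps
    refine ⟨l, ⟨h2, ?_⟩, ?_⟩
    · rw [h3]
      exact_mod_cast hx
    · rw [dist_comm]
      exact h1

theorem J_subset {phi : ℂ → ℂ} (hphi : Normal phi) : J phi ⊆ KN phi ∪ KP phi := by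
  intro l0 hl0
  obtain ⟨D⟩ := exists_LD hphi l0
  rcases (D.mem_J_iff (mem_ball_self D.r_pos)).1 hl0 with h | h
  · exact knp_J D h
  · exact knp_J D.swap h

private theorem knp_cpt {phi : ℂ → ℂ} (hphi : AnalyticOnNhd ℂ phi (sphere 0 1)) (p : ℝ → Prop)
    (hp : ¬ p 0) : IsCompact (closure {l | l ∉ J phi ∧ p (wd phi l).re}) := by
  obtain ⟨R, hR⟩ := wd_large hphi
  refine Metric.isCompact_of_isClosed_isBounded isClosed_closure ?_
  refine ((Metric.isBounded_closedBall (x := (0 : ℂ)) (r := R)).subset ?_).closure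
  rintro l ⟨h1, h2⟩
  rw [mem_closedBall_zero_iff]
  by_contra h
  rw [not_le] at h
  rw [(hR l h).2] at h2
  exact hp h2

theorem isCompact_KN {phi : ℂ → ℂ} (hphi : AnalyticOnNhd ℂ phi (sphere 0 1)) :
    IsCompact (KN phi) :=
  knp_cpt hphi (fun t => t < 0) (lt_irrefl _)

theorem isCompact_KP {phi : ℂ → ℂ} (hphi : AnalyticOnNhd ℂ phi (sphere 0 1)) :
    IsCompact (KP phi) :=
  knp_cpt hphi (fun t => 0 < t) (lt_irrefl _)

theorem finite_KN_KP {phi : ℂ → ℂ} (hphi : Normal phi) : (KN phi ∩ KP phi).Finite := by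
  have hc : IsCompact (KN phi ∩ KP phi) :=
    (isCompact_KN hphi.ana).inter_right isClosed_closure
  have h1 : ∀ q ∈ KN phi ∩ KP phi, ∃ s > 0, ∀ l ∈ ball q s, l ∈ KN phi → l ∈ KP phi → l = q := by
    rintro q ⟨hq1, hq2⟩
    obtain ⟨D⟩ := exists_LD hphi q
    obtain ⟨h1, h2, h3⟩ := cross_of_mem D hq1 hq2
    exact isolated D h1 h2 h3
  choose! s hs hs2 using h1
  obtain ⟨t, ht, ht2⟩ := hc.elim_nhds_subcover (fun q => ball q (s q))
    (fun q hq => Metric.ball_mem_nhds q (hs q hq))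
  refine t.finite_toSet.subset ?_
  intro l hl
  obtain ⟨q, hq, hq2⟩ := mem_iUnion₂.1 (ht2 hl)
  rw [hs2 q (ht q hq) l hq2 hl.1 hl.2]
  exact hq

/-- Off the two closures the winding number is zero. -/
theorem off {phi : ℂ → ℂ} (hphi : Normal phi) {l : ℂ} (h1 : l ∉ KN phi) (h2 : l ∉ KP phi) :
    l ∉ J phi ∧ wd phi l = 0 := by
  have hJ : l ∉ J phi := by
    intro h
    rcases J_subset hphi h with h3 | h3
    · exact h1 h3
    · exact h2 h3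
  refine ⟨hJ, ?_⟩
  obtain ⟨n, hn⟩ := wd_int hphi.ana hJ
  rcases lt_trichotomy n 0 with h3 | h3 | h3
  · exfalso
    apply h1
    apply subset_closure
    refine ⟨hJ, ?_⟩
    rw [hn, Complex.intCast_re]
    exact_mod_cast h3
  · rw [hn, h3]
    simp
  · exfalso
    apply h2
    apply subset_closure
    refine ⟨hJ, ?_⟩
    rw [hn, Complex.intCast_re]
    exact_mod_cast h3

theorem x_nonneg_of_notMem {phi : ℂ → ℂ} {l0 : ℂ} (D : LD phi l0) (h : l0 ∉ KN phi) :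
    0 ≤ D.x := by
  by_contra hx
  rw [not_le] at hx
  apply h
  rw [KN, Metric.mem_closure_iff]
  intro eps heps
  obtain ⟨l, h1, h2, h3⟩ := knp_a D heps
  refine ⟨l, ⟨h2, ?_⟩, ?_⟩
  · rw [h3]
    exact_mod_cast hx
  · rw [dist_comm]
    exact h1

theorem wd_nonneg_of_notMem {phi : ℂ → ℂ} {l : ℂ} (h : l ∉ KN phi) (hJ : l ∉ J phi) :
    0 ≤ (wd phi l).re := by
  by_contra h1
  exact h (subset_closure ⟨hJ, not_le.1 h1⟩)

end Pool.Agent.TBir
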