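import Pool.Agent.TBir.LiouA
import Pool.Agent.TBir.KNP

/-!
# Analytic extension of the local resolvent of a vector of `NN`

MODULE. Paper proof. Let `y ∈ NN` and let `l ∉ J`, `l ∉ KN`, so `wd phi l ≥ 0`
(`wd_nonneg_of_notMem`). There is `h` with `(T Phi - l) h = y` (`mem_range_of_orth`: if `wd phi l > 0`
this is the definition of `NN`; if `wd phi l = 0` (`wd_int`: the number is an integer) then
`T Phi - l` is invertible (`isUnit_of_wd`), so is its adjoint, and the only `v` is `0`), and `h` is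
unique: `T_sub_injective` for local data at `l` (`exists_LD`), `x_nonneg_of_notMem`.
Define `F0 l = - ev z h` for these `l`. Near `l0 ∉ KN`: local data `D` at `l0`, `0 ≤ D.x`, a frame for
`P = 1` (`exists_frame`). On a small ball around `l0` inside the complement of `KN` with `z1 l ≠ z`,
`z2 l ≠ z` (at `l0` they have absolute value `1` or at least `2`): for `l ∉ J`,
`T (Psi l) (S - z1 l)(S - z2 l) h = y`, so `(S - z1 l)(S - z2 l) h = L l y` and
`F0 l = - ev z (L l y) / ((z - z1 l)(z - z2 l))` (`ev_S_sub`), which is differentiable. Apply `glue` with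
`K = J`, `O` the complement of `KN` (`dense_compl_J`).
-/

open MeasureTheory Complex Set Filter Topology Metric AddCircle
open scoped ComplexConjugate InnerProductSpace ENNReal

namespace Pool.Agent.TBir

theorem exists_sol {phi : ℂ → ℂ} (hphi : Normal phi) {Phi : CT}
    (hPhi : ∀ x, Phi x = phi (e x)) {y : Hardy} (hy : y ∈ NN phi Phi) {l : ℂ} (hJ : l ∉ J phi)
    (hK : l ∉ KN phi) : ∃ h : Hardy, (T Phi - l • (1 : Hardy →L[ℂ] Hardy)) h = y := by
  have h0 := wd_nonneg_of_notMem hK hJ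
  rcases h0.eq_or_lt with h0 | h0
  · obtain ⟨n, hn⟩ := wd_int hphi.ana hJ
    have hn0 : n = 0 := by
      rw [hn, Complex.intCast_re] at h0
      exact_mod_cast h0.symm
    have hw : wd phi l = 0 := by rw [hn, hn0, Int.cast_zero]
    obtain ⟨U, hU⟩ := isUnit_of_wd hphi.ana hPhi hJ hw
    refine ⟨(U⁻¹ : (Hardy →L[ℂ] Hardy)ˣ).1 y, ?_⟩
    rw [← hU]
    have := congrArg (fun B : Hardy →L[ℂ] Hardy => B y) U.mul_inv
    exact this
  · exact mem_range_of_orth hphi.ana hPhi hJ h0.le (fun v hv => hy l hJ h0 v hv)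

private theorem FExt_loc {phi : ℂ → ℂ} {Phi : CT} (hPhi : ∀ x, Phi x = phi (e x))
    {f : Hardy} {hh : ℂ → Hardy} {l0 : ℂ} {V : Set ℂ} (hV : V ∈ 𝓝 l0)
    (hh1 : ∀ l ∉ J phi, l ∈ V → (T Phi - l • (1 : Hardy →L[ℂ] Hardy)) (hh l) = f) {z : ℂ}
    (hz : ‖z‖ < 1) (D : LD phi l0) (hx : 0 ≤ D.x) :
    ∃ r > 0, ∃ G : ℂ → ℂ, DifferentiableOn ℂ G (ball l0 r) ∧
      ∀ l ∈ ball l0 r, l ∉ J phi → G l = ev z (hh l) := by
  obtain ⟨F⟩ := exists_frame hPhi D hx (P := 1) (by rw [one_mul, mul_one])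
  have c1 : ContinuousAt D.z1 l0 :=
    (D.z1_diff.continuousOn).continuousAt (isOpen_ball.mem_nhds (mem_ball_self D.r_pos))
  have c2 : ContinuousAt D.z2 l0 :=
    (D.z2_diff.continuousOn).continuousAt (isOpen_ball.mem_nhds (mem_ball_self D.r_pos))
  have n1 : D.z1 l0 ≠ z := by
    rintro rfl
    rcases D.z1_cases with h | h
    · rw [h.1] at hz; exact lt_irrefl _ hz
    · have := h l0 (mem_ball_self D.r_pos)
      linarith
  have n2 : D.z2 l0 ≠ z := by
    rintro rfl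
    rcases D.z2_cases with h | h
    · rw [h.1] at hz; exact lt_irrefl _ hz
    · have := h l0 (mem_ball_self D.r_pos)
      linarith
  have e1 : ∀ᶠ l in 𝓝 l0, D.z1 l ≠ z := c1.eventually_ne n1
  have e2 : ∀ᶠ l in 𝓝 l0, D.z2 l ≠ z := c2.eventually_ne n2
  have e3 : ∀ᶠ l in 𝓝 l0, l ∈ ball l0 F.s := isOpen_ball.mem_nhds (mem_ball_self F.s_pos)
  have e4 : ∀ᶠ l in 𝓝 l0, l ∈ V := hV
  obtain ⟨r, hr, hr'⟩ := Metric.eventually_nhds_iff_ball.1 (e1.and (e2.and (e3.and e4)))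
  refine ⟨r, hr, fun l => ev z (F.L l f) / ((z - D.z1 l) * (z - D.z2 l)), ?_, ?_⟩
  · have hsub : ball l0 r ⊆ ball l0 F.s := fun l hl => (hr' l hl).2.2.1
    have hsub2 : ball l0 r ⊆ ball l0 D.r := fun l hl => ball_subset_ball F.s_le (hsub hl)
    have d1 : DifferentiableOn ℂ (fun l => F.L l f) (ball l0 r) :=
      (F.L_diff.mono hsub).clm_apply (differentiableOn_const f)
    have d2 : DifferentiableOn ℂ (fun l => ev z (F.L l f)) (ball l0 r) :=
      (ev z).differentiable.comp_differentiableOn d1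
    have d3 : DifferentiableOn ℂ (fun l => (z - D.z1 l) * (z - D.z2 l)) (ball l0 r) :=
      ((differentiableOn_const z).sub (D.z1_diff.mono hsub2)).mul
        ((differentiableOn_const z).sub (D.z2_diff.mono hsub2))
    refine d2.div d3 fun l hl => ?_
    exact mul_ne_zero (sub_ne_zero.2 (hr' l hl).1.symm) (sub_ne_zero.2 (hr' l hl).2.1.symm)
  · intro l hl hlJ
    obtain ⟨m1, m2, m3, m4⟩ := hr' l hl
    have h1 := hh1 l hlJ m4
    rw [D.fac_T hPhi (ball_subset_ball F.s_le m3)] at h1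
    have h2 : T (D.Psi l) ((S - D.z1 l • (1 : Hardy →L[ℂ] Hardy))
      ((S - D.z2 l • (1 : Hardy →L[ℂ] Hardy)) (hh l))) = f := h1
    have h3 : ∀ x, F.L l (T (D.Psi l) x) = x := fun x => by
      have := congrArg (fun B : Hardy →L[ℂ] Hardy => B x) (F.left l m3)
      simpa using this
    have h4 : (S - D.z1 l • (1 : Hardy →L[ℂ] Hardy))
      ((S - D.z2 l • (1 : Hardy →L[ℂ] Hardy)) (hh l)) = F.L l f := by
      rw [← h2, h3]
    have h5 := congrArg (fun x => ev z x) h4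
    simp only [ev_S_sub hz] at h5
    have hne : (z - D.z1 l) * (z - D.z2 l) ≠ 0 :=
      mul_ne_zero (sub_ne_zero.2 m1.symm) (sub_ne_zero.2 m2.symm)
    change ev z (F.L l f) / ((z - D.z1 l) * (z - D.z2 l)) = ev z (hh l)
    rw [div_eq_iff hne, ← h5]
    ring

theorem exists_F {phi : ℂ → ℂ} (hphi : Normal phi) {Phi : CT}
    (hPhi : ∀ x, Phi x = phi (e x)) {y : Hardy} (hy : y ∈ NN phi Phi) {z : ℂ} (hz : ‖z‖ < 1) :
    ∃ F : ℂ → ℂ, DifferentiableOn ℂ F (KN phi)ᶜ ∧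
      ∀ l, l ∉ J phi → l ∉ KN phi → ∀ h : Hardy,
        (T Phi - l • (1 : Hardy →L[ℂ] Hardy)) h = y → F l = -ev z h := by
  classical
  have hch : ∀ l : ℂ, ∃ h : Hardy, l ∉ J phi → l ∈ (KN phi)ᶜ →
      (T Phi - l • (1 : Hardy →L[ℂ] Hardy)) h = y := by
    intro l
    by_cases h1 : l ∉ J phi ∧ l ∉ KN phi
    · obtain ⟨h, hh⟩ := exists_sol hphi hPhi hy h1.1 h1.2
      exact ⟨h, fun _ _ => hh⟩
    · exact ⟨0, fun a b => absurd ⟨a, b⟩ h1⟩
  choose hh hh1 using hch
  have hopen : IsOpen (KN phi)ᶜ := isClosed_closure.isOpen_compl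
  obtain ⟨F', hF', hF⟩ := glue (dense_compl_J hphi) hopen (F := fun l => ev z (hh l))
    (fun l0 hl0 => by
      obtain ⟨D⟩ := exists_LD hphi l0
      exact FExt_loc hPhi (hopen.mem_nhds hl0) hh1 hz D (x_nonneg_of_notMem D hl0))
  refine ⟨fun l => -F' l, hF'.neg, fun l hJ hK h hh2 => ?_⟩
  have h1 : hh l = h := by
    obtain ⟨D⟩ := exists_LD hphi l
    exact T_sub_injective hPhi D (x_nonneg_of_notMem D hK) ((hh1 l hJ hK).trans hh2.symm)
  change -F' l = -ev z h
  rw [hF l hK hJ, h1]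

end Pool.Agent.TBir
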