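import Pool.Agent.TBir.FExt
import Pool.Agent.TBir.EvC

/-!
# Growth near a crossing

MODULE. Paper proof. Let `D = K.D q hq`, `D.x = -1`, both zeros exist. By `LD.hasWH`,
`Psi l = zeta⁻¹ * (minus factor * plus factor)`, so `theta l = fourier 1 * D.Psi l` has `HasWH .. 0`
and `T (theta l)` is invertible for every `l ∈ ball q D.r` (`HasWH.isUnit`); it depends continuously on
`l` (`Psi_diff`, `exists_TL`), so its inverse `X l` is bounded on a ball around `q`: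
`‖X l‖ ≤ C1`.
`Phi - l = Psi l (zeta - z1)(zeta - z2) = (1 - z1 zeta⁻¹) theta l (zeta - z2)` on the circle (`LD.fac`), so
`T Phi - l = (1 - z1 Sa) T (theta l) (S - z2)` (`T_mul_left`, `T_mul_right`). (*)
Let `l ∈ ball q s`, `|z1 l| < 1`, `l ∉ J`, `l ∉ KN`. There is `h` with `(T Phi - l) h = y`
(`exists_sol`), `F l = - ev z h`. By (*), with `u = (1 - z1 Sa)⁻¹ y` (`isUnit_one_sub`),
`(S - z2) h = X l u`, `(z - z2) ev z h = ev z (X l u)`, `|z - z2| ≥ (1 - |z|)/2` near `q`. So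
`|F l| ≤ C2 ‖u‖`, and by `lim_Sa`, `(1 - |z1 l|) ‖u‖` is as small as we like for `l` near `q`
(`|z1 l| → |z1 q| = 1`). So for every `eps` there is `dl` such that
`(1 - |z1 l|) |F l| < eps` for `l ∈ ball q dl`, `|z1 l| < 1`, `l ∉ J`, `l ∉ KN`. As `F` is continuous
off `KN`, `z1` is continuous and the complement of `J` is dense (`dense_compl_J`), the same holds (with
`≤`) without the assumption `l ∉ J`. The same for `z2` (apply the above to `D.swap`).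
Now let `l ≠ q`, `K.chi l ≠ 1`, `l ∈ ball q rho`. Then `l ∉ KN`: otherwise `l ∈ K.Q` (by `neg`); take
`dl` so small that `ball q dl` contains no other point of the finite set `K.Q`. By `loc'`,
`c |l - q| ≤ 1 - |z1 l|` or `c |l - q| ≤ 1 - |z2 l|`. So `|l - q| |F l| ≤ eps / c`.
-/

open MeasureTheory Complex Set Filter Topology Metric AddCircle
open scoped ComplexConjugate InnerProductSpace ENNReal

namespace Pool.Agent.TBir

theorem fgr_fac {phi : ℂ → ℂ} {Phi : CT} (hPhi : ∀ x, Phi x = phi (e x)) {q : ℂ} (D : LD phi q)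
    {l : ℂ} (hl : l ∈ ball q D.r) :
    T Phi - l • (1 : Hardy →L[ℂ] Hardy) =
      ((1 : Hardy →L[ℂ] Hardy) - D.z1 l • Sa) *
        (T (fourier 1 * D.Psi l) * (S - D.z2 l • (1 : Hardy →L[ℂ] Hardy))) := by
  have h1 : Phi - algebraMap ℂ CT l = (1 - algebraMap ℂ CT (D.z1 l) * fourier (-1)) *
      ((fourier 1 * D.Psi l) * (fourier 1 - algebraMap ℂ CT (D.z2 l))) := by
    ext x
    have hex : ‖e x‖ = 1 := Circle.norm_coe _
    have hex0 : e x ≠ 0 := by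
      intro h
      rw [h, norm_zero] at hex
      exact zero_ne_one hex
    have hann : e x ∈ ann D.del := by
      refine ⟨?_, ?_⟩ <;> rw [hex] <;> linarith [D.del_pos]
    have h2 := D.fac l hl (e x) hann
    have h3 := D.Psi_eq l hl x
    have h4 : (fourier 1 : CT) x = e x := by
      rw [fourier_one]
      rfl
    have h5 : (fourier (-1) : CT) x = (e x)⁻¹ := by
      rw [fourier_neg, h4, Complex.inv_def, Complex.normSq_eq_norm_sq, hex]
      simp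
    have h0 : ∀ c : ℂ, (algebraMap ℂ CT c) x = c := fun c => by
      rw [Algebra.algebraMap_eq_smul_one, ContinuousMap.smul_apply, ContinuousMap.one_apply,
        smul_eq_mul, mul_one]
    simp only [ContinuousMap.sub_apply, ContinuousMap.mul_apply, ContinuousMap.one_apply,
      h0, h4, h5, h3, hPhi]
    rw [h2]
    field_simp
  have h6 : T Phi - l • (1 : Hardy →L[ℂ] Hardy) = T (Phi - algebraMap ℂ CT l) := by
    rw [T_sub, T_algebraMap]
  have hm : Minus (1 - algebraMap ℂ CT (D.z1 l) * fourier (-1)) := by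
    have h7 : Minus (1 : CT) := by
      have := minus_algebraMap (1 : ℂ)
      rwa [map_one] at this
    exact h7.sub ((minus_algebraMap _).mul (minus_fourier (by norm_num)))
  have hp : Plus (fourier 1 - algebraMap ℂ CT (D.z2 l)) :=
    (plus_fourier (by norm_num)).sub (plus_algebraMap _)
  have h8 : T (1 - algebraMap ℂ CT (D.z1 l) * fourier (-1)) =
      (1 : Hardy →L[ℂ] Hardy) - D.z1 l • Sa := by
    have h9 : algebraMap ℂ CT (D.z1 l) * fourier (-1) = D.z1 l • (fourier (-1) : CT) := by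
      rw [Algebra.algebraMap_eq_smul_one, smul_mul_assoc, one_mul]
    rw [h9, T_sub, T_one, T_smul]
    rfl
  have h10 : T (fourier 1 - algebraMap ℂ CT (D.z2 l)) =
      S - D.z2 l • (1 : Hardy →L[ℂ] Hardy) := by
    rw [T_sub, T_algebraMap]
    rfl
  rw [h6, h1, T_mul_left hm, T_mul_right _ hp, h8, h10]

theorem fgr_unit {phi : ℂ → ℂ} {q : ℂ} (D : LD phi q) (hx : D.x = -1) :
    ∀ l ∈ ball q D.r, IsUnit (T (fourier 1 * D.Psi l)) := by
  obtain ⟨C, eta, _, heta, hW⟩ := D.hasWH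
  intro l hl
  have h := hW l hl
  rw [hx] at h
  refine HasWH.isUnit (C := C) heta ?_
  obtain ⟨bp, bm, cp, cm, hbp, hbm, hcp, hcm, h1, h2, h3⟩ := h
  refine ⟨bp, bm, cp, cm, hbp, hbm, hcp, hcm, h1, h2, ?_⟩
  rw [h3, ← mul_assoc, idx_fourier_mul]
  norm_num

theorem fgr_bdd {phi : ℂ → ℂ} {q : ℂ} (D : LD phi q) (hx : D.x = -1) :
    ∃ C1 : ℝ, 0 ≤ C1 ∧ ∀ᶠ l in 𝓝 q, ∀ g : Hardy, ‖g‖ ≤ C1 * ‖T (fourier 1 * D.Psi l) g‖ := by
  obtain ⟨TL, hTL⟩ := exists_TL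
  have hcont : ContinuousAt (fun l => T (fourier 1 * D.Psi l)) q := by
    have h1 : ContinuousAt D.Psi q :=
      (D.Psi_diff.continuousOn).continuousAt (isOpen_ball.mem_nhds (mem_ball_self D.r_pos))
    have h2 : (fun l => T (fourier 1 * D.Psi l)) = fun l => TL (fourier 1 * D.Psi l) :=
      funext fun l => (hTL _).symm
    rw [h2]
    exact TL.continuous.continuousAt.comp (continuousAt_const.mul h1)
  obtain ⟨u, hu⟩ := fgr_unit D hx q (mem_ball_self D.r_pos)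
  have hinv : ContinuousAt (fun l => Ring.inverse (T (fourier 1 * D.Psi l))) q := by
    have h3 : ContinuousAt Ring.inverse (T (fourier 1 * D.Psi q)) := by
      rw [← hu]
      exact NormedRing.inverse_continuousAt u
    exact ContinuousAt.comp (f := fun l => T (fourier 1 * D.Psi l)) h3 hcont
  obtain ⟨C1, hC1⟩ : ∃ C1 : ℝ, C1 = ‖Ring.inverse (T (fourier 1 * D.Psi q))‖ + 1 := ⟨_, rfl⟩
  refine ⟨C1, by rw [hC1]; positivity, ?_⟩
  have h4 : ∀ᶠ l in 𝓝 q, ‖Ring.inverse (T (fourier 1 * D.Psi l))‖ < C1 := by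
    apply hinv.norm.eventually_lt_const
    rw [hC1]
    exact lt_add_one _
  filter_upwards [h4, isOpen_ball.mem_nhds (mem_ball_self D.r_pos)] with l hl1 hl2 g
  have h5 : Ring.inverse (T (fourier 1 * D.Psi l)) * T (fourier 1 * D.Psi l) = 1 :=
    Ring.inverse_mul_cancel _ (fgr_unit D hx l hl2)
  have h6 : Ring.inverse (T (fourier 1 * D.Psi l)) (T (fourier 1 * D.Psi l) g) = g := by
    have := congrArg (fun L : Hardy →L[ℂ] Hardy => L g) h5
    simpa using this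
  calc ‖g‖ = ‖Ring.inverse (T (fourier 1 * D.Psi l)) (T (fourier 1 * D.Psi l) g)‖ := by rw [h6]
    _ ≤ ‖Ring.inverse (T (fourier 1 * D.Psi l))‖ * ‖T (fourier 1 * D.Psi l) g‖ :=
        ContinuousLinearMap.le_opNorm _ _
    _ ≤ C1 * ‖T (fourier 1 * D.Psi l) g‖ :=
        mul_le_mul_of_nonneg_right hl1.le (norm_nonneg _)

theorem fgr_one {phi : ℂ → ℂ} (hphi : Normal phi) {Phi : CT}
    (hPhi : ∀ x, Phi x = phi (e x)) {y : Hardy} (hy : y ∈ NN phi Phi) {z : ℂ}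
    (hz : ‖z‖ < 1) {F : ℂ → ℂ}
    (hF' : ∀ l, l ∉ J phi → l ∉ KN phi → ∀ h : Hardy,
        (T Phi - l • (1 : Hardy →L[ℂ] Hardy)) h = y → F l = -ev z h)
    {q : ℂ} (D : LD phi q) (hx : D.x = -1) (h1 : ‖D.z1 q‖ = 1) (h2 : ‖D.z2 q‖ = 1)
    {eps : ℝ} (heps : 0 < eps) :
    ∃ dl > 0, ∀ l ∈ ball q dl, l ∈ ball q D.r ∧ (l ∉ J phi → l ∉ KN phi → ‖D.z1 l‖ < 1 →
      (1 - ‖D.z1 l‖) * ‖F l‖ < eps) := by
  obtain ⟨C1, hC1, hbdd⟩ := fgr_bdd D hx
  have hz' : 0 < 1 - ‖z‖ := by linarith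
  obtain ⟨A, hA⟩ : ∃ A : ℝ, A = ‖ev z‖ * C1 * (2 / (1 - ‖z‖)) + 1 := ⟨_, rfl⟩
  have hA0 : 0 < A := by
    rw [hA]
    positivity
  obtain ⟨d0, hd0, hlim⟩ := lim_Sa y (eps := eps / A) (by positivity)
  have hq : q ∈ ball q D.r := mem_ball_self D.r_pos
  have c1 : ContinuousAt D.z1 q := (D.z1_diff.continuousOn).continuousAt (isOpen_ball.mem_nhds hq)
  have c2 : ContinuousAt D.z2 q := (D.z2_diff.continuousOn).continuousAt (isOpen_ball.mem_nhds hq)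
  have e1 : ∀ᶠ l in 𝓝 q, 1 - d0 < ‖D.z1 l‖ := by
    apply c1.norm.eventually_const_lt
    show 1 - d0 < ‖D.z1 q‖
    rw [h1]
    linarith
  have e2 : ∀ᶠ l in 𝓝 q, (1 + ‖z‖) / 2 < ‖D.z2 l‖ := by
    apply c2.norm.eventually_const_lt
    show (1 + ‖z‖) / 2 < ‖D.z2 q‖
    rw [h2]
    linarith
  have hall := (hbdd.and (e1.and e2)).and (isOpen_ball.mem_nhds hq)
  obtain ⟨dl, hdl, hdl'⟩ := Metric.eventually_nhds_iff_ball.1 hall
  refine ⟨dl, hdl, fun l hl => ?_⟩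
  obtain ⟨⟨hb, he1, he2⟩, hlr⟩ := hdl' l hl
  refine ⟨hlr, fun hJ hK hz1 => ?_⟩
  obtain ⟨h, hh⟩ := exists_sol hphi hPhi hy hJ hK
  rw [hF' l hJ hK h hh, norm_neg]
  have hfac := fgr_fac hPhi D hlr
  rw [hfac] at hh
  have hh2 : ((1 : Hardy →L[ℂ] Hardy) - D.z1 l • Sa)
      (T (fourier 1 * D.Psi l) ((S - D.z2 l • (1 : Hardy →L[ℂ] Hardy)) h)) = y := hh
  have hu := hlim (D.z1 l) he1 hz1 _ hh2
  have hg := hb ((S - D.z2 l • (1 : Hardy →L[ℂ] Hardy)) h)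
  have hev := ev_S_sub hz (D.z2 l) h
  have hzz : (1 - ‖z‖) / 2 ≤ ‖z - D.z2 l‖ := by
    have h3 : ‖D.z2 l‖ ≤ ‖z - D.z2 l‖ + ‖z‖ := by
      have h4 := norm_sub_norm_le (D.z2 l) z
      rw [norm_sub_rev] at h4
      linarith
    linarith
  generalize hU : T (fourier 1 * D.Psi l) ((S - D.z2 l • (1 : Hardy →L[ℂ] Hardy)) h) = U at *
  generalize hG : (S - D.z2 l • (1 : Hardy →L[ℂ] Hardy)) h = G at *
  have h5 : ‖z - D.z2 l‖ * ‖ev z h‖ ≤ ‖ev z‖ * (C1 * ‖U‖) := by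
    rw [← norm_mul, ← hev]
    exact ((ev z).le_opNorm G).trans (mul_le_mul_of_nonneg_left hg (norm_nonneg _))
  have h6 : (1 - ‖z‖) / 2 * ‖ev z h‖ ≤ ‖ev z‖ * (C1 * ‖U‖) :=
    (mul_le_mul_of_nonneg_right hzz (norm_nonneg _)).trans h5
  have h7 : ‖ev z h‖ ≤ (‖ev z‖ * C1 * (2 / (1 - ‖z‖))) * ‖U‖ := by
    have h8 : ‖ev z h‖ = (2 / (1 - ‖z‖)) * ((1 - ‖z‖) / 2 * ‖ev z h‖) := by
      field_simp
    rw [h8]
    calc (2 / (1 - ‖z‖)) * ((1 - ‖z‖) / 2 * ‖ev z h‖)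
        ≤ (2 / (1 - ‖z‖)) * (‖ev z‖ * (C1 * ‖U‖)) :=
          mul_le_mul_of_nonneg_left h6 (by positivity)
      _ = _ := by ring
  have h9 : ‖ev z h‖ ≤ A * ‖U‖ := by
    refine h7.trans (mul_le_mul_of_nonneg_right ?_ (norm_nonneg _))
    rw [hA]
    linarith
  have h10 : 0 < 1 - ‖D.z1 l‖ := by linarith
  calc (1 - ‖D.z1 l‖) * ‖ev z h‖ ≤ (1 - ‖D.z1 l‖) * (A * ‖U‖) :=
        mul_le_mul_of_nonneg_left h9 h10.le
    _ = A * ((1 - ‖D.z1 l‖) * ‖U‖) := by ring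
    _ < A * (eps / A) := mul_lt_mul_of_pos_left hu hA0
    _ = eps := by field_simp

theorem fgr_two {phi : ℂ → ℂ} (hphi : Normal phi) {Phi : CT}
    (hPhi : ∀ x, Phi x = phi (e x)) {y : Hardy} (hy : y ∈ NN phi Phi) {z : ℂ}
    (hz : ‖z‖ < 1) {F : ℂ → ℂ} (hF : DifferentiableOn ℂ F (KN phi)ᶜ)
    (hF' : ∀ l, l ∉ J phi → l ∉ KN phi → ∀ h : Hardy,
        (T Phi - l • (1 : Hardy →L[ℂ] Hardy)) h = y → F l = -ev z h)
    {q : ℂ} (D : LD phi q) (hx : D.x = -1) (h1 : ‖D.z1 q‖ = 1) (h2 : ‖D.z2 q‖ = 1)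
    {eps : ℝ} (heps : 0 < eps) :
    ∃ dl > 0, ∀ l ∈ ball q dl, l ∉ KN phi → ‖D.z1 l‖ < 1 →
      (1 - ‖D.z1 l‖) * ‖F l‖ ≤ eps := by
  obtain ⟨dl, hdl, H⟩ := fgr_one hphi hPhi hy hz hF' D hx h1 h2 heps
  refine ⟨dl, hdl, fun l hl hK hz1 => ?_⟩
  by_contra hcon
  push Not at hcon
  have hKo : IsOpen (KN phi)ᶜ := isClosed_closure.isOpen_compl
  have c1 : ContinuousAt D.z1 l :=
    (D.z1_diff.continuousOn).continuousAt (isOpen_ball.mem_nhds (H l hl).1)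
  have c2 : ContinuousAt F l := (hF.continuousOn).continuousAt (hKo.mem_nhds hK)
  have c3 : ContinuousAt (fun l' => (1 - ‖D.z1 l'‖) * ‖F l'‖) l :=
    (continuousAt_const.sub c1.norm).mul c2.norm
  have hev := (((c3.eventually_const_lt hcon).and (c1.norm.eventually_lt_const hz1)).and
    (isOpen_ball.mem_nhds hl)).and (hKo.mem_nhds hK)
  obtain ⟨V, hV, hVo, hlV⟩ := _root_.eventually_nhds_iff.1 hev
  obtain ⟨l', hl'V, hl'J⟩ := (dense_compl_J hphi).inter_open_nonempty V hVo ⟨l, hlV⟩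
  obtain ⟨⟨⟨ha, hb⟩, hc⟩, hd⟩ := hV l' hl'V
  have := (H l' hc).2 hl'J hd hb
  exact absurd this (not_lt.2 ha.le)

theorem growth {phi : ℂ → ℂ} (hphi : Normal phi) {Phi : CT}
    (hPhi : ∀ x, Phi x = phi (e x)) (K : Cut phi) {y : Hardy} (hy : y ∈ NN phi Phi) {z : ℂ}
    (hz : ‖z‖ < 1) {F : ℂ → ℂ} (hF : DifferentiableOn ℂ F (KN phi)ᶜ)
    (hF' : ∀ l, l ∉ J phi → l ∉ KN phi → ∀ h : Hardy,
        (T Phi - l • (1 : Hardy →L[ℂ] Hardy)) h = y → F l = -ev z h)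
    {q : ℂ} (hq : q ∈ K.Q) {eps : ℝ} (heps : 0 < eps) :
    ∃ dl > 0, ∀ l ∈ ball q dl, l ≠ q → K.chi l ≠ 1 → ‖l - q‖ * ‖F l‖ < eps := by
  have hc := K.c_pos
  have he : 0 < eps * K.c / 2 := by positivity
  obtain ⟨d1, hd1, H1⟩ := fgr_two hphi hPhi hy hz hF hF' (K.D q hq) (K.x_eq q hq)
    (K.real1 q hq) (K.real2 q hq) he
  obtain ⟨d2, hd2, H2⟩ := fgr_two hphi hPhi hy hz hF hF' (K.D q hq).swap (K.x_eq q hq)
    (K.real2 q hq) (K.real1 q hq) he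
  have hfin : ∀ᶠ l in 𝓝 q, l ∉ ((K.Q : Set ℂ) \ {q}) := by
    have hcl : IsClosed ((K.Q : Set ℂ) \ {q}) := (K.Q.finite_toSet.sdiff).isClosed
    exact hcl.isOpen_compl.mem_nhds (fun h => h.2 rfl)
  obtain ⟨d3, hd3, H3⟩ := Metric.eventually_nhds_iff_ball.1 hfin
  refine ⟨min (min d1 d2) (min d3 K.rho), by
    have := K.rho_pos
    positivity, fun l hl hne hchi => ?_⟩
  rw [mem_ball] at hl
  have hl1 : l ∈ ball q d1 := mem_ball.2 (hl.trans_le ((min_le_left _ _).trans (min_le_left _ _)))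
  have hl2 : l ∈ ball q d2 := mem_ball.2 (hl.trans_le ((min_le_left _ _).trans (min_le_right _ _)))
  have hl3 : l ∈ ball q d3 := mem_ball.2 (hl.trans_le ((min_le_right _ _).trans (min_le_left _ _)))
  have hl4 : l ∈ ball q K.rho :=
    mem_ball.2 (hl.trans_le ((min_le_right _ _).trans (min_le_right _ _)))
  have hQ : l ∉ K.Q := fun h => H3 l hl3 ⟨h, hne⟩
  have hKN : l ∉ KN phi := fun h => hchi (K.neg l h hQ).self_of_nhds
  have hpos : 0 < ‖l - q‖ := norm_pos_iff.2 (sub_ne_zero.2 hne)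
  have hfinal : ∀ a : ℝ, a ≤ 1 - K.c * ‖l - q‖ → (1 - a) * ‖F l‖ ≤ eps * K.c / 2 →
      ‖l - q‖ * ‖F l‖ < eps := by
    intro a ha h
    have h3 : K.c * ‖l - q‖ * ‖F l‖ ≤ (1 - a) * ‖F l‖ :=
      mul_le_mul_of_nonneg_right (by linarith) (norm_nonneg _)
    have h4 : K.c * (‖l - q‖ * ‖F l‖) ≤ K.c * (eps / 2) := by
      calc K.c * (‖l - q‖ * ‖F l‖) = K.c * ‖l - q‖ * ‖F l‖ := by ring
        _ ≤ eps * K.c / 2 := h3.trans h
        _ = K.c * (eps / 2) := by ring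
    have h5 := le_of_mul_le_mul_left h4 hc
    linarith
  have hcp : 0 < K.c * ‖l - q‖ := mul_pos hc hpos
  rcases K.loc' q hq l hl4 hne hchi with h | h
  · exact hfinal _ h (H1 l hl1 hKN (by linarith))
  · exact hfinal _ h (H2 l hl2 hKN (by
      show ‖(K.D q hq).z2 l‖ < 1
      linarith))

end Pool.Agent.TBir
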