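import Pool.Agent.TBir.TpB

/-!
# Absolutely convergent one-sided Fourier series

Proofs. If `sum ‖b j‖ < ∞` the series defining `plusS b` converges in `CT`
(`fourier_norm`), evaluation at a point and `fourierCoeff` at an index are continuous linear
functionals on `CT` (`fourierCoeff psi n = ∫ fourier (-n) psi`, bounded by the sup norm), and
`fourierCoeff (fourier m) n = 1` if `m = n` and `0` otherwise. Product: Cauchy product.
-/

open MeasureTheory Complex Set Filter Topology Metric AddCircle
open scoped ComplexConjugate InnerProductSpace ENNReal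

namespace Pool.Agent.TBir

theorem summable_of_dec {C eta : ℝ} (heta : 0 < eta) {b : ℕ → ℂ} (hb : Dec C eta b) :
    Summable fun j => ‖b j‖ := by
  have h1 : Summable fun j : ℕ => C * Real.exp (-(eta * j)) := by
    have h2 : (fun j : ℕ => C * Real.exp (-(eta * j))) = fun j : ℕ => C * (Real.exp (-eta)) ^ j := by
      funext j
      rw [← Real.exp_nat_mul]
      congr 2
      ring
    rw [h2]
    refine (summable_geometric_of_lt_one (Real.exp_pos _).le ?_).mul_left C
    rw [Real.exp_lt_one_iff]
    linarith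
  exact Summable.of_nonneg_of_le (fun _ => norm_nonneg _) hb h1

private theorem ser_fourier_nat (x : UnitAddCircle) (j : ℕ) :
    (fourier (j : ℤ) : CT) x = e x ^ j := by
  rw [fourier_apply, toCircle_zsmul]
  simp [e]

private theorem ser_fourier_neg (x : UnitAddCircle) (j : ℕ) :
    (fourier (-(j : ℤ)) : CT) x = (e x)⁻¹ ^ j := by
  rw [fourier_apply, toCircle_zsmul]
  simp [e]

private theorem ser_summable {b : ℕ → ℂ} (hb : Summable fun j => ‖b j‖) (s : ℕ → ℤ) :
    Summable fun j => b j • (fourier (s j) : CT) := by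
  refine Summable.of_norm ?_
  simpa [norm_smul, fourier_norm] using hb

theorem plusS_apply {b : ℕ → ℂ} (hb : Summable fun j => ‖b j‖) (x : UnitAddCircle) :
    plusS b x = ∑' j : ℕ, b j * e x ^ j := by
  have h := ser_summable hb fun j => (j : ℤ)
  have h1 := ContinuousLinearMap.map_tsum (ContinuousMap.evalCLM ℂ x) h
  change plusS b x = _ at h1
  rw [h1]
  refine tsum_congr fun j => ?_
  change (b j • (fourier (j : ℤ) : CT)) x = _
  rw [ContinuousMap.smul_apply, ser_fourier_nat, smul_eq_mul]

theorem minusS_apply {b : ℕ → ℂ} (hb : Summable fun j => ‖b j‖) (x : UnitAddCircle) :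
    minusS b x = ∑' j : ℕ, b j * (e x)⁻¹ ^ j := by
  have h := ser_summable hb fun j => -(j : ℤ)
  have h1 := ContinuousLinearMap.map_tsum (ContinuousMap.evalCLM ℂ x) h
  change minusS b x = _ at h1
  rw [h1]
  refine tsum_congr fun j => ?_
  change (b j • (fourier (-(j : ℤ)) : CT)) x = _
  rw [ContinuousMap.smul_apply, ser_fourier_neg, smul_eq_mul]

/-- The Fourier coefficient as a continuous functional on continuous functions. -/
private noncomputable def fcL (n : ℤ) : CT →L[ℂ] ℂ :=
  LinearMap.mkContinuous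
    { toFun := fun f => fourierCoeff f n
      map_add' := by
        intro f g
        exact congrFun (fourierCoeff.add (f.continuous.integrable_of_hasCompactSupport
          (HasCompactSupport.of_compactSpace _)) (g.continuous.integrable_of_hasCompactSupport
          (HasCompactSupport.of_compactSpace _))) n
      map_smul' := by
        intro c f
        exact fourierCoeff.const_smul f c n } 1 (by
    intro f
    change ‖fourierCoeff f n‖ ≤ 1 * ‖f‖
    rw [one_mul]
    unfold fourierCoeff
    refine (norm_integral_le_integral_norm _).trans ?_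
    refine (integral_mono_of_nonneg (ae_of_all _ fun _ => norm_nonneg _)
      (integrable_const ‖f‖) (ae_of_all _ fun x => ?_)).trans ?_
    · simp only [norm_smul]
      have : ‖(fourier (-n) : CT) x‖ = 1 := Circle.norm_coe _
      rw [this, one_mul]
      exact f.norm_coe_le_norm x
    · simp)

private theorem fcL_apply (n : ℤ) (f : CT) : fcL n f = fourierCoeff f n := rfl

private theorem ser_coeff_fourier (m n : ℤ) :
    fourierCoeff (fourier m : CT) n = if m = n then 1 else 0 := by
  have h := (fourierBasis (T := (1 : ℝ))).repr_self m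
  rw [coe_fourierBasis] at h
  have h1 : fourierCoeff (fourier m : CT) n = fourierBasis.repr (fourierLp 2 m : L2) n := by
    rw [fourierBasis_repr]
    exact congrFun (fourierCoeff_congr_ae (coeFn_fourierLp 2 m).symm) n
  rw [h1, h]
  simp only [lp.single_apply]
  by_cases hmn : m = n
  · subst hmn; simp
  · rw [if_neg hmn]
    have : n ≠ m := fun h => hmn h.symm
    simp [Pi.single_apply, this]

private theorem ser_coeff {b : ℕ → ℂ} (hb : Summable fun j => ‖b j‖) (s : ℕ → ℤ) (n : ℤ) :
    fourierCoeff ((∑' j : ℕ, b j • (fourier (s j) : CT) : CT)) n =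
      ∑' j : ℕ, b j * (if s j = n then 1 else 0) := by
  have h := ser_summable hb s
  have h1 := ContinuousLinearMap.map_tsum (fcL n) h
  rw [fcL_apply] at h1
  rw [h1]
  refine tsum_congr fun j => ?_
  rw [map_smul, fcL_apply, ser_coeff_fourier, smul_eq_mul]

theorem fourierCoeff_plusS {b : ℕ → ℂ} (hb : Summable fun j => ‖b j‖) (n : ℕ) :
    fourierCoeff (plusS b) n = b n := by
  have h := ser_coeff hb (fun j => (j : ℤ)) n
  change fourierCoeff (plusS b) n = _ at h
  rw [h, tsum_eq_single n]
  · simp
  · intro j hj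
    rw [if_neg (by exact_mod_cast hj), mul_zero]

theorem plus_plusS {b : ℕ → ℂ} (hb : Summable fun j => ‖b j‖) : Plus (plusS b) := by
  intro n hn
  have h := ser_coeff hb (fun j => (j : ℤ)) n
  change fourierCoeff (plusS b) n = _ at h
  rw [h]
  refine (tsum_congr fun j => ?_).trans tsum_zero
  rw [if_neg (by omega), mul_zero]

theorem fourierCoeff_minusS {b : ℕ → ℂ} (hb : Summable fun j => ‖b j‖) (n : ℕ) :
    fourierCoeff (minusS b) (-(n : ℤ)) = b n := by
  have h := ser_coeff hb (fun j => -(j : ℤ)) (-(n : ℤ))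
  change fourierCoeff (minusS b) _ = _ at h
  rw [h, tsum_eq_single n]
  · simp
  · intro j hj
    rw [if_neg (by omega), mul_zero]

theorem minus_minusS {b : ℕ → ℂ} (hb : Summable fun j => ‖b j‖) : Minus (minusS b) := by
  intro n hn
  have h := ser_coeff hb (fun j => -(j : ℤ)) n
  change fourierCoeff (minusS b) n = _ at h
  rw [h]
  refine (tsum_congr fun j => ?_).trans tsum_zero
  rw [if_neg (by omega), mul_zero]

private theorem ser_conv_summable {b c : ℕ → ℂ} (hb : Summable fun j => ‖b j‖)
    (hc : Summable fun j => ‖c j‖) :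
    Summable fun n => ‖∑ j ∈ Finset.range (n + 1), b j * c (n - j)‖ :=
  summable_norm_sum_mul_range_of_summable_norm hb hc

private theorem ser_cauchy {b c : ℕ → ℂ} (hb : Summable fun j => ‖b j‖)
    (hc : Summable fun j => ‖c j‖) {w : ℂ} (hw : ‖w‖ = 1) :
    (∑' j, b j * w ^ j) * (∑' j, c j * w ^ j) =
      ∑' n, (∑ j ∈ Finset.range (n + 1), b j * c (n - j)) * w ^ n := by
  have h1 : Summable fun j => ‖b j * w ^ j‖ := by
    simpa [norm_mul, norm_pow, hw] using hb
  have h2 : Summable fun j => ‖c j * w ^ j‖ := by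
    simpa [norm_mul, norm_pow, hw] using hc
  rw [tsum_mul_tsum_eq_tsum_sum_range_of_summable_norm h1 h2]
  refine tsum_congr fun n => ?_
  rw [Finset.sum_mul]
  refine Finset.sum_congr rfl fun j hj => ?_
  have h3 : w ^ n = w ^ j * w ^ (n - j) := by
    rw [← pow_add]
    congr 1
    have := Finset.mem_range.1 hj
    omega
  rw [h3]
  ring

theorem plusS_mul {b c : ℕ → ℂ} (hb : Summable fun j => ‖b j‖) (hc : Summable fun j => ‖c j‖) :
    plusS b * plusS c = plusS (fun n => ∑ j ∈ Finset.range (n + 1), b j * c (n - j)) := by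
  ext x
  rw [ContinuousMap.mul_apply, plusS_apply hb, plusS_apply hc,
    plusS_apply (ser_conv_summable hb hc)]
  exact ser_cauchy hb hc (Circle.norm_coe _)

theorem minusS_mul {b c : ℕ → ℂ} (hb : Summable fun j => ‖b j‖) (hc : Summable fun j => ‖c j‖) :
    minusS b * minusS c = minusS (fun n => ∑ j ∈ Finset.range (n + 1), b j * c (n - j)) := by
  ext x
  rw [ContinuousMap.mul_apply, minusS_apply hb, minusS_apply hc,
    minusS_apply (ser_conv_summable hb hc)]
  refine ser_cauchy hb hc ?_
  rw [norm_inv]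
  have : ‖e x‖ = 1 := Circle.norm_coe _
  rw [this, inv_one]

/-- The class of a continuous function in `L2`. -/
private noncomputable def ser_cls (v : CT) : L2 := ContinuousMap.toLp 2 haarAddCircle ℂ v

private theorem ser_coeff_cls (v : CT) (n : ℤ) :
    fourierCoeff (ser_cls v : UnitAddCircle → ℂ) n = fourierCoeff v n :=
  congrFun (fourierCoeff_congr_ae (ContinuousMap.coeFn_toLp haarAddCircle v)) n

private theorem ser_coeff_mul (u v : CT) (m : ℤ) :
    HasSum (fun n : ℤ => fourierCoeff u (m - n) * fourierCoeff v n) (fourierCoeff (u * v : CT) m) := by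
  have h := hasSum_fourierCoeff_mul u (ser_cls v) m
  simp only [ser_coeff_cls] at h
  have h1 : fourierCoeff (mul u (ser_cls v) : UnitAddCircle → ℂ) m = fourierCoeff (u * v : CT) m := by
    refine congrFun (fourierCoeff_congr_ae ?_) m
    filter_upwards [mul_ae u (ser_cls v), ContinuousMap.coeFn_toLp haarAddCircle v (p := 2) (𝕜 := ℂ)]
      with x hx hx'
    rw [hx, ContinuousMap.coe_mul, Pi.mul_apply]
    congr 1
  rw [h1] at h
  exact h

theorem Plus.mul {u v : CT} (hu : Plus u) (hv : Plus v) : Plus (u * v) := by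
  intro m hm
  have h := ser_coeff_mul u v m
  have h1 : (fun n : ℤ => fourierCoeff u (m - n) * fourierCoeff v n) = fun _ => 0 := by
    funext n
    rcases lt_or_ge n 0 with hn | hn
    · rw [hv n hn, mul_zero]
    · rw [hu (m - n) (by omega), zero_mul]
  rw [h1] at h
  exact h.unique hasSum_zero

theorem Minus.mul {u v : CT} (hu : Minus u) (hv : Minus v) : Minus (u * v) := by
  intro m hm
  have h := ser_coeff_mul u v m
  have h1 : (fun n : ℤ => fourierCoeff u (m - n) * fourierCoeff v n) = fun _ => 0 := by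
    funext n
    rcases lt_or_ge 0 n with hn | hn
    · rw [hv n hn, mul_zero]
    · rw [hu (m - n) (by omega), zero_mul]
  rw [h1] at h
  exact h.unique hasSum_zero

theorem plus_fourier {n : ℤ} (hn : 0 ≤ n) : Plus (fourier n) := by
  intro m hm
  rw [ser_coeff_fourier, if_neg (by omega)]

theorem minus_fourier {n : ℤ} (hn : n ≤ 0) : Minus (fourier n) := by
  intro m hm
  rw [ser_coeff_fourier, if_neg (by omega)]

private theorem ser_algebraMap (c : ℂ) : (algebraMap ℂ CT c) = c • (fourier 0 : CT) := by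
  rw [Algebra.algebraMap_eq_smul_one]
  congr 1
  ext x
  rw [ContinuousMap.one_apply, fourier_zero]

private theorem ser_coeff_smul (c : ℂ) (f : CT) (n : ℤ) :
    fourierCoeff (c • f : CT) n = c * fourierCoeff f n := by
  rw [← fcL_apply, map_smul, fcL_apply, smul_eq_mul]

private theorem ser_coeff_sub (f g : CT) (n : ℤ) :
    fourierCoeff (f - g : CT) n = fourierCoeff f n - fourierCoeff g n := by
  rw [← fcL_apply, map_sub, fcL_apply, fcL_apply]

theorem plus_algebraMap (c : ℂ) : Plus (algebraMap ℂ CT c) := by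
  intro n hn
  rw [ser_algebraMap, ser_coeff_smul, plus_fourier le_rfl n hn, mul_zero]

theorem minus_algebraMap (c : ℂ) : Minus (algebraMap ℂ CT c) := by
  intro n hn
  rw [ser_algebraMap, ser_coeff_smul, minus_fourier le_rfl n hn, mul_zero]

theorem Plus.sub {u v : CT} (hu : Plus u) (hv : Plus v) : Plus (u - v) := by
  intro n hn
  rw [ser_coeff_sub, hu n hn, hv n hn, sub_zero]

theorem Minus.sub {u v : CT} (hu : Minus u) (hv : Minus v) : Minus (u - v) := by
  intro n hn
  rw [ser_coeff_sub, hu n hn, hv n hn, sub_zero]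

/-- `1 / (zeta - a)` for `|a| > 1`. -/
theorem plusS_inv {a : ℂ} (ha : 1 < ‖a‖) :
    plusS (fun j => -(a⁻¹) ^ (j + 1)) * (fourier 1 - algebraMap ℂ CT a) = 1 := by
  have ha0 : a ≠ 0 := by
    rintro rfl; simp at ha; linarith
  have hn : ‖a⁻¹‖ < 1 := by
    rw [norm_inv]; exact inv_lt_one_of_one_lt₀ ha
  have hb : Summable fun j : ℕ => ‖-(a⁻¹) ^ (j + 1)‖ := by
    simp only [norm_neg, norm_pow]
    exact (summable_nat_add_iff 1).2 (summable_geometric_of_lt_one (norm_nonneg _) hn)
  ext x
  have hx : ‖e x‖ = 1 := Circle.norm_coe _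
  have h1 : (fourier 1 : CT) x = e x := by
    have := ser_fourier_nat x 1
    simpa using this
  rw [ContinuousMap.mul_apply, plusS_apply hb, ContinuousMap.sub_apply, h1,
    Algebra.algebraMap_eq_smul_one, ContinuousMap.smul_apply, ContinuousMap.one_apply,
    smul_eq_mul, mul_one]
  have h2 : (fun j : ℕ => -(a⁻¹) ^ (j + 1) * e x ^ j) = fun j => -a⁻¹ * (a⁻¹ * e x) ^ j := by
    funext j; ring
  have h3 : ‖a⁻¹ * e x‖ < 1 := by rw [norm_mul, hx, mul_one]; exact hn
  rw [h2, tsum_mul_left, tsum_geometric_of_norm_lt_one h3]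
  have h4 : (1 : ℂ) - a⁻¹ * e x ≠ 0 := by
    intro h
    have : a⁻¹ * e x = 1 := (sub_eq_zero.1 h).symm
    rw [this] at h3
    simp at h3
  have h5 : e x - a = -a * (1 - a⁻¹ * e x) := by field_simp; ring
  rw [h5]
  calc -a⁻¹ * (1 - a⁻¹ * e x)⁻¹ * (-a * (1 - a⁻¹ * e x))
      = (a⁻¹ * a) * ((1 - a⁻¹ * e x)⁻¹ * (1 - a⁻¹ * e x)) := by ring
    _ = 1 := by rw [inv_mul_cancel₀ ha0, inv_mul_cancel₀ h4, mul_one]

/-- `1 / (1 - z zeta⁻¹)` for `|z| < 1`. -/
theorem minusS_inv {z : ℂ} (hz : ‖z‖ < 1) :
    minusS (fun j => z ^ j) * (1 - z • fourier (-1)) = 1 := by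
  have hb : Summable fun j : ℕ => ‖z ^ j‖ := by
    simp only [norm_pow]
    exact summable_geometric_of_lt_one (norm_nonneg _) hz
  ext x
  have hx : ‖e x‖ = 1 := Circle.norm_coe _
  have h1 : (fourier (-1) : CT) x = (e x)⁻¹ := by
    have := ser_fourier_neg x 1
    simpa using this
  rw [ContinuousMap.mul_apply, minusS_apply hb, ContinuousMap.sub_apply, ContinuousMap.one_apply,
    ContinuousMap.smul_apply, h1, smul_eq_mul]
  have h2 : (fun j : ℕ => z ^ j * (e x)⁻¹ ^ j) = fun j => (z * (e x)⁻¹) ^ j := by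
    funext j; rw [mul_pow]
  have h3 : ‖z * (e x)⁻¹‖ < 1 := by rw [norm_mul, norm_inv, hx, inv_one, mul_one]; exact hz
  rw [h2, tsum_geometric_of_norm_lt_one h3]
  have h4 : (1 : ℂ) - z * (e x)⁻¹ ≠ 0 := by
    intro h
    have : z * (e x)⁻¹ = 1 := (sub_eq_zero.1 h).symm
    rw [this] at h3
    simp at h3
  exact inv_mul_cancel₀ h4

end Pool.Agent.TBir
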