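import Pool.Agent.TBir.Lau
import Pool.Agent.TBir.Ser

/-!
# From a logarithm to a Wiener-Hopf factorisation

MODULE. Paper proof. Put `U(w) = sum_{k ≥ 0} u_k w^k` and `V(w) = sum_{k ≥ 1} u_{-k} w^k`, power
series of radius at least `exp(eta)`, bounded by `K = C / (1 - exp(-eta/2))` on the closed disc of
radius `R = exp(eta/2)`. Let `cp`, `bp` be the Taylor coefficients at `0` of `exp(U)`, `exp(-U)` and
`cm`, `bm` those of `exp(V)`, `exp(-V)`. By Cauchy's estimates all are bounded by
`exp(K) exp(-eta j / 2)`: `Dec (exp K) (eta/2)`. The Taylor series converge on the closed unit disc to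
the functions. Hence `plusS cp x = exp(U(e x))`, `plusS bp x = exp(-U(e x))`,
`minusS cm x = exp(V((e x)⁻¹))`, `minusS bm x = exp(-V((e x)⁻¹))` (`plusS_apply`, `minusS_apply` in
`Ser`), the products are `1`, and `Psi x = (e x)^n exp(U(e x) + V((e x)⁻¹))`
(split the sum over `k : ℤ`).
-/

open MeasureTheory Complex Set Filter Topology Metric AddCircle
open scoped ComplexConjugate InnerProductSpace ENNReal

namespace Pool.Agent.TBir

private theorem term_bound {C eta : ℝ} {u : ℕ → ℂ} (hC : 0 < C) (hu : Dec C eta u) (j : ℕ) (w : ℂ)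
    (hw : ‖w‖ ≤ Real.exp (eta / 2)) :
    ‖u j * w ^ j‖ ≤ C * Real.exp (-(eta / 2)) ^ j := by
  rw [norm_mul, norm_pow]
  calc ‖u j‖ * ‖w‖ ^ j ≤ (C * Real.exp (-(eta * j))) * Real.exp (eta / 2) ^ j := by
        apply mul_le_mul (hu j) _ (by positivity) (by positivity)
        exact pow_le_pow_left₀ (norm_nonneg _) hw j
    _ = C * Real.exp (-(eta / 2)) ^ j := by
        rw [mul_assoc, ← Real.exp_nat_mul, ← Real.exp_nat_mul, ← Real.exp_add]
        congr 2
        ring

private theorem summable_geo {C eta : ℝ} (heta : 0 < eta) :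
    Summable fun j : ℕ => C * Real.exp (-(eta / 2)) ^ j := by
  apply Summable.mul_left
  apply summable_geometric_of_lt_one (Real.exp_pos _).le
  rw [Real.exp_lt_one_iff]
  linarith

/-- Exponentials of power series with exponentially decaying coefficients. -/
theorem exists_exp_coeff {C eta : ℝ} (hC : 0 < C) (heta : 0 < eta) :
    ∃ C' eta' : ℝ, 0 < C' ∧ 0 < eta' ∧ ∀ u : ℕ → ℂ, Dec C eta u →
      ∃ b : ℕ → ℂ, Dec C' eta' b ∧
        ∀ w : ℂ, ‖w‖ ≤ 1 → ∑' j : ℕ, b j * w ^ j = Complex.exp (∑' j : ℕ, u j * w ^ j) := by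
  set K : ℝ := ∑' j : ℕ, C * Real.exp (-(eta / 2)) ^ j with hK
  refine ⟨Real.exp K, eta / 4, Real.exp_pos _, by linarith, fun u hu => ?_⟩
  set U : ℂ → ℂ := fun w => ∑' j : ℕ, u j * w ^ j with hU
  set g : ℂ → ℂ := fun w => Complex.exp (U w) with hg
  have hUd : DifferentiableOn ℂ U (ball 0 (Real.exp (eta / 2))) := by
    apply differentiableOn_tsum_of_summable_norm (summable_geo (C := C) heta)
    · intro i; fun_prop
    · exact isOpen_ball
    · intro i w hw
      rw [mem_ball_zero_iff] at hw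
      exact term_bound hC hu i w hw.le
  have hgd : DifferentiableOn ℂ g (ball 0 (Real.exp (eta / 2))) := hUd.cexp
  have hUb : ∀ w : ℂ, ‖w‖ ≤ Real.exp (eta / 2) → ‖U w‖ ≤ K := by
    intro w hw
    exact tsum_of_norm_bounded (summable_geo (C := C) heta).hasSum
      (fun j => term_bound hC hu j w hw)
  have hgb : ∀ w : ℂ, ‖w‖ ≤ Real.exp (eta / 2) → ‖g w‖ ≤ Real.exp K := by
    intro w hw
    rw [hg]
    simp only
    rw [Complex.norm_exp]
    apply Real.exp_le_exp.mpr
    exact ((le_abs_self _).trans (Complex.abs_re_le_norm _)).trans (hUb w hw)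
  have hlt : Real.exp (eta / 4) < Real.exp (eta / 2) := Real.exp_lt_exp.mpr (by linarith)
  refine ⟨fun j => (j.factorial : ℂ)⁻¹ * iteratedDeriv j g 0, fun j => ?_, fun w hw => ?_⟩
  · have h1 : ‖iteratedDeriv j g 0‖ ≤ j.factorial * Real.exp K / Real.exp (eta / 4) ^ j := by
      apply Complex.norm_iteratedDeriv_le_of_forall_mem_sphere_norm_le j (Real.exp_pos _)
      · apply DifferentiableOn.diffContOnCl
        apply hgd.mono
        intro z hz
        have := closure_ball_subset_closedBall hz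
        rw [mem_closedBall_zero_iff] at this
        rw [mem_ball_zero_iff]
        linarith
      · intro z hz
        rw [mem_sphere_zero_iff_norm] at hz
        exact hgb z (by linarith)
    have hf : (0 : ℝ) < j.factorial := by exact_mod_cast j.factorial_pos
    rw [norm_mul, norm_inv, Complex.norm_natCast]
    calc (j.factorial : ℝ)⁻¹ * ‖iteratedDeriv j g 0‖
        ≤ (j.factorial : ℝ)⁻¹ * (j.factorial * Real.exp K / Real.exp (eta / 4) ^ j) := by
          apply mul_le_mul_of_nonneg_left h1 (by positivity)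
      _ = Real.exp K / Real.exp (eta / 4) ^ j := by field_simp
      _ = Real.exp K * Real.exp (-(eta / 4 * j)) := by
          rw [Real.exp_neg, ← Real.exp_nat_mul, div_eq_mul_inv]
          congr 3
          ring
  · have hw' : w ∈ ball (0 : ℂ) (Real.exp (eta / 2)) := by
      rw [mem_ball_zero_iff]
      have : 1 < Real.exp (eta / 2) := by
        rw [Real.one_lt_exp_iff]; linarith
      linarith
    have h2 := Complex.taylorSeries_eq_on_ball' hw' hgd
    simp only [sub_zero] at h2
    exact h2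

private theorem faca_fourier_eq_e (k : ℤ) (x : UnitAddCircle) : (fourier k x : ℂ) = e x ^ k := by
  rw [fourier_apply, toCircle_zsmul]
  simp [e]

private theorem norm_e_one (x : UnitAddCircle) : ‖e x‖ = 1 := Circle.norm_coe _

theorem hasWH_of_log {C eta : ℝ} (hC : 0 < C) (heta : 0 < eta) :
    ∃ C' eta' : ℝ, 0 < C' ∧ 0 < eta' ∧ ∀ u : ℤ → ℂ,
      (∀ k, ‖u k‖ ≤ C * Real.exp (-(eta * k.natAbs))) → ∀ (Psi : CT) (n : ℤ),
      (∀ x, Psi x = e x ^ n * Complex.exp (∑' k : ℤ, u k * fourier k x)) →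
      HasWH C' eta' Psi n := by
  obtain ⟨C', eta', hC', heta', H⟩ := exists_exp_coeff hC heta
  refine ⟨C', eta', hC', heta', fun u hu Psi n hPsi => ?_⟩
  set up : ℕ → ℂ := fun j => u (j : ℤ) with hup
  set um : ℕ → ℂ := fun j => if j = 0 then 0 else u (-(j : ℤ)) with hum
  have hdp : Dec C eta up := by
    intro j
    have := hu (j : ℤ)
    rwa [Int.natAbs_natCast] at this
  have hdm : Dec C eta um := by
    intro j
    by_cases hj : j = 0
    · simp only [hum, hj, if_true, norm_zero]
      positivity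
    · have := hu (-(j : ℤ))
      rw [Int.natAbs_neg, Int.natAbs_natCast] at this
      simp only [hum, hj, if_false]
      exact this
  have hneg : ∀ v : ℕ → ℂ, Dec C eta v → Dec C eta (fun j => -v j) := by
    intro v hv j
    rw [norm_neg]; exact hv j
  obtain ⟨cp, hcp, Hcp⟩ := H up hdp
  obtain ⟨bp, hbp, Hbp⟩ := H _ (hneg up hdp)
  obtain ⟨cm, hcm, Hcm⟩ := H um hdm
  obtain ⟨bm, hbm, Hbm⟩ := H _ (hneg um hdm)
  have hn : ∀ x : UnitAddCircle, ‖e x‖ ≤ 1 := fun x => (norm_e_one x).le
  have hn' : ∀ x : UnitAddCircle, ‖(e x)⁻¹‖ ≤ 1 := fun x => by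
    rw [norm_inv, norm_e_one, inv_one]
  have hsum : ∀ v : ℕ → ℂ, Dec C eta v → ∀ w : ℂ, ‖w‖ ≤ 1 → Summable fun j => v j * w ^ j := by
    intro v hv w hw
    apply Summable.of_norm_bounded (summable_geo (C := C) heta)
    intro j
    apply term_bound hC hv j w
    have : 1 ≤ Real.exp (eta / 2) := Real.one_le_exp (by linarith)
    linarith
  have hnegsum : ∀ (v : ℕ → ℂ) (w : ℂ), ∑' j : ℕ, -v j * w ^ j = -∑' j : ℕ, v j * w ^ j := by
    intro v w
    rw [← tsum_neg]
    congr 1
    ext j
    ring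
  refine ⟨bp, bm, cp, cm, hbp, hbm, hcp, hcm, ?_, ?_, ?_⟩
  · ext x
    rw [ContinuousMap.mul_apply, plusS_apply (summable_of_dec heta' hbp),
      plusS_apply (summable_of_dec heta' hcp), Hbp _ (hn x), Hcp _ (hn x), hnegsum,
      ← Complex.exp_add, neg_add_cancel, Complex.exp_zero]
    rfl
  · ext x
    rw [ContinuousMap.mul_apply, minusS_apply (summable_of_dec heta' hbm),
      minusS_apply (summable_of_dec heta' hcm), Hbm _ (hn' x), Hcm _ (hn' x), hnegsum,
      ← Complex.exp_add, neg_add_cancel, Complex.exp_zero]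
    rfl
  · ext x
    have hsplit : ∑' k : ℤ, u k * fourier k x =
        ∑' j : ℕ, up j * e x ^ j + ∑' j : ℕ, um j * (e x)⁻¹ ^ j := by
      have h1 : HasSum (fun j : ℕ => u (j : ℤ) * fourier (j : ℤ) x)
          (∑' j : ℕ, up j * e x ^ j) := by
        have h := (hsum up hdp (e x) (hn x)).hasSum
        have heq : (fun j : ℕ => u (j : ℤ) * fourier (j : ℤ) x) = fun j => up j * e x ^ j := by
          ext j
          rw [faca_fourier_eq_e, zpow_natCast]
        rw [heq]
        exact h
      have h2 : HasSum (fun j : ℕ => u (-((j : ℤ) + 1)) * fourier (-((j : ℤ) + 1)) x)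
          (∑' j : ℕ, um j * (e x)⁻¹ ^ j) := by
        have h := (hsum um hdm (e x)⁻¹ (hn' x)).hasSum
        have h' := (hasSum_nat_add_iff' (f := fun j : ℕ => um j * (e x)⁻¹ ^ j) 1).mpr h
        have heq : (fun j : ℕ => u (-((j : ℤ) + 1)) * fourier (-((j : ℤ) + 1)) x) =
            fun j => um (j + 1) * (e x)⁻¹ ^ (j + 1) := by
          ext j
          have h3 : um (j + 1) = u (-((j : ℤ) + 1)) := by
            change (if j + 1 = 0 then 0 else u (-((j + 1 : ℕ) : ℤ))) = _
            rw [if_neg (Nat.succ_ne_zero j), Nat.cast_add, Nat.cast_one]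
          have h4 : (-((j : ℤ) + 1)) = -((j + 1 : ℕ) : ℤ) := by push_cast; ring
          rw [faca_fourier_eq_e, h3, inv_pow]
          conv_lhs => rw [h4, zpow_neg, zpow_natCast]
          rw [← h4]
        rw [heq]
        have h5 : ∑ i ∈ Finset.range 1, um i * (e x)⁻¹ ^ i = 0 := by
          rw [Finset.sum_range_one]
          change (if 0 = 0 then (0 : ℂ) else u (-((0 : ℕ) : ℤ))) * _ = 0
          rw [if_pos rfl, zero_mul]
        rw [h5, sub_zero] at h'
        exact h'
      exact (HasSum.of_nat_of_neg_add_one (f := fun k : ℤ => u k * fourier k x) h1 h2).tsum_eq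
    rw [ContinuousMap.mul_apply, ContinuousMap.mul_apply, plusS_apply (summable_of_dec heta' hcp),
      minusS_apply (summable_of_dec heta' hcm), Hcp _ (hn x), Hcm _ (hn' x), hPsi,
      faca_fourier_eq_e, hsplit, Complex.exp_add]
    ring

end Pool.Agent.TBir
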