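import Pool.Agent.TBir.TpB
import Pool.Agent.TBir.EvB
import Pool.Agent.TBir.Ser

/-!
# Index of Toeplitz operators with a Wiener-Hopf factorisation

MODULE. Paper proof. Let `Psi = zeta^n cm cp` with `bm cm = 1`, `bp cp = 1`, where (abusing
letters) `cm`, `bm` are `Minus` symbols and `cp`, `bp` are `Plus` symbols (`Ser`). By `T_mul_left`,
`T_mul_right`: `T cm T bm = T bm T cm = 1` and `T cp T bp = T bp T cp = 1`, and
`T Psi = T cm T (zeta^n) T cp`. For `n ≥ 0`, `T (zeta^(-n)) T (zeta^n) = 1`; for `n < 0`,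
`T (zeta^n) T (zeta^(-n)) = 1` and `T (zeta^n) 1 = 0` (`1 = mono 0`).
Left inverse for `n ≥ 0`: `T bp T (zeta^(-n)) T bm`. Unit for `n = 0`. For `n < 0` the vector
`v = T bp 1` is nonzero (`T cp v = 1`) and `T Psi v = 0`. For `n > 0` apply this to the adjoint
`T (star Psi) = T (star cp) T (zeta^(-n)) T (star cm)`, `v = T (star bm) 1`
(`star` of a `Minus` symbol is `Plus`: `fourierCoeff_star`).
-/

open MeasureTheory Complex Set Filter Topology Metric AddCircle
open scoped ComplexConjugate InnerProductSpace ENNReal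

namespace Pool.Agent.TBir

theorem idx_fourierCoeff_fourier (n m : ℤ) :
    fourierCoeff (fourier n : CT) m = if n = m then 1 else 0 := by
  have h := (fourierBasis (T := (1 : ℝ))).repr_self n
  rw [coe_fourierBasis] at h
  have h2 : fourierCoeff ((fourierLp 2 n : L2) : UnitAddCircle → ℂ) m = if n = m then 1 else 0 := by
    rw [← fourierBasis_repr, h]
    by_cases hnm : n = m
    · subst hnm
      simp [lp.single_apply]
    · simp [lp.single_apply, hnm, Ne.symm hnm]
  rw [← h2]
  exact congrFun (fourierCoeff_congr_ae (coeFn_fourierLp (T := (1 : ℝ)) 2 n)).symm m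

theorem idx_fourier_mul (m n : ℤ) : (fourier m : CT) * fourier n = fourier (m + n) := by
  ext x
  rw [ContinuousMap.mul_apply, fourier_add]

theorem idx_fourier_zero : (fourier 0 : CT) = 1 := by
  ext x
  rw [fourier_zero, ContinuousMap.one_apply]

theorem idx_star_fourier (n : ℤ) : star (fourier n : CT) = fourier (-n) := by
  ext x
  rw [ContinuousMap.star_apply, fourier_neg]
  rfl

theorem T_fourier_neg_mul {n : ℕ} : T (fourier (-(n : ℤ))) * T (fourier (n : ℤ)) = 1 := by
  rw [← T_mul_right _ (plus_fourier (Int.natCast_nonneg n)), idx_fourier_mul,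
    neg_add_cancel, idx_fourier_zero, T_one]

theorem idx_mono_ne_zero (k : ℕ) : mono k ≠ 0 := by
  intro h
  have h1 := co_mono k k
  rw [h] at h1
  have h2 : co (0 : Hardy) k = 0 := by
    rw [← coL_apply, map_zero]
  rw [h2] at h1
  simp at h1

theorem idx_T_neg_mono {n : ℤ} (hn : n < 0) : T (fourier n) (mono 0) = 0 := by
  apply ext_co
  intro m
  have h0 : co (0 : Hardy) m = 0 := by rw [← coL_apply, map_zero]
  rw [h0]
  have h := hasSum_co_T (fourier n) (mono 0) m
  refine h.unique ?_
  have hz : (fun k : ℕ => fourierCoeff (fourier n : CT) ((m : ℤ) - k) * co (mono 0) k) = fun _ => 0 := by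
    funext k
    rw [co_mono, idx_fourierCoeff_fourier]
    by_cases hk : k = 0
    · subst hk
      have : ¬ n = (m : ℤ) - ((0 : ℕ) : ℤ) := by
        push_cast; omega
      rw [if_neg this, zero_mul]
    · rw [if_neg hk, mul_zero]
  rw [hz]
  exact hasSum_zero

theorem idx_T_factor {A B : CT} (hA : Minus A) (hB : Plus B) (n : ℤ) :
    T (fourier n * (A * B)) = T A * (T (fourier n) * T B) := by
  have h1 : (fourier n : CT) * (A * B) = A * (fourier n * B) := by ring
  rw [h1, T_mul_left hA, T_mul_right _ hB]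

theorem idx_ker_gen {A B B' : CT} (hA : Minus A) (hB : Plus B) (hB' : Plus B')
    (hBB : B' * B = 1) {n : ℤ} (hn : n < 0) :
    ∃ v : Hardy, v ≠ 0 ∧ T (fourier n * (A * B)) v = 0 := by
  have h1 : T B * T B' = 1 := by
    rw [← T_mul_right _ hB', mul_comm, hBB, T_one]
  have h2 : T B (T B' (mono 0)) = mono 0 := by
    have := congrArg (fun L : Hardy →L[ℂ] Hardy => L (mono 0)) h1
    simpa using this
  refine ⟨T B' (mono 0), ?_, ?_⟩
  · intro h
    rw [h, map_zero] at h2
    exact idx_mono_ne_zero 0 h2.symm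
  · rw [idx_T_factor hA hB]
    change T A (T (fourier n) (T B (T B' (mono 0)))) = 0
    rw [h2, idx_T_neg_mono hn, map_zero]

theorem HasWH.exists_left {C eta : ℝ} (heta : 0 < eta) {Psi : CT} {n : ℤ}
    (h : HasWH C eta Psi n) (hn : 0 ≤ n) : ∃ L : Hardy →L[ℂ] Hardy, L * T Psi = 1 := by
  obtain ⟨bp, bm, cp, cm, hbp, hbm, hcp, hcm, h1, h2, h3⟩ := h
  have sbp := summable_of_dec heta hbp
  have sbm := summable_of_dec heta hbm
  have scp := summable_of_dec heta hcp
  have scm := summable_of_dec heta hcm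
  obtain ⟨k, rfl⟩ := Int.eq_ofNat_of_zero_le hn
  have e1 : T (plusS bp) * T (plusS cp) = 1 := by
    rw [← T_mul_right _ (plus_plusS scp), h1, T_one]
  have e2 : T (minusS bm) * T (minusS cm) = 1 := by
    rw [← T_mul_left (minus_minusS sbm), h2, T_one]
  refine ⟨T (plusS bp) * (T (fourier (-(k : ℤ))) * T (minusS bm)), ?_⟩
  rw [h3, idx_T_factor (minus_minusS scm) (plus_plusS scp)]
  calc T (plusS bp) * (T (fourier (-(k : ℤ))) * T (minusS bm)) *
        (T (minusS cm) * (T (fourier (k : ℤ)) * T (plusS cp)))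
      = T (plusS bp) * (T (fourier (-(k : ℤ))) * ((T (minusS bm) * T (minusS cm)) *
          T (fourier (k : ℤ)))) * T (plusS cp) := by simp only [mul_assoc]
    _ = 1 := by rw [e2, one_mul, T_fourier_neg_mul, mul_one, e1]

theorem HasWH.isUnit {C eta : ℝ} (heta : 0 < eta) {Psi : CT}
    (h : HasWH C eta Psi 0) : IsUnit (T Psi) := by
  obtain ⟨bp, bm, cp, cm, hbp, hbm, hcp, hcm, h1, h2, h3⟩ := h
  have sbp := summable_of_dec heta hbp
  have sbm := summable_of_dec heta hbm
  have scp := summable_of_dec heta hcp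
  have scm := summable_of_dec heta hcm
  have e1 : T (plusS bp) * T (plusS cp) = 1 := by
    rw [← T_mul_right _ (plus_plusS scp), h1, T_one]
  have e1' : T (plusS cp) * T (plusS bp) = 1 := by
    rw [← T_mul_right _ (plus_plusS sbp), mul_comm, h1, T_one]
  have e2 : T (minusS bm) * T (minusS cm) = 1 := by
    rw [← T_mul_left (minus_minusS sbm), h2, T_one]
  have e2' : T (minusS cm) * T (minusS bm) = 1 := by
    rw [← T_mul_left (minus_minusS scm), mul_comm, h2, T_one]
  rw [h3, idx_T_factor (minus_minusS scm) (plus_plusS scp), idx_fourier_zero, T_one, one_mul]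
  have u1 : IsUnit (T (plusS cp)) := ⟨⟨T (plusS cp), T (plusS bp), e1', e1⟩, rfl⟩
  have u2 : IsUnit (T (minusS cm)) := ⟨⟨T (minusS cm), T (minusS bm), e2', e2⟩, rfl⟩
  exact u2.mul u1

theorem HasWH.exists_ker {C eta : ℝ} (heta : 0 < eta) {Psi : CT} {n : ℤ}
    (h : HasWH C eta Psi n) (hn : n < 0) : ∃ v : Hardy, v ≠ 0 ∧ T Psi v = 0 := by
  obtain ⟨bp, bm, cp, cm, hbp, hbm, hcp, hcm, h1, h2, h3⟩ := h
  rw [h3]
  exact idx_ker_gen (minus_minusS (summable_of_dec heta hcm))
    (plus_plusS (summable_of_dec heta hcp)) (plus_plusS (summable_of_dec heta hbp)) h1 hn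

theorem HasWH.exists_ker_adj {C eta : ℝ} (heta : 0 < eta) {Psi : CT} {n : ℤ}
    (h : HasWH C eta Psi n) (hn : 0 < n) :
    ∃ v : Hardy, v ≠ 0 ∧ ContinuousLinearMap.adjoint (T Psi) v = 0 := by
  obtain ⟨bp, bm, cp, cm, hbp, hbm, hcp, hcm, h1, h2, h3⟩ := h
  have hplus : ∀ b : ℕ → ℂ, Dec C eta b → Minus (star (plusS b) : CT) := by
    intro b hb k hk
    rw [fourierCoeff_star, plus_plusS (summable_of_dec heta hb) (-k) (by omega), map_zero]
  have hminus : ∀ b : ℕ → ℂ, Dec C eta b → Plus (star (minusS b) : CT) := by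
    intro b hb k hk
    rw [fourierCoeff_star, minus_minusS (summable_of_dec heta hb) (-k) (by omega), map_zero]
  rw [adjoint_T, h3]
  have h4 : star (fourier n * (minusS cm * plusS cp) : CT)
      = fourier (-n) * (star (plusS cp) * star (minusS cm)) := by
    rw [star_mul', star_mul', idx_star_fourier, mul_comm (star (minusS cm)) (star (plusS cp))]
  rw [h4]
  refine idx_ker_gen (hplus cp hcp) (hminus cm hcm) (hminus bm hbm) ?_ (by omega)
  have h5 := congrArg star h2
  rwa [star_mul', star_one] at h5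

end Pool.Agent.TBir
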