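import Pool.Agent.TBir.LogA
import Pool.Agent.TBir.FacA

/-!
# Wiener-Hopf factorisation with uniform constants
-/

open MeasureTheory Complex Set Filter Topology Metric AddCircle
open scoped ComplexConjugate InnerProductSpace ENNReal

namespace Pool.Agent.TBir

theorem hasWH {d m M : ℝ} (hd : 0 < d) (hd1 : d < 1) (hm : 0 < m) (n : ℤ) :
    ∃ C eta : ℝ, 0 < C ∧ 0 < eta ∧ ∀ psi : ℂ → ℂ, DifferentiableOn ℂ psi (ann d) →
      (∀ w ∈ ann d, m ≤ ‖psi w‖ ∧ ‖psi w‖ ≤ M) → wind psi = n →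
      ∀ Psi : CT, (∀ x, Psi x = psi (e x)) → HasWH C eta Psi n := by
  obtain ⟨C, eta, hC, heta, h⟩ := exists_log (M := M) hd hd1 hm n
  obtain ⟨C', eta', hC', heta', h'⟩ := hasWH_of_log hC heta
  refine ⟨C', eta', hC', heta', fun psi h1 h2 h3 Psi h4 => ?_⟩
  obtain ⟨u, hu, hu'⟩ := h psi h1 h2 h3
  exact h' u hu Psi n fun x => by rw [h4, hu']

theorem exists_hasWH {psi : ℂ → ℂ} (h : AnalyticOnNhd ℂ psi (sphere 0 1))
    (h0 : ∀ z ∈ sphere (0 : ℂ) 1, psi z ≠ 0) {Psi : CT} (hPsi : ∀ x, Psi x = psi (e x)) {n : ℤ}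
    (hn : wind psi = n) : ∃ C eta : ℝ, 0 < C ∧ 0 < eta ∧ HasWH C eta Psi n := by
  obtain ⟨d, m, M, hd, hd1, hm, h1, h2⟩ := exists_ann h h0
  obtain ⟨C, eta, hC, heta, h3⟩ := hasWH (M := M) hd hd1 hm n
  exact ⟨C, eta, hC, heta, h3 psi h1 h2 hn Psi hPsi⟩

end Pool.Agent.TBir
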