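import Pool.Agent.TBir.Base

/-!
# Local inverse at a point where the derivative does not vanish

MODULE. Proofs. `loc_inv`: the inverse function theorem for analytic functions
(`HasStrictDerivAt.toOpenPartialHomeomorph` / `HasStrictDerivAt.localInverse`,
`AnalyticAt.analyticAt_localInverse`, or `OpenPartialHomeomorph.contDiffAt_symm_deriv`), shrinking
the discs: choose `s ≤ s0` with `phi` analytic and injective on `ball t s`, then `r` with
`ball (phi t) r` contained in the (open) image of `ball t s`.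

`loc_exp`: `z` is analytic at `l0`, so `z l = t + z'(l0)(l - l0) + O(|l - l0|^2)`, and
`|z|^2 = |t|^2 + 2 Re (conj t z'(l0) (l - l0)) + O(|l - l0|^2)`.
-/

open MeasureTheory Complex Set Filter Topology Metric AddCircle
open scoped ComplexConjugate InnerProductSpace ENNReal

namespace Pool.Agent.TBir

theorem loc_inv {phi : ℂ → ℂ} {t : ℂ} (h : AnalyticAt ℂ phi t) (hd : deriv phi t ≠ 0) {s0 : ℝ}
    (hs0 : 0 < s0) :
    ∃ s r : ℝ, ∃ z : ℂ → ℂ, 0 < s ∧ s ≤ s0 ∧ 0 < r ∧ DifferentiableOn ℂ phi (ball t s) ∧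
      DifferentiableOn ℂ z (ball (phi t) r) ∧ z (phi t) = t ∧
      deriv z (phi t) = (deriv phi t)⁻¹ ∧
      (∀ l ∈ ball (phi t) r, z l ∈ ball t s ∧ phi (z l) = l) ∧
      (∀ w ∈ ball t s, phi w ∈ ball (phi t) r → z (phi w) = w) := by
  obtain ⟨g, hgdef⟩ : ∃ g : ℂ → ℂ, g = h.hasStrictDerivAt.localInverse _ _ _ hd := ⟨_, rfl⟩
  have hgan : AnalyticAt ℂ g (phi t) := by
    rw [hgdef]; exact h.analyticAt_localInverse hd
  have hgt : g (phi t) = t := by
    rw [hgdef]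
    exact HasStrictFDerivAt.localInverse_apply_image ..
  have hleft : ∀ᶠ x in 𝓝 t, g (phi x) = x := by
    rw [hgdef]
    exact h.hasStrictDerivAt.eventually_left_inverse hd
  have hright : ∀ᶠ y in 𝓝 (phi t), phi (g y) = y := by
    rw [hgdef]
    exact h.hasStrictDerivAt.eventually_right_inverse hd
  have hder : deriv g (phi t) = (deriv phi t)⁻¹ := by
    rw [hgdef]
    exact (h.hasStrictDerivAt.to_localInverse hd).hasDerivAt.deriv
  have h1 : ∀ᶠ x in 𝓝 t, g (phi x) = x ∧ AnalyticAt ℂ phi x := hleft.and h.eventually_analyticAt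
  obtain ⟨s1, hs1, h2⟩ := Metric.eventually_nhds_iff_ball.1 h1
  have hspos : 0 < min s1 s0 := lt_min hs1 hs0
  have hcont : ContinuousAt g (phi t) := hgan.continuousAt
  have h3 : ∀ᶠ y in 𝓝 (phi t), g y ∈ ball t (min s1 s0) := by
    have : ball t (min s1 s0) ∈ 𝓝 (g (phi t)) := by
      rw [hgt]
      exact ball_mem_nhds _ hspos
    exact hcont this
  have h4 : ∀ᶠ y in 𝓝 (phi t), phi (g y) = y ∧ AnalyticAt ℂ g y ∧ g y ∈ ball t (min s1 s0) :=
    hright.and (hgan.eventually_analyticAt.and h3)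
  obtain ⟨r, hr, h5⟩ := Metric.eventually_nhds_iff_ball.1 h4
  refine ⟨min s1 s0, r, g, hspos, min_le_right _ _, hr, ?_, ?_, hgt, hder, ?_, ?_⟩
  · intro x hx
    exact ((h2 x (ball_subset_ball (min_le_left _ _) hx)).2.differentiableAt).differentiableWithinAt
  · intro y hy
    exact ((h5 y hy).2.1.differentiableAt).differentiableWithinAt
  · intro l hl
    exact ⟨(h5 l hl).2.2, (h5 l hl).1⟩
  · intro w hw _
    exact (h2 w (ball_subset_ball (min_le_left _ _) hw)).1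

theorem loc_exp {z : ℂ → ℂ} {l0 t : ℂ} {r : ℝ} (hr : 0 < r)
    (hz : DifferentiableOn ℂ z (ball l0 r)) (h0 : z l0 = t) (ht : ‖t‖ = 1) :
    ∃ B r' : ℝ, 0 < r' ∧ r' ≤ r ∧ ∀ l ∈ ball l0 r',
      |‖z l‖ ^ 2 - 1 - 2 * ((conj t * deriv z l0) * (l - l0)).re| ≤ B * ‖l - l0‖ ^ 2 := by
  have hb : ball l0 r ∈ 𝓝 l0 := ball_mem_nhds _ hr
  have hg : DifferentiableOn ℂ (dslope z l0) (ball l0 r) := (Complex.differentiableOn_dslope hb).2 hz
  have hg2 : DifferentiableOn ℂ (dslope (dslope z l0) l0) (ball l0 r) :=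
    (Complex.differentiableOn_dslope hb).2 hg
  have hcont : ContinuousAt (dslope (dslope z l0) l0) l0 := (hg2.differentiableAt hb).continuousAt
  obtain ⟨g2, hg2def⟩ : ∃ g2 : ℂ → ℂ, g2 = dslope (dslope z l0) l0 := ⟨_, rfl⟩
  rw [← hg2def] at hcont
  obtain ⟨δ, hδ, hδ2⟩ := Metric.continuousAt_iff.1 hcont 1 one_pos
  obtain ⟨M, hM⟩ : ∃ M : ℝ, M = ‖g2 l0‖ + 1 := ⟨_, rfl⟩
  have hM0 : 0 ≤ M := by rw [hM]; positivity
  obtain ⟨a, ha⟩ : ∃ a : ℂ, a = deriv z l0 := ⟨_, rfl⟩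
  refine ⟨2 * M + (‖a‖ + M) ^ 2, min r (min δ 1), lt_min hr (lt_min hδ one_pos), min_le_left _ _, ?_⟩
  intro l hl
  have hl1 : dist l l0 < δ := lt_of_lt_of_le hl ((min_le_right _ _).trans (min_le_left _ _))
  have hl2 : ‖l - l0‖ < 1 := by
    rw [← dist_eq_norm]
    exact lt_of_lt_of_le hl ((min_le_right _ _).trans (min_le_right _ _))
  have hMl : ‖g2 l‖ ≤ M := by
    have h1 := hδ2 hl1
    rw [dist_eq_norm] at h1
    have h2 : ‖g2 l‖ ≤ ‖g2 l - g2 l0‖ + ‖g2 l0‖ := by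
      have := norm_add_le (g2 l - g2 l0) (g2 l0)
      rwa [sub_add_cancel] at this
    rw [hM]
    linarith
  obtain ⟨h, hh⟩ : ∃ h : ℂ, h = l - l0 := ⟨_, rfl⟩
  have e1 : z l = t + h * dslope z l0 l := by
    have h1 := sub_smul_dslope z l0 l
    rw [smul_eq_mul, h0] at h1
    rw [hh, h1]
    ring
  have e2 : dslope z l0 l = a + h * g2 l := by
    have h1 := sub_smul_dslope (dslope z l0) l0 l
    rw [smul_eq_mul, dslope_same] at h1
    rw [hh, hg2def, h1, ha]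
    ring
  obtain ⟨q, hq⟩ : ∃ q : ℂ, q = h * a + h ^ 2 * g2 l := ⟨_, rfl⟩
  have e3 : z l = t + q := by
    rw [e1, e2, hq]
    ring
  rw [← hh, ← ha, e3]
  rw [← hh] at hl2
  have e4 : ‖t + q‖ ^ 2 = 1 + ‖q‖ ^ 2 + 2 * (conj t * q).re := by
    rw [← Complex.normSq_eq_norm_sq, Complex.normSq_add, Complex.normSq_eq_norm_sq,
      Complex.normSq_eq_norm_sq, ht]
    have : (t * conj q).re = (conj t * q).re := by
      simp only [Complex.mul_re, Complex.conj_re, Complex.conj_im]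
      ring
    rw [this]
    ring
  have e5 : conj t * q = conj t * a * h + conj t * (h ^ 2 * g2 l) := by
    rw [hq]; ring
  rw [e4, e5, Complex.add_re]
  have e6 : 1 + ‖q‖ ^ 2 + 2 * ((conj t * a * h).re + (conj t * (h ^ 2 * g2 l)).re) - 1 -
      2 * (conj t * a * h).re = ‖q‖ ^ 2 + 2 * (conj t * (h ^ 2 * g2 l)).re := by ring
  rw [e6]
  have hn : 0 ≤ ‖h‖ := norm_nonneg _
  have b1 : |(conj t * (h ^ 2 * g2 l)).re| ≤ ‖h‖ ^ 2 * M := by
    refine (Complex.abs_re_le_norm _).trans ?_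
    rw [norm_mul, norm_mul, norm_pow, RCLike.norm_conj, ht, one_mul]
    exact mul_le_mul_of_nonneg_left hMl (by positivity)
  have b2 : ‖q‖ ≤ ‖h‖ * (‖a‖ + M) := by
    rw [hq]
    refine (norm_add_le _ _).trans ?_
    rw [norm_mul, norm_mul, norm_pow, mul_add]
    have : ‖h‖ ^ 2 * ‖g2 l‖ ≤ ‖h‖ * M := by
      have h3 : ‖h‖ ^ 2 ≤ ‖h‖ := by nlinarith
      exact mul_le_mul h3 hMl (norm_nonneg _) hn
    linarith
  have b3 : ‖q‖ ^ 2 ≤ ‖h‖ ^ 2 * (‖a‖ + M) ^ 2 := by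
    rw [← mul_pow]
    exact pow_le_pow_left₀ (norm_nonneg _) b2 2
  have b4 := abs_le.1 b1
  rw [abs_le]
  constructor
  · nlinarith [sq_nonneg ‖q‖, mul_nonneg (sq_nonneg ‖h‖) (sq_nonneg (‖a‖ + M)), b4.1]
  · nlinarith [b4.2, b3]

end Pool.Agent.TBir
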