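import Pool.Agent.TBir.MkLD
import Pool.Agent.TBir.LocInv

/-!
# Existence of local data

MODULE. Paper proof. Let `R` be the set of `t` on the circle with `phi t = l0`. By `triple`, `R` is
empty, or `R = {t1}`, or `R = {t1, t2}` with `t1 ≠ t2`.
`R = ∅`: `mkLD` with `z1 = 5`, `z2 = 7`, `U1 = U2 = ∅`.
`R = {t1}`: `loc_inv` at `t1` gives `s`, `r`, `z`; `U1 = ball t1 s`, `z1 = z`,
`k1 = conj t1 * deriv z l0 = conj t1 / phi'(t1) ≠ 0`, `loc_exp`; `z2 = 7`, `U2 = ∅`. Shrink `r`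
(restricting all properties to the smaller ball).
`R = {t1, t2}`: both, with `s0 = |t1 - t2| / 2`, so that the balls are disjoint.
`indep`: `ki = conj ti / phi'(ti) = 1 / (ti phi'(ti))`, so
`k1 conj k2 = conj ((t1 phi'(t1)) conj (t2 phi'(t2))) / |..|^2` has nonzero imaginary part by
`trans`. `B` is the maximum of the two constants.
-/

open MeasureTheory Complex Set Filter Topology Metric AddCircle
open scoped ComplexConjugate InnerProductSpace ENNReal

namespace Pool.Agent.TBir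

private theorem one_pt {phi : ℂ → ℂ} (hphi : Normal phi) {t : ℂ} (ht : t ∈ sphere (0 : ℂ) 1)
    {s0 : ℝ} (hs0 : 0 < s0) : ∃ s r B : ℝ, ∃ z : ℂ → ℂ, 0 < s ∧ s ≤ s0 ∧ 0 < r ∧
      DifferentiableOn ℂ z (ball (phi t) r) ∧ z (phi t) = t ∧
      (∀ l ∈ ball (phi t) r, z l ∈ ball t s ∧ phi (z l) = l) ∧
      (∀ w ∈ ball t s, phi w ∈ ball (phi t) r → z (phi w) = w) ∧
      ((t * deriv phi t)⁻¹ ≠ 0 ∧ ∀ l ∈ ball (phi t) r,
        |‖z l‖ ^ 2 - 1 - 2 * ((t * deriv phi t)⁻¹ * (l - phi t)).re| ≤ B * ‖l - phi t‖ ^ 2) := by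
  have ht1 : ‖t‖ = 1 := by simpa using ht
  have ht0 : t ≠ 0 := by
    intro h
    rw [h, norm_zero] at ht1
    exact zero_ne_one ht1
  have hd := hphi.der t ht
  obtain ⟨s, r, z, hs, hss, hr, -, hz, hz0, hdz, h1, h2⟩ := loc_inv (hphi.ana t ht) hd hs0
  obtain ⟨B, r', hr', hrr, hB⟩ := loc_exp hr hz hz0 ht1
  have hsub : ball (phi t) r' ⊆ ball (phi t) r := ball_subset_ball hrr
  refine ⟨s, r', B, z, hs, hss, hr', hz.mono hsub, hz0, fun l hl => h1 l (hsub hl),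
    fun w hw hw' => h2 w hw (hsub hw'), inv_ne_zero (mul_ne_zero ht0 hd), fun l hl => ?_⟩
  have h3 := hB l hl
  rwa [hdz, ← Complex.inv_eq_conj ht1, ← mul_inv] at h3

private theorem indep_pt {phi : ℂ → ℂ} (hphi : Normal phi) {t1 t2 : ℂ}
    (h1 : t1 ∈ sphere (0 : ℂ) 1) (h2 : t2 ∈ sphere (0 : ℂ) 1) (hne : t1 ≠ t2)
    (he : phi t1 = phi t2) :
    ((t1 * deriv phi t1)⁻¹ * conj (t2 * deriv phi t2)⁻¹).im ≠ 0 := by
  have h := hphi.trans t1 h1 t2 h2 hne he
  rw [map_inv₀, ← mul_inv, Complex.inv_im]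
  intro h0
  rw [div_eq_zero_iff] at h0
  rcases h0 with h0 | h0
  · exact h (neg_eq_zero.1 h0)
  · rw [Complex.normSq_eq_zero] at h0
    rw [h0] at h
    exact h rfl

theorem exists_LD {phi : ℂ → ℂ} (hphi : Normal phi) (l0 : ℂ) : Nonempty (LD phi l0) := by
  have n5 : ‖(5 : ℂ)‖ ≠ 1 := by norm_num
  have n7 : ‖(7 : ℂ)‖ ≠ 1 := by norm_num
  by_cases hR : ∃ t1 ∈ sphere (0 : ℂ) 1, phi t1 = l0
  · obtain ⟨t1, ht1, hl0⟩ := hR
    have ht1n : ‖t1‖ = 1 := by simpa using ht1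
    by_cases hR2 : ∃ t2 ∈ sphere (0 : ℂ) 1, phi t2 = l0 ∧ t1 ≠ t2
    · obtain ⟨t2, ht2, hl2, hne⟩ := hR2
      have ht2n : ‖t2‖ = 1 := by simpa using ht2
      have hs0 : 0 < dist t1 t2 / 2 := half_pos (dist_pos.2 hne)
      obtain ⟨s1, r1, B1, z1, hs1, hss1, hr1, hz1, hz10, a1, b1, c1, d1⟩ := one_pt hphi ht1 hs0
      obtain ⟨s2, r2, B2, z2, hs2, hss2, hr2, hz2, hz20, a2, b2, c2, d2⟩ := one_pt hphi ht2 hs0
      rw [hl0] at hz1 hz10 a1 b1 d1
      rw [hl2] at hz2 hz20 a2 b2 d2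
      have i1 : ball l0 (min r1 r2) ⊆ ball l0 r1 := ball_subset_ball (min_le_left _ _)
      have i2 : ball l0 (min r1 r2) ⊆ ball l0 r2 := ball_subset_ball (min_le_right _ _)
      refine mkLD (B := max B1 B2) (r0 := min r1 r2) (z1 := z1) (z2 := z2) (U1 := ball t1 s1)
        (U2 := ball t2 s2) (k1 := (t1 * deriv phi t1)⁻¹) (k2 := (t2 * deriv phi t2)⁻¹)
        hphi.ana (lt_min hr1 hr2) isOpen_ball isOpen_ball
        (ball_disjoint_ball (by linarith)) (hz1.mono i1) (hz2.mono i2)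
        (Or.inl ⟨by rw [hz10, ht1n], fun l hl => a1 l (i1 hl)⟩)
        (Or.inl ⟨by rw [hz20, ht2n], fun l hl => a2 l (i2 hl)⟩)
        (fun w hw hw' => b1 w hw (i1 hw')) (fun w hw hw' => b2 w hw (i2 hw'))
        (fun _ => ⟨c1, fun l hl => (d1 l (i1 hl)).trans
          (mul_le_mul_of_nonneg_right (le_max_left _ _) (by positivity))⟩)
        (fun _ => ⟨c2, fun l hl => (d2 l (i2 hl)).trans
          (mul_le_mul_of_nonneg_right (le_max_right _ _) (by positivity))⟩)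
        (fun _ _ => indep_pt hphi ht1 ht2 hne (hl0.trans hl2.symm)) ?_
      intro t ht htl
      rcases hphi.triple t1 ht1 t2 ht2 t ht (hl0.trans hl2.symm) (hl2.trans htl.symm) with
        h | h | h
      · exact absurd h hne
      · exact Or.inr (h ▸ mem_ball_self hs2)
      · exact Or.inl (h ▸ mem_ball_self hs1)
    · obtain ⟨s1, r1, B1, z1, hs1, hss1, hr1, hz1, hz10, a1, b1, c1, d1⟩ :=
        one_pt hphi ht1 zero_lt_one
      rw [hl0] at hz1 hz10 a1 b1 d1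
      refine mkLD (B := B1) (r0 := r1) (z1 := z1) (z2 := fun _ => 7) (U1 := ball t1 s1)
        (U2 := ∅) (k1 := (t1 * deriv phi t1)⁻¹) (k2 := 0)
        hphi.ana hr1 isOpen_ball isOpen_empty (disjoint_empty _) hz1 (differentiableOn_const _)
        (Or.inl ⟨by rw [hz10, ht1n], a1⟩) (Or.inr ⟨rfl, fun _ => rfl⟩)
        b1 (fun w hw => absurd hw (notMem_empty w)) (fun _ => ⟨c1, d1⟩)
        (fun h => absurd h n7) (fun _ h => absurd h n7) ?_
      intro t ht htl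
      have h1 : t1 = t := by
        by_contra h
        exact hR2 ⟨t, ht, htl, h⟩
      exact Or.inl (h1 ▸ mem_ball_self hs1)
  · refine mkLD (B := 0) (r0 := 1) (z1 := fun _ => 5) (z2 := fun _ => 7) (U1 := ∅)
      (U2 := ∅) (k1 := 0) (k2 := 0)
      hphi.ana zero_lt_one isOpen_empty isOpen_empty (disjoint_empty _) (differentiableOn_const _)
      (differentiableOn_const _) (Or.inr ⟨rfl, fun _ => rfl⟩) (Or.inr ⟨rfl, fun _ => rfl⟩)
      (fun w hw => absurd hw (notMem_empty w)) (fun w hw => absurd hw (notMem_empty w))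
      (fun h => absurd h n5) (fun h => absurd h n7) (fun h => absurd h n5) ?_
    intro t ht htl
    exact absurd ⟨t, ht, htl⟩ hR

end Pool.Agent.TBir
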