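import Pool.Agent.TBir.Base

/-!
# Positions of the zeros near a point of the curve

MODULE. Paper proof. Write `v = l - l0`. If `zi` exists (`|zi l0| = 1`), then
`|zi l|^2 - 1 = 2 Re (ki v) + O(|v|^2)`; if it does not exist, `|zi l| ≥ 2` on the ball.
`sgn_a`: choose a direction `u` with `Re (ki u) = 1` for the zeros which exist: if both exist,
`k1`, `k2` are linearly independent over the reals (`indep`) and such `u` exists (solve the real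
linear system: the map `u ↦ (Re (k1 u), Re (k2 u))` has determinant `± Im (k1 conj k2)`); if one
exists, `u = conj ki / |ki|^2`. Then `l = l0 + s u` with `s > 0` small.
`sgn_b`: if `|z1 l0| = 1`: choose `u` with `Re (k1 u) = -1`, and `Re (k2 u) = 1` if `z2` exists.
-/

open MeasureTheory Complex Set Filter Topology Metric AddCircle
open scoped ComplexConjugate InnerProductSpace ENNReal

namespace Pool.Agent.TBir

/-- Linearly independent complex numbers: the real parts `Re (k1 u)`, `Re (k2 u)` can be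
prescribed. -/
theorem exists_dir {k1 k2 : ℂ} (h : (k1 * conj k2).im ≠ 0) (s1 s2 : ℝ) :
    ∃ u : ℂ, (k1 * u).re = s1 ∧ (k2 * u).re = s2 := by
  have hd : (k1 * conj k2).im = k1.im * k2.re - k1.re * k2.im := by
    simp [Complex.mul_im]
    ring
  rw [hd] at h
  refine ⟨⟨(k1.im * s2 - k2.im * s1) / (k1.im * k2.re - k1.re * k2.im),
    (k1.re * s2 - k2.re * s1) / (k1.im * k2.re - k1.re * k2.im)⟩, ?_, ?_⟩
  · rw [Complex.mul_re]
    change k1.re * (_ / _) - k1.im * (_ / _) = s1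
    rw [← mul_div_assoc, ← mul_div_assoc, ← sub_div, div_eq_iff h]
    ring
  · rw [Complex.mul_re]
    change k2.re * (_ / _) - k2.im * (_ / _) = s2
    rw [← mul_div_assoc, ← mul_div_assoc, ← sub_div, div_eq_iff h]
    ring

/-- A direction in which the existing zeros move with prescribed speed. -/
theorem exists_dir' {phi : ℂ → ℂ} {l0 : ℂ} (D : LD phi l0) (s1 s2 : ℝ) :
    ∃ u : ℂ, (‖D.z1 l0‖ = 1 → (D.k1 * u).re = s1) ∧ (‖D.z2 l0‖ = 1 → (D.k2 * u).re = s2) := by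
  by_cases h1 : ‖D.z1 l0‖ = 1
  · by_cases h2 : ‖D.z2 l0‖ = 1
    · obtain ⟨u, hu1, hu2⟩ := exists_dir (D.indep h1 h2) s1 s2
      exact ⟨u, fun _ => hu1, fun _ => hu2⟩
    · refine ⟨s1 / D.k1, fun _ => ?_, fun h => absurd h h2⟩
      rw [mul_div_cancel₀ _ (D.z1_exp h1).1, Complex.ofReal_re]
  · by_cases h2 : ‖D.z2 l0‖ = 1
    · refine ⟨s2 / D.k2, fun h => absurd h h1, fun _ => ?_⟩
      rw [mul_div_cancel₀ _ (D.z2_exp h2).1, Complex.ofReal_re]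
    · exact ⟨0, fun h => absurd h h1, fun h => absurd h h2⟩

/-- A small step in a given direction. -/
theorem exists_step {r eps : ℝ} (B : ℝ) (l0 u : ℂ) (hr : 0 < r) (heps : 0 < eps) :
    ∃ s : ℝ, 0 < s ∧ l0 + s * u ∈ ball l0 eps ∧ l0 + s * u ∈ ball l0 r ∧ s * (B * ‖u‖ ^ 2) ≤ 1 := by
  have t1 : Tendsto (fun s : ℝ => s * ‖u‖) (𝓝[>] 0) (𝓝 0) := by
    have : Tendsto (fun s : ℝ => s * ‖u‖) (𝓝 0) (𝓝 (0 * ‖u‖)) :=
      (continuous_id.mul continuous_const).tendsto 0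
    rw [zero_mul] at this
    exact this.mono_left nhdsWithin_le_nhds
  have t2 : Tendsto (fun s : ℝ => s * (B * ‖u‖ ^ 2)) (𝓝[>] 0) (𝓝 0) := by
    have : Tendsto (fun s : ℝ => s * (B * ‖u‖ ^ 2)) (𝓝 0) (𝓝 (0 * (B * ‖u‖ ^ 2))) :=
      (continuous_id.mul continuous_const).tendsto 0
    rw [zero_mul] at this
    exact this.mono_left nhdsWithin_le_nhds
  obtain ⟨s, ⟨⟨hs1, hs2⟩, hs3⟩, hs4⟩ :=
    ((((t1.eventually_lt_const heps).and (t1.eventually_lt_const hr)).and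
      (t2.eventually_lt_const one_pos)).and self_mem_nhdsWithin).exists
  have hs : 0 < s := hs4
  have hd : dist (l0 + s * u) l0 = s * ‖u‖ := by
    rw [dist_eq_norm, add_sub_cancel_left, norm_mul, Complex.norm_real, Real.norm_of_nonneg hs.le]
  exact ⟨s, hs, by rw [mem_ball, hd]; exact hs1, by rw [mem_ball, hd]; exact hs2, hs3.le⟩

theorem gt_of_step {z : ℂ → ℂ} {l0 k u : ℂ} {B s : ℝ} (hs : 0 < s)
    (h : |‖z (l0 + s * u)‖ ^ 2 - 1 - 2 * (k * ((l0 + s * u) - l0)).re| ≤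
      B * ‖(l0 + s * u) - l0‖ ^ 2) (hk : (k * u).re = 1) (hB : s * (B * ‖u‖ ^ 2) ≤ 1) :
    1 < ‖z (l0 + s * u)‖ := by
  have e1 : (k * ((l0 + s * u) - l0)).re = s := by
    rw [add_sub_cancel_left, show k * (s * u) = s * (k * u) by ring, Complex.re_ofReal_mul, hk,
      mul_one]
  have e2 : ‖(l0 + s * u) - l0‖ ^ 2 = s ^ 2 * ‖u‖ ^ 2 := by
    rw [add_sub_cancel_left, norm_mul, Complex.norm_real, Real.norm_of_nonneg hs.le, mul_pow]
  rw [e1, e2] at h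
  have h1 := (abs_le.1 h).1
  have h2 : B * (s ^ 2 * ‖u‖ ^ 2) ≤ s := by
    have := mul_le_mul_of_nonneg_left hB hs.le
    calc B * (s ^ 2 * ‖u‖ ^ 2) = s * (s * (B * ‖u‖ ^ 2)) := by ring
      _ ≤ s * 1 := this
      _ = s := mul_one s
  have h3 : 1 < ‖z (l0 + s * u)‖ ^ 2 := by linarith
  by_contra hcon
  push Not at hcon
  exact absurd (pow_le_one₀ (norm_nonneg _) hcon (n := 2)) (not_le.2 h3)

theorem lt_of_step {z : ℂ → ℂ} {l0 k u : ℂ} {B s : ℝ} (hs : 0 < s)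
    (h : |‖z (l0 + s * u)‖ ^ 2 - 1 - 2 * (k * ((l0 + s * u) - l0)).re| ≤
      B * ‖(l0 + s * u) - l0‖ ^ 2) (hk : (k * u).re = -1) (hB : s * (B * ‖u‖ ^ 2) ≤ 1) :
    ‖z (l0 + s * u)‖ < 1 := by
  have e1 : (k * ((l0 + s * u) - l0)).re = -s := by
    rw [add_sub_cancel_left, show k * (s * u) = s * (k * u) by ring, Complex.re_ofReal_mul, hk,
      mul_neg, mul_one]
  have e2 : ‖(l0 + s * u) - l0‖ ^ 2 = s ^ 2 * ‖u‖ ^ 2 := by
    rw [add_sub_cancel_left, norm_mul, Complex.norm_real, Real.norm_of_nonneg hs.le, mul_pow]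
  rw [e1, e2] at h
  have h1 := (abs_le.1 h).2
  have h2 : B * (s ^ 2 * ‖u‖ ^ 2) ≤ s := by
    have := mul_le_mul_of_nonneg_left hB hs.le
    calc B * (s ^ 2 * ‖u‖ ^ 2) = s * (s * (B * ‖u‖ ^ 2)) := by ring
      _ ≤ s * 1 := this
      _ = s := mul_one s
  have h3 : ‖z (l0 + s * u)‖ ^ 2 < 1 := by linarith
  by_contra hcon
  push Not at hcon
  exact absurd (one_le_pow₀ hcon (n := 2)) (not_le.2 h3)

theorem sgn_a {phi : ℂ → ℂ} {l0 : ℂ} (D : LD phi l0) {eps : ℝ} (heps : 0 < eps) :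
    ∃ l ∈ ball l0 eps, l ∈ ball l0 D.r ∧ 1 < ‖D.z1 l‖ ∧ 1 < ‖D.z2 l‖ := by
  obtain ⟨u, hu1, hu2⟩ := exists_dir' D 1 1
  obtain ⟨s, hs, hse, hsr, hB⟩ := exists_step D.B l0 u D.r_pos heps
  refine ⟨l0 + s * u, hse, hsr, ?_, ?_⟩
  · rcases D.z1_cases with ⟨h, _⟩ | h
    · exact gt_of_step hs ((D.z1_exp h).2 _ hsr) (hu1 h) hB
    · linarith [h _ hsr]
  · rcases D.z2_cases with ⟨h, _⟩ | h
    · exact gt_of_step hs ((D.z2_exp h).2 _ hsr) (hu2 h) hB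
    · linarith [h _ hsr]

theorem sgn_b {phi : ℂ → ℂ} {l0 : ℂ} (D : LD phi l0) (h1 : ‖D.z1 l0‖ = 1) {eps : ℝ}
    (heps : 0 < eps) :
    ∃ l ∈ ball l0 eps, l ∈ ball l0 D.r ∧ ‖D.z1 l‖ < 1 ∧ 1 < ‖D.z2 l‖ := by
  obtain ⟨u, hu1, hu2⟩ := exists_dir' D (-1) 1
  obtain ⟨s, hs, hse, hsr, hB⟩ := exists_step D.B l0 u D.r_pos heps
  refine ⟨l0 + s * u, hse, hsr, lt_of_step hs ((D.z1_exp h1).2 _ hsr) (hu1 h1) hB, ?_⟩
  rcases D.z2_cases with ⟨h, _⟩ | h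
  · exact gt_of_step hs ((D.z2_exp h).2 _ hsr) (hu2 h) hB
  · linarith [h _ hsr]

/-- Both zeros exist: there are points with both zeros in the disc. -/
theorem sgn_c {phi : ℂ → ℂ} {l0 : ℂ} (D : LD phi l0) (h1 : ‖D.z1 l0‖ = 1) (h2 : ‖D.z2 l0‖ = 1)
    {eps : ℝ} (heps : 0 < eps) :
    ∃ l ∈ ball l0 eps, l ∈ ball l0 D.r ∧ ‖D.z1 l‖ < 1 ∧ ‖D.z2 l‖ < 1 := by
  obtain ⟨u, hu1, hu2⟩ := exists_dir' D (-1) (-1)
  obtain ⟨s, hs, hse, hsr, hB⟩ := exists_step D.B l0 u D.r_pos heps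
  exact ⟨l0 + s * u, hse, hsr, lt_of_step hs ((D.z1_exp h1).2 _ hsr) (hu1 h1) hB,
    lt_of_step hs ((D.z2_exp h2).2 _ hsr) (hu2 h2) hB⟩

end Pool.Agent.TBir
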