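import Pool.Agent.TBir.WindS
import Pool.Agent.TBir.Sgn
import Pool.Agent.TBir.LDex

/-!
# Winding numbers in local data

MODULE. Paper proof. `mem_J_iff`: by `fac` at `w` on the circle (in `ann del`), `phi w = l` iff
`psi l w * (w - z1 l)(w - z2 l) = 0` iff `w = z1 l` or `w = z2 l` (`psi_lb`). So `l ∈ J` iff one of
`z1 l`, `z2 l` has absolute value `1`.

`wd_eq`: near the circle `phi w - l = psi l w (w - z1 l)(w - z2 l)` (`fac`, `ann del` is open), no
factor vanishes on the circle; `wind_congr`, `wind_mul`, `wind_sub_const`, `wind_eq`.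

`dense_compl_J`: `sgn_a` and `mem_J_iff` for local data at `l` (`exists_LD`).

`J` is compact (image of the circle). For large `|l|` the winding number is zero:
`wd phi l = wind (phi - l)`, and `|(phi - l) - (-l)| < |l|` on the circle: `wind_near`.
`wd_int`: `wind_int`. `isOpen`: `wd` is locally constant off `J` (`wind_near`).
-/

open MeasureTheory Complex Set Filter Topology Metric AddCircle
open scoped ComplexConjugate InnerProductSpace ENNReal

namespace Pool.Agent.TBir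

theorem isCompact_J {phi : ℂ → ℂ} (hphi : AnalyticOnNhd ℂ phi (sphere 0 1)) :
    IsCompact (J phi) :=
  (isCompact_sphere (0 : ℂ) 1).image_of_continuousOn hphi.continuousOn

private theorem wdld_ann {d : ℝ} (hd : 0 < d) {w : ℂ} (hw : ‖w‖ = 1) : w ∈ ann d := by
  refine ⟨?_, ?_⟩ <;> rw [hw] <;> linarith

private theorem wdld_ann_open (d : ℝ) : IsOpen (ann d) :=
  (isOpen_lt continuous_const continuous_norm).inter (isOpen_lt continuous_norm continuous_const)

theorem LD.mem_J_iff {phi : ℂ → ℂ} {l0 : ℂ} (D : LD phi l0) {l : ℂ} (hl : l ∈ ball l0 D.r) :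
    l ∈ J phi ↔ ‖D.z1 l‖ = 1 ∨ ‖D.z2 l‖ = 1 := by
  constructor
  · rintro ⟨w, hw, hwl⟩
    rw [mem_sphere_zero_iff_norm] at hw
    have hwa := wdld_ann D.del_pos hw
    have h1 := D.fac l hl w hwa
    have h2 := D.psi_lb l hl w hwa
    have h3 : D.psi l w ≠ 0 := by
      intro h4
      rw [h4, norm_zero] at h2
      exact absurd D.m_pos (not_lt.2 h2)
    rw [hwl, sub_self] at h1
    have h5 := (mul_eq_zero.1 h1.symm).resolve_left h3
    rcases mul_eq_zero.1 h5 with h6 | h6
    · left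
      rw [← sub_eq_zero.1 h6]
      exact hw
    · right
      rw [← sub_eq_zero.1 h6]
      exact hw
  · rintro (h1 | h1)
    · refine ⟨D.z1 l, mem_sphere_zero_iff_norm.2 h1, ?_⟩
      have h2 := D.fac l hl _ (wdld_ann D.del_pos h1)
      rw [sub_self, zero_mul, mul_zero] at h2
      exact sub_eq_zero.1 h2
    · refine ⟨D.z2 l, mem_sphere_zero_iff_norm.2 h1, ?_⟩
      have h2 := D.fac l hl _ (wdld_ann D.del_pos h1)
      rw [sub_self, mul_zero, mul_zero] at h2
      exact sub_eq_zero.1 h2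

theorem LD.wd_eq {phi : ℂ → ℂ} {l0 : ℂ} (D : LD phi l0) {l : ℂ} (hl : l ∈ ball l0 D.r)
    (hJ : l ∉ J phi) : wd phi l = D.x + (if ‖D.z1 l‖ < 1 then 1 else 0) +
      (if ‖D.z2 l‖ < 1 then 1 else 0) := by
  rw [D.mem_J_iff hl, not_or] at hJ
  obtain ⟨hz1, hz2⟩ := hJ
  have hsub : ∀ z ∈ sphere (0 : ℂ) 1, z ∈ ann D.del := fun z hz =>
    wdld_ann D.del_pos (mem_sphere_zero_iff_norm.1 hz)
  have h1 : wd phi l = wind (fun w => D.psi l w * ((w - D.z1 l) * (w - D.z2 l))) := by
    refine wind_congr fun z hz => ?_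
    filter_upwards [(wdld_ann_open D.del).mem_nhds (hsub z hz)] with w hw
    exact D.fac l hl w hw
  have hne : ∀ a : ℂ, ‖a‖ ≠ 1 → ∀ z ∈ sphere (0 : ℂ) 1, z - a ≠ 0 := by
    intro a ha z hz h2
    rw [sub_eq_zero] at h2
    rw [mem_sphere_zero_iff_norm, h2] at hz
    exact ha hz
  have han : ∀ a : ℂ, AnalyticOnNhd ℂ (fun w : ℂ => w - a) (sphere 0 1) := fun a z _ =>
    analyticAt_id.sub analyticAt_const
  have h2 : wind (fun w => (w - D.z1 l) * (w - D.z2 l)) =
      wind (fun w => w - D.z1 l) + wind (fun w => w - D.z2 l) :=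
    wind_mul (han _) (han _) (hne _ hz1) (hne _ hz2)
  have h3 : wind (fun w => D.psi l w * ((w - D.z1 l) * (w - D.z2 l))) =
      wind (D.psi l) + wind (fun w => (w - D.z1 l) * (w - D.z2 l)) := by
    refine wind_mul (fun z hz => ?_) ((han _).mul (han _)) (fun z hz h4 => ?_) (fun z hz => ?_)
    · exact (D.psi_diff l hl).analyticAt ((wdld_ann_open D.del).mem_nhds (hsub z hz))
    · have h5 := D.psi_lb l hl z (hsub z hz)
      rw [h4, norm_zero] at h5
      exact absurd D.m_pos (not_lt.2 h5)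
    · exact mul_ne_zero (hne _ hz1 z hz) (hne _ hz2 z hz)
  rw [h1, h3, h2, D.wind_eq l hl, wind_sub_const hz1, wind_sub_const hz2, add_assoc]

theorem dense_compl_J {phi : ℂ → ℂ} (hphi : Normal phi) : Dense (J phi)ᶜ := by
  rw [Metric.dense_iff]
  intro l eps heps
  obtain ⟨D⟩ := exists_LD hphi l
  obtain ⟨l', h1, h2, h3, h4⟩ := sgn_a D heps
  refine ⟨l', h1, fun h5 => ?_⟩
  rcases (D.mem_J_iff h2).1 h5 with h6 | h6
  · exact absurd h6 h3.ne'
  · exact absurd h6 h4.ne'

theorem wd_int {phi : ℂ → ℂ} (hphi : AnalyticOnNhd ℂ phi (sphere 0 1)) {l : ℂ}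
    (hl : l ∉ J phi) : ∃ n : ℤ, wd phi l = n := by
  refine wind_int (hphi.sub fun z _ => analyticAt_const) fun z hz h => ?_
  exact hl ⟨z, hz, sub_eq_zero.1 h⟩

theorem wd_loc {phi : ℂ → ℂ} (hphi : AnalyticOnNhd ℂ phi (sphere 0 1)) {l : ℂ}
    (hl : l ∉ J phi) : ∀ᶠ l' in 𝓝 l, l' ∉ J phi ∧ wd phi l' = wd phi l := by
  obtain ⟨eps, heps, hsub⟩ := Metric.isOpen_iff.1 (isCompact_J hphi).isClosed.isOpen_compl l hl
  filter_upwards [Metric.ball_mem_nhds l heps] with l' hl'
  refine ⟨hsub hl', ?_⟩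
  refine wind_near (hphi.sub fun z _ => analyticAt_const) (hphi.sub fun z _ => analyticAt_const)
    fun z hz => ?_
  have h1 : phi z ∉ ball l eps := fun h2 => hsub h2 ⟨z, hz, rfl⟩
  rw [mem_ball, dist_eq_norm, not_lt] at h1
  rw [mem_ball, dist_eq_norm] at hl'
  have h2 : phi z - l' - (phi z - l) = -(l' - l) := by ring
  rw [h2, norm_neg]
  exact hl'.trans_le h1

theorem wd_large {phi : ℂ → ℂ} (hphi : AnalyticOnNhd ℂ phi (sphere 0 1)) :
    ∃ R : ℝ, ∀ l : ℂ, R < ‖l‖ → l ∉ J phi ∧ wd phi l = 0 := by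
  obtain ⟨R, hR⟩ := (isCompact_J hphi).isBounded.subset_closedBall (0 : ℂ)
  refine ⟨R, fun l hl => ⟨fun h => ?_, ?_⟩⟩
  · have h1 := hR h
    rw [mem_closedBall_zero_iff] at h1
    exact absurd hl (not_lt.2 h1)
  · have h1 : wd phi l = wind (fun _ => -l) := by
      refine wind_near (hphi.sub fun z _ => analyticAt_const) (fun z _ => analyticAt_const)
        fun z hz => ?_
      have h2 : phi z - l - -l = phi z := by ring
      rw [h2, norm_neg]
      have h3 := hR ⟨z, hz, rfl⟩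
      rw [mem_closedBall_zero_iff] at h3
      exact h3.trans_lt hl
    rw [h1]
    unfold wind
    simp [circleIntegral]

end Pool.Agent.TBir
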