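import Pool.Agent.TBir.TpB
import Pool.Agent.TBir.Ser
import Pool.Agent.TBir.WdLD
import Pool.Agent.TBir.WHm
import Pool.Agent.TBir.Idx

/-!
# Factorisation of `T Phi - l`, Fredholm facts off the curve
-/

open MeasureTheory Complex Set Filter Topology Metric AddCircle
open scoped ComplexConjugate InnerProductSpace ENNReal

namespace Pool.Agent.TBir

theorem fourier_one_apply (x : UnitAddCircle) : (fourier 1 : CT) x = e x := by
  rw [fourier_one]; rfl

theorem LD.fac_T {phi : ℂ → ℂ} {l0 : ℂ} (D : LD phi l0) {Phi : CT} (hPhi : ∀ x, Phi x = phi (e x))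
    {l : ℂ} (hl : l ∈ ball l0 D.r) :
    T Phi - l • (1 : Hardy →L[ℂ] Hardy) = T (D.Psi l) *
      ((S - D.z1 l • (1 : Hardy →L[ℂ] Hardy)) * (S - D.z2 l • (1 : Hardy →L[ℂ] Hardy))) := by
  have h1 : Phi - algebraMap ℂ CT l = D.Psi l *
      ((fourier 1 - algebraMap ℂ CT (D.z1 l)) * (fourier 1 - algebraMap ℂ CT (D.z2 l))) := by
    ext x
    have := D.fac l hl (e x) (e_mem_ann D.del_pos x)
    simp only [Algebra.algebraMap_eq_smul_one, ContinuousMap.sub_apply, ContinuousMap.mul_apply,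
      ContinuousMap.smul_apply, ContinuousMap.one_apply, smul_eq_mul, mul_one]
    rw [hPhi, D.Psi_eq l hl, fourier_one_apply]
    exact this
  have p1 : Plus ((fourier 1 : CT) - algebraMap ℂ CT (D.z1 l)) :=
    (plus_fourier (by norm_num)).sub (plus_algebraMap _)
  have p2 : Plus ((fourier 1 : CT) - algebraMap ℂ CT (D.z2 l)) :=
    (plus_fourier (by norm_num)).sub (plus_algebraMap _)
  rw [← T_algebraMap, ← T_sub, h1, T_mul_right _ (p1.mul p2), T_mul_right _ p2, T_sub, T_sub,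
    T_algebraMap, T_algebraMap]
  rfl

/-- `T Phi - l` off the curve. -/
theorem hasWH_sub {phi : ℂ → ℂ} (hphi : AnalyticOnNhd ℂ phi (sphere 0 1)) {Phi : CT}
    (hPhi : ∀ x, Phi x = phi (e x)) {l : ℂ} (hl : l ∉ J phi) {n : ℤ} (hn : wd phi l = n) :
    ∃ C eta : ℝ, 0 < C ∧ 0 < eta ∧ HasWH C eta (Phi - algebraMap ℂ CT l) n := by
  refine exists_hasWH (psi := fun w => phi w - l) (fun z hz => (hphi z hz).sub analyticAt_const)
    (fun z hz h => hl ⟨z, hz, sub_eq_zero.1 h⟩) (fun x => ?_) hn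
  simp [hPhi]

theorem T_sub_smul (Phi : CT) (l : ℂ) :
    T (Phi - algebraMap ℂ CT l) = T Phi - l • (1 : Hardy →L[ℂ] Hardy) := by
  rw [T_sub, T_algebraMap]

theorem isUnit_of_wd {phi : ℂ → ℂ} (hphi : AnalyticOnNhd ℂ phi (sphere 0 1)) {Phi : CT}
    (hPhi : ∀ x, Phi x = phi (e x)) {l : ℂ} (hl : l ∉ J phi) (hn : wd phi l = 0) :
    IsUnit (T Phi - l • (1 : Hardy →L[ℂ] Hardy)) := by
  obtain ⟨C, eta, _, h2, h3⟩ := hasWH_sub hphi hPhi hl (n := 0) (by simpa using hn)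
  rw [← T_sub_smul]
  exact h3.isUnit h2

theorem mem_resolventSet_of_wd {phi : ℂ → ℂ} (hphi : AnalyticOnNhd ℂ phi (sphere 0 1)) {Phi : CT}
    (hPhi : ∀ x, Phi x = phi (e x)) {l : ℂ} (hl : l ∉ J phi) (hn : wd phi l = 0) :
    l ∈ resolventSet ℂ (T Phi) := by
  have h := isUnit_of_wd hphi hPhi hl hn
  rw [spectrum.mem_resolventSet_iff, Algebra.algebraMap_eq_smul_one, ← neg_sub]
  exact h.neg

theorem exists_left_of_wd {phi : ℂ → ℂ} (hphi : AnalyticOnNhd ℂ phi (sphere 0 1)) {Phi : CT}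
    (hPhi : ∀ x, Phi x = phi (e x)) {l : ℂ} (hl : l ∉ J phi) (hn : 0 ≤ (wd phi l).re) :
    ∃ L : Hardy →L[ℂ] Hardy, L * (T Phi - l • (1 : Hardy →L[ℂ] Hardy)) = 1 := by
  obtain ⟨n, hn'⟩ := wd_int hphi hl
  obtain ⟨C, eta, _, h2, h3⟩ := hasWH_sub hphi hPhi hl hn'
  rw [← T_sub_smul]
  refine h3.exists_left h2 ?_
  rw [hn'] at hn
  simpa using hn

theorem exists_ker_of_wd {phi : ℂ → ℂ} (hphi : AnalyticOnNhd ℂ phi (sphere 0 1)) {Phi : CT}
    (hPhi : ∀ x, Phi x = phi (e x)) {l : ℂ} (hl : l ∉ J phi) (hn : (wd phi l).re < 0) :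
    ∃ v : Hardy, v ≠ 0 ∧ T Phi v = l • v := by
  obtain ⟨n, hn'⟩ := wd_int hphi hl
  obtain ⟨C, eta, _, h2, h3⟩ := hasWH_sub hphi hPhi hl hn'
  obtain ⟨v, hv, hv'⟩ := h3.exists_ker h2 (by rw [hn'] at hn; simpa using hn)
  rw [T_sub_smul] at hv'
  exact ⟨v, hv, sub_eq_zero.1 hv'⟩

theorem exists_ker_adj_of_wd {phi : ℂ → ℂ} (hphi : AnalyticOnNhd ℂ phi (sphere 0 1)) {Phi : CT}
    (hPhi : ∀ x, Phi x = phi (e x)) {l : ℂ} (hl : l ∉ J phi) (hn : 0 < (wd phi l).re) :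
    ∃ v : Hardy, v ≠ 0 ∧ ContinuousLinearMap.adjoint (T Phi) v = conj l • v := by
  obtain ⟨n, hn'⟩ := wd_int hphi hl
  obtain ⟨C, eta, _, h2, h3⟩ := hasWH_sub hphi hPhi hl hn'
  obtain ⟨v, hv, hv'⟩ := h3.exists_ker_adj h2 (by rw [hn'] at hn; simpa using hn)
  rw [T_sub_smul, map_sub, map_smulₛₗ] at hv'
  refine ⟨v, hv, sub_eq_zero.1 ?_⟩
  rw [ContinuousLinearMap.adjoint_one] at hv'
  exact hv'

/-- The range of `T Phi - l` off the curve, in the case of nonnegative winding number. -/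
theorem mem_range_of_orth {phi : ℂ → ℂ} (hphi : AnalyticOnNhd ℂ phi (sphere 0 1)) {Phi : CT}
    (hPhi : ∀ x, Phi x = phi (e x)) {l : ℂ} (hl : l ∉ J phi) (hn : 0 ≤ (wd phi l).re) {y : Hardy}
    (hy : ∀ v : Hardy, ContinuousLinearMap.adjoint (T Phi) v = conj l • v → inner ℂ v y = 0) :
    ∃ h : Hardy, (T Phi - l • (1 : Hardy →L[ℂ] Hardy)) h = y := by
  obtain ⟨L, hL⟩ := exists_left_of_wd hphi hPhi hl hn
  set A : Hardy →L[ℂ] Hardy := T Phi - l • (1 : Hardy →L[ℂ] Hardy) with hA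
  have hLA : ∀ x, L (A x) = x := fun x => by
    have := congrArg (fun B : Hardy →L[ℂ] Hardy => B x) hL
    simpa using this
  have hcl : IsClosed (LinearMap.range (A : Hardy →ₗ[ℂ] Hardy) : Set Hardy) := by
    have h1 : (LinearMap.range (A : Hardy →ₗ[ℂ] Hardy) : Set Hardy) = {y | A (L y) = y} := by
      ext y
      simp only [SetLike.mem_coe, LinearMap.mem_range, ContinuousLinearMap.coe_coe, mem_ofPred_eq]
      constructor
      · rintro ⟨x, rfl⟩; rw [hLA]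
      · intro h; exact ⟨_, h⟩
    rw [h1]
    exact isClosed_eq (A.continuous.comp L.continuous) continuous_id
  have hc : CompleteSpace (LinearMap.range (A : Hardy →ₗ[ℂ] Hardy)) := hcl.completeSpace_coe
  have h2 : y ∈ (LinearMap.range (A : Hardy →ₗ[ℂ] Hardy))ᗮᗮ := by
    rw [Submodule.mem_orthogonal]
    intro v hv
    rw [Submodule.mem_orthogonal] at hv
    refine hy v ?_
    have h3 : ContinuousLinearMap.adjoint A v = 0 := by
      refine ext_inner_left ℂ fun w => ?_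
      rw [ContinuousLinearMap.adjoint_inner_right, inner_zero_right]
      exact hv _ ⟨w, rfl⟩
    rw [hA, map_sub, map_smulₛₗ, ContinuousLinearMap.adjoint_one] at h3
    exact sub_eq_zero.1 h3
  rw [Submodule.orthogonal_orthogonal] at h2
  obtain ⟨h, hh⟩ := h2
  exact ⟨h, hh⟩

end Pool.Agent.TBir
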