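import Pool.Agent.TBir.Base

/-!
# The cutoffs `kap Q n`

MODULE. Paper proof. Each factor `t_q(l) = smoothTransition ((n+1)^2 |l - q|^2 - 1)` is smooth
(`|l - q|^2` is), with values in `[0, 1]`, equal to `0` for `|l - q| ≤ 1/(n+1)` and to `1` for
`(n+1)^2 |l - q|^2 ≥ 2`, in particular for `|l - q| ≥ 2/(n+1)`. Its real derivative at `l` has norm
at most `A * (n+1)^2 * 2 |l - q|` with `A` a bound for the derivative of `smoothTransition`, and
vanishes unless `1 ≤ (n+1) |l - q| ≤ 2` (outside the function is locally constant; at the two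
boundary values the derivative vanishes too or the estimate is applied), so it is at most
`4 A (n+1)`. Product rule: `|dbar (kap Q n) l| ≤ card Q * 4 A (n+1)` (up to a constant).
`dbar_kap_ne`: if all `q` satisfy `|l - q| < 1/(n+1)` or `|l - q| > 2/(n+1)` then all factors are
constant near `l`.
-/

set_option linter.all false

open MeasureTheory Complex Set Filter Topology Metric AddCircle
open scoped ComplexConjugate InnerProductSpace ENNReal
open Pool.Lib (dbar)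

namespace Pool.Agent.TBir

/-- one factor -/
private noncomputable def kf (n : ℕ) (q l : ℂ) : ℂ :=
  ((Real.smoothTransition (((n : ℝ) + 1) ^ 2 * ‖l - q‖ ^ 2 - 1) : ℝ) : ℂ)

private theorem kap_kf (Q : Finset ℂ) (n : ℕ) : kap Q n = fun l => ∏ q ∈ Q, kf n q l := rfl

private theorem contDiff_kf (n : ℕ) (q : ℂ) : ContDiff ℝ 1 (kf n q) := by
  have h1 : ContDiff ℝ 1 (fun l : ℂ => ((n : ℝ) + 1) ^ 2 * ‖l - q‖ ^ 2 - 1) :=
    (contDiff_const.mul ((contDiff_id.sub contDiff_const).norm_sq ℝ)).sub contDiff_const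
  have h2 : ContDiff ℝ 1 (fun l : ℂ =>
      Real.smoothTransition (((n : ℝ) + 1) ^ 2 * ‖l - q‖ ^ 2 - 1)) :=
    (Real.smoothTransition.contDiff).comp h1
  exact Complex.ofRealCLM.contDiff.comp h2

private theorem norm_kf_le (n : ℕ) (q l : ℂ) : ‖kf n q l‖ ≤ 1 := by
  unfold kf
  rw [Complex.norm_real, Real.norm_of_nonneg (Real.smoothTransition.nonneg _)]
  exact Real.smoothTransition.le_one _

private theorem st_deriv_zero {x : ℝ} (hx : x < 0 ∨ 1 < x) :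
    deriv Real.smoothTransition x = 0 := by
  rcases hx with h | h
  · have e : Real.smoothTransition =ᶠ[𝓝 x] fun _ => (0 : ℝ) := by
      filter_upwards [Iio_mem_nhds h] with y hy
      exact Real.smoothTransition.zero_of_nonpos (le_of_lt hy)
    rw [e.deriv_eq, deriv_const]
  · have e : Real.smoothTransition =ᶠ[𝓝 x] fun _ => (1 : ℝ) := by
      filter_upwards [Ioi_mem_nhds h] with y hy
      exact Real.smoothTransition.one_of_one_le (le_of_lt hy)
    rw [e.deriv_eq, deriv_const]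

private theorem st_deriv_bound : ∃ A : ℝ, 0 ≤ A ∧ ∀ x, |deriv Real.smoothTransition x| ≤ A := by
  have hc : Continuous (deriv Real.smoothTransition) :=
    (Real.smoothTransition.contDiff (n := 1)).continuous_deriv le_rfl
  obtain ⟨A, hA⟩ := (isCompact_Icc (a := (0 : ℝ)) (b := 1)).exists_bound_of_continuousOn
    hc.continuousOn
  have hA0 : 0 ≤ A := (norm_nonneg _).trans (hA 0 ⟨le_rfl, zero_le_one⟩)
  refine ⟨A, hA0, fun x => ?_⟩
  by_cases hx : x < 0 ∨ 1 < x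
  · rw [st_deriv_zero hx, abs_zero]; exact hA0
  · push Not at hx
    have := hA x ⟨hx.1, hx.2⟩
    rwa [Real.norm_eq_abs] at this

private theorem kf_fderiv_le (n : ℕ) (q l : ℂ) : ‖fderiv ℝ (kf n q) l‖ ≤
    |deriv Real.smoothTransition (((n : ℝ) + 1) ^ 2 * ‖l - q‖ ^ 2 - 1)| *
      (((n : ℝ) + 1) ^ 2 * (2 * ‖l - q‖)) := by
  have h0 : HasFDerivAt (fun l : ℂ => l - q) (ContinuousLinearMap.id ℝ ℂ) l :=
    (hasFDerivAt_id l).sub_const q
  have h1 : HasFDerivAt (fun l : ℂ => ‖l - q‖ ^ 2) (2 • (innerSL ℝ (l - q))) l := by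
    have := h0.norm_sq
    simpa using this
  have h2 : HasFDerivAt (fun l : ℂ => ((n : ℝ) + 1) ^ 2 * ‖l - q‖ ^ 2 - 1)
      ((((n : ℝ) + 1) ^ 2) • (2 • (innerSL ℝ (l - q)))) l := (h1.const_mul _).sub_const 1
  have h3 : HasDerivAt Real.smoothTransition
      (deriv Real.smoothTransition (((n : ℝ) + 1) ^ 2 * ‖l - q‖ ^ 2 - 1))
      (((n : ℝ) + 1) ^ 2 * ‖l - q‖ ^ 2 - 1) :=
    ((Real.smoothTransition.contDiff (n := 1)).differentiable (by norm_num)).differentiableAt.hasDerivAt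
  have h4 := h3.comp_hasFDerivAt l h2
  have h5 := (Complex.ofRealCLM.hasFDerivAt).comp l h4
  have h6 : fderiv ℝ (kf n q) l = Complex.ofRealCLM.comp
      (deriv Real.smoothTransition (((n : ℝ) + 1) ^ 2 * ‖l - q‖ ^ 2 - 1) •
        ((((n : ℝ) + 1) ^ 2) • (2 • (innerSL ℝ (l - q))))) := h5.fderiv
  rw [h6]
  refine ContinuousLinearMap.opNorm_le_bound _ (by positivity) fun v => ?_
  have e : (Complex.ofRealCLM.comp
      (deriv Real.smoothTransition (((n : ℝ) + 1) ^ 2 * ‖l - q‖ ^ 2 - 1) •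
        ((((n : ℝ) + 1) ^ 2) • (2 • (innerSL ℝ (l - q)))))) v =
      ((deriv Real.smoothTransition (((n : ℝ) + 1) ^ 2 * ‖l - q‖ ^ 2 - 1) *
        (((n : ℝ) + 1) ^ 2 * (2 * inner ℝ (l - q) v)) : ℝ) : ℂ) := by
    rw [ContinuousLinearMap.comp_apply, Complex.ofRealCLM_apply]
    congr 1
    rw [ContinuousLinearMap.smul_apply, ContinuousLinearMap.smul_apply,
      ContinuousLinearMap.smul_apply, innerSL_apply_apply, smul_eq_mul, smul_eq_mul, nsmul_eq_mul]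
    push_cast
    ring
  rw [e, Complex.norm_real, Real.norm_eq_abs, abs_mul, abs_mul, abs_mul, abs_of_pos
    (show (0 : ℝ) < ((n : ℝ) + 1) ^ 2 by positivity), abs_of_pos (show (0 : ℝ) < 2 by norm_num)]
  have h7 : |inner ℝ (l - q) v| ≤ ‖l - q‖ * ‖v‖ := abs_real_inner_le_norm _ _
  calc |deriv Real.smoothTransition (((n : ℝ) + 1) ^ 2 * ‖l - q‖ ^ 2 - 1)| *
      (((n : ℝ) + 1) ^ 2 * (2 * |inner ℝ (l - q) v|)) ≤
      |deriv Real.smoothTransition (((n : ℝ) + 1) ^ 2 * ‖l - q‖ ^ 2 - 1)| *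
      (((n : ℝ) + 1) ^ 2 * (2 * (‖l - q‖ * ‖v‖))) := by gcongr
    _ = _ := by ring

private theorem kf_prod_fderiv (s : Finset ℂ) (n : ℕ) (l : ℂ) (B : ℝ) (hB : 0 ≤ B)
    (h : ∀ q ∈ s, ‖fderiv ℝ (kf n q) l‖ ≤ B) :
    ‖fderiv ℝ (fun l => ∏ q ∈ s, kf n q l) l‖ ≤ s.card * B := by
  classical
  induction s using Finset.induction_on with
  | empty => simp
  | insert a s ha ih =>
    have hda : DifferentiableAt ℝ (kf n a) l :=
      ((contDiff_kf n a).differentiable (by norm_num)).differentiableAt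
    have hds : DifferentiableAt ℝ (fun l => ∏ q ∈ s, kf n q l) l :=
      ((contDiff_prod fun q _ => contDiff_kf n q).differentiable (by norm_num)).differentiableAt
    have e : (fun l => ∏ q ∈ insert a s, kf n q l) = fun l => kf n a l * ∏ q ∈ s, kf n q l := by
      funext l; rw [Finset.prod_insert ha]
    rw [e, fderiv_fun_mul hda hds, Finset.card_insert_of_notMem ha]
    have h1 := ih fun q hq => h q (Finset.mem_insert_of_mem hq)
    have h2 := h a (Finset.mem_insert_self a s)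
    have h3 : ‖∏ q ∈ s, kf n q l‖ ≤ 1 := by
      rw [norm_prod]
      exact Finset.prod_le_one (fun q _ => norm_nonneg _) fun q _ => norm_kf_le n q l
    refine (norm_add_le _ _).trans ?_
    rw [norm_smul, norm_smul]
    have h4 : ‖kf n a l‖ * ‖fderiv ℝ (fun l => ∏ q ∈ s, kf n q l) l‖ ≤ 1 * (s.card * B) :=
      mul_le_mul (norm_kf_le n a l) h1 (norm_nonneg _) zero_le_one
    have h5 : ‖∏ q ∈ s, kf n q l‖ * ‖fderiv ℝ (kf n a) l‖ ≤ 1 * B :=
      mul_le_mul h3 h2 (norm_nonneg _) zero_le_one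
    push_cast
    linarith

private theorem norm_dbar_le (g : ℂ → ℂ) (z : ℂ) : ‖dbar g z‖ ≤ ‖fderiv ℝ g z‖ := by
  unfold dbar
  rw [norm_div]
  have h1 : ‖fderiv ℝ g z 1‖ ≤ ‖fderiv ℝ g z‖ := by
    have := (fderiv ℝ g z).le_opNorm 1
    rwa [norm_one, mul_one] at this
  have h2 : ‖I * fderiv ℝ g z I‖ ≤ ‖fderiv ℝ g z‖ := by
    have := (fderiv ℝ g z).le_opNorm I
    rw [Complex.norm_I, mul_one] at this
    rwa [norm_mul, Complex.norm_I, one_mul]
  have h3 : ‖(2 : ℂ)‖ = 2 := by simp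
  rw [h3, div_le_iff₀ (by norm_num)]
  refine (norm_add_le _ _).trans ?_
  linarith

theorem contDiff_kap (Q : Finset ℂ) (n : ℕ) : ContDiff ℝ 1 (kap Q n) := by
  rw [kap_kf]
  exact contDiff_prod fun q _ => contDiff_kf n q

theorem norm_kap_le (Q : Finset ℂ) (n : ℕ) (l : ℂ) : ‖kap Q n l‖ ≤ 1 := by
  rw [kap_kf]
  show ‖∏ q ∈ Q, kf n q l‖ ≤ 1
  rw [norm_prod]
  exact Finset.prod_le_one (fun q _ => norm_nonneg _) fun q _ => norm_kf_le n q l

theorem kap_eq_zero {Q : Finset ℂ} {q : ℂ} (hq : q ∈ Q) {n : ℕ} {l : ℂ}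
    (h : ‖l - q‖ ≤ 1 / ((n : ℝ) + 1)) : kap Q n l = 0 := by
  unfold kap
  refine Finset.prod_eq_zero hq ?_
  have hn : (0 : ℝ) < (n : ℝ) + 1 := by positivity
  rw [le_div_iff₀ hn] at h
  have h1 : ((n : ℝ) + 1) ^ 2 * ‖l - q‖ ^ 2 - 1 ≤ 0 := by
    have h2 : (‖l - q‖ * ((n : ℝ) + 1)) ^ 2 ≤ 1 := pow_le_one₀ (by positivity) h
    nlinarith
  rw [Real.smoothTransition.zero_of_nonpos h1, Complex.ofReal_zero]

theorem kap_eq_one {Q : Finset ℂ} {n : ℕ} {l : ℂ}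
    (h : ∀ q ∈ Q, 2 / ((n : ℝ) + 1) ≤ ‖l - q‖) : kap Q n l = 1 := by
  unfold kap
  refine Finset.prod_eq_one fun q hq => ?_
  have hn : (0 : ℝ) < (n : ℝ) + 1 := by positivity
  have h1 := h q hq
  rw [div_le_iff₀ hn] at h1
  have h2 : 1 ≤ ((n : ℝ) + 1) ^ 2 * ‖l - q‖ ^ 2 - 1 := by
    have h3 : (2 : ℝ) ^ 2 ≤ (‖l - q‖ * ((n : ℝ) + 1)) ^ 2 := pow_le_pow_left₀ (by norm_num) h1 2
    nlinarith
  rw [Real.smoothTransition.one_of_one_le h2, Complex.ofReal_one]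

theorem norm_dbar_kap_le (Q : Finset ℂ) :
    ∃ C : ℝ, 0 < C ∧ ∀ (n : ℕ) (l : ℂ), ‖dbar (kap Q n) l‖ ≤ C * ((n : ℝ) + 1) := by
  obtain ⟨A, hA0, hA⟩ := st_deriv_bound
  refine ⟨Q.card * (4 * A) + 1, by positivity, fun n l => ?_⟩
  have hn : (0 : ℝ) < (n : ℝ) + 1 := by positivity
  have hkey : ∀ q ∈ Q, ‖fderiv ℝ (kf n q) l‖ ≤ 4 * A * ((n : ℝ) + 1) := by
    intro q _
    refine (kf_fderiv_le n q l).trans ?_
    by_cases hx : ((n : ℝ) + 1) ^ 2 * ‖l - q‖ ^ 2 - 1 < 0 ∨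
        1 < ((n : ℝ) + 1) ^ 2 * ‖l - q‖ ^ 2 - 1
    · rw [st_deriv_zero hx, abs_zero, zero_mul]; positivity
    · push Not at hx
      have h1 : ((n : ℝ) + 1) * ‖l - q‖ ≤ 2 := by
        by_contra hc
        rw [not_le] at hc
        have h3 : (2 : ℝ) ^ 2 < (((n : ℝ) + 1) * ‖l - q‖) ^ 2 :=
          pow_lt_pow_left₀ hc (by norm_num) (by norm_num)
        nlinarith [hx.2]
      calc |deriv Real.smoothTransition (((n : ℝ) + 1) ^ 2 * ‖l - q‖ ^ 2 - 1)| *
          (((n : ℝ) + 1) ^ 2 * (2 * ‖l - q‖)) ≤ A * (((n : ℝ) + 1) ^ 2 * (2 * ‖l - q‖)) := by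
            gcongr
            exact hA _
        _ = A * (((n : ℝ) + 1) * 2) * (((n : ℝ) + 1) * ‖l - q‖) := by ring
        _ ≤ A * (((n : ℝ) + 1) * 2) * 2 := by gcongr
        _ = 4 * A * ((n : ℝ) + 1) := by ring
  have h2 := kf_prod_fderiv Q n l _ (by positivity) hkey
  have h3 := norm_dbar_le (kap Q n) l
  rw [kap_kf] at h3 ⊢
  refine (h3.trans h2).trans ?_
  nlinarith

theorem dbar_kap_ne {Q : Finset ℂ} {n : ℕ} {l : ℂ} (h : dbar (kap Q n) l ≠ 0) :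
    ∃ q ∈ Q, 1 / ((n : ℝ) + 1) ≤ ‖l - q‖ ∧ ‖l - q‖ ≤ 2 / ((n : ℝ) + 1) := by
  by_contra hcon
  push Not at hcon
  apply h
  have hn : (0 : ℝ) < (n : ℝ) + 1 := by positivity
  have hkey : ∀ q ∈ Q, ‖fderiv ℝ (kf n q) l‖ ≤ 0 := by
    intro q hq
    refine (kf_fderiv_le n q l).trans ?_
    have hx : ((n : ℝ) + 1) ^ 2 * ‖l - q‖ ^ 2 - 1 < 0 ∨
        1 < ((n : ℝ) + 1) ^ 2 * ‖l - q‖ ^ 2 - 1 := by
      by_cases h1 : 1 / ((n : ℝ) + 1) ≤ ‖l - q‖
      · right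
        have h2 := hcon q hq h1
        rw [div_lt_iff₀ hn] at h2
        have h3 : (2 : ℝ) ^ 2 < (‖l - q‖ * ((n : ℝ) + 1)) ^ 2 :=
          pow_lt_pow_left₀ h2 (by norm_num) (by norm_num)
        nlinarith
      · left
        rw [not_le, lt_div_iff₀ hn] at h1
        have h3 : (‖l - q‖ * ((n : ℝ) + 1)) ^ 2 < 1 ^ 2 :=
          pow_lt_pow_left₀ h1 (by positivity) (by norm_num)
        nlinarith
    rw [st_deriv_zero hx, abs_zero, zero_mul]
  have h2 := kf_prod_fderiv Q n l 0 le_rfl hkey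
  have h3 := norm_dbar_le (kap Q n) l
  rw [kap_kf] at h3 ⊢
  have h4 := h3.trans h2
  rw [mul_zero] at h4
  exact norm_le_zero_iff.1 h4

end Pool.Agent.TBir
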