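import Pool.Agent.TBir.CConst
import Pool.Agent.TBir.CzIff

/-!
# The scalar is the same along the whole circle

MODULE. Paper proof.
Step 1. For `t` on the circle: take local data `D` at `l0 = phi t` (`exists_LD`). By `fac` at `w = t`,
`t = z1 l0` or `t = z2 l0`; after `LD.swap`, `t = z1 l0`. Take a frame `F` (`exists_frame`) and
`c_const` for `F` and for `F.swap` (`F.swap.PP = F.PP`, `D.swap.z1 = D.z2`): scalars `k1`, `k2`. By
`LD.inv1` there is `rho_t > 0` such that for `z ∈ ball 0 1 ∩ ball t rho_t`, `l = phi z` is as near to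
`l0` as we like and `z = z1 l`; if `l ∉ J`, `cz_iff` gives: for all `k`,
`Cz phi Phi P k z ↔ k = k1 =: k_t`. (*)
Step 2. `t ↦ k_t` is locally constant: let `t'` be on the circle, in `ball t rho_t`. There is `z` in
`ball 0 1 ∩ ball t rho_t ∩ ball t' rho_t'` with `phi z ∉ J`: local data at `phi t'` with `z1 = t'`
there, `sgn_b` gives `l` near with `|z1 l| < 1 < |z2 l|`, so `l ∉ J` (`LD.mem_J_iff`),
`z = z1 l` near `t'`. So `k_t = k_t'`. The circle is connected (`isPreconnected_sphere`), so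
`k_t = kp` for all `t`.
Step 3. Given `D`, `F` at any `l0`: `c_const` for `F` and `F.swap` give `k1`, `k2` and `rho`. If
`z1` exists, `t = z1 l0`; by `sgn_b` there is `l ∉ J` near `l0` with `|z1 l| < 1 < |z2 l|` and `z1 l`
in `ball t rho_t`; by `cz_iff`, `Cz .. k (z1 l) ↔ k = k1`, and by (*) `↔ k = kp`. So `k1 = kp`. If `z1`
does not exist, `|z1 l| < 1` is impossible. The same for `z2`.
-/

open MeasureTheory Complex Set Filter Topology Metric AddCircle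
open scoped ComplexConjugate InnerProductSpace ENNReal

namespace Pool.Agent.TBir

/-- `P` acts as the scalar `kp` at all zeros in the disc. -/
def ScalarAt (phi : ℂ → ℂ) (P : Hardy →L[ℂ] Hardy) (kp : ℂ) : Prop :=
  ∀ (l0 : ℂ) (D : LD phi l0) (F : Frame D P), ∃ rho > 0, rho ≤ F.s ∧
    ∀ l ∈ ball l0 rho, l ∉ J phi →
      (‖D.z1 l‖ < 1 → ∀ g : Hardy, ev (D.z1 l) (F.PP l g) = kp * ev (D.z1 l) g) ∧
      (‖D.z2 l‖ < 1 → ∀ g : Hardy, ev (D.z2 l) (F.PP l g) = kp * ev (D.z2 l) g)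

/-- the scalar at the points of the disc near `t` -/
private def KgL (phi : ℂ → ℂ) (Phi : CT) (P : Hardy →L[ℂ] Hardy) (t k : ℂ) : Prop :=
  ∃ rho > 0, ∀ z ∈ ball t rho, ‖z‖ < 1 → phi z ∉ J phi → ∀ k', Cz phi Phi P k' z ↔ k' = k

private theorem kg_A {phi : ℂ → ℂ} {Phi : CT} (hPhi : ∀ x, Phi x = phi (e x)) {l0 : ℂ}
    {D : LD phi l0} {P : Hardy →L[ℂ] Hardy} (F : Frame D P) (h1 : ‖D.z1 l0‖ = 1) {k1 k2 : ℂ}
    {r1 r2 : ℝ} (hr1 : 0 < r1) (hr2 : 0 < r2)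
    (hk1 : ∀ l ∈ ball l0 r1, ‖D.z1 l‖ < 1 → ∀ g : Hardy,
      ev (D.z1 l) (F.PP l g) = k1 * ev (D.z1 l) g)
    (hk2 : ∀ l ∈ ball l0 r2, ‖D.z2 l‖ < 1 → ∀ g : Hardy,
      ev (D.z2 l) (F.PP l g) = k2 * ev (D.z2 l) g) : KgL phi Phi P (D.z1 l0) k1 := by
  have hs : 0 < min F.s (min r1 r2) := lt_min F.s_pos (lt_min hr1 hr2)
  obtain ⟨rho, hrho, _, h2⟩ := D.inv1 h1 hs
  refine ⟨rho, hrho, fun z hz hz1 hJ k' => ?_⟩
  obtain ⟨h3, _, h5⟩ := h2 z hz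
  have hF : phi z ∈ ball l0 F.s := ball_subset_ball (min_le_left _ _) h3
  have hb1 : phi z ∈ ball l0 r1 :=
    ball_subset_ball ((min_le_right _ _).trans (min_le_left _ _)) h3
  have hb2 : phi z ∈ ball l0 r2 :=
    ball_subset_ball ((min_le_right _ _).trans (min_le_right _ _)) h3
  have hz' : ‖D.z1 (phi z)‖ < 1 := by rw [h5]; exact hz1
  have h := cz_iff hPhi F hF hJ hz' (hk1 _ hb1 hz') (hk2 _ hb2) k'
  rwa [h5] at h

private theorem kg_C {phi : ℂ → ℂ} {l0 : ℂ} (D : LD phi l0) (h1 : ‖D.z1 l0‖ = 1) {eps : ℝ}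
    (heps : 0 < eps) : ∃ z ∈ ball (D.z1 l0) eps, ‖z‖ < 1 ∧ phi z ∉ J phi := by
  have hc : ContinuousAt D.z1 l0 :=
    (D.z1_diff.continuousOn).continuousAt (isOpen_ball.mem_nhds (mem_ball_self D.r_pos))
  obtain ⟨d, hd, h2⟩ := Metric.continuousAt_iff.1 hc eps heps
  obtain ⟨l, hl, hlr, h3, h4⟩ := sgn_b D h1 hd
  refine ⟨D.z1 l, h2 hl, h3, ?_⟩
  rcases D.z1_cases with ⟨_, h5⟩ | h5
  · rw [(h5 l hlr).2, D.mem_J_iff hlr]
    rintro (h6 | h6)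
    · exact absurd h6 h3.ne
    · exact absurd h6 h4.ne'
  · have := h5 l0 (mem_ball_self D.r_pos)
    rw [h1] at this
    norm_num at this

private theorem kg_D {phi : ℂ → ℂ} (hphi : Normal phi) {t : ℂ} (ht : ‖t‖ = 1) :
    ∃ D : LD phi (phi t), D.z1 (phi t) = t := by
  obtain ⟨D⟩ := exists_LD hphi (phi t)
  have hl : phi t ∈ ball (phi t) D.r := mem_ball_self D.r_pos
  have hw : t ∈ ann D.del := by
    refine ⟨?_, ?_⟩
    · rw [ht]
      linarith [D.del_pos]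
    · rw [ht]
      linarith [D.del_pos]
  have h := D.fac (phi t) hl t hw
  rw [sub_self] at h
  have hpsi : D.psi (phi t) t ≠ 0 := by
    intro h0
    have := D.psi_lb (phi t) hl t hw
    rw [h0, norm_zero] at this
    linarith [D.m_pos]
  rcases mul_eq_zero.1 h.symm with h2 | h2
  · exact absurd h2 hpsi
  · rcases mul_eq_zero.1 h2 with h3 | h3
    · exact ⟨D, (sub_eq_zero.1 h3).symm⟩
    · exact ⟨D.swap, (sub_eq_zero.1 h3).symm⟩

private theorem kg_uniq {phi : ℂ → ℂ} (hphi : Normal phi) {Phi : CT} {P : Hardy →L[ℂ] Hardy}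
    {t k t' k' : ℂ} {rho : ℝ} (ht' : ‖t'‖ = 1)
    (h : ∀ z ∈ ball t rho, ‖z‖ < 1 → phi z ∉ J phi → ∀ k', Cz phi Phi P k' z ↔ k' = k)
    (hmem : t' ∈ ball t rho) (h' : KgL phi Phi P t' k') : k = k' := by
  obtain ⟨rho', hrho', h2⟩ := h'
  obtain ⟨D, hD⟩ := kg_D hphi ht'
  have hd : 0 < rho - dist t' t := sub_pos.2 hmem
  obtain ⟨z, hz, hz1, hz2⟩ := kg_C D (by rw [hD]; exact ht') (lt_min hrho' hd)
  rw [hD] at hz
  have hzt' : z ∈ ball t' rho' := ball_subset_ball (min_le_left _ _) hz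
  have hzt : z ∈ ball t rho := by
    have h3 : dist z t' < rho - dist t' t := lt_of_lt_of_le hz (min_le_right _ _)
    rw [mem_ball]
    linarith [dist_triangle z t' t]
  exact ((h2 z hzt' hz1 hz2 k).1 ((h z hzt hz1 hz2 k).2 rfl))

private theorem kg_B {phi : ℂ → ℂ} (hphi : Normal phi) {Phi : CT}
    (hPhi : ∀ x, Phi x = phi (e x)) (hx : ∀ (l0 : ℂ) (D : LD phi l0), 0 ≤ D.x)
    {P : Hardy →L[ℂ] Hardy} (hP : P * T Phi = T Phi * P) (hP2 : P * P = P) {t : ℂ}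
    (ht : ‖t‖ = 1) : ∃ k, (k = 0 ∨ k = 1) ∧ KgL phi Phi P t k := by
  obtain ⟨D, hD⟩ := kg_D hphi ht
  obtain ⟨F⟩ := exists_frame hPhi D (hx _ D) hP
  obtain ⟨k1, hk1, r1, hr1, _, h1⟩ := c_const hPhi hP hP2 F
  obtain ⟨k2, _, r2, hr2, _, h2⟩ := c_const hPhi hP hP2 F.swap
  refine ⟨k1, hk1, ?_⟩
  have h := kg_A hPhi F (by rw [hD]; exact ht) hr1 hr2 h1 h2
  rwa [hD] at h

private theorem kg_kp {phi : ℂ → ℂ} (hphi : Normal phi) {Phi : CT}
    (hPhi : ∀ x, Phi x = phi (e x)) (hx : ∀ (l0 : ℂ) (D : LD phi l0), 0 ≤ D.x)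
    {P : Hardy →L[ℂ] Hardy} (hP : P * T Phi = T Phi * P) (hP2 : P * P = P) :
    ∃ kp : ℂ, (kp = 0 ∨ kp = 1) ∧ ∀ t : ℂ, ‖t‖ = 1 → KgL phi Phi P t kp := by
  have hB : ∀ t : ℂ, ∃ k : ℂ, ‖t‖ = 1 → (k = 0 ∨ k = 1) ∧ KgL phi Phi P t k := by
    intro t
    by_cases ht : ‖t‖ = 1
    · obtain ⟨k, hk⟩ := kg_B hphi hPhi hx hP hP2 ht
      exact ⟨k, fun _ => hk⟩
    · exact ⟨0, fun h => absurd h ht⟩
  choose K hK using hB
  have hcont : ContinuousOn (fun t => decide (K t = 0)) (sphere (0 : ℂ) 1) := by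
    intro t ht
    have ht1 : ‖t‖ = 1 := mem_sphere_zero_iff_norm.1 ht
    obtain ⟨rho, hrho, h⟩ := (hK t ht1).2
    refine ContinuousWithinAt.congr_of_eventuallyEq
      (f := fun _ => decide (K t = 0)) continuousWithinAt_const ?_ rfl
    filter_upwards [mem_nhdsWithin_of_mem_nhds (ball_mem_nhds t hrho), self_mem_nhdsWithin]
      with t' ht' hs
    have ht'1 : ‖t'‖ = 1 := mem_sphere_zero_iff_norm.1 hs
    have := kg_uniq hphi ht'1 h ht' (hK t' ht'1).2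
    rw [this]
  have hrank : 1 < Module.rank ℝ ℂ := by
    rw [Complex.rank_real_complex]
    norm_num
  have hpre := isPreconnected_sphere hrank (0 : ℂ) 1
  have h1 : (1 : ℂ) ∈ sphere (0 : ℂ) 1 := by simp
  refine ⟨K 1, (hK 1 (by simp)).1, fun t ht => ?_⟩
  have ht' : t ∈ sphere (0 : ℂ) 1 := mem_sphere_zero_iff_norm.2 ht
  have h2 := hpre.constant hcont ht' h1
  have h3 : K t = K 1 := by
    have h4 : (K t = 0 ↔ K 1 = 0) := by
      have := h2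
      simp only [decide_eq_decide] at this
      exact this
    rcases (hK t ht).1 with h5 | h5
    · rw [h5, h4.1 h5]
    · rcases (hK 1 (by simp)).1 with h6 | h6
      · rw [h4.2 h6, h6]
      · rw [h5, h6]
  rw [← h3]
  exact (hK t ht).2

private theorem kg_one {phi : ℂ → ℂ} (hphi : Normal phi) {Phi : CT}
    (hPhi : ∀ x, Phi x = phi (e x)) {P : Hardy →L[ℂ] Hardy} {kp : ℂ}
    (hkp : ∀ t : ℂ, ‖t‖ = 1 → KgL phi Phi P t kp) {l0 : ℂ} {D : LD phi l0} (F : Frame D P)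
    {k1 k2 : ℂ} {r1 r2 : ℝ} (hr1 : 0 < r1) (hr2 : 0 < r2) (hr1F : r1 ≤ F.s)
    (hk1 : ∀ l ∈ ball l0 r1, ‖D.z1 l‖ < 1 → ∀ g : Hardy,
      ev (D.z1 l) (F.PP l g) = k1 * ev (D.z1 l) g)
    (hk2 : ∀ l ∈ ball l0 r2, ‖D.z2 l‖ < 1 → ∀ g : Hardy,
      ev (D.z2 l) (F.PP l g) = k2 * ev (D.z2 l) g) {l : ℂ} (hl : l ∈ ball l0 r1)
    (hz : ‖D.z1 l‖ < 1) : k1 = kp := by
  rcases D.z1_cases with ⟨h1, _⟩ | h5
  · obtain ⟨rho, hrho, h2⟩ := kg_A hPhi F h1 hr1 hr2 hk1 hk2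
    exact kg_uniq hphi h1 h2 (mem_ball_self hrho) (hkp _ h1)
  · have := h5 l (ball_subset_ball (hr1F.trans F.s_le) hl)
    linarith

theorem exists_kappa {phi : ℂ → ℂ} (hphi : Normal phi) {Phi : CT}
    (hPhi : ∀ x, Phi x = phi (e x)) (hx : ∀ (l0 : ℂ) (D : LD phi l0), 0 ≤ D.x)
    {P : Hardy →L[ℂ] Hardy} (hP : P * T Phi = T Phi * P) (hP2 : P * P = P) :
    ∃ kp : ℂ, (kp = 0 ∨ kp = 1) ∧ ScalarAt phi P kp := by
  obtain ⟨kp, hkp, h⟩ := kg_kp hphi hPhi hx hP hP2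
  refine ⟨kp, hkp, fun l0 D F => ?_⟩
  obtain ⟨k1, _, r1, hr1, hr1F, h1⟩ := c_const hPhi hP hP2 F
  obtain ⟨k2, _, r2, hr2, hr2F, h2⟩ := c_const hPhi hP hP2 F.swap
  refine ⟨min r1 r2, lt_min hr1 hr2, (min_le_left _ _).trans hr1F, fun l hl _ => ⟨?_, ?_⟩⟩
  · intro hz g
    have hl1 : l ∈ ball l0 r1 := ball_subset_ball (min_le_left _ _) hl
    rw [← kg_one hphi hPhi h F hr1 hr2 hr1F h1 h2 hl1 hz]
    exact h1 l hl1 hz g
  · intro hz g
    have hl2 : l ∈ ball l0 r2 := ball_subset_ball (min_le_right _ _) hl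
    rw [← kg_one hphi hPhi h F.swap hr2 hr1 hr2F h2 h1 hl2 hz]
    exact h2 l hl2 hz g

end Pool.Agent.TBir
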