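import Pool.Agent.TBir.Base

/-!
# Laurent coefficients of a bounded analytic function on an annulus

MODULE. Proofs. `integral_circle`: parametrise, `w = e x`, `dw = 2 pi i w dx`
(`circleIntegral`, `AddCircle.integral_haarAddCircle` / `intervalIntegral`, substitution
`theta = 2 pi x`).

`laurent_bound`: by `integral_circle` the coefficient is `(2 pi i)⁻¹ ∮ w^(-k-1) h(w) dw` over
`C(0, 1)`, and `w^(-k) h(w)` is analytic on the annulus, so by
`Complex.circleIntegral_sub_center_inv_smul_eq_of_differentiable_on_annulus_off_countable` the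
circle may be replaced by `C(0, 1 + d/2)` (`k ≥ 0`) or `C(0, 1 - d/2)` (`k < 0`), and
`1 - d/2 ≤ (1 + d/2)⁻¹`.

`laurent_sum`: the coefficients are summable, `has_pointwise_sum_fourier_series_of_summable`.
-/

open MeasureTheory Complex Set Filter Topology Metric AddCircle
open scoped ComplexConjugate InnerProductSpace ENNReal

namespace Pool.Agent.TBir

theorem norm_e (x : UnitAddCircle) : ‖e x‖ = 1 := Circle.norm_coe _

theorem e_mem_ann {d : ℝ} (hd : 0 < d) (x : UnitAddCircle) : e x ∈ ann d := by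
  refine ⟨?_, ?_⟩ <;> rw [norm_e] <;> linarith

theorem exists_e {z : ℂ} (hz : ‖z‖ = 1) : ∃ x : UnitAddCircle, e x = z := by
  obtain ⟨x, hx⟩ := (homeomorphCircle (T := (1 : ℝ)) one_ne_zero).surjective
    ⟨z, mem_sphere_zero_iff_norm.2 hz⟩
  refine ⟨x, ?_⟩
  rw [homeomorphCircle_apply] at hx
  unfold e
  rw [hx]

theorem isOpen_ann (d : ℝ) : IsOpen (ann d) :=
  (isOpen_lt continuous_const continuous_norm).inter (isOpen_lt continuous_norm continuous_const)

theorem continuous_e : Continuous e := by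
  unfold e
  exact continuous_induced_dom.comp continuous_toCircle

theorem e_ne_zero (x : UnitAddCircle) : e x ≠ 0 := by
  intro h
  have := norm_e x
  rw [h, norm_zero] at this
  exact zero_ne_one this

theorem fourier_eq_e (n : ℤ) (x : UnitAddCircle) : fourier n x = e x ^ n := by
  unfold e
  rw [fourier_apply, toCircle_zsmul, Circle.coe_zpow]

theorem e_coe (x : ℝ) : e (x : UnitAddCircle) = circleMap 0 1 (2 * Real.pi * x) := by
  unfold e
  rw [toCircle_apply_mk, Circle.coe_exp, circleMap]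
  simp

theorem integral_circle {g : ℂ → ℂ} (hg : ContinuousOn g (sphere 0 1)) :
    (2 * Real.pi * I)⁻¹ * ∮ w in C(0, 1), g w =
      ∫ x : UnitAddCircle, e x * g (e x) ∂haarAddCircle := by
  have h1 : ∫ x : UnitAddCircle, e x * g (e x) ∂haarAddCircle =
      fourierCoeff (fun x : UnitAddCircle => e x * g (e x)) 0 := by
    unfold fourierCoeff
    simp
  rw [h1, fourierCoeff_eq_intervalIntegral _ _ 0]
  have h2 : (∫ x : ℝ in (0 : ℝ)..0 + 1, (fourier (-0) (x : UnitAddCircle) : ℂ) •
      (fun x : UnitAddCircle => e x * g (e x)) x) =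
      ∫ x : ℝ in (0 : ℝ)..1,
        (fun t : ℝ => circleMap 0 1 t * g (circleMap 0 1 t)) (2 * Real.pi * x) := by
    rw [zero_add]
    refine intervalIntegral.integral_congr fun x _ => ?_
    simp only [neg_zero, fourier_zero, one_smul]
    rw [e_coe]
  have h4 := intervalIntegral.integral_comp_mul_left (a := 0) (b := 1) (c := 2 * Real.pi)
    (fun t : ℝ => circleMap 0 1 t * g (circleMap 0 1 t)) (by positivity)
  rw [h2, h4, mul_zero, mul_one, circleIntegral]
  have h3 : (∫ θ : ℝ in (0 : ℝ)..2 * Real.pi, deriv (circleMap 0 1) θ • g (circleMap 0 1 θ)) =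
      I * ∫ θ : ℝ in (0 : ℝ)..2 * Real.pi, circleMap 0 1 θ * g (circleMap 0 1 θ) := by
    rw [← intervalIntegral.integral_const_mul]
    refine intervalIntegral.integral_congr fun x _ => ?_
    simp only [deriv_circleMap, smul_eq_mul]
    ring
  rw [h3, one_div, inv_one, one_smul, real_smul]
  push_cast
  have hpi : (Real.pi : ℂ) ≠ 0 := by exact_mod_cast Real.pi_ne_zero
  field_simp

theorem coeff_eq {d : ℝ} (hd : 0 < d) {h : ℂ → ℂ}
    (hh : DifferentiableOn ℂ h (ann d)) (k : ℤ) :
    fourierCoeff (fun x : UnitAddCircle => h (e x)) k =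
      (2 * Real.pi * I)⁻¹ • ∮ w in C(0, 1), (w - 0)⁻¹ • (w ^ (-k) * h w) := by
  have hs : ContinuousOn (fun w : ℂ => (w - 0)⁻¹ • (w ^ (-k) * h w)) (sphere 0 1) := by
    have h0 : ∀ w ∈ sphere (0 : ℂ) 1, w ≠ 0 := by
      intro w hw h0
      rw [h0, mem_sphere_zero_iff_norm, norm_zero] at hw
      exact zero_ne_one hw
    have ha : ∀ w ∈ sphere (0 : ℂ) 1, w ∈ ann d := by
      intro w hw
      rw [mem_sphere_zero_iff_norm] at hw
      refine ⟨?_, ?_⟩ <;> rw [hw] <;> linarith
    have h5 : ContinuousOn (fun w : ℂ => (w - 0)⁻¹) (sphere 0 1) :=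
      (continuousOn_id.sub continuousOn_const).inv₀ (fun w hw => by simpa using h0 w hw)
    refine h5.smul (ContinuousOn.mul ?_ (hh.continuousOn.mono ha))
    · intro w hw
      exact (continuousAt_zpow₀ w (-k) (Or.inl (h0 w hw))).continuousWithinAt
  rw [smul_eq_mul, integral_circle hs]
  unfold fourierCoeff
  refine integral_congr_ae (Eventually.of_forall fun x => ?_)
  simp only [smul_eq_mul, sub_zero]
  rw [fourier_eq_e, mul_inv_cancel_left₀ (e_ne_zero x)]

theorem circle_shift {d : ℝ} {G : ℂ → ℂ}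
    (hG : DifferentiableOn ℂ G (ann d)) {r R : ℝ} (hr0 : 0 < r) (hrR : r ≤ R) (hr : 1 - d < r)
    (hR : R < 1 + d) :
    (∮ z in C(0, R), (z - 0)⁻¹ • G z) = ∮ z in C(0, r), (z - 0)⁻¹ • G z := by
  refine circleIntegral_sub_center_inv_smul_eq_of_differentiable_on_annulus_off_countable hr0 hrR
    (countable_empty) ?_ ?_
  · refine hG.continuousOn.mono ?_
    rintro w ⟨hw1, hw2⟩
    rw [mem_closedBall_zero_iff] at hw1
    rw [mem_ball_zero_iff, not_lt] at hw2
    exact ⟨by linarith, by linarith⟩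
  · rintro w ⟨⟨hw1, hw2⟩, _⟩
    rw [mem_ball_zero_iff] at hw1
    rw [mem_closedBall_zero_iff, not_le] at hw2
    have hw : w ∈ ann d := ⟨by linarith, by linarith⟩
    exact hG.differentiableAt ((isOpen_ann d).mem_nhds hw)

theorem diff_zpow_mul {d : ℝ} (hd1 : d < 1) {h : ℂ → ℂ}
    (hh : DifferentiableOn ℂ h (ann d)) (k : ℤ) :
    DifferentiableOn ℂ (fun w => w ^ (-k) * h w) (ann d) := by
  refine DifferentiableOn.mul ?_ hh
  intro w hw
  refine (differentiableAt_zpow.2 (Or.inl ?_)).differentiableWithinAt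
  intro h0
  have := hw.1
  rw [h0, norm_zero] at this
  linarith

theorem bound_radius {d B : ℝ} {h : ℂ → ℂ} (hB : ∀ w ∈ ann d, ‖h w‖ ≤ B) {r : ℝ}
    (hr0 : 0 < r) (hr : 1 - d < r) (hR : r < 1 + d) (k : ℤ) :
    ‖(2 * Real.pi * I : ℂ)⁻¹ • ∮ w in C(0, r), (w - 0)⁻¹ • (w ^ (-k) * h w)‖ ≤
      B * r ^ (-k) := by
  have h1 := circleIntegral.norm_two_pi_i_inv_smul_integral_le_of_norm_le_const (c := (0 : ℂ))
    (R := r) (f := fun w : ℂ => (w - 0)⁻¹ • (w ^ (-k) * h w)) (C := r⁻¹ * (r ^ (-k) * B)) hr0.le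
    (by
      intro w hw
      rw [mem_sphere_zero_iff_norm] at hw
      have hw' : w ∈ ann d := ⟨by rw [hw]; exact hr, by rw [hw]; exact hR⟩
      rw [sub_zero, norm_smul, norm_inv, norm_mul, norm_zpow, hw]
      have := hB w hw'
      gcongr)
  calc _ ≤ r * (r⁻¹ * (r ^ (-k) * B)) := h1
    _ = B * r ^ (-k) := by
      rw [mul_inv_cancel_left₀ hr0.ne', mul_comm]

theorem laurent_bound {d B : ℝ} (hd : 0 < d) (hd1 : d < 1) {h : ℂ → ℂ}
    (hh : DifferentiableOn ℂ h (ann d)) (hB : ∀ w ∈ ann d, ‖h w‖ ≤ B) (k : ℤ) :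
    ‖fourierCoeff (fun x : UnitAddCircle => h (e x)) k‖ ≤ B * (1 + d / 2)⁻¹ ^ k.natAbs := by
  have hB0 : 0 ≤ B := (norm_nonneg _).trans (hB _ (e_mem_ann hd 0))
  rw [coeff_eq hd hh k]
  rcases le_or_gt 0 k with hk | hk
  · rw [← circle_shift (diff_zpow_mul hd1 hh k) one_pos (by linarith : (1 : ℝ) ≤ 1 + d / 2)
      (by linarith) (by linarith)]
    refine (bound_radius hB (by linarith) (by linarith) (by linarith) k).trans (le_of_eq ?_)
    congr 1
    obtain ⟨n, rfl⟩ := Int.eq_ofNat_of_zero_le hk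
    simp
  · rw [circle_shift (diff_zpow_mul hd1 hh k) (by linarith : (0 : ℝ) < 1 - d / 2)
      (by linarith) (by linarith) (by linarith)]
    refine (bound_radius hB (by linarith) (by linarith) (by linarith) k).trans ?_
    refine mul_le_mul_of_nonneg_left ?_ hB0
    obtain ⟨n, hn⟩ := Int.eq_ofNat_of_zero_le (show 0 ≤ -k by linarith)
    have hn' : k.natAbs = n := by omega
    rw [hn, hn']
    simp only [zpow_natCast]
    refine pow_le_pow_left₀ (by linarith) ?_ n
    rw [le_inv_comm₀ (by linarith) (by linarith), ← one_div, le_div_iff₀ (by linarith)]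
    nlinarith

theorem summable_laurent {d B : ℝ} (hd : 0 < d) (hd1 : d < 1) {h : ℂ → ℂ}
    (hh : DifferentiableOn ℂ h (ann d)) (hB : ∀ w ∈ ann d, ‖h w‖ ≤ B) :
    Summable (fourierCoeff (fun x : UnitAddCircle => h (e x))) := by
  have hg : Summable (fun n : ℕ => B * (1 + d / 2)⁻¹ ^ n) := by
    refine Summable.mul_left _ (summable_geometric_of_lt_one (by positivity) ?_)
    exact inv_lt_one_of_one_lt₀ (by linarith)
  refine Summable.of_nat_of_neg ?_ ?_
  · refine Summable.of_norm_bounded hg fun n => ?_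
    simpa using laurent_bound hd hd1 hh hB (n : ℤ)
  · refine Summable.of_norm_bounded hg fun n => ?_
    simpa using laurent_bound hd hd1 hh hB (-(n : ℤ))

theorem laurent_sum {d B : ℝ} (hd : 0 < d) (hd1 : d < 1) {h : ℂ → ℂ}
    (hh : DifferentiableOn ℂ h (ann d)) (hB : ∀ w ∈ ann d, ‖h w‖ ≤ B) (x : UnitAddCircle) :
    HasSum (fun k : ℤ => fourierCoeff (fun x : UnitAddCircle => h (e x)) k * fourier k x)
      (h (e x)) := by
  have hc : Continuous (fun x : UnitAddCircle => h (e x)) :=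
    hh.continuousOn.comp_continuous continuous_e (fun x => e_mem_ann hd x)
  exact has_pointwise_sum_fourier_series_of_summable (f := ⟨fun x => h (e x), hc⟩)
    (summable_laurent hd hd1 hh hB) x

end Pool.Agent.TBir
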