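import Pool.Agent.TBir.FrameEx

/-!
# A vector in all ranges is zero

MODULE. Paper proof.
`glue`: for each `l0` choose a ball `B l0` and `G l0` differentiable on it with `G l0 = F` off `J`. Put
`F' l0 = G l0 l0`. For `l0 ∈ B l1`: `G l0` and `G l1` are continuous at `l0` and agree with `F` off `J`,
and the complement of `J` is dense, so `G l1 l0 = G l0 l0 = F' l0`. So `F' = G l1` on `B l1`.

`eq_zero_of_range`: for `l ∉ J` the operator `T Phi - l` is injective: by `LD.fac_T` (local data at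
`l`, `exists_LD`), a frame for `P = 1` (`exists_frame`, `Frame.inj`) and `S_sub_injective`. So the
vector `h_l` with `(T Phi - l) h_l = f` is unique. Fix `z` in the unit disc and put `F l = ev z h_l`
(`l ∉ J`). Near `l0`: local data `D`, a frame `F` with `P = 1`. On `ball l0 s`, `l ∉ J`:
`T (Psi l) (S - z1 l)(S - z2 l) h_l = f`, so `(S - z1 l)(S - z2 l) h_l = L l f` and
`(z - z1 l)(z - z2 l) ev z h_l = ev z (L l f)` (`ev_S_sub`). On a smaller ball `z1 l ≠ z`, `z2 l ≠ z`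
(at `l0` they have absolute value `1` or at least `2`), so
`F l = ev z (L l f) / ((z - z1 l)(z - z2 l))`, differentiable. By `glue` there is an entire `F'` with
`F' = F` off `J`. For `|l| > ‖T Phi‖`, `‖h_l‖ ≤ ‖f‖ / (|l| - ‖T Phi‖)`, so `F' → 0` at infinity (`J` is
bounded), and `F' = 0` (`Differentiable.apply_eq_of_tendsto_cocompact`). So for a fixed large `l ∉ J`,
`ev z h_l = 0` for all `z` in the disc, `h_l = 0` (`ev_ext`), `f = 0`.
-/

open MeasureTheory Complex Set Filter Topology Metric AddCircle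
open scoped ComplexConjugate InnerProductSpace ENNReal

namespace Pool.Agent.TBir

theorem glue {K O : Set ℂ} (hK : Dense Kᶜ) (hO : IsOpen O) {F : ℂ → ℂ}
    (h : ∀ l0 ∈ O, ∃ r > 0, ∃ G : ℂ → ℂ, DifferentiableOn ℂ G (ball l0 r) ∧
      ∀ l ∈ ball l0 r, l ∉ K → G l = F l) :
    ∃ F' : ℂ → ℂ, DifferentiableOn ℂ F' O ∧ ∀ l ∈ O, l ∉ K → F' l = F l := by
  classical
  choose! r hr G hG hGF using h
  refine ⟨fun l => G l l, ?_, ?_⟩
  · intro l1 hl1
    have key : ∀ l ∈ ball l1 (r l1) ∩ O, G l l = G l1 l := by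
      rintro l ⟨hl, hlO⟩
      by_contra hne
      have hc1 : ContinuousAt (G l) l :=
        ((hG l hlO).continuousOn).continuousAt (isOpen_ball.mem_nhds (mem_ball_self (hr l hlO)))
      have hc2 : ContinuousAt (G l1) l :=
        ((hG l1 hl1).continuousOn).continuousAt (isOpen_ball.mem_nhds hl)
      have h1 : ∀ᶠ x in 𝓝 l, G l x ≠ G l1 x :=
        (hc1.prodMk hc2).eventually ((isOpen_ne_fun continuous_fst continuous_snd).mem_nhds hne)
      have h2 : ∀ᶠ x in 𝓝 l, x ∈ ball l (r l) :=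
        isOpen_ball.mem_nhds (mem_ball_self (hr l hlO))
      have h3 : ∀ᶠ x in 𝓝 l, x ∈ ball l1 (r l1) := isOpen_ball.mem_nhds hl
      have h4 := h1.and (h2.and h3)
      obtain ⟨x, hx, hx'⟩ := mem_closure_iff_nhds.1 (hK l) _ h4
      obtain ⟨hxa, hxb, hxc⟩ := hx
      exact hxa ((hGF l hlO x hxb hx').trans (hGF l1 hl1 x hxc hx').symm)
    have hev : (fun l => G l l) =ᶠ[𝓝 l1] G l1 := by
      filter_upwards [isOpen_ball.mem_nhds (mem_ball_self (hr l1 hl1)), hO.mem_nhds hl1] with l h1 h2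
      exact key l ⟨h1, h2⟩
    have hd : DifferentiableAt ℂ (G l1) l1 :=
      (hG l1 hl1).differentiableAt (isOpen_ball.mem_nhds (mem_ball_self (hr l1 hl1)))
    exact (hd.congr_of_eventuallyEq hev).differentiableWithinAt
  · intro l hl hlK
    exact hGF l hl l (mem_ball_self (hr l hl)) hlK

theorem T_sub_injective {phi : ℂ → ℂ} {Phi : CT}
    (hPhi : ∀ x, Phi x = phi (e x)) {l0 : ℂ} (D : LD phi l0) (hx : 0 ≤ D.x) :
    Function.Injective (T Phi - l0 • (1 : Hardy →L[ℂ] Hardy)) := by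
  obtain ⟨F⟩ := exists_frame hPhi D hx (P := 1) (by rw [one_mul, mul_one])
  intro f g hfg
  rw [D.fac_T hPhi (mem_ball_self D.r_pos)] at hfg
  have h1 : T (D.Psi l0) ((S - D.z1 l0 • (1 : Hardy →L[ℂ] Hardy))
      ((S - D.z2 l0 • (1 : Hardy →L[ℂ] Hardy)) f)) =
      T (D.Psi l0) ((S - D.z1 l0 • (1 : Hardy →L[ℂ] Hardy))
      ((S - D.z2 l0 • (1 : Hardy →L[ℂ] Hardy)) g)) := hfg
  exact S_sub_injective _ (S_sub_injective _ (F.inj (mem_ball_self F.s_pos) h1))

theorem LiouA_loc {phi : ℂ → ℂ} {Phi : CT} (hPhi : ∀ x, Phi x = phi (e x))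
    {f : Hardy} {hh : ℂ → Hardy}
    (hh1 : ∀ l ∉ J phi, (T Phi - l • (1 : Hardy →L[ℂ] Hardy)) (hh l) = f) {z : ℂ} (hz : ‖z‖ < 1)
    {l0 : ℂ} (D : LD phi l0) (hx : 0 ≤ D.x) :
    ∃ r > 0, ∃ G : ℂ → ℂ, DifferentiableOn ℂ G (ball l0 r) ∧
      ∀ l ∈ ball l0 r, l ∉ J phi → G l = ev z (hh l) := by
  obtain ⟨F⟩ := exists_frame hPhi D hx (P := 1) (by rw [one_mul, mul_one])
  have c1 : ContinuousAt D.z1 l0 :=
    (D.z1_diff.continuousOn).continuousAt (isOpen_ball.mem_nhds (mem_ball_self D.r_pos))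
  have c2 : ContinuousAt D.z2 l0 :=
    (D.z2_diff.continuousOn).continuousAt (isOpen_ball.mem_nhds (mem_ball_self D.r_pos))
  have n1 : D.z1 l0 ≠ z := by
    rintro rfl
    rcases D.z1_cases with h | h
    · rw [h.1] at hz; exact lt_irrefl _ hz
    · have := h l0 (mem_ball_self D.r_pos)
      linarith
  have n2 : D.z2 l0 ≠ z := by
    rintro rfl
    rcases D.z2_cases with h | h
    · rw [h.1] at hz; exact lt_irrefl _ hz
    · have := h l0 (mem_ball_self D.r_pos)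
      linarith
  have e1 : ∀ᶠ l in 𝓝 l0, D.z1 l ≠ z := c1.eventually_ne n1
  have e2 : ∀ᶠ l in 𝓝 l0, D.z2 l ≠ z := c2.eventually_ne n2
  have e3 : ∀ᶠ l in 𝓝 l0, l ∈ ball l0 F.s := isOpen_ball.mem_nhds (mem_ball_self F.s_pos)
  obtain ⟨r, hr, hr'⟩ := Metric.eventually_nhds_iff_ball.1 (e1.and (e2.and e3))
  refine ⟨r, hr, fun l => ev z (F.L l f) / ((z - D.z1 l) * (z - D.z2 l)), ?_, ?_⟩
  · have hsub : ball l0 r ⊆ ball l0 F.s := fun l hl => (hr' l hl).2.2
    have hsub2 : ball l0 r ⊆ ball l0 D.r := fun l hl => ball_subset_ball F.s_le (hsub hl)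
    have d1 : DifferentiableOn ℂ (fun l => F.L l f) (ball l0 r) :=
      (F.L_diff.mono hsub).clm_apply (differentiableOn_const f)
    have d2 : DifferentiableOn ℂ (fun l => ev z (F.L l f)) (ball l0 r) :=
      (ev z).differentiable.comp_differentiableOn d1
    have d3 : DifferentiableOn ℂ (fun l => (z - D.z1 l) * (z - D.z2 l)) (ball l0 r) :=
      ((differentiableOn_const z).sub (D.z1_diff.mono hsub2)).mul
        ((differentiableOn_const z).sub (D.z2_diff.mono hsub2))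
    refine d2.div d3 fun l hl => ?_
    exact mul_ne_zero (sub_ne_zero.2 (hr' l hl).1.symm) (sub_ne_zero.2 (hr' l hl).2.1.symm)
  · intro l hl hlJ
    obtain ⟨m1, m2, m3⟩ := hr' l hl
    have h1 := hh1 l hlJ
    rw [D.fac_T hPhi (ball_subset_ball F.s_le m3)] at h1
    have h2 : T (D.Psi l) ((S - D.z1 l • (1 : Hardy →L[ℂ] Hardy))
      ((S - D.z2 l • (1 : Hardy →L[ℂ] Hardy)) (hh l))) = f := h1
    have h3 : ∀ x, F.L l (T (D.Psi l) x) = x := fun x => by
      have := congrArg (fun B : Hardy →L[ℂ] Hardy => B x) (F.left l m3)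
      simpa using this
    have h4 : (S - D.z1 l • (1 : Hardy →L[ℂ] Hardy))
      ((S - D.z2 l • (1 : Hardy →L[ℂ] Hardy)) (hh l)) = F.L l f := by
      rw [← h2, h3]
    have h5 := congrArg (fun x => ev z x) h4
    simp only [ev_S_sub hz] at h5
    have hne : (z - D.z1 l) * (z - D.z2 l) ≠ 0 :=
      mul_ne_zero (sub_ne_zero.2 m1.symm) (sub_ne_zero.2 m2.symm)
    change ev z (F.L l f) / ((z - D.z1 l) * (z - D.z2 l)) = ev z (hh l)
    rw [div_eq_iff hne, ← h5]
    ring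

theorem LiouA_bound {Phi : CT} {f h : Hardy} {l : ℂ}
    (hh : (T Phi - l • (1 : Hardy →L[ℂ] Hardy)) h = f) (hl : ‖T Phi‖ < ‖l‖) :
    ‖h‖ ≤ ‖f‖ / (‖l‖ - ‖T Phi‖) := by
  have h1 : l • h = T Phi h - f := by
    rw [← hh]
    change l • h = T Phi h - (T Phi h - l • h)
    abel
  have h2 : ‖l‖ * ‖h‖ ≤ ‖T Phi‖ * ‖h‖ + ‖f‖ := by
    rw [← norm_smul, h1]
    exact (norm_sub_le _ _).trans (add_le_add ((T Phi).le_opNorm h) le_rfl)
  rw [le_div_iff₀ (by linarith)]
  nlinarith [h2]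

theorem eq_zero_of_range {phi : ℂ → ℂ} (hphi : Normal phi) {Phi : CT}
    (hPhi : ∀ x, Phi x = phi (e x)) (hx : ∀ (l0 : ℂ) (D : LD phi l0), 0 ≤ D.x) {f : Hardy}
    (h : ∀ l ∉ J phi, ∃ h : Hardy, (T Phi - l • (1 : Hardy →L[ℂ] Hardy)) h = f) : f = 0 := by
  choose! hh hh1 using h
  obtain ⟨R, hR⟩ := wd_large hphi.ana
  have key : ∀ z : ℂ, ‖z‖ < 1 → ∀ l ∉ J phi, ev z (hh l) = 0 := by
    intro z hz l hl
    obtain ⟨F', hF', hF⟩ := glue (dense_compl_J hphi) isOpen_univ (F := fun l => ev z (hh l))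
      (fun l0 _ => by
        obtain ⟨D⟩ := exists_LD hphi l0
        exact LiouA_loc hPhi hh1 hz D (hx l0 D))
    have hd : Differentiable ℂ F' := differentiableOn_univ.1 hF'
    have ht : Tendsto F' (cocompact ℂ) (𝓝 0) := by
      rw [tendsto_zero_iff_norm_tendsto_zero]
      have hb : ∀ᶠ w in cocompact ℂ, ‖F' w‖ ≤ ‖ev z‖ * (‖f‖ / (‖w‖ - ‖T Phi‖)) := by
        have h1 : ∀ᶠ w in cocompact ℂ, max R ‖T Phi‖ < ‖w‖ :=
          (tendsto_norm_cocompact_atTop (E := ℂ)).eventually_gt_atTop _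
        filter_upwards [h1] with w hw
        have hwJ := (hR w ((le_max_left _ _).trans_lt hw)).1
        rw [hF w (mem_univ w) hwJ]
        refine ((ev z).le_opNorm _).trans ?_
        exact mul_le_mul_of_nonneg_left
          (LiouA_bound (hh1 w hwJ) ((le_max_right _ _).trans_lt hw)) (norm_nonneg _)
      refine squeeze_zero' (Eventually.of_forall fun _ => norm_nonneg _) hb ?_
      have h2 : Tendsto (fun w : ℂ => ‖w‖ - ‖T Phi‖) (cocompact ℂ) atTop :=
        tendsto_atTop_add_const_right _ _ (tendsto_norm_cocompact_atTop (E := ℂ))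
      have h3 : Tendsto (fun w : ℂ => ‖f‖ / (‖w‖ - ‖T Phi‖)) (cocompact ℂ) (𝓝 0) :=
        h2.const_div_atTop _
      simpa using h3.const_mul ‖ev z‖
    rw [← hF l (mem_univ l) hl]
    exact hd.apply_eq_of_tendsto_cocompact l ht
  obtain ⟨l, hl⟩ : ∃ l : ℂ, R < ‖l‖ := by
    refine ⟨((|R| + 1 : ℝ) : ℂ), ?_⟩
    rw [Complex.norm_real, Real.norm_eq_abs, abs_of_pos (by positivity)]
    linarith [le_abs_self R]
  have hlJ := (hR l hl).1
  have h0 : hh l = 0 := ev_ext isOpen_ball ⟨0, mem_ball_self one_pos⟩ (subset_refl _)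
    (fun z hz => key z (by simpa using hz) l hlJ)
  rw [← hh1 l hlJ, h0, map_zero]

end Pool.Agent.TBir
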