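import Pool.Agent.TBir.Lau

/-!
# Logarithms of nonvanishing analytic functions on an annulus, with uniform bounds

MODULE. Paper proof of `exists_log`. Let `h(w) = w psi'(w) / psi(w)`. On `ann (d/2)`, Cauchy's
estimate gives `|psi'| ≤ M / (d/2)`, hence `|h| ≤ 4 M / (d m) =: B`. Let `h_k` be the Laurent
coefficients of `h` on `ann (d/2)` (`Lau`): `|h_k| ≤ B (1 + d/4)^(-|k|)`, and
`h_0 = wind psi = n` (`integral_circle`). Put `u_k = h_k / k` for `k ≠ 0` and
`v(x) = sum_{k ≠ 0} u_k e(kx)`, a function of the real variable `x` with derivative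
`2 pi i (h(e x) - n)` (termwise differentiation, `hasDerivAt_tsum`). Since
`d/dx psi(e x) = 2 pi i h(e x) psi(e x)`, the function `psi(e x) e(-n x) exp(-v(x))` has derivative
zero, so it is a constant `c ≠ 0`. Put `u_0 = log c`: `|Im u_0| ≤ pi`,
`|Re u_0| = |log |c|| ≤ |log m| + |log M| + sum |u_k|` (value at `x = 0`). So
`|u_k| ≤ C exp(-eta |k|)` with `eta = log (1 + d/4)` and `C` depending on `d, m, M` only.
(If `M < m` there is no such `psi`.)

`wind_int`: the same with `h_0 = nu`: `psi(e x) exp(-2 pi i nu x) exp(-v(x)) = c` for all real `x`;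
`x = 0` and `x = 1` give `exp(2 pi i nu) = 1`. (An annulus with bounds exists by compactness: see
`exists_ann`, which is to be proved here too: `psi` is analytic and nonzero on an open set
containing the circle; the closed annuli `1 - d ≤ |w| ≤ 1 + d` are compact and decrease to the
circle.)
-/

open MeasureTheory Complex Set Filter Topology Metric AddCircle
open scoped ComplexConjugate InnerProductSpace ENNReal

namespace Pool.Agent.TBir

/-- An open set containing the circle contains an annulus. -/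
theorem exists_ann_subset {U : Set ℂ} (hU : IsOpen U) (h : sphere (0 : ℂ) 1 ⊆ U) :
    ∃ d : ℝ, 0 < d ∧ d < 1 ∧ {w : ℂ | 1 - d ≤ ‖w‖ ∧ ‖w‖ ≤ 1 + d} ⊆ U := by
  obtain ⟨δ, hδ, hsub⟩ := (isCompact_sphere (0 : ℂ) 1).exists_cthickening_subset_open hU h
  refine ⟨min δ (1 / 2), lt_min hδ (by norm_num), lt_of_le_of_lt (min_le_right _ _) (by norm_num),
    fun w hw => hsub ?_⟩
  obtain ⟨h1, h2⟩ := hw
  have h3 : min δ (1 / 2) ≤ 1 / 2 := min_le_right _ _
  have h4 : min δ (1 / 2) ≤ δ := min_le_left _ _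
  have h5 : 0 < ‖w‖ := by linarith
  have h6 : (‖w‖ : ℂ) ≠ 0 := by exact_mod_cast h5.ne'
  refine mem_cthickening_of_dist_le w (w / ‖w‖) δ _ ?_ ?_
  · rw [mem_sphere, dist_zero_right, norm_div, Complex.norm_real, norm_norm, div_self h5.ne']
  · rw [dist_eq_norm]
    have h7 : w - w / ‖w‖ = w * (((‖w‖ - 1) / ‖w‖ : ℝ) : ℂ) := by
      push_cast
      field_simp
    rw [h7, norm_mul, Complex.norm_real, Real.norm_eq_abs, abs_div, abs_of_pos h5]
    have h8 : ‖w‖ * (|‖w‖ - 1| / ‖w‖) = |‖w‖ - 1| := by field_simp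
    rw [h8]
    refine le_trans ?_ h4
    rw [abs_le]
    constructor <;> linarith

theorem exists_ann {psi : ℂ → ℂ} (h : AnalyticOnNhd ℂ psi (sphere 0 1))
    (h0 : ∀ z ∈ sphere (0 : ℂ) 1, psi z ≠ 0) :
    ∃ d m M : ℝ, 0 < d ∧ d < 1 ∧ 0 < m ∧ DifferentiableOn ℂ psi (ann d) ∧
      ∀ w ∈ ann d, m ≤ ‖psi w‖ ∧ ‖psi w‖ ≤ M := by
  have hU1 : IsOpen {w : ℂ | AnalyticAt ℂ psi w} := isOpen_analyticAt ℂ psi
  have hc1 : ContinuousOn psi {w : ℂ | AnalyticAt ℂ psi w} :=
    fun w hw => hw.continuousAt.continuousWithinAt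
  have hU2 : IsOpen ({w : ℂ | AnalyticAt ℂ psi w} ∩ psi ⁻¹' {0}ᶜ) :=
    hc1.isOpen_inter_preimage hU1 isOpen_compl_singleton
  obtain ⟨d, hd, hd1, hsub⟩ := exists_ann_subset hU2 (fun z hz => ⟨h z hz, h0 z hz⟩)
  have hcl : IsClosed {w : ℂ | 1 - d ≤ ‖w‖ ∧ ‖w‖ ≤ 1 + d} :=
    (isClosed_le continuous_const continuous_norm).inter
      (isClosed_le continuous_norm continuous_const)
  have hcp : IsCompact {w : ℂ | 1 - d ≤ ‖w‖ ∧ ‖w‖ ≤ 1 + d} := by
    refine Metric.isCompact_of_isClosed_isBounded hcl ?_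
    refine (Metric.isBounded_closedBall (x := (0 : ℂ)) (r := 1 + d)).subset fun w hw => ?_
    rw [mem_closedBall, dist_zero_right]
    exact hw.2
  have hne : {w : ℂ | 1 - d ≤ ‖w‖ ∧ ‖w‖ ≤ 1 + d}.Nonempty := by
    refine ⟨1, ?_, ?_⟩ <;> rw [norm_one] <;> linarith
  have hcont : ContinuousOn (fun w => ‖psi w‖) {w : ℂ | 1 - d ≤ ‖w‖ ∧ ‖w‖ ≤ 1 + d} :=
    (hc1.mono fun w hw => (hsub hw).1).norm
  obtain ⟨a, ha, hmin⟩ := hcp.exists_isMinOn hne hcont
  obtain ⟨b, hb, hmax⟩ := hcp.exists_isMaxOn hne hcont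
  have hann : ann d ⊆ {w : ℂ | 1 - d ≤ ‖w‖ ∧ ‖w‖ ≤ 1 + d} := fun w hw => ⟨hw.1.le, hw.2.le⟩
  refine ⟨d, ‖psi a‖, ‖psi b‖, hd, hd1, norm_pos_iff.2 (hsub ha).2, fun w hw =>
    (hsub (hann hw)).1.differentiableAt.differentiableWithinAt, fun w hw => ⟨?_, ?_⟩⟩
  · exact hmin (hann hw)
  · exact hmax (hann hw)

private theorem LogA_e_coe (x : ℝ) : e (x : UnitAddCircle) = Complex.exp (2 * Real.pi * I * x) := by
  have h1 : e (x : UnitAddCircle) = fourier 1 (x : UnitAddCircle) := by
    rw [fourier_one]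
    rfl
  rw [h1, fourier_coe_apply]
  congr 1
  push_cast
  ring

private theorem LogA_e_deriv (x : ℝ) :
    HasDerivAt (fun y : ℝ => e (y : UnitAddCircle)) (2 * Real.pi * I * e (x : UnitAddCircle)) x := by
  have h1 := hasDerivAt_fourier (1 : ℝ) 1 x
  have h2 : (fun y : ℝ => (fourier 1 (y : AddCircle (1 : ℝ)) : ℂ)) =
      fun y : ℝ => e (y : UnitAddCircle) := by
    funext y
    rw [fourier_one]
    rfl
  rw [h2] at h1
  have h3 : (fourier 1 (x : AddCircle (1 : ℝ)) : ℂ) = e (x : UnitAddCircle) := congrFun h2 x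
  rw [h3] at h1
  convert h1 using 1
  push_cast
  ring

private theorem LogA_sum {q : ℝ} (hq0 : 0 ≤ q) (hq1 : q < 1) :
    Summable fun k : ℤ => q ^ k.natAbs := by
  rw [summable_int_iff_summable_nat_and_neg]
  constructor
  · simpa using summable_geometric_of_lt_one hq0 hq1
  · simpa using summable_geometric_of_lt_one hq0 hq1

private theorem LogA_norm_fourier (k : ℤ) (x : UnitAddCircle) : ‖(fourier k x : ℂ)‖ = 1 := by
  rw [fourier_apply]
  exact Circle.norm_coe _

private theorem LogA_core {d m M : ℝ} (hd : 0 < d) (hd1 : d < 1) (hm : 0 < m) {psi : ℂ → ℂ}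
    (hpsi : DifferentiableOn ℂ psi (ann d)) (hb : ∀ w ∈ ann d, m ≤ ‖psi w‖ ∧ ‖psi w‖ ≤ M) :
    ∃ u : ℤ → ℂ, u 0 = 0 ∧
      (∀ k, ‖u k‖ ≤ 8 * |M| / (d * m) * (1 + d / 4)⁻¹ ^ k.natAbs) ∧
      ∀ x : ℝ, psi (e (x : UnitAddCircle)) = psi (e (0 : UnitAddCircle)) *
        Complex.exp (2 * Real.pi * I * wind psi * x) *
        Complex.exp (∑' k : ℤ, u k * fourier k (x : UnitAddCircle) -
          ∑' k : ℤ, u k * fourier k (0 : UnitAddCircle)) := by
  set B : ℝ := 8 * |M| / (d * m) with hB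
  have hB0 : 0 ≤ B := by positivity
  have hsub : ann (d / 2) ⊆ ann d := fun w hw => ⟨by linarith [hw.1], by linarith [hw.2]⟩
  have hne : ∀ w ∈ ann d, psi w ≠ 0 := fun w hw => norm_pos_iff.1 (lt_of_lt_of_le hm (hb w hw).1)
  have hderiv : DifferentiableOn ℂ (deriv psi) (ann d) := hpsi.deriv (isOpen_ann d)
  obtain ⟨H, hHd⟩ : ∃ H : ℂ → ℂ, ∀ w, H w = w * (deriv psi w / psi w) :=
    ⟨fun w => w * (deriv psi w / psi w), fun _ => rfl⟩
  have hh : DifferentiableOn ℂ H (ann (d / 2)) := by
    have h1 : H = fun w => w * (deriv psi w / psi w) := funext hHd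
    rw [h1]
    exact differentiableOn_id.mul
      ((hderiv.mono hsub).div (hpsi.mono hsub) fun w hw => hne w (hsub hw))
  have hbd : ∀ w ∈ ann (d / 2), ‖H w‖ ≤ B := by
    intro w hw
    rw [hHd]
    have hball : closedBall w (d / 4) ⊆ ann d := by
      intro z hz
      rw [mem_closedBall, dist_eq_norm] at hz
      have h1 := norm_sub_norm_le w z
      have h2 := norm_sub_norm_le z w
      rw [norm_sub_rev] at h1
      exact ⟨by linarith [hw.1], by linarith [hw.2]⟩
    have h3 : ‖deriv psi w‖ ≤ |M| / (d / 4) := by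
      refine norm_deriv_le_of_forall_mem_sphere_norm_le (by positivity) ?_ ?_
      · exact (hpsi.mono (closure_ball_subset_closedBall.trans hball)).diffContOnCl
      · intro z hz
        exact (hb z (hball (sphere_subset_closedBall hz))).2.trans (le_abs_self M)
    rw [norm_mul, norm_div]
    have h4 := (hb w (hsub hw)).1
    have h5 : ‖w‖ ≤ 2 := by linarith [hw.2]
    have h6 : ‖deriv psi w‖ / ‖psi w‖ ≤ |M| / (d / 4) / m :=
      div_le_div₀ (by positivity) h3 hm h4
    calc ‖w‖ * (‖deriv psi w‖ / ‖psi w‖) ≤ 2 * (|M| / (d / 4) / m) :=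
          mul_le_mul h5 h6 (by positivity) (by norm_num)
      _ = B := by rw [hB]; field_simp; ring
  have hcoe := fun k => laurent_bound (by positivity : 0 < d / 2) (by linarith) hh hbd k
  have hsum := fun x => laurent_sum (by positivity : 0 < d / 2) (by linarith) hh hbd x
  have hq : (1 + d / 2 / 2)⁻¹ = (1 + d / 4)⁻¹ := by
    congr 1
    ring
  rw [hq] at hcoe
  have hwind : fourierCoeff (fun x : UnitAddCircle => H (e x)) 0 = wind psi := by
    unfold wind
    rw [integral_circle]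
    · unfold fourierCoeff
      simp [hHd]
    · intro w hw
      have hw1 : w ∈ ann d := by
        rw [mem_sphere, dist_zero_right] at hw
        refine ⟨?_, ?_⟩ <;> rw [hw] <;> linarith
      have hn : ann d ∈ 𝓝 w := (isOpen_ann d).mem_nhds hw1
      exact ((hderiv.differentiableAt hn).continuousAt.div (hpsi.differentiableAt hn).continuousAt
        (hne w hw1)).continuousWithinAt
  obtain ⟨c, hcd⟩ : ∃ c : ℤ → ℂ, ∀ k, fourierCoeff (fun x : UnitAddCircle => H (e x)) k = c k :=
    ⟨_, fun _ => rfl⟩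
  simp only [hcd] at hcoe hsum hwind
  have hq0 : (0 : ℝ) ≤ (1 + d / 4)⁻¹ := by positivity
  have hq1 : (1 + d / 4)⁻¹ < 1 := inv_lt_one_of_one_lt₀ (by linarith)
  have hS : Summable fun k : ℤ => B * (1 + d / 4)⁻¹ ^ k.natAbs := (LogA_sum hq0 hq1).mul_left B
  have hu : ∀ k : ℤ, ‖c k / (k : ℂ)‖ ≤ B * (1 + d / 4)⁻¹ ^ k.natAbs := by
    intro k
    rcases eq_or_ne k 0 with rfl | hk
    · simp [hB0]
    · rw [norm_div]
      have h1 : (1 : ℝ) ≤ ‖(k : ℂ)‖ := by
        rw [Complex.norm_intCast]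
        exact_mod_cast Int.one_le_abs hk
      exact (div_le_self (norm_nonneg _) h1).trans (hcoe k)
  have hder : ∀ x : ℝ, HasDerivAt (fun y : ℝ => ∑' k : ℤ, c k / (k : ℂ) * fourier k (y : UnitAddCircle))
      (2 * Real.pi * I * (H (e (x : UnitAddCircle)) - wind psi)) x := by
    intro x
    have h1 := hasDerivAt_tsum (𝕜 := ℝ) (F := ℂ) (α := ℤ)
      (u := fun k : ℤ => 2 * Real.pi * (B * (1 + d / 4)⁻¹ ^ k.natAbs))
      (g := fun k y => c k / (k : ℂ) * fourier k (y : UnitAddCircle))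
      (g' := fun k y => c k / (k : ℂ) * (2 * Real.pi * I * k / (1 : ℝ) * fourier k (y : UnitAddCircle)))
      (y₀ := 0) (hS.mul_left _) (fun k y => (hasDerivAt_fourier (1 : ℝ) k y).const_mul _) ?_ ?_ x
    · refine h1.congr_deriv ?_
      have h2 : ∀ k : ℤ, c k / (k : ℂ) * (2 * Real.pi * I * k / (1 : ℝ) *
          fourier k (x : UnitAddCircle)) =
          2 * Real.pi * I * (c k * fourier k (x : UnitAddCircle) - if k = 0 then c 0 else 0) := by
        intro k
        rcases eq_or_ne k 0 with rfl | hk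
        · simp
        · have hk' : (k : ℂ) ≠ 0 := by exact_mod_cast hk
          rw [if_neg hk]
          push_cast
          field_simp
          ring
      rw [tsum_congr h2]
      have h3 := ((hsum (x : UnitAddCircle)).sub (hasSum_ite_eq (0 : ℤ) (c 0))).mul_left
        (2 * Real.pi * I)
      rw [h3.tsum_eq, hwind]
    · intro k y
      have h2 : c k / (k : ℂ) * (2 * Real.pi * I * k / (1 : ℝ) *
          fourier k (y : UnitAddCircle)) =
          2 * Real.pi * I * (if k = 0 then 0 else c k) * fourier k (y : UnitAddCircle) := by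
        rcases eq_or_ne k 0 with rfl | hk
        · simp
        · have hk' : (k : ℂ) ≠ 0 := by exact_mod_cast hk
          rw [if_neg hk]
          push_cast
          field_simp
      rw [h2, norm_mul, LogA_norm_fourier, mul_one, norm_mul, norm_mul, norm_mul, Complex.norm_I,
        mul_one, Complex.norm_real, Real.norm_of_nonneg Real.pi_pos.le, Complex.norm_ofNat]
      refine mul_le_mul_of_nonneg_left ?_ (by positivity)
      split_ifs
      · rw [norm_zero]
        positivity
      · exact hcoe k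
    · refine Summable.of_norm_bounded hS fun k => ?_
      rw [norm_mul, LogA_norm_fourier, mul_one]
      exact hu k
  refine ⟨fun k => c k / (k : ℂ), by simp, hu, fun x => ?_⟩
  have hpd : ∀ x : ℝ, HasDerivAt (fun y : ℝ => psi (e (y : UnitAddCircle)))
      (2 * Real.pi * I * H (e (x : UnitAddCircle)) * psi (e (x : UnitAddCircle))) x := by
    intro x
    have hn : ann d ∈ 𝓝 (e (x : UnitAddCircle)) := (isOpen_ann d).mem_nhds (e_mem_ann hd _)
    have h1 := HasDerivAt.comp x (hpsi.differentiableAt hn).hasDerivAt (LogA_e_deriv x)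
    have h2 : deriv psi (e (x : UnitAddCircle)) * (2 * Real.pi * I * e (x : UnitAddCircle)) =
        2 * Real.pi * I * H (e (x : UnitAddCircle)) * psi (e (x : UnitAddCircle)) := by
      rw [hHd]
      have := hne _ (e_mem_ann hd (x : UnitAddCircle))
      field_simp
    rw [h2] at h1
    exact h1
  have hexp : ∀ x : ℝ, HasDerivAt (fun y : ℝ => Complex.exp (-(2 * Real.pi * I * wind psi * y)))
      (Complex.exp (-(2 * Real.pi * I * wind psi * x)) * (-(2 * Real.pi * I * wind psi))) x := by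
    intro x
    have h1 : HasDerivAt (fun y : ℝ => -(2 * Real.pi * I * wind psi * (y : ℂ)))
        (-(2 * Real.pi * I * wind psi)) x := by
      have h2 := ((hasDerivAt_id (x : ℂ)).const_mul (2 * Real.pi * I * wind psi)).neg.comp_ofReal
      simpa using h2
    exact h1.cexp
  have hQ : ∀ x : ℝ, HasDerivAt (fun y : ℝ => psi (e (y : UnitAddCircle)) *
      Complex.exp (-(2 * Real.pi * I * wind psi * y)) *
      Complex.exp (-∑' k : ℤ, c k / (k : ℂ) * fourier k (y : UnitAddCircle))) 0 x := by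
    intro x
    have h1 := ((hpd x).mul (hexp x)).mul (hder x).neg.cexp
    refine h1.congr_deriv ?_
    simp only [Pi.mul_apply]
    ring
  have hconst := is_const_of_deriv_eq_zero (fun x => (hQ x).differentiableAt)
    (fun x => (hQ x).deriv) x 0
  simp only [AddCircle.coe_zero, Complex.ofReal_zero, mul_zero, neg_zero, Complex.exp_zero,
    mul_one] at hconst
  rw [Complex.exp_sub]
  rw [Complex.exp_neg, Complex.exp_neg, Complex.exp_neg] at hconst
  have e1 := Complex.exp_ne_zero (2 * Real.pi * I * wind psi * x)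
  have e2 := Complex.exp_ne_zero (∑' k : ℤ, c k / (k : ℂ) * fourier k (x : UnitAddCircle))
  have e3 := Complex.exp_ne_zero (∑' k : ℤ, c k / (k : ℂ) * fourier k (0 : UnitAddCircle))
  field_simp at hconst ⊢
  linear_combination hconst

theorem exists_log {d m M : ℝ} (hd : 0 < d) (hd1 : d < 1) (hm : 0 < m) (n : ℤ) :
    ∃ C eta : ℝ, 0 < C ∧ 0 < eta ∧ ∀ psi : ℂ → ℂ, DifferentiableOn ℂ psi (ann d) →
      (∀ w ∈ ann d, m ≤ ‖psi w‖ ∧ ‖psi w‖ ≤ M) → wind psi = n →
      ∃ u : ℤ → ℂ, (∀ k, ‖u k‖ ≤ C * Real.exp (-(eta * k.natAbs))) ∧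
        ∀ x : UnitAddCircle, psi (e x) = e x ^ n * Complex.exp (∑' k : ℤ, u k * fourier k x) := by
  set q : ℝ := (1 + d / 4)⁻¹ with hq
  have hq0 : (0 : ℝ) ≤ q := by positivity
  have hq1 : q < 1 := inv_lt_one_of_one_lt₀ (by linarith)
  have hS : Summable fun k : ℤ => 8 * |M| / (d * m) * q ^ k.natAbs := (LogA_sum hq0 hq1).mul_left _
  set B : ℝ := 8 * |M| / (d * m) with hB
  have hB0 : 0 ≤ B := by positivity
  set T : ℝ := ∑' k : ℤ, B * q ^ k.natAbs with hT
  have hT0 : 0 ≤ T := tsum_nonneg fun k => by positivity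
  have heta : 0 < Real.log (1 + d / 4) := Real.log_pos (by linarith)
  have hqe : ∀ k : ℤ, q ^ k.natAbs = Real.exp (-(Real.log (1 + d / 4) * k.natAbs)) := by
    intro k
    have h1 : -(Real.log (1 + d / 4) * k.natAbs) = (k.natAbs : ℕ) * (-Real.log (1 + d / 4)) := by ring
    rw [h1, Real.exp_nat_mul, Real.exp_neg, Real.exp_log (by linarith)]
  refine ⟨B + |Real.log m| + |Real.log M| + T + Real.pi, Real.log (1 + d / 4),
    by have := Real.pi_pos; positivity, heta, fun psi hpsi hb hw => ?_⟩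
  obtain ⟨u, hu0, hu, hx⟩ := LogA_core hd hd1 hm hpsi hb
  have hus : ∀ x : UnitAddCircle, Summable fun k : ℤ => u k * fourier k x := by
    intro x
    refine Summable.of_norm_bounded hS fun k => ?_
    rw [norm_mul, LogA_norm_fourier, mul_one]
    exact hu k
  set c : ℂ := psi (e 0) * Complex.exp (-∑' k : ℤ, u k * fourier k (0 : UnitAddCircle)) with hc
  have h1m := e_mem_ann hd (0 : UnitAddCircle)
  have hb1 := hb _ h1m
  have hpos1 : 0 < ‖psi (e 0)‖ := lt_of_lt_of_le hm hb1.1
  have hc0 : c ≠ 0 := mul_ne_zero (norm_pos_iff.1 hpos1) (Complex.exp_ne_zero _)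
  have hlog : ‖Complex.log c‖ ≤ |Real.log m| + |Real.log M| + T + Real.pi := by
    have h1 : ‖Complex.log c‖ ≤ |(Complex.log c).re| + |(Complex.log c).im| :=
      Complex.norm_le_abs_re_add_abs_im _
    have h2 : |(Complex.log c).im| ≤ Real.pi := by
      rw [Complex.log_im]
      exact Complex.abs_arg_le_pi c
    have h3 : (Complex.log c).re = Real.log ‖psi (e 0)‖ +
        (-∑' k : ℤ, u k * fourier k (0 : UnitAddCircle)).re := by
      rw [Complex.log_re, hc, norm_mul, Complex.norm_exp, Real.log_mul hpos1.ne' (Real.exp_ne_zero _),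
        Real.log_exp]
    have h4 : |(-∑' k : ℤ, u k * fourier k (0 : UnitAddCircle)).re| ≤ T := by
      refine (Complex.abs_re_le_norm _).trans ?_
      rw [norm_neg]
      refine tsum_of_norm_bounded hS.hasSum fun k => ?_
      rw [norm_mul, LogA_norm_fourier, mul_one]
      exact hu k
    have h5 : |Real.log ‖psi (e 0)‖| ≤ |Real.log m| + |Real.log M| := by
      have h6 := Real.log_le_log hm hb1.1
      have h7 := Real.log_le_log hpos1 hb1.2
      rw [abs_le]
      have h8 := neg_abs_le (Real.log m)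
      have h9 := le_abs_self (Real.log M)
      have h10 := abs_nonneg (Real.log m)
      have h11 := abs_nonneg (Real.log M)
      constructor <;> linarith
    have h6 := abs_add_le (Real.log ‖psi (e 0)‖)
      (-∑' k : ℤ, u k * fourier k (0 : UnitAddCircle)).re
    rw [← h3] at h6
    linarith
  refine ⟨fun k => u k + if k = 0 then Complex.log c else 0, fun k => ?_, fun x => ?_⟩
  · rw [← hqe]
    rcases eq_or_ne k 0 with rfl | hk
    · simp only [hu0, zero_add, if_true, Int.natAbs_zero, pow_zero, mul_one]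
      linarith
    · simp only [if_neg hk, add_zero]
      refine (hu k).trans (mul_le_mul_of_nonneg_right ?_ (pow_nonneg hq0 _))
      have h10 := abs_nonneg (Real.log m)
      have h11 := abs_nonneg (Real.log M)
      have h12 := Real.pi_pos
      linarith
  · have hsum : ∑' k : ℤ, (u k + if k = 0 then Complex.log c else 0) * fourier k x =
        ∑' k : ℤ, u k * fourier k x + Complex.log c := by
      have h1 : ∀ k : ℤ, (u k + if k = 0 then Complex.log c else 0) * fourier k x =
          u k * fourier k x + if k = 0 then Complex.log c else 0 := by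
        intro k
        rcases eq_or_ne k 0 with rfl | hk
        · simp [add_mul]
        · simp [hk]
      rw [tsum_congr h1, (hus x).tsum_add (hasSum_ite_eq (0 : ℤ) _).summable, tsum_ite_eq]
    rw [hsum]
    induction x using QuotientAddGroup.induction_on with
    | H y =>
      change psi (e (y : UnitAddCircle)) = e (y : UnitAddCircle) ^ n *
        Complex.exp (∑' k : ℤ, u k * fourier k (y : UnitAddCircle) + Complex.log c)
      rw [hx y, hw, Complex.exp_add, Complex.exp_log hc0, hc, sub_eq_add_neg, Complex.exp_add]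
      have h2 : Complex.exp (2 * Real.pi * I * n * y) = e (y : UnitAddCircle) ^ n := by
        rw [LogA_e_coe, ← Complex.exp_int_mul]
        congr 1
        ring
      rw [h2]
      ring

theorem wind_int {psi : ℂ → ℂ} (h : AnalyticOnNhd ℂ psi (sphere 0 1))
    (h0 : ∀ z ∈ sphere (0 : ℂ) 1, psi z ≠ 0) : ∃ n : ℤ, wind psi = n := by
  obtain ⟨d, m, M, hd, hd1, hm, hpsi, hb⟩ := exists_ann h h0
  obtain ⟨u, hu0, hu, hx⟩ := LogA_core hd hd1 hm hpsi hb
  have h1 := hx 1
  have h2 : ((1 : ℝ) : UnitAddCircle) = 0 := AddCircle.coe_period (1 : ℝ)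
  rw [h2, sub_self, Complex.exp_zero, mul_one] at h1
  have h3 : psi (e 0) ≠ 0 :=
    norm_pos_iff.1 (lt_of_lt_of_le hm (hb _ (e_mem_ann hd (0 : UnitAddCircle))).1)
  have h4 : Complex.exp (2 * Real.pi * I * wind psi * (1 : ℝ)) = 1 :=
    mul_left_cancel₀ h3 (by rw [mul_one]; exact h1.symm)
  obtain ⟨n, hn⟩ := Complex.exp_eq_one_iff.1 h4
  refine ⟨n, ?_⟩
  have h5 : (2 * Real.pi * I : ℂ) ≠ 0 := Complex.two_pi_I_ne_zero
  refine mul_left_cancel₀ h5 ?_
  push_cast at hn
  linear_combination hn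

end Pool.Agent.TBir
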