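import Mathlib

/-!
# Weak operator limits along an ultrafilter

MODULE. Paper proof. Let `U` be an ultrafilter finer than `atTop` (`Filter.hyperfilter ℕ`,
`Nat.hyperfilter_le_atTop`, or `Ultrafilter.of`). For `f`, `g` the numbers `inner g (A n f)` lie in the
compact ball of radius `C ‖g‖ ‖f‖`, so they converge along `U` to some `b f g` with
`|b f g| ≤ C ‖g‖ ‖f‖`. `b` is linear in `f` and conjugate linear in `g` (uniqueness of limits), so it is
`inner g (B f)` for a bounded operator `B` (`InnerProductSpace.toDual`, `LinearMap.mkContinuous`, or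
`ContinuousLinearMap` from a bounded sesquilinear form: `continuousLinearMapOfBilin`).
-/

open Complex Set Filter Topology Metric
open scoped ComplexConjugate InnerProductSpace

namespace Pool.Agent.TBir

theorem wot {H : Type*} [NormedAddCommGroup H] [InnerProductSpace ℂ H] [CompleteSpace H]
    {A : ℕ → H →L[ℂ] H} {C : ℝ} (hA : ∀ n, ‖A n‖ ≤ C) :
    ∃ (U : Ultrafilter ℕ) (B : H →L[ℂ] H), (U : Filter ℕ) ≤ atTop ∧
      ∀ f g : H, Tendsto (fun n => inner ℂ g (A n f)) U (𝓝 (inner ℂ g (B f))) := by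
  classical
  have hC : 0 ≤ C := (norm_nonneg _).trans (hA 0)
  have hex : ∀ f g : H, ∃ b : ℂ, ‖b‖ ≤ C * ‖f‖ * ‖g‖ ∧
      Tendsto (fun n => inner ℂ (A n f) g) (hyperfilter ℕ : Filter ℕ) (𝓝 b) := by
    intro f g
    have hK : IsCompact (closedBall (0 : ℂ) (C * ‖f‖ * ‖g‖)) := isCompact_closedBall _ _
    have hmem : ∀ n, inner ℂ (A n f) g ∈ closedBall (0 : ℂ) (C * ‖f‖ * ‖g‖) := by
      intro n
      rw [mem_closedBall, dist_zero_right]
      calc ‖inner ℂ (A n f) g‖ ≤ ‖A n f‖ * ‖g‖ := norm_inner_le_norm _ _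
        _ ≤ C * ‖f‖ * ‖g‖ :=
          mul_le_mul_of_nonneg_right ((A n).le_of_opNorm_le (hA n) f) (norm_nonneg _)
    obtain ⟨b, hb, hlim⟩ := hK.ultrafilter_le_nhds
      ((hyperfilter ℕ).map fun n => inner ℂ (A n f) g) (by
        rw [le_principal_iff]
        exact Filter.Eventually.of_forall (f := (hyperfilter ℕ : Filter ℕ))
          (p := fun n => inner ℂ (A n f) g ∈ closedBall (0 : ℂ) (C * ‖f‖ * ‖g‖)) hmem)
    refine ⟨b, by simpa using hb, ?_⟩
    exact hlim
  choose b hb hlim using hex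
  have hadd1 : ∀ f f' g, b (f + f') g = b f g + b f' g := by
    intro f f' g
    refine tendsto_nhds_unique (hlim (f + f') g) ?_
    have h1 := (hlim f g).add (hlim f' g)
    refine h1.congr fun n => ?_
    rw [map_add, inner_add_left]
  have hsmul1 : ∀ (c : ℂ) f g, b (c • f) g = (starRingEnd ℂ) c • b f g := by
    intro c f g
    refine tendsto_nhds_unique (hlim (c • f) g) ?_
    have h1 := (hlim f g).const_smul ((starRingEnd ℂ) c)
    refine h1.congr fun n => ?_
    rw [map_smul, inner_smul_left, smul_eq_mul]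
  have hadd2 : ∀ f g g', b f (g + g') = b f g + b f g' := by
    intro f g g'
    refine tendsto_nhds_unique (hlim f (g + g')) ?_
    have h1 := (hlim f g).add (hlim f g')
    refine h1.congr fun n => ?_
    rw [inner_add_right]
  have hsmul2 : ∀ (c : ℂ) f g, b f (c • g) = c • b f g := by
    intro c f g
    refine tendsto_nhds_unique (hlim f (c • g)) ?_
    have h1 := (hlim f g).const_smul c
    refine h1.congr fun n => ?_
    rw [inner_smul_right, smul_eq_mul]
  let S : H →ₗ⋆[ℂ] H →ₗ[ℂ] ℂ :=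
    LinearMap.mk₂'ₛₗ (starRingEnd ℂ) (RingHom.id ℂ) b hadd1 hsmul1 hadd2 hsmul2
  let S' : H →L⋆[ℂ] H →L[ℂ] ℂ := S.mkContinuous₂ C hb
  refine ⟨hyperfilter ℕ, InnerProductSpace.continuousLinearMapOfBilin S',
    Nat.hyperfilter_le_atTop, ?_⟩
  intro f g
  have h1 : inner ℂ (InnerProductSpace.continuousLinearMapOfBilin S' f) g = b f g :=
    InnerProductSpace.continuousLinearMapOfBilin_apply S' f g
  have h2 := (hlim f g)
  rw [← h1] at h2
  have h3 := (Complex.continuous_conj.tendsto _).comp h2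
  rw [inner_conj_symm] at h3
  refine h3.congr fun n => ?_
  rw [Function.comp_apply, inner_conj_symm]

end Pool.Agent.TBir
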