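import Pool.Agent.TBir.Stok
import Pool.Agent.TBir.Cutx
import Pool.Agent.TBir.Wot

/-!
# Winding numbers of both signs: a nontrivial idempotent in the commutant
-/

open MeasureTheory Complex Set Filter Topology Metric AddCircle
open scoped ComplexConjugate InnerProductSpace ENNReal

namespace Pool.Agent.TBir

theorem Cut.Q_subset_J {phi : ℂ → ℂ} (K : Cut phi) {q : ℂ} (hq : q ∈ K.Q) : q ∈ J phi :=
  ((K.D q hq).mem_J_iff (mem_ball_self (K.D q hq).r_pos)).2 (Or.inl (K.real1 q hq))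

theorem mainB {phi : ℂ → ℂ} (hphi : Normal phi) {Phi : CT}
    (hPhi : ∀ x, Phi x = phi (e x)) {l l' : ℂ} (hl : l ∉ J phi) (hl' : l' ∉ J phi)
    (h : (wd phi l).re < 0) (h' : 0 < (wd phi l').re) :
    ∃ P : Hardy →L[ℂ] Hardy, P * P = P ∧ P * T Phi = T Phi * P ∧ P ≠ 0 ∧ P ≠ 1 := by
  obtain ⟨K⟩ := exists_cut hphi
  obtain ⟨C, hC⟩ := K.norm_P_le hphi hPhi
  obtain ⟨U, B, hU, hB⟩ := wot hC
  have hQ : ∀ mu : ℂ, mu ∉ J phi → mu ∉ K.Q := fun mu h1 h2 => h1 (K.Q_subset_J h2)
  -- eigenvectors with negative winding number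
  have h1 : ∀ mu ∉ J phi, (wd phi mu).re < 0 → ∀ v : Hardy, T Phi v = mu • v → B v = v := by
    intro mu hmu hw v hv
    refine ext_inner_left ℂ fun g => ?_
    have h2 := hB v g
    have h3 : Tendsto (fun n => inner ℂ g (K.P Phi n v)) U (𝓝 (inner ℂ g v)) := by
      have h4 : Tendsto (fun n => K.s n mu * inner ℂ g v) atTop (𝓝 (K.chi mu * inner ℂ g v)) :=
        (K.tendsto_s (hQ mu hmu)).mul_const _
      have h5 : K.chi mu = 1 :=
        (K.neg mu (subset_closure ⟨hmu, hw⟩) (hQ mu hmu)).self_of_nhds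
      rw [h5, one_mul] at h4
      refine (h4.mono_left hU).congr fun n => ?_
      rw [K.P_eig hphi hPhi n hv, inner_smul_right]
    exact tendsto_nhds_unique h2 h3
  -- adjoint eigenvectors with positive winding number
  have h2 : ∀ mu ∉ J phi, 0 < (wd phi mu).re → ∀ v : Hardy,
      ContinuousLinearMap.adjoint (T Phi) v = conj mu • v → ∀ f, inner ℂ v (B f) = 0 := by
    intro mu hmu hw v hv f
    have h3 := hB f v
    have h4 : Tendsto (fun n => K.s n mu * inner ℂ v f) atTop (𝓝 (K.chi mu * inner ℂ v f)) :=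
      (K.tendsto_s (hQ mu hmu)).mul_const _
    have h5 : K.chi mu = 0 :=
      (K.pos mu (subset_closure ⟨hmu, hw⟩) (hQ mu hmu)).self_of_nhds
    rw [h5, zero_mul] at h4
    refine tendsto_nhds_unique h3 ((h4.mono_left hU).congr fun n => ?_)
    rw [K.P_eig_adj hphi hPhi n hv]
  have h3 : ∀ f, B f ∈ NN phi Phi := fun f mu hmu hw v hv => h2 mu hmu hw v hv f
  have h4 : ∀ y ∈ NN phi Phi, B y = y := by
    intro y hy
    have h5 : ∀ z ∈ ball (0 : ℂ) 1, ev z (B y - y) = 0 := by
      intro z hz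
      have hz' : ‖z‖ < 1 := by simpa using hz
      set k : Hardy := (InnerProductSpace.toDual ℂ Hardy).symm (ev z) with hk
      have hk' : ∀ f, ev z f = inner ℂ k f := fun f => by
        rw [hk, InnerProductSpace.toDual_symm_apply]
      have h6 := hB y k
      have h7 := (lim_ev hphi hPhi K hy hz').mono_left hU
      simp only [hk'] at h7
      rw [map_sub, hk', hk', tendsto_nhds_unique h6 h7, sub_self]
    exact sub_eq_zero.1 (ev_ext isOpen_ball ⟨0, mem_ball_self one_pos⟩ subset_rfl h5)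
  refine ⟨B, ?_, ?_, ?_, ?_⟩
  · ext f : 1
    exact h4 _ (h3 f)
  · ext f : 1
    refine ext_inner_left ℂ fun g => ?_
    change inner ℂ g (B (T Phi f)) = inner ℂ g (T Phi (B f))
    have h5 := hB (T Phi f) g
    have h6 := hB f (ContinuousLinearMap.adjoint (T Phi) g)
    rw [← ContinuousLinearMap.adjoint_inner_left (T Phi) (B f) g]
    refine tendsto_nhds_unique h5 (h6.congr fun n => ?_)
    rw [ContinuousLinearMap.adjoint_inner_left]
    have h7 := congrArg (fun A : Hardy →L[ℂ] Hardy => A f) (K.P_comm hphi hPhi n)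
    change K.P Phi n (T Phi f) = T Phi (K.P Phi n f) at h7
    rw [h7]
  · rintro rfl
    obtain ⟨v, hv, hv'⟩ := exists_ker_of_wd hphi.ana hPhi hl h
    exact hv (h1 l hl h v hv').symm
  · rintro rfl
    obtain ⟨v, hv, hv'⟩ := exists_ker_adj_of_wd hphi.ana hPhi hl' h'
    have := h2 l' hl' h' v hv' v
    exact hv (inner_self_eq_zero.1 this)

end Pool.Agent.TBir
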