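import Pool.Agent.TBir.MainA
import Pool.Agent.TBir.MainB
import Pool.Agent.TBir.BIr
import Pool.Agent.TBir.AdjN

/-!
# Completely irreducible Toeplitz operators: the classification
-/

open MeasureTheory Complex Set Filter Topology Metric AddCircle
open scoped ComplexConjugate InnerProductSpace ENNReal

namespace Pool.Agent.TBir

theorem bir_of_nonneg {phi : ℂ → ℂ} (hphi : Normal phi) {Phi : CT}
    (hPhi : ∀ x, Phi x = phi (e x)) (hw : ∀ l ∉ J phi, 0 ≤ (wd phi l).re) :
    CompletelyIrreducible (T Phi) :=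
  (bir_iff _).2 fun _ h1 h2 => mainA hphi hPhi hw h2 h1

theorem bir_of_nonpos {phi : ℂ → ℂ} (hphi : Normal phi) {Phi : CT}
    (hPhi : ∀ x, Phi x = phi (e x)) (hw : ∀ l ∉ J phi, (wd phi l).re ≤ 0) :
    CompletelyIrreducible (T Phi) := by
  rw [← bir_adj, adjoint_T]
  refine bir_of_nonneg (normal_pstar hphi) (Phi := star Phi) (fun x => ?_) fun l hl => ?_
  · rw [pstar_e, ← hPhi]
    rfl
  · have h1 : conj l ∉ J phi := by
      rw [← mem_J_pstar, Complex.conj_conj]
      exact hl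
    have h2 := wd_pstar hphi.ana h1
    rw [Complex.conj_conj] at h2
    rw [h2]
    linarith [hw _ h1]

theorem main {phi : ℂ → ℂ} (hphi : Normal phi) {Phi : CT} (hPhi : ∀ x, Phi x = phi (e x)) :
    CompletelyIrreducible (T Phi) ↔
      ¬ ∃ l l' : ℂ, l ∉ J phi ∧ l' ∉ J phi ∧ (wd phi l).re < 0 ∧ 0 < (wd phi l').re := by
  constructor
  · rintro h ⟨l, l', hl, hl', h1, h2⟩
    obtain ⟨P, hP1, hP2, hP3, hP4⟩ := mainB hphi hPhi hl hl' h1 h2
    rcases (bir_iff _).1 h P hP1 hP2 with h5 | h5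
    · exact hP3 h5
    · exact hP4 h5
  · intro h
    by_cases h1 : ∃ l, l ∉ J phi ∧ (wd phi l).re < 0
    · obtain ⟨l, hl, hl1⟩ := h1
      refine bir_of_nonpos hphi hPhi fun l' hl' => ?_
      by_contra h2
      exact h ⟨l, l', hl, hl', hl1, not_le.1 h2⟩
    · refine bir_of_nonneg hphi hPhi fun l hl => ?_
      by_contra h2
      exact h1 ⟨l, hl, not_le.1 h2⟩

end Pool.Agent.TBir
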