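import Pool.Agent.TBir.RngA
import Pool.Agent.TBir.LiouA

/-!
# Nonnegative winding numbers: every idempotent of the commutant is trivial
-/

open MeasureTheory Complex Set Filter Topology Metric AddCircle
open scoped ComplexConjugate InnerProductSpace ENNReal

namespace Pool.Agent.TBir

theorem x_nonneg {phi : ℂ → ℂ} (hw : ∀ l ∉ J phi, 0 ≤ (wd phi l).re) (l0 : ℂ) (D : LD phi l0) :
    0 ≤ D.x := by
  obtain ⟨l, _, hl, ha, hb⟩ := sgn_a D D.r_pos
  have hJ : l ∉ J phi := by
    rw [D.mem_J_iff hl]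
    rintro (h | h) <;> linarith
  have h1 := D.wd_eq hl hJ
  rw [if_neg (by linarith), if_neg (by linarith), add_zero, add_zero] at h1
  have h2 := hw l hJ
  rw [h1] at h2
  simpa using h2

theorem eq_zero_of_scalar {phi : ℂ → ℂ} (hphi : Normal phi) {Phi : CT}
    (hPhi : ∀ x, Phi x = phi (e x)) (hw : ∀ l ∉ J phi, 0 ≤ (wd phi l).re)
    {P : Hardy →L[ℂ] Hardy} (hP : P * T Phi = T Phi * P) (hP2 : P * P = P)
    (h0 : ScalarAt phi P 0) : P = 0 := by
  have hx := x_nonneg hw
  ext f : 1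
  have hf : P (P f) = P f := by
    have := congrArg (fun B : Hardy →L[ℂ] Hardy => B f) hP2
    simpa using this
  exact eq_zero_of_range hphi hPhi hx (mem_range_all hphi hPhi hx hP h0 hf)

theorem mainA {phi : ℂ → ℂ} (hphi : Normal phi) {Phi : CT}
    (hPhi : ∀ x, Phi x = phi (e x)) (hw : ∀ l ∉ J phi, 0 ≤ (wd phi l).re)
    {P : Hardy →L[ℂ] Hardy} (hP : P * T Phi = T Phi * P) (hP2 : P * P = P) : P = 0 ∨ P = 1 := by
  have hx := x_nonneg hw
  obtain ⟨kp, hkp, hs⟩ := exists_kappa hphi hPhi hx hP hP2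
  rcases hkp with rfl | rfl
  · exact Or.inl (eq_zero_of_scalar hphi hPhi hw hP hP2 hs)
  · right
    set Q : Hardy →L[ℂ] Hardy := 1 - P with hQ
    have hPQ : P = 1 - Q := by rw [hQ, sub_sub_cancel]
    have hQc : Q * T Phi = T Phi * Q := by rw [hQ, sub_mul, mul_sub, hP, one_mul, mul_one]
    have hQ2 : Q * Q = Q := by
      rw [hQ, mul_sub, mul_one, sub_mul, one_mul, hP2, sub_self, sub_zero]
    have hs' : ScalarAt phi Q 0 := by
      intro l0 D F
      obtain ⟨rho, h1, h2, h3⟩ := hs l0 D (F.compl hPQ)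
      refine ⟨rho, h1, h2, fun l hl hJ => ?_⟩
      have hl' : l ∈ ball l0 F.s := ball_subset_ball h2 hl
      have h4 := F.compl_PP hPQ hl'
      obtain ⟨h5, h6⟩ := h3 l hl hJ
      refine ⟨fun hz g => ?_, fun hz g => ?_⟩
      · have h7 := h5 hz g
        rw [h4] at h7
        have h8 : ev (D.z1 l) g - ev (D.z1 l) (F.PP l g) = 1 * ev (D.z1 l) g := by
          rw [← map_sub]; exact h7
        rw [zero_mul]
        linear_combination -h8
      · have h7 := h6 hz g
        rw [h4] at h7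
        have h8 : ev (D.z2 l) g - ev (D.z2 l) (F.PP l g) = 1 * ev (D.z2 l) g := by
          rw [← map_sub]; exact h7
        rw [zero_mul]
        linear_combination -h8
    have h9 := eq_zero_of_scalar hphi hPhi hw hQc hQ2 hs'
    rw [hPQ, h9, sub_zero]

end Pool.Agent.TBir
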