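import Pool.Agent.TBir.Base

/-!
# The quotient is analytic in the parameter

MODULE. Paper proof of `quot_diff`. Fix `w` in the annulus and `l1` in the ball. If `w ≠ z1 l1` and
`w ≠ z2 l1`, then near `l1` we have `psi l w = (phi w - l) / ((w - z1 l) (w - z2 l))` by `fac`,
differentiable at `l1`. Let `w = z1 l1` (so `z1` takes values in the annulus, `phi (z1 l) = l`, and
`phi w = l1`). For `l ≠ l1` near `l1`: `z1 l ≠ w` (otherwise `l = phi (z1 l) = phi w = l1`) and
`w ≠ z2 l` (continuity), so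
`psi l w = (l1 - l) / ((z1 l1 - z1 l) (w - z2 l)) = 1 / (dslope z1 l1 l * (w - z2 l))`.
Here `dslope z1 l1` is differentiable near `l1` (`z1` is analytic at `l1`), with value
`z1'(l1)` at `l1`, nonzero because `phi'(w) z1'(l1) = 1` (derivative of `phi (z1 l) = l`). The formula
also holds at `l = l1`: by `fac` at `l1`, dividing by `w' - w` and letting `w' → w`,
`phi'(w) = psi l1 w (w - z2 l1)`. So `l ↦ psi l w` agrees near `l1` with a differentiable function.
The case `w = z2 l1` is symmetric.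
-/

open MeasureTheory Complex Set Filter Topology Metric AddCircle
open scoped ComplexConjugate InnerProductSpace ENNReal

namespace Pool.Agent.TBir

theorem qdiff_isOpen_ann (d : ℝ) : IsOpen (ann d) := by
  unfold ann
  exact (isOpen_lt continuous_const continuous_norm).inter
    (isOpen_lt continuous_norm continuous_const)

/-- the case of a zero `w = z1 l1` -/
theorem qdiff_zero {phi : ℂ → ℂ} {l0 : ℂ} {r d : ℝ} {z1 z2 : ℂ → ℂ} {psi : ℂ → ℂ → ℂ}
    (h1 : DifferentiableOn ℂ z1 (ball l0 r)) (h2 : DifferentiableOn ℂ z2 (ball l0 r))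
    (hne : ∀ l ∈ ball l0 r, z1 l ≠ z2 l)
    (c1 : ∀ l ∈ ball l0 r, z1 l ∈ ann d ∧ phi (z1 l) = l)
    (hphi : DifferentiableOn ℂ phi (ann d))
    (hpsi : ∀ l ∈ ball l0 r, DifferentiableOn ℂ (psi l) (ann d))
    (fac : ∀ l ∈ ball l0 r, ∀ w ∈ ann d, phi w - l = psi l w * ((w - z1 l) * (w - z2 l)))
    {l1 : ℂ} (hl1 : l1 ∈ ball l0 r) :
    DifferentiableAt ℂ (fun l => psi l (z1 l1)) l1 := by
  obtain ⟨w, hw⟩ : ∃ w, w = z1 l1 := ⟨_, rfl⟩
  rw [← hw]
  have hwa : w ∈ ann d := by rw [hw]; exact (c1 l1 hl1).1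
  have hpw : phi w = l1 := by rw [hw]; exact (c1 l1 hl1).2
  have hB : ball l0 r ∈ 𝓝 l1 := isOpen_ball.mem_nhds hl1
  have hA : ann d ∈ 𝓝 w := (qdiff_isOpen_ann d).mem_nhds hwa
  have hz1 : HasDerivAt z1 (deriv z1 l1) l1 := (h1.differentiableAt hB).hasDerivAt
  have hph : HasDerivAt phi (deriv phi w) w := (hphi.differentiableAt hA).hasDerivAt
  -- `phi'(w) z1'(l1) = 1`
  have hd1 : deriv phi w * deriv z1 l1 = 1 := by
    have e1 : HasDerivAt (fun l => phi (z1 l)) (deriv phi w * deriv z1 l1) l1 := by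
      rw [hw] at hph ⊢
      exact HasDerivAt.comp l1 hph hz1
    have e2 : HasDerivAt (fun l => phi (z1 l)) 1 l1 :=
      (hasDerivAt_id l1).congr_of_eventuallyEq
        (Filter.eventuallyEq_of_mem hB fun l hl => (c1 l hl).2)
    exact e1.unique e2
  have hdz : deriv z1 l1 ≠ 0 := right_ne_zero_of_mul_eq_one hd1
  -- `phi'(w) = psi l1 w (w - z2 l1)`
  have hd2 : deriv phi w = psi l1 w * (w - z2 l1) := by
    have hps : HasDerivAt (psi l1) (deriv (psi l1) w) w :=
      ((hpsi l1 hl1).differentiableAt hA).hasDerivAt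
    have e1 : HasDerivAt (fun w' => psi l1 w' * ((w' - w) * (w' - z2 l1)))
        (psi l1 w * (w - z2 l1)) w := by
      have e3 : HasDerivAt (fun w' : ℂ => (w' - w) * (w' - z2 l1))
          (1 * (w - z2 l1) + (w - w) * 1) w :=
        ((hasDerivAt_id w).sub_const w).mul ((hasDerivAt_id w).sub_const (z2 l1))
      exact (hps.mul e3).congr_deriv (by ring)
    have e2 : HasDerivAt (fun w' => psi l1 w' * ((w' - w) * (w' - z2 l1))) (deriv phi w) w := by
      have e5 : HasDerivAt (fun w' => phi w' - l1) (deriv phi w) w := hph.sub_const l1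
      refine e5.congr_of_eventuallyEq (Filter.eventuallyEq_of_mem hA fun w' hw' => ?_)
      have := fac l1 hl1 w' hw'
      rw [← hw] at this
      exact this.symm
    exact e2.unique e1
  have hds : DifferentiableAt ℂ (dslope z1 l1) l1 :=
    ((Complex.differentiableOn_dslope hB).mpr h1).differentiableAt hB
  have hds0 : dslope z1 l1 l1 ≠ 0 := by rw [dslope_same]; exact hdz
  have hz2 : DifferentiableAt ℂ z2 l1 := h2.differentiableAt hB
  have hwz2 : w - z2 l1 ≠ 0 := by
    rw [hw]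
    exact sub_ne_zero.mpr (hne l1 hl1)
  have hev : (fun l => psi l w) =ᶠ[𝓝 l1] fun l => (dslope z1 l1 l * (w - z2 l))⁻¹ := by
    have hc : ∀ᶠ l in 𝓝 l1, w - z2 l ≠ 0 :=
      (continuousAt_const.sub hz2.continuousAt).eventually_ne hwz2
    filter_upwards [hB, hc] with l hl hl2
    rcases eq_or_ne l l1 with rfl | hll
    · rw [dslope_same]
      have : psi l w * (deriv z1 l * (w - z2 l)) = 1 := by
        calc psi l w * (deriv z1 l * (w - z2 l)) = (psi l w * (w - z2 l)) * deriv z1 l := by ring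
          _ = 1 := by rw [← hd2, hd1]
      exact eq_inv_of_mul_eq_one_left this
    · have hf := fac l hl w hwa
      rw [hpw] at hf
      rw [dslope_of_ne _ hll, slope_def_field]
      have hz : z1 l - z1 l1 ≠ 0 := by
        intro h0
        apply hll
        have e := (c1 l hl).2
        rw [sub_eq_zero.mp h0, (c1 l1 hl1).2] at e
        exact e.symm
      have hll' : l - l1 ≠ 0 := sub_ne_zero.mpr hll
      refine eq_inv_of_mul_eq_one_left ?_
      rw [← hw]
      rw [← hw] at hz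
      have e : psi l w * ((z1 l - w) / (l - l1) * (w - z2 l)) =
          -(psi l w * ((w - z1 l) * (w - z2 l))) / (l - l1) := by
        field_simp
        ring
      rw [e, ← hf]
      field_simp
      ring
  refine DifferentiableAt.congr_of_eventuallyEq ?_ hev
  exact (hds.mul ((differentiableAt_const w).sub hz2)).inv (mul_ne_zero hds0 hwz2)

theorem quot_diff {phi : ℂ → ℂ} {l0 : ℂ} {r d : ℝ} {z1 z2 : ℂ → ℂ} {psi : ℂ → ℂ → ℂ}
    (h1 : DifferentiableOn ℂ z1 (ball l0 r)) (h2 : DifferentiableOn ℂ z2 (ball l0 r))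
    (hne : ∀ l ∈ ball l0 r, z1 l ≠ z2 l)
    (c1 : (∀ l ∈ ball l0 r, z1 l ∈ ann d ∧ phi (z1 l) = l) ∨ (∀ l ∈ ball l0 r, z1 l ∉ ann d))
    (c2 : (∀ l ∈ ball l0 r, z2 l ∈ ann d ∧ phi (z2 l) = l) ∨ (∀ l ∈ ball l0 r, z2 l ∉ ann d))
    (hphi : DifferentiableOn ℂ phi (ann d))
    (hpsi : ∀ l ∈ ball l0 r, DifferentiableOn ℂ (psi l) (ann d))
    (fac : ∀ l ∈ ball l0 r, ∀ w ∈ ann d, phi w - l = psi l w * ((w - z1 l) * (w - z2 l))) :
    ∀ w ∈ ann d, DifferentiableOn ℂ (fun l => psi l w) (ball l0 r) := by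
  intro w hw l1 hl1
  refine DifferentiableAt.differentiableWithinAt ?_
  have hB : ball l0 r ∈ 𝓝 l1 := isOpen_ball.mem_nhds hl1
  by_cases e1 : w = z1 l1
  · have c1' : ∀ l ∈ ball l0 r, z1 l ∈ ann d ∧ phi (z1 l) = l := by
      rcases c1 with c | c
      · exact c
      · exact absurd (e1 ▸ hw) (c l1 hl1)
    rw [e1]
    exact qdiff_zero h1 h2 hne c1' hphi hpsi fac hl1
  by_cases e2 : w = z2 l1
  · have c2' : ∀ l ∈ ball l0 r, z2 l ∈ ann d ∧ phi (z2 l) = l := by
      rcases c2 with c | c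
      · exact c
      · exact absurd (e2 ▸ hw) (c l1 hl1)
    rw [e2]
    refine qdiff_zero h2 h1 (fun l hl => (hne l hl).symm) c2' hphi hpsi (fun l hl w hw => ?_) hl1
    rw [fac l hl w hw, mul_comm (w - z1 l)]
  have hz1 : DifferentiableAt ℂ z1 l1 := h1.differentiableAt hB
  have hz2 : DifferentiableAt ℂ z2 l1 := h2.differentiableAt hB
  have n1 : w - z1 l1 ≠ 0 := sub_ne_zero.mpr e1
  have n2 : w - z2 l1 ≠ 0 := sub_ne_zero.mpr e2
  have hev : (fun l => psi l w) =ᶠ[𝓝 l1] fun l => (phi w - l) / ((w - z1 l) * (w - z2 l)) := by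
    have hc1 : ∀ᶠ l in 𝓝 l1, w - z1 l ≠ 0 :=
      (continuousAt_const.sub hz1.continuousAt).eventually_ne n1
    have hc2 : ∀ᶠ l in 𝓝 l1, w - z2 l ≠ 0 :=
      (continuousAt_const.sub hz2.continuousAt).eventually_ne n2
    filter_upwards [hB, hc1, hc2] with l hl hl1 hl2
    rw [eq_div_iff (mul_ne_zero hl1 hl2)]
    exact (fac l hl w hw).symm
  refine DifferentiableAt.congr_of_eventuallyEq ?_ hev
  exact ((differentiableAt_const _).sub differentiableAt_id).div
    (((differentiableAt_const w).sub hz1).mul ((differentiableAt_const w).sub hz2))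
    (mul_ne_zero n1 n2)

end Pool.Agent.TBir
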