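import Pool.Agent.TBir.Base

/-!
# Bounded families of continuous functions, analytic at each point

MODULE. Paper proof. Let `l1` be in the ball and `closedBall l1 (2 R)` inside it, `R > 0`. By
Cauchy's estimate `|d/dl F l x| ≤ M/R` on `closedBall l1 R` for all `x`
(`Complex.norm_deriv_le_of_forall_mem_sphere_norm_le`), so `F` is Lipschitz on `closedBall l1 R` for
the sup norm, in particular continuous. For `l` in `ball l1 R`, Cauchy's formula for each `x` gives
`F l = (2 pi i)⁻¹ ∮_{C(l1, R)} (w - l)⁻¹ • F w dw` in `C(X, ℂ)` (evaluation at `x` commutes with the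
circle integral: `ContinuousMap.evalCLM`), and the right side is differentiable in `l`
(`hasFPowerSeriesOn_cauchy_integral`).
-/

open MeasureTheory Complex Set Filter Topology Metric AddCircle
open scoped ComplexConjugate InnerProductSpace ENNReal

namespace Pool.Agent.TBir

theorem sepAn {X : Type*} [TopologicalSpace X] [CompactSpace X] {F : ℂ → C(X, ℂ)} {l0 : ℂ}
    {r M : ℝ} (hb : ∀ l ∈ ball l0 r, ∀ x, ‖F l x‖ ≤ M)
    (hd : ∀ x, DifferentiableOn ℂ (fun l => F l x) (ball l0 r)) :
    DifferentiableOn ℂ F (ball l0 r) := by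
  have hb' : ∀ l ∈ ball l0 r, ∀ x, ‖F l x‖ ≤ |M| := fun l hl x => (hb l hl x).trans (le_abs_self M)
  intro l1 hl1
  obtain ⟨R, hR0, hR⟩ : ∃ R : ℝ, 0 < R ∧ closedBall l1 (2 * R) ⊆ ball l0 r := by
    have h1 : ball l0 r ∈ 𝓝 l1 := isOpen_ball.mem_nhds hl1
    obtain ⟨ε, hε, h2⟩ := Metric.nhds_basis_closedBall.mem_iff.1 h1
    exact ⟨ε / 2, by positivity, by rwa [mul_div_cancel₀ ε (two_ne_zero)]⟩
  -- Lipschitz
  have hder : ∀ x, ∀ l ∈ closedBall l1 R, ‖deriv (fun l => F l x) l‖ ≤ |M| / R := by
    intro x l hl
    have hsub : closedBall l R ⊆ ball l0 r := by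
      refine Subset.trans ?_ hR
      intro w hw
      rw [mem_closedBall] at hw hl ⊢
      calc dist w l1 ≤ dist w l + dist l l1 := dist_triangle _ _ _
        _ ≤ R + R := add_le_add hw hl
        _ = 2 * R := by ring
    refine Complex.norm_deriv_le_of_forall_mem_sphere_norm_le hR0 ?_ (fun z hz => ?_)
    · exact ((hd x).mono hsub).diffContOnCl_ball Subset.rfl
    · exact hb' z (hsub (sphere_subset_closedBall hz)) x
  have hlip : ∀ l ∈ closedBall l1 R, ∀ l' ∈ closedBall l1 R,
      dist (F l) (F l') ≤ (|M| / R) * dist l l' := by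
    intro l hl l' hl'
    rw [ContinuousMap.dist_le (by positivity)]
    intro x
    rw [dist_eq_norm, dist_eq_norm]
    refine Convex.norm_image_sub_le_of_norm_deriv_le (f := fun l => F l x) (s := closedBall l1 R)
      (fun w hw => ?_) (hder x) (convex_closedBall l1 R) hl' hl
    have h1 : w ∈ ball l0 r := hR (closedBall_subset_closedBall (by linarith) hw)
    exact (hd x).differentiableAt (isOpen_ball.mem_nhds h1)
  have hcont : ContinuousOn F (closedBall l1 R) := by
    have h1 : LipschitzOnWith (Real.toNNReal (|M| / R)) F (closedBall l1 R) := by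
      refine LipschitzOnWith.of_dist_le_mul (fun l hl l' hl' => ?_)
      rw [Real.coe_toNNReal _ (by positivity)]
      exact hlip l hl l' hl'
    exact h1.continuousOn
  have hci : CircleIntegrable F l1 R :=
    (hcont.mono sphere_subset_closedBall).circleIntegrable hR0.le
  have hps := hasFPowerSeriesOn_cauchy_integral (R := ⟨R, hR0.le⟩) hci hR0
  have hdf : DifferentiableAt ℂ (fun w => (2 * Real.pi * I : ℂ)⁻¹ •
      ∮ z in C(l1, R), (z - w)⁻¹ • F z) l1 := by
    have h1 := hps.hasFPowerSeriesAt.analyticAt
    exact h1.differentiableAt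
  have heq : F =ᶠ[𝓝 l1] (fun w => (2 * Real.pi * I : ℂ)⁻¹ •
      ∮ z in C(l1, R), (z - w)⁻¹ • F z) := by
    filter_upwards [isOpen_ball.mem_nhds (mem_ball_self hR0)] with l hl
    ext x
    have hsub : closedBall l1 R ⊆ ball l0 r :=
      Subset.trans (closedBall_subset_closedBall (by linarith)) hR
    have hcf := Complex.two_pi_I_inv_smul_circleIntegral_sub_inv_smul_of_differentiable_on_off_countable
      (f := fun l => F l x) (s := ∅) countable_empty hl
      ((hd x).continuousOn.mono hsub)
      (fun w hw => (hd x).differentiableAt (isOpen_ball.mem_nhds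
        (hsub (ball_subset_closedBall hw.1))))
    rw [← hcf]
    rw [ContinuousMap.smul_apply]
    congr 1
    have hci2 : CircleIntegrable (fun z => (z - l)⁻¹ • F z) l1 R := by
      refine ContinuousOn.circleIntegrable hR0.le ?_
      have hi : ContinuousOn (fun z : ℂ => (z - l)⁻¹) (sphere l1 R) := by
        refine ContinuousOn.inv₀ (by fun_prop) (fun z hz h0 => ?_)
        rw [sub_eq_zero.1 h0] at hz
        exact (ne_of_lt (mem_ball.1 hl)) (mem_sphere.1 hz)
      exact hi.smul (hcont.mono sphere_subset_closedBall)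
    unfold circleIntegral
    have h2 := (ContinuousMap.evalCLM ℂ x).intervalIntegral_comp_comm hci2.out
    exact h2
  exact (heq.differentiableAt_iff.2 hdf).differentiableWithinAt

end Pool.Agent.TBir
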