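import Pool.Agent.TBir.LogA

/-!
# Winding numbers

MODULE. Proofs. `wind_mul`: logarithmic derivative of a product on the circle and additivity of the
circle integral (`circleIntegral.integral_add`; the functions are continuous on the circle).
`wind_sub_const`: `circleIntegral.integral_sub_inv_of_mem_ball` for `|a| < 1`; for `|a| > 1` the
function `1/(w-a)` is analytic on a disc of radius larger than `1`
(`Complex.circleIntegral_eq_zero_of_differentiable_on_off_countable`).
`wind_near`: put `F = f/g` near the circle, `|F - 1| < 1` on the circle, so `Complex.log ∘ F` is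
analytic near the circle and its derivative is `f'/f - g'/g`; the integral of a derivative over the
circle is zero (`circleIntegral.integral_eq_zero_of_hasDerivWithinAt'`).
-/

open MeasureTheory Complex Set Filter Topology Metric AddCircle
open scoped ComplexConjugate InnerProductSpace ENNReal

namespace Pool.Agent.TBir

theorem wind_congr {f g : ℂ → ℂ} (h : ∀ z ∈ sphere (0 : ℂ) 1, f =ᶠ[𝓝 z] g) :
    wind f = wind g := by
  unfold wind
  congr 1
  apply circleIntegral.integral_congr zero_le_one
  intro z hz
  simp only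
  rw [(h z hz).deriv_eq, (h z hz).eq_of_nhds]

theorem ci_log {f : ℂ → ℂ} (hf : AnalyticOnNhd ℂ f (sphere 0 1))
    (hf0 : ∀ z ∈ sphere (0 : ℂ) 1, f z ≠ 0) :
    CircleIntegrable (fun w => deriv f w / f w) 0 1 := by
  apply ContinuousOn.circleIntegrable zero_le_one
  apply ContinuousOn.div _ _ hf0
  · intro z hz
    exact (hf z hz).deriv.continuousAt.continuousWithinAt
  · intro z hz
    exact (hf z hz).continuousAt.continuousWithinAt

theorem wind_mul {f g : ℂ → ℂ} (hf : AnalyticOnNhd ℂ f (sphere 0 1))
    (hg : AnalyticOnNhd ℂ g (sphere 0 1)) (hf0 : ∀ z ∈ sphere (0 : ℂ) 1, f z ≠ 0)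
    (hg0 : ∀ z ∈ sphere (0 : ℂ) 1, g z ≠ 0) : wind (fun w => f w * g w) = wind f + wind g := by
  unfold wind
  rw [← mul_add, ← circleIntegral.integral_add (ci_log hf hf0) (ci_log hg hg0)]
  congr 1
  apply circleIntegral.integral_congr zero_le_one
  intro z hz
  have h1 := (hf z hz).differentiableAt
  have h2 := (hg z hz).differentiableAt
  have e1 : deriv (fun w => f w * g w) z = deriv f z * g z + f z * deriv g z :=
    deriv_fun_mul h1 h2
  have hf1 := hf0 z hz
  have hg1 := hg0 z hz
  simp only
  rw [e1]
  field_simp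

theorem wind_sub_const {a : ℂ} (ha : ‖a‖ ≠ 1) :
    wind (fun w => w - a) = if ‖a‖ < 1 then 1 else 0 := by
  unfold wind
  have e1 : ∀ w, deriv (fun w : ℂ => w - a) w = 1 := by intro w; simp
  simp only [e1, one_div]
  split_ifs with h
  · rw [circleIntegral.integral_sub_inv_of_mem_ball (by simpa using h)]
    exact inv_mul_cancel₀ Complex.two_pi_I_ne_zero
  · have h1 : 1 < ‖a‖ := lt_of_le_of_ne (not_lt.1 h) (Ne.symm ha)
    have key : ∀ z ∈ closedBall (0 : ℂ) 1, z - a ≠ 0 := by
      intro z hz h0
      have h2 : z = a := sub_eq_zero.1 h0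
      rw [mem_closedBall, dist_zero_right, h2] at hz
      linarith
    rw [Complex.circleIntegral_eq_zero_of_differentiable_on_off_countable zero_le_one
      countable_empty, mul_zero]
    · intro z hz
      exact ((continuousAt_id.sub continuousAt_const).inv₀ (key z hz)).continuousWithinAt
    · intro z hz
      exact (differentiableAt_id.sub_const a).inv (key z (ball_subset_closedBall hz.1))

theorem wind_near {f g : ℂ → ℂ} (hf : AnalyticOnNhd ℂ f (sphere 0 1))
    (hg : AnalyticOnNhd ℂ g (sphere 0 1))
    (h : ∀ z ∈ sphere (0 : ℂ) 1, ‖f z - g z‖ < ‖g z‖) : wind f = wind g := by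
  have hg0 : ∀ z ∈ sphere (0 : ℂ) 1, g z ≠ 0 := by
    intro z hz h0
    have h1 := h z hz
    rw [h0, norm_zero] at h1
    exact absurd h1 (not_lt.2 (norm_nonneg _))
  have hf0 : ∀ z ∈ sphere (0 : ℂ) 1, f z ≠ 0 := by
    intro z hz h0
    have h1 := h z hz
    rw [h0, zero_sub, norm_neg] at h1
    exact lt_irrefl _ h1
  unfold wind
  congr 1
  rw [← sub_eq_zero, ← circleIntegral.integral_sub (ci_log hf hf0) (ci_log hg hg0)]
  apply circleIntegral.integral_eq_zero_of_hasDerivWithinAt
    (f := fun w => Complex.log (f w / g w)) zero_le_one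
  intro z hz
  have hs : f z / g z ∈ slitPlane := by
    left
    have h1 : ‖f z / g z - 1‖ < 1 := by
      rw [div_sub_one (hg0 z hz), norm_div, div_lt_one (norm_pos_iff.2 (hg0 z hz))]
      exact h z hz
    have h2 := (abs_lt.1 (lt_of_le_of_lt (Complex.abs_re_le_norm _) h1)).1
    rw [Complex.sub_re, Complex.one_re] at h2
    linarith
  have hd := (((hf z hz).differentiableAt.hasDerivAt).div
    ((hg z hz).differentiableAt.hasDerivAt) (hg0 z hz)).clog hs
  refine HasDerivAt.hasDerivWithinAt ?_
  have hf1 := hf0 z hz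
  have hg1 := hg0 z hz
  have e2 : deriv f z / f z - deriv g z / g z
      = (deriv f z * g z - f z * deriv g z) / g z ^ 2 / (f / g) z := by
    rw [Pi.div_apply]
    field_simp
  rw [e2]
  exact hd

end Pool.Agent.TBir
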