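import Pool.Agent.TBir.Quot
import Pool.Agent.TBir.QDiff
import Pool.Agent.TBir.SepAn
import Pool.Agent.TBir.WindS

/-!
# Local data from local inverses

MODULE. Paper proof. `z1`, `z2` are given on `ball l0 r0`; a zero which does not exist is the
constant `5` (for `z1`) or `7` (for `z2`), with `U1 = ∅` (`U2 = ∅`).

Step 1. `far` with `U = U1 ∪ U2` (all solutions of `phi t = l0` on the circle are in `U`) gives
`d`, `r1`, `M1` with `phi` analytic and bounded by `M1` on `ann d`, and `|phi w - l0| ≥ r1` for `w`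
in `ann d` outside `U`.
Claim: if `w ∈ ann d`, `l ∈ ball l0 (min r0 r1)`, `phi w = l`, then `w = z1 l` or `w = z2 l`
(as `|phi w - l0| < r1`, `w ∈ U1 ∪ U2`, and `inv1`, `inv2`). In particular the only solutions of
`phi w = l0` in `ann d` are the `zi l0` of absolute value `1`.

Step 2. Let `d' = d/2`. On the two circles `|w| = 1 - d'`, `|w| = 1 + d'` (compact, inside `ann d`)
`phi - l0` has no zero, so `|phi w - l0| ≥ 2 c0 > 0` there, and `|phi w - l| ≥ c0` for
`|l - l0| < c0`. Choose `r ≤ min r0 r1 c0`, `r ≤ 1`, such that for the zeros which exist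
`zi l ∈ ann (d'/2)` for `l ∈ ball l0 r` (continuity at `l0`, `|zi l0| = 1`). Then on the two circles
`d'/2 ≤ |w - zi l| ≤ 4` for the zeros which exist, and `1 ≤ |w - 5|, |w - 7| ≤ 9`.
`z1 l ≠ z2 l`: both exist: `U1`, `U2` are disjoint; one exists: it is in `ann (d'/2)`, of absolute
value less than `2`; none exists: `5 ≠ 7`.

Step 3. For `l ∈ ball l0 r`, `quot` on `ann d` with `f = phi - l`, `a = z1 l`, `b = z2 l` gives
`psi l`. It has no zero on `ann d`: if `psi l w = 0` then `phi w = l`, so `w = z1 l` or `w = z2 l`;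
if `w = z1 l` then `0 = psi l (z1 l) = phi'(z1 l)/(z1 l - z2 l)`, but `phi'(z1 l) ≠ 0` since
`phi (z1 l') = l'` (chain rule). (If the point `z1 l = 5` does not exist it is not in `ann d`.)

Step 4. Bounds on `ann d'` (`norm_le_ann` for `psi l` and `1 / psi l`): on the two circles
`c0/81 ≤ |psi l w| ≤ (M1 + |l0| + 1)/min(1, d'/2)^2`, so the same on `ann d'`. We take
`del = d'`, `m = c0/81`, `M = ...`.

Step 5. `quot_diff`: `l ↦ psi l w` is differentiable for each `w ∈ ann d`. Let `Psi l` be the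
continuous function `x ↦ psi l (e x)` (for `l ∈ ball l0 r`, `0` otherwise), `sepAn` gives `Psi_diff`.

Step 6. The winding number: `wind_int` gives integers; `l ↦ Psi l` is continuous, so for `l` near
`l1`, `|psi l - psi l1| < m ≤ |psi l1|` on the circle and `wind (psi l) = wind (psi l1)`
(`wind_near`); the ball is connected.
-/

open MeasureTheory Complex Set Filter Topology Metric AddCircle
open scoped ComplexConjugate InnerProductSpace ENNReal

namespace Pool.Agent.TBir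

private theorem mkld_ann_open (d : ℝ) : IsOpen (ann d) :=
  (isOpen_lt continuous_const continuous_norm).inter (isOpen_lt continuous_norm continuous_const)

private theorem mkld_ann_mono {d d' : ℝ} (h : d' ≤ d) : ann d' ⊆ ann d := by
  rintro w ⟨h1, h2⟩
  exact ⟨by linarith, by linarith⟩

private theorem mkld_e_norm (t : UnitAddCircle) : ‖e t‖ = 1 := by
  unfold e
  exact Circle.norm_coe _

private theorem mkld_e_cont : Continuous e := by
  unfold e
  exact (continuous_subtype_val (p := fun z : ℂ => z ∈ Submonoid.unitSphere ℂ)).comp AddCircle.continuous_toCircle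

private theorem mkld_e_surj {z : ℂ} (hz : z ∈ sphere (0 : ℂ) 1) : ∃ t, e t = z := by
  have hz' : ‖z‖ = 1 := by simpa using hz
  let c : Circle := ⟨z, by simpa [Submonoid.unitSphere] using hz'⟩
  refine ⟨(AddCircle.homeomorphCircle (T := (1 : ℝ)) one_ne_zero).symm c, ?_⟩
  unfold e
  have h := (AddCircle.homeomorphCircle (T := (1 : ℝ)) one_ne_zero).apply_symm_apply c
  rw [AddCircle.homeomorphCircle_apply] at h
  rw [h]

private theorem mkld_e_ann {d : ℝ} (hd : 0 < d) (t : UnitAddCircle) : e t ∈ ann d := by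
  show 1 - d < ‖e t‖ ∧ ‖e t‖ < 1 + d
  rw [mkld_e_norm]
  exact ⟨by linarith, by linarith⟩

private theorem mkld_sphere_ann {d : ℝ} (hd : 0 < d) : sphere (0 : ℂ) 1 ⊆ ann d := by
  intro z hz
  have hz' : ‖z‖ = 1 := by simpa using hz
  show 1 - d < ‖z‖ ∧ ‖z‖ < 1 + d
  rw [hz']
  exact ⟨by linarith, by linarith⟩

/-- shrink the ball so that the zero stays near the circle -/
private theorem mkld_zcase {phi z : ℂ → ℂ} {l0 c : ℂ} {r0 δ : ℝ} {U : Set ℂ} (hr0 : 0 < r0)
    (hδ : 0 < δ) (h : DifferentiableOn ℂ z (ball l0 r0))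
    (hc : (‖z l0‖ = 1 ∧ ∀ l ∈ ball l0 r0, z l ∈ U ∧ phi (z l) = l) ∨ (U = ∅ ∧ ∀ l, z l = c)) :
    ∃ ρ : ℝ, 0 < ρ ∧ ρ ≤ r0 ∧
      ((‖z l0‖ = 1 ∧ ∀ l ∈ ball l0 ρ, z l ∈ ann δ ∧ z l ∈ U ∧ phi (z l) = l) ∨
        (U = ∅ ∧ ∀ l, z l = c)) := by
  rcases hc with ⟨hn, hc⟩ | hc
  · have hcont : ContinuousAt z l0 :=
      (h.differentiableAt (isOpen_ball.mem_nhds (mem_ball_self hr0))).continuousAt
    have hmem : z l0 ∈ ann δ := by
      show 1 - δ < ‖z l0‖ ∧ ‖z l0‖ < 1 + δ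
      rw [hn]
      exact ⟨by linarith, by linarith⟩
    have hnhds := hcont.preimage_mem_nhds ((mkld_ann_open δ).mem_nhds hmem)
    obtain ⟨ρ, hρ, hsub⟩ := Metric.mem_nhds_iff.1 hnhds
    refine ⟨min ρ r0, lt_min hρ hr0, min_le_right _ _, Or.inl ⟨hn, fun l hl => ?_⟩⟩
    have h1 := hsub (ball_subset_ball (min_le_left ρ r0) hl)
    have h2 := hc l (ball_subset_ball (min_le_right ρ r0) hl)
    exact ⟨h1, h2.1, h2.2⟩
  · exact ⟨r0, hr0, le_rfl, Or.inr hc⟩

/-- distance of the zeros from the two circles -/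
private theorem mkld_dist {d' : ℝ} (hd' : 0 < d') (hd1 : d' < 1 / 2) {w a : ℂ}
    (hw : ‖w‖ = 1 - d' ∨ ‖w‖ = 1 + d') (ha : a ∈ ann (d' / 2) ∨ (5 ≤ ‖a‖ ∧ ‖a‖ ≤ 7)) :
    d' / 2 ≤ ‖w - a‖ ∧ ‖w - a‖ ≤ 9 := by
  have h1 : ‖w‖ ≤ 2 := by rcases hw with h | h <;> linarith
  have h2 := norm_sub_norm_le w a
  have h3 := norm_sub_norm_le a w
  rw [norm_sub_rev] at h3
  have h4 := norm_sub_le w a
  rcases ha with ⟨ha1, ha2⟩ | ⟨ha1, ha2⟩
  · constructor
    · rcases hw with h | h <;> linarith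
    · linarith
  · constructor <;> linarith

private theorem mkld_deriv {phi z : ℂ → ℂ} {l0 l : ℂ} {r d : ℝ}
    (hz : DifferentiableOn ℂ z (ball l0 r)) (hphi : DifferentiableOn ℂ phi (ann d))
    (hl : l ∈ ball l0 r) (hzl : z l ∈ ann d) (heq : ∀ l ∈ ball l0 r, phi (z l) = l) :
    deriv phi (z l) ≠ 0 := by
  have h1 := (hphi.differentiableAt ((mkld_ann_open d).mem_nhds hzl)).hasDerivAt
  have h2 := (hz.differentiableAt (isOpen_ball.mem_nhds hl)).hasDerivAt
  have h3 := h1.comp l h2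
  have h4 : HasDerivAt (phi ∘ z) 1 l := by
    refine (hasDerivAt_id l).congr_of_eventuallyEq ?_
    filter_upwards [isOpen_ball.mem_nhds hl] with l' hl'
    exact heq l' hl'
  have h5 := h3.unique h4
  intro h0
  rw [h0, zero_mul] at h5
  exact zero_ne_one h5

theorem mkLD {phi : ℂ → ℂ} (hphi : AnalyticOnNhd ℂ phi (sphere 0 1)) {l0 : ℂ} {r0 B : ℝ}
    (hr0 : 0 < r0) {z1 z2 : ℂ → ℂ} {U1 U2 : Set ℂ} {k1 k2 : ℂ} (hU1 : IsOpen U1) (hU2 : IsOpen U2)
    (hdisj : Disjoint U1 U2)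
    (h1 : DifferentiableOn ℂ z1 (ball l0 r0)) (h2 : DifferentiableOn ℂ z2 (ball l0 r0))
    (c1 : (‖z1 l0‖ = 1 ∧ ∀ l ∈ ball l0 r0, z1 l ∈ U1 ∧ phi (z1 l) = l) ∨
      (U1 = ∅ ∧ ∀ l, z1 l = 5))
    (c2 : (‖z2 l0‖ = 1 ∧ ∀ l ∈ ball l0 r0, z2 l ∈ U2 ∧ phi (z2 l) = l) ∨
      (U2 = ∅ ∧ ∀ l, z2 l = 7))
    (inv1 : ∀ w ∈ U1, phi w ∈ ball l0 r0 → z1 (phi w) = w)
    (inv2 : ∀ w ∈ U2, phi w ∈ ball l0 r0 → z2 (phi w) = w)
    (exp1 : ‖z1 l0‖ = 1 → k1 ≠ 0 ∧
      ∀ l ∈ ball l0 r0, |‖z1 l‖ ^ 2 - 1 - 2 * (k1 * (l - l0)).re| ≤ B * ‖l - l0‖ ^ 2)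
    (exp2 : ‖z2 l0‖ = 1 → k2 ≠ 0 ∧
      ∀ l ∈ ball l0 r0, |‖z2 l‖ ^ 2 - 1 - 2 * (k2 * (l - l0)).re| ≤ B * ‖l - l0‖ ^ 2)
    (indep : ‖z1 l0‖ = 1 → ‖z2 l0‖ = 1 → (k1 * conj k2).im ≠ 0)
    (cover : ∀ t ∈ sphere (0 : ℂ) 1, phi t = l0 → t ∈ U1 ∪ U2) :
    Nonempty (LD phi l0) := by
  obtain ⟨d, r1, M1, hd0, hd1, hr1, hdphi, hfar, hM1⟩ := far hphi l0 (hU1.union hU2) cover
  set d' : ℝ := d / 2 with hd'def
  have hd'0 : 0 < d' := by positivity
  have hd'1 : d' < 1 / 2 := by rw [hd'def]; linarith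
  have hd'd : d' < d := by rw [hd'def]; linarith
  obtain ⟨ρ1, hρ1, hρ1r, c1'⟩ := mkld_zcase hr0 (half_pos hd'0) h1 c1
  obtain ⟨ρ2, hρ2, hρ2r, c2'⟩ := mkld_zcase hr0 (half_pos hd'0) h2 c2
  have h5n : ‖(5 : ℂ)‖ = 5 := by simp
  have h7n : ‖(7 : ℂ)‖ = 7 := by simp
  have h5a : (5 : ℂ) ∉ ann d := by
    rintro ⟨_, h⟩
    rw [h5n] at h; linarith
  have h7a : (7 : ℂ) ∉ ann d := by
    rintro ⟨_, h⟩
    rw [h7n] at h; linarith
  -- claim A
  have hA : ∀ w ∈ ann d, ∀ l ∈ ball l0 r0, l ∈ ball l0 r1 → phi w = l → w = z1 l ∨ w = z2 l := by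
    intro w hw l hl0 hl1 hwl
    have hU : w ∈ U1 ∪ U2 := by
      by_contra hno
      have h3 := hfar w hw hno
      rw [hwl] at h3
      rw [mem_ball_iff_norm] at hl1
      linarith
    rcases hU with hU | hU
    · left
      rw [← inv1 w hU (by rw [hwl]; exact hl0), hwl]
    · right
      rw [← inv2 w hU (by rw [hwl]; exact hl0), hwl]
  -- the two circles
  set K : Set ℂ := {w | ‖w‖ = 1 - d' ∨ ‖w‖ = 1 + d'} with hK
  have hKann : K ⊆ ann d := by
    rintro w (h | h)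
    · exact ⟨by rw [h]; linarith, by rw [h]; linarith⟩
    · exact ⟨by rw [h]; linarith, by rw [h]; linarith⟩
  have hKc : IsCompact K := by
    refine Metric.isCompact_of_isClosed_isBounded ?_ ?_
    · exact (isClosed_eq continuous_norm continuous_const).union
        (isClosed_eq continuous_norm continuous_const)
    · refine (Metric.isBounded_closedBall (x := (0 : ℂ)) (r := 2)).subset ?_
      rintro w (h | h) <;> rw [mem_closedBall_zero_iff, h] <;> linarith
  have hKpos : ∀ w ∈ K, 0 < ‖phi w - l0‖ := by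
    intro w hw
    rw [norm_pos_iff, sub_ne_zero]
    intro heq
    have hwn : ‖w‖ ≠ 1 ∧ ‖w‖ < 2 := by
      rcases hw with h | h
      · exact ⟨by rw [h]; linarith, by rw [h]; linarith⟩
      · exact ⟨by rw [h]; linarith, by rw [h]; linarith⟩
    rcases hA w (hKann hw) l0 (mem_ball_self hr0) (mem_ball_self hr1) heq with h | h
    · rcases c1 with c | c
      · exact hwn.1 (by rw [h]; exact c.1)
      · have := hwn.2
        rw [h, c.2, h5n] at this
        linarith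
    · rcases c2 with c | c
      · exact hwn.1 (by rw [h]; exact c.1)
      · have := hwn.2
        rw [h, c.2, h7n] at this
        linarith
  obtain ⟨cc, hcc, hKlow⟩ := hKc.exists_forall_le' (f := fun w => ‖phi w - l0‖)
    ((hdphi.continuousOn.mono hKann).sub continuousOn_const).norm hKpos
  set c0 : ℝ := cc / 2 with hc0
  have hc0p : 0 < c0 := half_pos hcc
  -- the radius
  obtain ⟨r, hr, hrr0, hrr1, hrρ1, hrρ2, hrc0, hr1'⟩ : ∃ r : ℝ, 0 < r ∧ r ≤ r0 ∧ r ≤ r1 ∧ r ≤ ρ1 ∧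
      r ≤ ρ2 ∧ r ≤ c0 ∧ r ≤ 1 := by
    refine ⟨min r0 (min r1 (min ρ1 (min ρ2 (min c0 1)))), ?_, ?_, ?_, ?_, ?_, ?_, ?_⟩
    · exact lt_min hr0 (lt_min hr1 (lt_min hρ1 (lt_min hρ2 (lt_min hc0p one_pos))))
    · exact min_le_left _ _
    · exact (min_le_right _ _).trans (min_le_left _ _)
    · exact (min_le_right _ _).trans ((min_le_right _ _).trans (min_le_left _ _))
    · exact (min_le_right _ _).trans ((min_le_right _ _).trans
        ((min_le_right _ _).trans (min_le_left _ _)))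
    · exact (min_le_right _ _).trans ((min_le_right _ _).trans
        ((min_le_right _ _).trans ((min_le_right _ _).trans (min_le_left _ _))))
    · exact (min_le_right _ _).trans ((min_le_right _ _).trans
        ((min_le_right _ _).trans ((min_le_right _ _).trans (min_le_right _ _))))
  have hb0 : ball l0 r ⊆ ball l0 r0 := ball_subset_ball hrr0
  have hb1 : ball l0 r ⊆ ball l0 r1 := ball_subset_ball hrr1
  have e1 : (‖z1 l0‖ = 1 ∧ ∀ l ∈ ball l0 r, z1 l ∈ ann (d' / 2) ∧ z1 l ∈ U1 ∧ phi (z1 l) = l) ∨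
      (U1 = ∅ ∧ ∀ l, z1 l = 5) := by
    rcases c1' with c | c
    · exact Or.inl ⟨c.1, fun l hl => c.2 l (ball_subset_ball hrρ1 hl)⟩
    · exact Or.inr c
  have e2 : (‖z2 l0‖ = 1 ∧ ∀ l ∈ ball l0 r, z2 l ∈ ann (d' / 2) ∧ z2 l ∈ U2 ∧ phi (z2 l) = l) ∨
      (U2 = ∅ ∧ ∀ l, z2 l = 7) := by
    rcases c2' with c | c
    · exact Or.inl ⟨c.1, fun l hl => c.2 l (ball_subset_ball hrρ2 hl)⟩
    · exact Or.inr c
  have hhalf : ann (d' / 2) ⊆ ann d' := mkld_ann_mono (by linarith)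
  have hann : ann d' ⊆ ann d := mkld_ann_mono hd'd.le
  have hne : ∀ l ∈ ball l0 r, z1 l ≠ z2 l := by
    intro l hl heq
    rcases e1 with a | a <;> rcases e2 with b | b
    · have h3 := (a.2 l hl).2.1
      have h4 := (b.2 l hl).2.1
      rw [heq] at h3
      exact Set.disjoint_left.1 hdisj h3 h4
    · have h3 := hann (hhalf (a.2 l hl).1)
      rw [heq, b.2] at h3
      exact h7a h3
    · have h3 := hann (hhalf (b.2 l hl).1)
      rw [← heq, a.2] at h3
      exact h5a h3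
    · rw [a.2, b.2] at heq
      norm_num at heq
  have q1 : (∀ l ∈ ball l0 r, z1 l ∈ ann d ∧ phi (z1 l) = l) ∨ (∀ l ∈ ball l0 r, z1 l ∉ ann d) := by
    rcases e1 with a | a
    · exact Or.inl fun l hl => ⟨hann (hhalf (a.2 l hl).1), (a.2 l hl).2.2⟩
    · exact Or.inr fun l _ => by rw [a.2]; exact h5a
  have q2 : (∀ l ∈ ball l0 r, z2 l ∈ ann d ∧ phi (z2 l) = l) ∨ (∀ l ∈ ball l0 r, z2 l ∉ ann d) := by
    rcases e2 with a | a
    · exact Or.inl fun l hl => ⟨hann (hhalf (a.2 l hl).1), (a.2 l hl).2.2⟩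
    · exact Or.inr fun l _ => by rw [a.2]; exact h7a
  have hz1d : DifferentiableOn ℂ z1 (ball l0 r) := h1.mono hb0
  have hz2d : DifferentiableOn ℂ z2 (ball l0 r) := h2.mono hb0
  -- the quotient
  have hq : ∀ l ∈ ball l0 r, ∃ g : ℂ → ℂ, DifferentiableOn ℂ g (ann d) ∧
      (∀ w ∈ ann d, phi w - l = g w * ((w - z1 l) * (w - z2 l))) ∧ ∀ w ∈ ann d, g w ≠ 0 := by
    intro l hl
    obtain ⟨g, hg1, hg2, hg3, hg4⟩ := quot (f := fun w => phi w - l)
      (hdphi.sub (differentiableOn_const l)) (hne l hl)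
      (by
        rcases q1 with a | a
        · exact Or.inr (by show phi (z1 l) - l = 0; rw [(a l hl).2, sub_self])
        · exact Or.inl (a l hl))
      (by
        rcases q2 with a | a
        · exact Or.inr (by show phi (z2 l) - l = 0; rw [(a l hl).2, sub_self])
        · exact Or.inl (a l hl))
    refine ⟨g, hg1, hg2, fun w hw hgw => ?_⟩
    have hwl : phi w = l := by
      have h3 := hg2 w hw
      rw [hgw, zero_mul, sub_eq_zero] at h3
      exact h3
    have hder : ∀ a, deriv (fun w => phi w - l) a = deriv phi a := fun a => deriv_sub_const l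
    rcases hA w hw l (hb0 hl) (hb1 hl) hwl with h | h
    · rcases q1 with a | a
      · have h3 := hg3 (a l hl).1
        rw [← h, hgw, hder] at h3
        have h4 : deriv phi w = 0 := by
          rcases div_eq_zero_iff.1 h3.symm with h5 | h5
          · exact h5
          · exfalso
            rw [sub_eq_zero] at h5
            exact hne l hl (by rw [← h]; exact h5)
        rw [h] at h4
        exact mkld_deriv hz1d hdphi hl (a l hl).1 (fun l hl => (a l hl).2) h4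
      · rw [h] at hw
        exact a l hl hw
    · rcases q2 with a | a
      · have h3 := hg4 (a l hl).1
        rw [← h, hgw, hder] at h3
        have h4 : deriv phi w = 0 := by
          rcases div_eq_zero_iff.1 h3.symm with h5 | h5
          · exact h5
          · exfalso
            rw [sub_eq_zero] at h5
            exact hne l hl (by rw [← h]; exact h5.symm)
        rw [h] at h4
        exact mkld_deriv hz2d hdphi hl (a l hl).1 (fun l hl => (a l hl).2) h4
      · rw [h] at hw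
        exact a l hl hw
  choose! psi hpsi1 hpsi2 hpsi3 using hq
  -- bounds
  have hdist1 : ∀ l ∈ ball l0 r, ∀ w ∈ K, d' / 2 ≤ ‖w - z1 l‖ ∧ ‖w - z1 l‖ ≤ 9 := by
    intro l hl w hw
    refine mkld_dist hd'0 hd'1 hw ?_
    rcases e1 with a | a
    · exact Or.inl (a.2 l hl).1
    · right; rw [a.2, h5n]; constructor <;> norm_num
  have hdist2 : ∀ l ∈ ball l0 r, ∀ w ∈ K, d' / 2 ≤ ‖w - z2 l‖ ∧ ‖w - z2 l‖ ≤ 9 := by
    intro l hl w hw
    refine mkld_dist hd'0 hd'1 hw ?_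
    rcases e2 with a | a
    · exact Or.inl (a.2 l hl).1
    · right; rw [a.2, h7n]; constructor <;> norm_num
  have hd'2 : 0 < d' / 2 := half_pos hd'0
  have hKub : ∀ l ∈ ball l0 r, ∀ w ∈ K, ‖psi l w‖ ≤ (M1 + ‖l0‖ + 1) / (d' / 2) ^ 2 := by
    intro l hl w hw
    have h3 := hpsi2 l hl w (hKann hw)
    have h4 := hdist1 l hl w hw
    have h5 := hdist2 l hl w hw
    have h6 : ‖phi w - l‖ ≤ M1 + ‖l0‖ + 1 := by
      have a1 := norm_sub_le (phi w) l
      have a2 := hM1 w (hKann hw)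
      have a3 : ‖l‖ ≤ ‖l0‖ + 1 := by
        have a4 := norm_sub_norm_le l l0
        have a5 := mem_ball_iff_norm.1 hl
        linarith
      linarith
    rw [h3, norm_mul, norm_mul] at h6
    rw [le_div_iff₀ (by positivity)]
    refine le_trans ?_ h6
    refine mul_le_mul_of_nonneg_left ?_ (norm_nonneg _)
    rw [sq]
    exact mul_le_mul h4.1 h5.1 hd'2.le (norm_nonneg _)
  have hKlb : ∀ l ∈ ball l0 r, ∀ w ∈ K, c0 / 81 ≤ ‖psi l w‖ := by
    intro l hl w hw
    have h3 := hpsi2 l hl w (hKann hw)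
    have h4 := hdist1 l hl w hw
    have h5 := hdist2 l hl w hw
    have h6 : c0 ≤ ‖phi w - l‖ := by
      have a1 : ‖phi w - l0‖ ≤ ‖phi w - l‖ + ‖l - l0‖ := norm_sub_le_norm_sub_add_norm_sub _ _ _
      have a2 := hKlow w hw
      have a3 := mem_ball_iff_norm.1 hl
      have a4 : c0 = cc / 2 := hc0
      linarith
    rw [h3, norm_mul, norm_mul] at h6
    rw [div_le_iff₀ (by norm_num)]
    refine h6.trans ?_
    refine mul_le_mul_of_nonneg_left ?_ (norm_nonneg _)
    calc ‖w - z1 l‖ * ‖w - z2 l‖ ≤ 9 * 9 :=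
          mul_le_mul h4.2 h5.2 (norm_nonneg _) (by norm_num)
      _ = 81 := by norm_num
  have hub : ∀ l ∈ ball l0 r, ∀ w ∈ ann d', ‖psi l w‖ ≤ (M1 + ‖l0‖ + 1) / (d' / 2) ^ 2 :=
    fun l hl => norm_le_ann hd'0 hd'd hd1 (hpsi1 l hl) fun w hw => hKub l hl w hw
  have hmp : 0 < c0 / 81 := by positivity
  have hlb : ∀ l ∈ ball l0 r, ∀ w ∈ ann d', c0 / 81 ≤ ‖psi l w‖ := by
    intro l hl w hw
    have h3 := norm_le_ann hd'0 hd'd hd1 (g := fun w => (psi l w)⁻¹)
      ((hpsi1 l hl).inv (hpsi3 l hl)) (M := (c0 / 81)⁻¹) (fun w hw => by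
        rw [norm_inv]
        exact inv_anti₀ hmp (hKlb l hl w hw)) w hw
    rw [norm_inv] at h3
    have h4 : 0 < ‖psi l w‖ := norm_pos_iff.2 (hpsi3 l hl w (hann hw))
    exact (inv_le_inv₀ h4 hmp).1 h3
  -- the continuous functions
  have hF : ∀ l ∈ ball l0 r, ∃ F : CT, ∀ t, F t = psi l (e t) := by
    intro l hl
    refine ⟨⟨fun t => psi l (e t), ?_⟩, fun t => rfl⟩
    exact (hpsi1 l hl).continuousOn.comp_continuous mkld_e_cont fun t => mkld_e_ann hd0 t
  choose! Psi hPsi using hF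
  have hPsid : DifferentiableOn ℂ Psi (ball l0 r) := by
    refine sepAn (M := (M1 + ‖l0‖ + 1) / (d' / 2) ^ 2) (fun l hl x => ?_) (fun x => ?_)
    · rw [hPsi l hl x]
      exact hub l hl _ (mkld_e_ann hd'0 x)
    · refine (quot_diff hz1d hz2d hne q1 q2 hdphi hpsi1 hpsi2 (e x) (mkld_e_ann hd0 x)).congr ?_
      intro l hl
      exact hPsi l hl x
  -- winding number
  have han : ∀ l ∈ ball l0 r, AnalyticOnNhd ℂ (psi l) (sphere 0 1) := fun l hl =>
    ((hpsi1 l hl).analyticOnNhd (mkld_ann_open d)).mono (mkld_sphere_ann hd0)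
  have hloc : ∀ l1 ∈ ball l0 r, ∀ᶠ l in 𝓝 l1, wind (psi l) = wind (psi l1) := by
    intro l1 hl1
    have hc : ContinuousAt Psi l1 :=
      (hPsid.differentiableAt (isOpen_ball.mem_nhds hl1)).continuousAt
    have h3 : ∀ᶠ l in 𝓝 l1, dist (Psi l) (Psi l1) < c0 / 81 :=
      hc (Metric.ball_mem_nhds _ hmp)
    filter_upwards [h3, isOpen_ball.mem_nhds hl1] with l hl hlb'
    refine wind_near (han l hlb') (han l1 hl1) fun z hz => ?_
    obtain ⟨t, rfl⟩ := mkld_e_surj hz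
    refine lt_of_lt_of_le ?_ (hlb l1 hl1 (e t) (mkld_e_ann hd'0 t))
    rw [dist_eq_norm] at hl
    have h4 := ContinuousMap.norm_coe_le_norm (Psi l - Psi l1) t
    rw [ContinuousMap.sub_apply, hPsi l hlb' t, hPsi l1 hl1 t] at h4
    exact lt_of_le_of_lt h4 hl
  have hconst : ∀ l ∈ ball l0 r, wind (psi l) = wind (psi l0) := by
    intro l hl
    have hder : ∀ l1 ∈ ball l0 r, HasDerivAt (fun l => wind (psi l)) 0 l1 := by
      intro l1 hl1
      exact (hasDerivAt_const l1 (wind (psi l1))).congr_of_eventuallyEq (hloc l1 hl1)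
    exact isOpen_ball.is_const_of_deriv_eq_zero (convex_ball l0 r).isPreconnected
      (fun l1 hl1 => (hder l1 hl1).differentiableAt.differentiableWithinAt)
      (fun l1 hl1 => (hder l1 hl1).deriv) hl (mem_ball_self hr)
  obtain ⟨x, hx⟩ := wind_int (han l0 (mem_ball_self hr)) (fun z hz =>
    hpsi3 l0 (mem_ball_self hr) z (mkld_sphere_ann hd0 hz))
  exact ⟨{
    r := r
    del := d'
    m := c0 / 81
    M := (M1 + ‖l0‖ + 1) / (d' / 2) ^ 2
    B := B
    x := x
    z1 := z1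
    z2 := z2
    k1 := k1
    k2 := k2
    psi := psi
    Psi := Psi
    r_pos := hr
    del_pos := hd'0
    del_lt := by linarith
    m_pos := hmp
    z1_diff := hz1d
    z2_diff := hz2d
    z_ne := hne
    z1_cases := by
      rcases e1 with a | a
      · exact Or.inl ⟨a.1, fun l hl => ⟨hhalf (a.2 l hl).1, (a.2 l hl).2.2⟩⟩
      · exact Or.inr fun l _ => by rw [a.2, h5n]; norm_num
    z2_cases := by
      rcases e2 with a | a
      · exact Or.inl ⟨a.1, fun l hl => ⟨hhalf (a.2 l hl).1, (a.2 l hl).2.2⟩⟩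
      · exact Or.inr fun l _ => by rw [a.2, h7n]; norm_num
    z1_exp := fun h => ⟨(exp1 h).1, fun l hl => (exp1 h).2 l (hb0 hl)⟩
    z2_exp := fun h => ⟨(exp2 h).1, fun l hl => (exp2 h).2 l (hb0 hl)⟩
    indep := indep
    psi_diff := fun l hl => (hpsi1 l hl).mono hann
    fac := fun l hl w hw => hpsi2 l hl w (hann hw)
    psi_lb := hlb
    psi_ub := hub
    Psi_eq := hPsi
    Psi_diff := hPsid
    wind_eq := fun l hl => (hconst l hl).trans hx }⟩

end Pool.Agent.TBir
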