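import Pool.Agent.TBir.Schur

/-!
# The planar integral

MODULE. Paper proof. In polar coordinates around `q`
(`MeasureTheory.lintegral_fun_norm_addHaar` or `Complex.lintegral_comp_polarCoord_symm`) the integral
is `2 pi ∫_0^R (FF f (1 - c t) + ‖f‖)(FF g (1 - c t) + ‖g‖) dt`. By Cauchy-Schwarz
(`ENNReal.lintegral_mul_le_Lp_mul_Lq`) it is at most `2 pi` times the product of the square roots of
`∫_0^R (FF f (1 - c t) + ‖f‖)^2 dt ≤ 2 ∫_0^R FF f (1 - c t)^2 dt + 2 R ‖f‖^2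
≤ (2/c) ∫_0^1 FF f (u)^2 du + (2/c) ‖f‖^2` (`R ≤ 1/c`, substitution) and the same for `g`. Use `FF_sq`.
Measurability: `FF f` is monotone on `[0, 1)` (`FF_mono`), or a sum of measurable functions.
-/

open MeasureTheory Complex Set Filter Topology Metric AddCircle
open scoped ComplexConjugate InnerProductSpace ENNReal

namespace Pool.Agent.TBir

/-- The majorant with values in `ℝ≥0∞`. -/
private noncomputable def FE (f : Hardy) (t : ℝ) : ℝ≥0∞ :=
  ∑' n : ℕ, ENNReal.ofReal (‖co f n‖ * t ^ n)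

private theorem FE_meas (f : Hardy) : Measurable (FE f) := by
  unfold FE
  refine Measurable.ennreal_tsum fun n => ?_
  fun_prop

private theorem FE_eq (f : Hardy) {t : ℝ} (h0 : 0 ≤ t) (h1 : t < 1) :
    FE f t = ENNReal.ofReal (FF f t) := by
  unfold FE FF
  rw [ENNReal.ofReal_tsum_of_nonneg (fun n => by positivity)]
  refine Summable.of_nonneg_of_le (fun n => by positivity) (fun n => ?_)
    ((summable_geometric_of_lt_one h0 h1).mul_left ‖f‖)
  exact mul_le_mul_of_nonneg_right (norm_co_le f n) (by positivity)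

private theorem FF_nn (f : Hardy) {t : ℝ} (h0 : 0 ≤ t) : 0 ≤ FF f t :=
  tsum_nonneg fun n => by positivity

private noncomputable def FA (f : Hardy) (t : ℝ) : ℝ≥0∞ := FE f t + ENNReal.ofReal ‖f‖

private theorem FA_meas (f : Hardy) : Measurable (FA f) := (FE_meas f).add_const _

private theorem FA_sq {C : ℝ} (hC : 0 < C) (h : ∀ f : Hardy,
    ∫⁻ t in Ioo (0 : ℝ) 1, ENNReal.ofReal (FF f t ^ 2) ≤ ENNReal.ofReal (C * ‖f‖ ^ 2))
    (f : Hardy) : ∫⁻ t in Ioo (0 : ℝ) 1, FA f t ^ (2 : ℝ) ≤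
      ENNReal.ofReal ((2 * C + 2) * ‖f‖ ^ 2) := by
  calc ∫⁻ t in Ioo (0 : ℝ) 1, FA f t ^ (2 : ℝ)
      ≤ ∫⁻ t in Ioo (0 : ℝ) 1, (2 * ENNReal.ofReal (FF f t ^ 2) +
          ENNReal.ofReal (2 * ‖f‖ ^ 2)) := by
        refine setLIntegral_mono' measurableSet_Ioo fun t ht => ?_
        unfold FA
        have hn := FF_nn f ht.1.le
        rw [FE_eq f ht.1.le ht.2, ← ENNReal.ofReal_add hn (norm_nonneg _),
          ENNReal.rpow_two, ← ENNReal.ofReal_pow (by positivity),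
          show (2 : ℝ≥0∞) = ENNReal.ofReal 2 by norm_num,
          ← ENNReal.ofReal_mul (by norm_num), ← ENNReal.ofReal_add (by positivity) (by positivity)]
        apply ENNReal.ofReal_le_ofReal
        nlinarith [sq_nonneg (FF f t - ‖f‖)]
    _ = 2 * (∫⁻ t in Ioo (0 : ℝ) 1, ENNReal.ofReal (FF f t ^ 2)) +
          ENNReal.ofReal (2 * ‖f‖ ^ 2) := by
        rw [lintegral_add_right _ measurable_const, lintegral_const_mul' _ _ (by norm_num)]
        simp
    _ ≤ 2 * ENNReal.ofReal (C * ‖f‖ ^ 2) + ENNReal.ofReal (2 * ‖f‖ ^ 2) := by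
        gcongr
        exact h f
    _ = ENNReal.ofReal ((2 * C + 2) * ‖f‖ ^ 2) := by
        rw [show (2 : ℝ≥0∞) = ENNReal.ofReal 2 by norm_num, ← ENNReal.ofReal_mul (by norm_num),
          ← ENNReal.ofReal_add (by positivity) (by positivity)]
        congr 1
        ring

private theorem sqrt_aux {K a : ℝ} (hK : 0 ≤ K) (ha : 0 ≤ a) :
    (ENNReal.ofReal (K * a ^ 2)) ^ (1 / (2 : ℝ)) = ENNReal.ofReal (√K * a) := by
  rw [ENNReal.ofReal_rpow_of_nonneg (by positivity) (by norm_num), ← Real.sqrt_eq_rpow,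
    Real.sqrt_mul hK, Real.sqrt_sq ha]

private theorem FA_mul {C : ℝ} (hC : 0 < C) (h : ∀ f : Hardy,
    ∫⁻ t in Ioo (0 : ℝ) 1, ENNReal.ofReal (FF f t ^ 2) ≤ ENNReal.ofReal (C * ‖f‖ ^ 2))
    (f g : Hardy) : ∫⁻ t in Ioo (0 : ℝ) 1, FA f t * FA g t ≤
      ENNReal.ofReal ((2 * C + 2) * ‖f‖ * ‖g‖) := by
  have hpq : (2 : ℝ).HolderConjugate 2 := by
    rw [Real.holderConjugate_iff]
    norm_num
  have h1 := ENNReal.lintegral_mul_le_Lp_mul_Lq (volume.restrict (Ioo (0 : ℝ) 1)) hpq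
    (FA_meas f).aemeasurable (FA_meas g).aemeasurable
  have h2 : (∫⁻ t in Ioo (0 : ℝ) 1, FA f t ^ (2 : ℝ)) ^ (1 / (2 : ℝ)) ≤
      ENNReal.ofReal (√(2 * C + 2) * ‖f‖) := by
    rw [← sqrt_aux (by positivity) (norm_nonneg _)]
    exact ENNReal.rpow_le_rpow (FA_sq hC h f) (by norm_num)
  have h3 : (∫⁻ t in Ioo (0 : ℝ) 1, FA g t ^ (2 : ℝ)) ^ (1 / (2 : ℝ)) ≤
      ENNReal.ofReal (√(2 * C + 2) * ‖g‖) := by
    rw [← sqrt_aux (by positivity) (norm_nonneg _)]
    exact ENNReal.rpow_le_rpow (FA_sq hC h g) (by norm_num)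
  refine h1.trans ((mul_le_mul' h2 h3).trans (le_of_eq ?_))
  rw [← ENNReal.ofReal_mul (by positivity)]
  congr 1
  have h4 : √(2 * C + 2) * √(2 * C + 2) = 2 * C + 2 := Real.mul_self_sqrt (by positivity)
  linear_combination ‖f‖ * ‖g‖ * h4

/-- Linear substitution. -/
private theorem subst_aux {c : ℝ} (hc : 0 < c) (B : ℝ → ℝ≥0∞) (hB : Measurable B) :
    ∫⁻ t, B (1 - c * t) = ENNReal.ofReal c⁻¹ * ∫⁻ u, B u := by
  have h1 : ∫⁻ u, B u = ∫⁻ u, B (1 - u) := (lintegral_sub_left_eq_self B 1).symm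
  have h2 := Real.smul_map_volume_mul_left hc.ne'
  rw [h1]
  conv_rhs => rw [← h2]
  rw [lintegral_smul_measure, lintegral_map (by fun_prop) (by fun_prop), smul_eq_mul,
    ← mul_assoc, ← ENNReal.ofReal_mul (by positivity), abs_of_pos hc, inv_mul_cancel₀ hc.ne']
  simp

/-- Radial integrals. -/
private theorem radial (q : ℂ) (K : ℝ → ℝ≥0∞) (hK : Measurable K) :
    ∫⁻ l : ℂ, ENNReal.ofReal (1 / ‖l - q‖) * K ‖l - q‖ ≤
      ENNReal.ofReal (2 * Real.pi) * ∫⁻ t in Ioi (0 : ℝ), K t := by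
  have h1 : ∫⁻ l : ℂ, ENNReal.ofReal (1 / ‖l - q‖) * K ‖l - q‖ =
      ∫⁻ l : ℂ, ENNReal.ofReal (1 / ‖l‖) * K ‖l‖ :=
    lintegral_sub_right_eq_self (fun l : ℂ => ENNReal.ofReal (1 / ‖l‖) * K ‖l‖) q
  rw [h1, ← Complex.lintegral_comp_polarCoord_symm]
  have h2 : (volume : Measure (ℝ × ℝ)).restrict polarCoord.target =
      (volume.restrict (Ioi (0 : ℝ))).prod (volume.restrict (Ioo (-Real.pi) Real.pi)) := by
    rw [Measure.prod_restrict]
    rfl
  have h3 : ∫⁻ p in polarCoord.target, ENNReal.ofReal p.1 •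
      (ENNReal.ofReal (1 / ‖Complex.polarCoord.symm p‖) * K ‖Complex.polarCoord.symm p‖) =
      ∫⁻ p in polarCoord.target, K p.1 * 1 := by
    refine setLIntegral_congr_fun polarCoord.open_target.measurableSet fun p hp => ?_
    have hp1 : 0 < p.1 := hp.1
    simp only [Complex.norm_polarCoord_symm, abs_of_pos hp1, smul_eq_mul, mul_one]
    rw [← mul_assoc, ← ENNReal.ofReal_mul hp1.le, mul_one_div_cancel hp1.ne']
    simp
  rw [h3, h2, lintegral_prod_mul hK.aemeasurable aemeasurable_const, mul_comm]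
  refine mul_le_mul' (le_of_eq ?_) le_rfl
  simp only [lintegral_const, Measure.restrict_apply MeasurableSet.univ, univ_inter, one_mul,
    Real.volume_Ioo]
  congr 1
  ring

theorem pl_int {c : ℝ} (hc : 0 < c) : ∃ C : ℝ, 0 < C ∧ ∀ (q : ℂ) (R : ℝ), 0 < R → c * R ≤ 1 →
    ∀ f g : Hardy,
      ∫⁻ l in ball q R, ENNReal.ofReal ((FF f (1 - c * ‖l - q‖) + ‖f‖) *
        (FF g (1 - c * ‖l - q‖) + ‖g‖) / ‖l - q‖) ≤ ENNReal.ofReal (C * ‖f‖ * ‖g‖) := by
  obtain ⟨C, hC, h⟩ := FF_sq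
  refine ⟨2 * Real.pi * (c⁻¹ * (2 * C + 2)), by positivity, ?_⟩
  intro q R hR hcR f g
  have hmeas : Measurable fun t : ℝ => (Ioo (0 : ℝ) R).indicator
      (fun t => FA f (1 - c * t) * FA g (1 - c * t)) t := by
    refine Measurable.indicator ?_ measurableSet_Ioo
    exact ((FA_meas f).comp (by fun_prop)).mul ((FA_meas g).comp (by fun_prop))
  have hmeas' : Measurable fun t : ℝ => (Ioo (0 : ℝ) 1).indicator
      (fun t => FA f t * FA g t) t :=
    Measurable.indicator ((FA_meas f).mul (FA_meas g)) measurableSet_Ioo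
  calc ∫⁻ l in ball q R, ENNReal.ofReal ((FF f (1 - c * ‖l - q‖) + ‖f‖) *
        (FF g (1 - c * ‖l - q‖) + ‖g‖) / ‖l - q‖)
      ≤ ∫⁻ l in ball q R, ENNReal.ofReal (1 / ‖l - q‖) * (Ioo (0 : ℝ) R).indicator
          (fun t => FA f (1 - c * t) * FA g (1 - c * t)) ‖l - q‖ := by
        refine setLIntegral_mono' measurableSet_ball fun l hl => ?_
        rcases eq_or_ne l q with rfl | hne
        · simp
        have h1 : 0 < ‖l - q‖ := norm_pos_iff.mpr (sub_ne_zero.mpr hne)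
        have h2 : ‖l - q‖ < R := by
          rwa [mem_ball, dist_eq_norm] at hl
        have h3 : 0 ≤ 1 - c * ‖l - q‖ := by nlinarith
        have h4 : 1 - c * ‖l - q‖ < 1 := by nlinarith [mul_pos hc h1]
        rw [indicator_of_mem (show ‖l - q‖ ∈ Ioo (0 : ℝ) R from ⟨h1, h2⟩)]
        have h5 := FF_nn f h3
        have h6 := FF_nn g h3
        simp only [FA]
        rw [FE_eq f h3 h4, FE_eq g h3 h4, ← ENNReal.ofReal_add h5 (norm_nonneg _),
          ← ENNReal.ofReal_add h6 (norm_nonneg _), ← ENNReal.ofReal_mul (by positivity),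
          ← ENNReal.ofReal_mul (by positivity)]
        apply ENNReal.ofReal_le_ofReal
        apply le_of_eq
        ring
    _ ≤ ∫⁻ l : ℂ, ENNReal.ofReal (1 / ‖l - q‖) * (Ioo (0 : ℝ) R).indicator
          (fun t => FA f (1 - c * t) * FA g (1 - c * t)) ‖l - q‖ :=
        setLIntegral_le_lintegral _ _
    _ ≤ ENNReal.ofReal (2 * Real.pi) * ∫⁻ t in Ioi (0 : ℝ), (Ioo (0 : ℝ) R).indicator
          (fun t => FA f (1 - c * t) * FA g (1 - c * t)) t := radial q _ hmeas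
    _ ≤ ENNReal.ofReal (2 * Real.pi) * ∫⁻ t : ℝ, (Ioo (0 : ℝ) 1).indicator
          (fun t => FA f t * FA g t) (1 - c * t) := by
        refine mul_le_mul' le_rfl ?_
        refine (setLIntegral_le_lintegral _ _).trans (lintegral_mono fun t => ?_)
        by_cases ht : t ∈ Ioo (0 : ℝ) R
        · have h1 : 1 - c * t ∈ Ioo (0 : ℝ) 1 := by
            constructor
            · nlinarith [ht.1, ht.2]
            · nlinarith [mul_pos hc ht.1]
          rw [indicator_of_mem ht, indicator_of_mem h1]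
        · rw [indicator_of_notMem ht]
          exact zero_le
    _ = ENNReal.ofReal (2 * Real.pi) * (ENNReal.ofReal c⁻¹ *
          ∫⁻ t in Ioo (0 : ℝ) 1, FA f t * FA g t) := by
        rw [subst_aux hc _ hmeas', lintegral_indicator measurableSet_Ioo]
    _ ≤ ENNReal.ofReal (2 * Real.pi) * (ENNReal.ofReal c⁻¹ *
          ENNReal.ofReal ((2 * C + 2) * ‖f‖ * ‖g‖)) := by
        gcongr
        exact FA_mul hC h f g
    _ = ENNReal.ofReal (2 * Real.pi * (c⁻¹ * (2 * C + 2)) * ‖f‖ * ‖g‖) := by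
        rw [← ENNReal.ofReal_mul (by positivity), ← ENNReal.ofReal_mul (by positivity)]
        congr 1
        ring

end Pool.Agent.TBir
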