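import Pool.Agent.TBir.LogA

/-!
# Division by linear factors on an annulus

MODULE. Proofs. `far`: `phi` is analytic on an open set `V` containing the circle. If no such `d`,
`r` exists, there are `w_n` with `| |w_n| - 1 | → 0`, `w_n ∉ U`, `phi w_n → l0`; a limit point `t`
of `w_n` lies on the circle, not in `U`, and `phi t = l0`, a contradiction. (Or: compactness of
`sphere \ U`, `|phi - l0| ≥ 2 r` on it, hence `> r` on a neighbourhood `W` of it, and
`exists_ann_subset` for `U ∪ W`.)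

`quot`: if `a` is in the annulus and `f a = 0`, `f w = (w - a) g w` with `g = dslope f a`,
differentiable on the (open) annulus; `g a = deriv f a`; if `a` is not in the annulus take
`g w = f w / (w - a)`. Do this for `a`, then for `b` (`g b = 0` if `f b = 0` as `b ≠ a`).

`norm_le_ann`: maximum modulus principle on the bounded open set `ann d'`, whose frontier is
contained in the union of the two circles (`Complex.norm_le_of_forall_mem_frontier_norm_le`).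
-/

open MeasureTheory Complex Set Filter Topology Metric AddCircle
open scoped ComplexConjugate InnerProductSpace ENNReal

namespace Pool.Agent.TBir

private theorem Quot_isOpen_ann (d : ℝ) : IsOpen (ann d) :=
  (isOpen_lt continuous_const continuous_norm).inter (isOpen_lt continuous_norm continuous_const)

private theorem Quot_isClosed (d : ℝ) : IsClosed {w : ℂ | 1 - d ≤ ‖w‖ ∧ ‖w‖ ≤ 1 + d} :=
  (isClosed_le continuous_const continuous_norm).inter
    (isClosed_le continuous_norm continuous_const)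

theorem far {phi : ℂ → ℂ} (h : AnalyticOnNhd ℂ phi (sphere 0 1)) (l0 : ℂ) {U : Set ℂ}
    (hU : IsOpen U) (hR : ∀ t ∈ sphere (0 : ℂ) 1, phi t = l0 → t ∈ U) :
    ∃ d r M : ℝ, 0 < d ∧ d < 1 ∧ 0 < r ∧ DifferentiableOn ℂ phi (ann d) ∧
      (∀ w ∈ ann d, w ∉ U → r ≤ ‖phi w - l0‖) ∧ ∀ w ∈ ann d, ‖phi w‖ ≤ M := by
  have hU1 : IsOpen {w : ℂ | AnalyticAt ℂ phi w} := isOpen_analyticAt ℂ phi
  have hc1 : ContinuousOn phi {w : ℂ | AnalyticAt ℂ phi w} :=
    fun w hw => hw.continuousAt.continuousWithinAt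
  have hU2 : IsOpen ({w : ℂ | AnalyticAt ℂ phi w} ∩ phi ⁻¹' {l0}ᶜ) :=
    hc1.isOpen_inter_preimage hU1 isOpen_compl_singleton
  have hU3 : IsOpen (({w : ℂ | AnalyticAt ℂ phi w} ∩ U) ∪
      ({w : ℂ | AnalyticAt ℂ phi w} ∩ phi ⁻¹' {l0}ᶜ)) := (hU1.inter hU).union hU2
  obtain ⟨d, hd, hd1, hsub⟩ := exists_ann_subset hU3 (fun z hz => by
    by_cases hz0 : phi z = l0
    · exact Or.inl ⟨h z hz, hR z hz hz0⟩
    · exact Or.inr ⟨h z hz, hz0⟩)
  have hcl := Quot_isClosed d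
  have hcp : IsCompact {w : ℂ | 1 - d ≤ ‖w‖ ∧ ‖w‖ ≤ 1 + d} := by
    refine Metric.isCompact_of_isClosed_isBounded hcl ?_
    refine (Metric.isBounded_closedBall (x := (0 : ℂ)) (r := 1 + d)).subset fun w hw => ?_
    rw [mem_closedBall, dist_zero_right]
    exact hw.2
  have hne : {w : ℂ | 1 - d ≤ ‖w‖ ∧ ‖w‖ ≤ 1 + d}.Nonempty := by
    refine ⟨1, ?_, ?_⟩ <;> rw [norm_one] <;> linarith
  have hsubA : {w : ℂ | 1 - d ≤ ‖w‖ ∧ ‖w‖ ≤ 1 + d} ⊆ {w : ℂ | AnalyticAt ℂ phi w} := by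
    intro w hw
    rcases hsub hw with h1 | h1
    · exact h1.1
    · exact h1.1
  have hcK : ContinuousOn phi {w : ℂ | 1 - d ≤ ‖w‖ ∧ ‖w‖ ≤ 1 + d} := hc1.mono hsubA
  obtain ⟨b, hb, hmax⟩ := hcp.exists_isMaxOn hne hcK.norm
  have hann : ann d ⊆ {w : ℂ | 1 - d ≤ ‖w‖ ∧ ‖w‖ ≤ 1 + d} := fun w hw => ⟨hw.1.le, hw.2.le⟩
  have hdiff : DifferentiableOn ℂ phi (ann d) := fun w hw =>
    (hsubA (hann hw)).differentiableAt.differentiableWithinAt
  have hcp' : IsCompact ({w : ℂ | 1 - d ≤ ‖w‖ ∧ ‖w‖ ≤ 1 + d} \ U) := hcp.diff hU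
  rcases ({w : ℂ | 1 - d ≤ ‖w‖ ∧ ‖w‖ ≤ 1 + d} \ U).eq_empty_or_nonempty with he | hne'
  · refine ⟨d, 1, ‖phi b‖, hd, hd1, one_pos, hdiff, fun w hw hwU => ?_, fun w hw => hmax (hann hw)⟩
    have : w ∈ ({w : ℂ | 1 - d ≤ ‖w‖ ∧ ‖w‖ ≤ 1 + d} \ U) := ⟨hann hw, hwU⟩
    rw [he] at this
    exact absurd this (notMem_empty w)
  · have hc2 : ContinuousOn (fun w => ‖phi w - l0‖) ({w : ℂ | 1 - d ≤ ‖w‖ ∧ ‖w‖ ≤ 1 + d} \ U) :=
      ((hcK.mono sdiff_subset).sub continuousOn_const).norm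
    obtain ⟨a, ha, hmin⟩ := hcp'.exists_isMinOn hne' hc2
    refine ⟨d, ‖phi a - l0‖, ‖phi b‖, hd, hd1, ?_, hdiff, fun w hw hwU => hmin ⟨hann hw, hwU⟩,
      fun w hw => hmax (hann hw)⟩
    rw [norm_pos_iff, sub_ne_zero]
    rcases hsub ha.1 with h1 | h1
    · exact absurd h1.2 ha.2
    · exact h1.2

private theorem Quot_one {d : ℝ} {f : ℂ → ℂ} (hf : DifferentiableOn ℂ f (ann d)) {a : ℂ}
    (ha : a ∉ ann d ∨ f a = 0) :
    ∃ g : ℂ → ℂ, DifferentiableOn ℂ g (ann d) ∧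
      (∀ w ∈ ann d, f w = (w - a) * g w) ∧ (a ∈ ann d → g a = deriv f a) := by
  by_cases hm : a ∈ ann d
  · have h0 : f a = 0 := ha.resolve_left (fun h => h hm)
    refine ⟨dslope f a, ?_, fun w _ => ?_, fun _ => dslope_same f a⟩
    · exact (Complex.differentiableOn_dslope ((Quot_isOpen_ann d).mem_nhds hm)).2 hf
    · have := sub_smul_dslope f a w
      rw [h0, sub_zero, smul_eq_mul] at this
      exact this.symm
  · refine ⟨fun w => f w / (w - a), ?_, fun w hw => ?_, fun h => absurd h hm⟩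
    · refine hf.div (differentiableOn_id.sub (differentiableOn_const a)) fun w hw => ?_
      rw [sub_ne_zero]
      rintro rfl
      exact hm hw
    · have : w - a ≠ 0 := by
        rw [sub_ne_zero]
        rintro rfl
        exact hm hw
      field_simp

theorem quot {d : ℝ} {f : ℂ → ℂ} (hf : DifferentiableOn ℂ f (ann d)) {a b : ℂ} (hab : a ≠ b)
    (ha : a ∉ ann d ∨ f a = 0) (hb : b ∉ ann d ∨ f b = 0) :
    ∃ g : ℂ → ℂ, DifferentiableOn ℂ g (ann d) ∧
      (∀ w ∈ ann d, f w = g w * ((w - a) * (w - b))) ∧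
      (a ∈ ann d → g a = deriv f a / (a - b)) ∧ (b ∈ ann d → g b = deriv f b / (b - a)) := by
  obtain ⟨g1, h1, h2, h3⟩ := Quot_one hf ha
  have hba : b - a ≠ 0 := sub_ne_zero.2 hab.symm
  have hab' : a - b ≠ 0 := sub_ne_zero.2 hab
  have hg1b : b ∈ ann d → g1 b = 0 := by
    intro hm
    have h0 : f b = 0 := hb.resolve_left (fun h => h hm)
    have h4 := h2 b hm
    rw [h0] at h4
    exact (mul_eq_zero.1 h4.symm).resolve_left hba
  obtain ⟨g2, k1, k2, k3⟩ := Quot_one h1 (a := b) (by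
    by_cases hm : b ∈ ann d
    · exact Or.inr (hg1b hm)
    · exact Or.inl hm)
  refine ⟨g2, k1, fun w hw => ?_, fun hm => ?_, fun hm => ?_⟩
  · rw [h2 w hw, k2 w hw]
    ring
  · have h4 := k2 a hm
    rw [h3 hm] at h4
    rw [h4]
    field_simp
  · rw [k3 hm]
    have hn : ann d ∈ nhds b := (Quot_isOpen_ann d).mem_nhds hm
    have h4 : f =ᶠ[nhds b] fun w => (w - a) * g1 w := by
      filter_upwards [hn] with w hw
      exact h2 w hw
    have h5 : HasDerivAt g1 (deriv g1 b) b := (h1.differentiableAt hn).hasDerivAt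
    have h6 : HasDerivAt (fun w => (w - a) * g1 w) (1 * g1 b + (b - a) * deriv g1 b) b :=
      ((hasDerivAt_id b).sub_const a).mul h5
    rw [h4.deriv_eq, h6.deriv, hg1b hm]
    field_simp
    ring

theorem norm_le_ann {d d' : ℝ} (hd' : 0 < d') (hdd : d' < d) (hd : d < 1) {g : ℂ → ℂ}
    (hg : DifferentiableOn ℂ g (ann d)) {M : ℝ}
    (h : ∀ w : ℂ, ‖w‖ = 1 - d' ∨ ‖w‖ = 1 + d' → ‖g w‖ ≤ M) : ∀ w ∈ ann d', ‖g w‖ ≤ M := by
  have hsub : closure (ann d') ⊆ {w : ℂ | 1 - d' ≤ ‖w‖ ∧ ‖w‖ ≤ 1 + d'} :=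
    closure_minimal (fun w hw => ⟨hw.1.le, hw.2.le⟩) (Quot_isClosed d')
  have hsub2 : {w : ℂ | 1 - d' ≤ ‖w‖ ∧ ‖w‖ ≤ 1 + d'} ⊆ ann d := by
    rintro w ⟨h1, h2⟩
    exact ⟨by linarith, by linarith⟩
  have hb : Bornology.IsBounded (ann d') := by
    refine (Metric.isBounded_closedBall (x := (0 : ℂ)) (r := 1 + d')).subset fun w hw => ?_
    rw [mem_closedBall, dist_zero_right]
    exact hw.2.le
  have hdc : DiffContOnCl ℂ g (ann d') := (hg.mono (hsub.trans hsub2)).diffContOnCl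
  intro w hw
  refine Complex.norm_le_of_forall_mem_frontier_norm_le hb hdc (fun z hz => h z ?_)
    (subset_closure hw)
  rw [(Quot_isOpen_ann d').frontier_eq] at hz
  obtain ⟨h1, h2⟩ := hsub hz.1
  by_contra hcon
  push Not at hcon
  exact hz.2 ⟨lt_of_le_of_ne h1 (Ne.symm hcon.1), lt_of_le_of_ne h2 hcon.2⟩

end Pool.Agent.TBir
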