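import Pool.Agent.TBir.KapG

/-!
# The range condition propagates

Paper proof. Let `f = P f` and let `SS` be the set of `l0` such that for all `l` in a
neighbourhood of `l0` with `l ∉ J`, `f` is in the range of `T Phi - l`. `SS` is open, and nonempty: for
`|l|` large the operator `T Phi - l` is invertible. `SS` is closed: let `l0` be in the closure.
Take local data `D` at `l0` (`exists_LD`), a frame `F` (`exists_frame`) and `rho` from the hypothesis
`ScalarAt phi P 0`. There are `l1 ∈ SS ∩ ball l0 rho` and `eps` with `ball l1 eps ⊆ ball l0 rho` such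
that for `l ∈ ball l1 eps`, `l ∉ J`: `f ∈ range (T Phi - l) ⊆ range (T (Psi l))` (`LD.fac_T`), so
`T (Psi l) (L l f) = f` for these `l`, and by density of the complement of `J` (`dense_compl_J`) and
continuity for all `l ∈ ball l1 eps`; by the identity theorem for all `l ∈ ball l0 rho`. Let
`g = L l f`, `T (Psi l) g = f`. Then `PP l g = L l (P (T (Psi l) g)) = L l (P f) = L l f = g`. Let
`l ∈ ball l0 rho`, `l ∉ J`. If `|z1 l| < 1`: `ev (z1 l) g = ev (z1 l) (PP l g) = 0`; same for `z2`. So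
`g` is in the range of `(S - z1 l)(S - z2 l)`: `|zi l| ≠ 1` (`LD.mem_J_iff`); use `div_of_ev` for a
zero in the disc and `isUnit_S_sub` for a zero outside, as in `CzIff` (`z1 l ≠ z2 l`). Hence
`f = T (Psi l) g` is in the range of `T Phi - l`. So `l0 ∈ SS`. As `ℂ` is connected, `SS` is everything.
-/

open MeasureTheory Complex Set Filter Topology Metric AddCircle
open scoped ComplexConjugate InnerProductSpace ENNReal

namespace Pool.Agent.TBir

private theorem rng_unit {a : ℂ} (ha : 1 < ‖a‖) (u : Hardy) :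
    ∃ w : Hardy, (S - a • (1 : Hardy →L[ℂ] Hardy)) w = u := by
  obtain ⟨U, hU⟩ := isUnit_S_sub ha
  refine ⟨(U⁻¹ : (Hardy →L[ℂ] Hardy)ˣ).1 u, ?_⟩
  rw [← hU]
  have := congrArg (fun B : Hardy →L[ℂ] Hardy => B u) U.mul_inv
  exact this

/-- Elements vanishing at the zeros in the disc are divisible by the two linear factors. -/
theorem LD.exists_div {phi : ℂ → ℂ} {l0 : ℂ} (D : LD phi l0) {l : ℂ} (hl : l ∈ ball l0 D.r)
    (hJ : l ∉ J phi) {g : Hardy} (h1 : ‖D.z1 l‖ < 1 → ev (D.z1 l) g = 0)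
    (h2 : ‖D.z2 l‖ < 1 → ev (D.z2 l) g = 0) :
    ∃ h : Hardy, ((S - D.z1 l • (1 : Hardy →L[ℂ] Hardy)) *
      (S - D.z2 l • (1 : Hardy →L[ℂ] Hardy))) h = g := by
  have hne := D.z_ne l hl
  have c1 : ‖D.z1 l‖ ≠ 1 := fun h => hJ ((D.mem_J_iff hl).2 (Or.inl h))
  have c2 : ‖D.z2 l‖ ≠ 1 := fun h => hJ ((D.mem_J_iff hl).2 (Or.inr h))
  obtain ⟨u, hu⟩ : ∃ u : Hardy, (S - D.z1 l • (1 : Hardy →L[ℂ] Hardy)) u = g := by
    rcases lt_or_gt_of_ne c1 with h | h
    · exact div_of_ev h (h1 h)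
    · exact rng_unit h g
  obtain ⟨w, hw⟩ : ∃ w : Hardy, (S - D.z2 l • (1 : Hardy →L[ℂ] Hardy)) w = u := by
    rcases lt_or_gt_of_ne c2 with h | h
    · apply div_of_ev h
      have h3 := h2 h
      rw [← hu, ev_S_sub h] at h3
      rcases mul_eq_zero.1 h3 with h4 | h4
      · exact absurd (sub_eq_zero.1 h4).symm hne
      · exact h4
    · exact rng_unit h u
  refine ⟨w, ?_⟩
  have : ((S - D.z1 l • (1 : Hardy →L[ℂ] Hardy)) *
      (S - D.z2 l • (1 : Hardy →L[ℂ] Hardy))) w = (S - D.z1 l • (1 : Hardy →L[ℂ] Hardy))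
        ((S - D.z2 l • (1 : Hardy →L[ℂ] Hardy)) w) := rfl
  rw [this, hw, hu]

/-- The local step. -/
private theorem rng_step {phi : ℂ → ℂ} (hphi : Normal phi) {Phi : CT}
    (hPhi : ∀ x, Phi x = phi (e x)) (hx : ∀ (l0 : ℂ) (D : LD phi l0), 0 ≤ D.x)
    {P : Hardy →L[ℂ] Hardy} (hP : P * T Phi = T Phi * P)
    (h0 : ScalarAt phi P 0) {f : Hardy} (hf : P f = f) (l0 : ℂ)
    (hl0 : ∀ eps > 0, ∃ l1 ∈ ball l0 eps, ∀ᶠ l in 𝓝 l1, l ∉ J phi →
      ∃ h : Hardy, (T Phi - l • (1 : Hardy →L[ℂ] Hardy)) h = f) :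
    ∀ᶠ l in 𝓝 l0, l ∉ J phi → ∃ h : Hardy, (T Phi - l • (1 : Hardy →L[ℂ] Hardy)) h = f := by
  obtain ⟨D⟩ := exists_LD hphi l0
  obtain ⟨F⟩ := exists_frame hPhi D (hx l0 D) hP
  obtain ⟨rho, hrho, hrs, hsc⟩ := h0 l0 D F
  obtain ⟨l1, hl1, hev⟩ := hl0 rho hrho
  have happ : ∀ l ∈ ball l0 F.s, ∀ w : Hardy, F.L l (T (D.Psi l) w) = w := fun l hl w => by
    have := congrArg (fun B : Hardy →L[ℂ] Hardy => B w) (F.left l hl)
    exact this
  have hsub : ball l0 rho ⊆ ball l0 F.s := ball_subset_ball hrs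
  have hsubr : ball l0 rho ⊆ ball l0 D.r := hsub.trans (ball_subset_ball F.s_le)
  -- the analytic function
  have hG : DifferentiableOn ℂ (fun l => T (D.Psi l) (F.L l f) - f) (ball l0 rho) :=
    ((D.T_diff.mono hsubr).clm_apply
      ((F.L_diff.mono hsub).clm_apply (differentiableOn_const f))).sub (differentiableOn_const f)
  have hGc : ContinuousOn (fun l => T (D.Psi l) (F.L l f) - f) (ball l0 rho) := hG.continuousOn
  have hzero1 : ∀ᶠ l in 𝓝 l1, l ∉ J phi → T (D.Psi l) (F.L l f) - f = 0 := by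
    filter_upwards [hev, isOpen_ball.mem_nhds hl1] with l hl hlb hJ
    obtain ⟨h, hh⟩ := hl hJ
    have hfac := D.fac_T hPhi (hsubr hlb)
    have h3 : T (D.Psi l) (((S - D.z1 l • (1 : Hardy →L[ℂ] Hardy)) *
      (S - D.z2 l • (1 : Hardy →L[ℂ] Hardy))) h) = f := by
      rw [hfac] at hh
      exact hh
    rw [← h3, happ l (hsub hlb), sub_self]
  have hzero2 : ∀ᶠ l in 𝓝 l1, T (D.Psi l) (F.L l f) - f = 0 := by
    rw [← eventually_eventually_nhds] at hzero1
    filter_upwards [hzero1, isOpen_ball.mem_nhds hl1] with l hl hlb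
    by_contra hne
    have hca : ContinuousAt (fun l => T (D.Psi l) (F.L l f) - f) l :=
      hGc.continuousAt (isOpen_ball.mem_nhds hlb)
    have hne' := hca.eventually_ne hne
    have hboth := hl.and hne'
    obtain ⟨l', hl'⟩ := (dense_compl_J hphi).exists_mem_open isOpen_interior
      ⟨l, mem_interior_iff_mem_nhds.2 hboth⟩
    obtain ⟨ha, hb⟩ := interior_subset hl'.2
    exact hb (ha hl'.1)
  have hall : ∀ l ∈ ball l0 rho, T (D.Psi l) (F.L l f) - f = 0 := by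
    have han := hG.analyticOnNhd isOpen_ball
    exact fun l hl => han.eqOn_zero_of_preconnected_of_eventuallyEq_zero
      (convex_ball l0 rho).isPreconnected hl1 hzero2 hl
  filter_upwards [isOpen_ball.mem_nhds (mem_ball_self hrho)] with l hl hJ
  have hg : T (D.Psi l) (F.L l f) = f := sub_eq_zero.1 (hall l hl)
  have hPP : F.PP l (F.L l f) = F.L l f := by
    have h3 : F.PP l (F.L l f) = F.L l (P (T (D.Psi l) (F.L l f))) := rfl
    rw [h3, hg, hf]
  obtain ⟨ha, hb⟩ := hsc l hl hJ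
  obtain ⟨h, hh⟩ := D.exists_div (hsubr hl) hJ (g := F.L l f)
    (fun hz => by rw [← hPP, ha hz, zero_mul]) (fun hz => by rw [← hPP, hb hz, zero_mul])
  refine ⟨h, ?_⟩
  rw [D.fac_T hPhi (hsubr hl)]
  have h4 : (T (D.Psi l) * ((S - D.z1 l • (1 : Hardy →L[ℂ] Hardy)) *
      (S - D.z2 l • (1 : Hardy →L[ℂ] Hardy)))) h = T (D.Psi l)
        (((S - D.z1 l • (1 : Hardy →L[ℂ] Hardy)) * (S - D.z2 l • (1 : Hardy →L[ℂ] Hardy))) h) := rfl
  rw [h4, hh, hg]

theorem mem_range_all {phi : ℂ → ℂ} (hphi : Normal phi) {Phi : CT}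
    (hPhi : ∀ x, Phi x = phi (e x)) (hx : ∀ (l0 : ℂ) (D : LD phi l0), 0 ≤ D.x)
    {P : Hardy →L[ℂ] Hardy} (hP : P * T Phi = T Phi * P)
    (h0 : ScalarAt phi P 0) {f : Hardy} (hf : P f = f) :
    ∀ l ∉ J phi, ∃ h : Hardy, (T Phi - l • (1 : Hardy →L[ℂ] Hardy)) h = f := by
  set SS : Set ℂ := {l0 | ∀ᶠ l in 𝓝 l0, l ∉ J phi →
    ∃ h : Hardy, (T Phi - l • (1 : Hardy →L[ℂ] Hardy)) h = f} with hSS
  have hopen : IsOpen SS := by
    rw [isOpen_iff_mem_nhds]
    intro l hl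
    exact eventually_eventually_nhds.2 hl
  have hclosed : IsClosed SS := by
    refine isClosed_of_closure_subset fun l0 hl0 => ?_
    refine rng_step hphi hPhi hx hP h0 hf l0 fun eps heps => ?_
    obtain ⟨l1, h1, h2⟩ := Metric.mem_closure_iff.1 hl0 eps heps
    exact ⟨l1, by rw [mem_ball, dist_comm]; exact h2, h1⟩
  have hne : SS.Nonempty := by
    obtain ⟨R, hR⟩ := wd_large hphi.ana
    have hmem : (((|R| + 1 : ℝ)) : ℂ) ∈ {l : ℂ | R < ‖l‖} := by
      rw [mem_ofPred_eq, Complex.norm_real, Real.norm_eq_abs, abs_of_pos (by positivity)]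
      linarith [le_abs_self R]
    refine ⟨((|R| + 1 : ℝ) : ℂ), ?_⟩
    have hop : IsOpen {l : ℂ | R < ‖l‖} := isOpen_lt continuous_const continuous_norm
    rw [hSS, mem_ofPred_eq]
    filter_upwards [hop.mem_nhds hmem] with l hl hJ
    obtain ⟨U, hU⟩ := isUnit_of_wd hphi.ana hPhi hJ (hR l hl).2
    refine ⟨(U⁻¹ : (Hardy →L[ℂ] Hardy)ˣ).1 f, ?_⟩
    rw [← hU]
    have := congrArg (fun B : Hardy →L[ℂ] Hardy => B f) U.mul_inv
    exact this
  have huniv : SS = univ := IsClopen.eq_univ ⟨hclosed, hopen⟩ hne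
  intro l hl
  have : l ∈ SS := by rw [huniv]; trivial
  exact this.self_of_nhds hl

end Pool.Agent.TBir
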