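import Pool.Agent.TBir.EvA

/-!
# Hilbert inequality: square integrability of the radial majorant

MODULE. Paper proof (Schur test). For `0 < t < 1`, by Cauchy-Schwarz,
`FF f t ^ 2 ≤ (sum |f_n|^2 (n+1)^(1/2) t^n) (sum (n+1)^(-1/2) t^n)`, and
`sum (n+1)^(-1/2) t^n ≤ C1 (1-t)^(-1/2)`. (Proof: `(n+1)^(-1/2) ≤ C binom-type coefficients of
(1-t)^(-1/2)`, or compare with the integral `∫ x^(-1/2) exp(-a x) dx`, `t = exp(-a)`, or
`sum (n+1)^(-1/2) t^n = pi^(-1/2) ∫_0^∞ x^(-1/2) exp(-x)/(1 - t exp(-x)) dx`.)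
Integrating, `∫_0^1 t^n (1-t)^(-1/2) dt = B(n+1, 1/2) ≤ C2 (n+1)^(-1/2)` (split at `1 - 1/(n+1)`: on
`(1 - 1/(n+1), 1)` it is at most `∫ (1-t)^(-1/2) = 2 (n+1)^(-1/2)`, on the rest
`(1-t)^(-1/2) ≤ (n+1)^(1/2)` and `∫ t^n ≤ 1/(n+1)`). So `∫_0^1 FF f t ^ 2 dt ≤ C1 C2 sum |f_n|^2`.
(Any other proof of Hilbert's inequality `sum sum |f_n||f_m|/(n+m+1) ≤ C ‖f‖^2` may be used.)
-/

open MeasureTheory Complex Set Filter Topology Metric AddCircle
open scoped ComplexConjugate InnerProductSpace ENNReal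

namespace Pool.Agent.TBir

/-- one term of the telescoping bound -/
private theorem schur_term (n m : ℕ) :
    1 / (√((m : ℝ) + 1) * ((n : ℝ) + m + 1)) ≤
      8 * (1 / (√((n : ℝ) + 1) + √(m : ℝ)) - 1 / (√((n : ℝ) + 1) + √((m : ℝ) + 1))) := by
  have hn : (0 : ℝ) ≤ n := Nat.cast_nonneg n
  have hm : (0 : ℝ) ≤ m := Nat.cast_nonneg m
  have hp2 : √((n : ℝ) + 1) ^ 2 = n + 1 := Real.sq_sqrt (by positivity)
  have hq2 : √((m : ℝ) + 1) ^ 2 = m + 1 := Real.sq_sqrt (by positivity)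
  have hr2 : √(m : ℝ) ^ 2 = m := Real.sq_sqrt hm
  have hp : 0 < √((n : ℝ) + 1) := Real.sqrt_pos.2 (by positivity)
  have hq : 0 < √((m : ℝ) + 1) := Real.sqrt_pos.2 (by positivity)
  have hr : 0 ≤ √(m : ℝ) := Real.sqrt_nonneg _
  have hrq : √(m : ℝ) ≤ √((m : ℝ) + 1) := Real.sqrt_le_sqrt (by linarith)
  generalize √((n : ℝ) + 1) = p at *
  generalize √((m : ℝ) + 1) = q at *
  generalize √(m : ℝ) = r at *
  have hd : (0 : ℝ) < (n : ℝ) + m + 1 := by positivity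
  have h1 : 1 / (p + r) - 1 / (p + q) = (q - r) / ((p + r) * (p + q)) := by
    field_simp
    ring
  have h2 : q - r = 1 / (q + r) := by
    rw [eq_div_iff (by positivity)]
    nlinarith
  rw [h1, h2, div_div, ← mul_div_assoc, mul_one, div_le_div_iff₀ (by positivity) (by positivity),
    one_mul]
  have h3 : q + r ≤ 2 * q := by linarith
  have h4 : (p + r) * (p + q) ≤ (p + q) ^ 2 := by
    rw [pow_two]
    exact mul_le_mul_of_nonneg_right (by linarith) (by positivity)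
  have h5 : (p + q) ^ 2 ≤ 2 * ((n + 1) + (m + 1)) := by
    rw [← hp2, ← hq2]
    nlinarith [sq_nonneg (p - q)]
  have h6 : (p + r) * (p + q) ≤ 4 * (n + m + 1) := by linarith
  calc (q + r) * ((p + r) * (p + q)) ≤ (2 * q) * (4 * (n + m + 1)) :=
        mul_le_mul h3 h6 (by positivity) (by positivity)
    _ = 8 * (q * (n + m + 1)) := by ring

private theorem schur_sum (n N : ℕ) :
    ∑ m ∈ Finset.range N, 1 / (√((m : ℝ) + 1) * ((n : ℝ) + m + 1)) ≤ 8 / √((n : ℝ) + 1) := by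
  have key : ∑ m ∈ Finset.range N, 1 / (√((m : ℝ) + 1) * ((n : ℝ) + m + 1)) ≤
      8 * (1 / √((n : ℝ) + 1) - 1 / (√((n : ℝ) + 1) + √(N : ℝ))) := by
    induction N with
    | zero => simp
    | succ N ih =>
      rw [Finset.sum_range_succ]
      have h := schur_term n N
      push_cast
      linarith
  have h1 : 0 ≤ 1 / (√((n : ℝ) + 1) + √(N : ℝ)) := by positivity
  have h2 : 8 / √((n : ℝ) + 1) = 8 * (1 / √((n : ℝ) + 1)) := by ring
  rw [h2]
  linarith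

private theorem schur_amgm (n m : ℕ) (a b : ℝ) :
    a * b * (1 / ((n : ℝ) + m + 1)) ≤
      a ^ 2 * √((n : ℝ) + 1) * (1 / (√((m : ℝ) + 1) * ((n : ℝ) + m + 1))) +
      b ^ 2 * √((m : ℝ) + 1) * (1 / (√((n : ℝ) + 1) * ((m : ℝ) + n + 1))) := by
  have hp : 0 < √((n : ℝ) + 1) := Real.sqrt_pos.2 (by positivity)
  have hq : 0 < √((m : ℝ) + 1) := Real.sqrt_pos.2 (by positivity)
  generalize √((n : ℝ) + 1) = p at *
  generalize √((m : ℝ) + 1) = q at *
  have hd : (0 : ℝ) < (n : ℝ) + m + 1 := by positivity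
  have e1 : (m : ℝ) + n + 1 = n + m + 1 := by ring
  rw [e1]
  have e2 : a ^ 2 * p * (1 / (q * ((n : ℝ) + m + 1))) + b ^ 2 * q * (1 / (p * ((n : ℝ) + m + 1))) -
      a * b * (1 / ((n : ℝ) + m + 1)) =
      ((a * p) ^ 2 + (b * q) ^ 2 - (a * p) * (b * q)) / (p * q * ((n : ℝ) + m + 1)) := by
    field_simp
  have e3 : 0 ≤ ((a * p) ^ 2 + (b * q) ^ 2 - (a * p) * (b * q)) / (p * q * ((n : ℝ) + m + 1)) := by
    apply div_nonneg _ (by positivity)
    nlinarith [sq_nonneg (a * p - b * q), sq_nonneg (a * p + b * q)]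
  linarith

private theorem schur_int (k : ℕ) :
    ∫⁻ t in Ioo (0 : ℝ) 1, ENNReal.ofReal (t ^ k) = ENNReal.ofReal (1 / ((k : ℝ) + 1)) := by
  have h1 : ∫ t in Ioo (0 : ℝ) 1, t ^ k = 1 / ((k : ℝ) + 1) := by
    rw [← integral_Ioc_eq_integral_Ioo, ← intervalIntegral.integral_of_le zero_le_one,
      integral_pow]
    simp
  rw [← h1, ofReal_integral_eq_lintegral_ofReal]
  · have : IntegrableOn (fun t : ℝ => t ^ k) (Icc 0 1) :=
      (continuous_pow k).continuousOn.integrableOn_Icc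
    exact this.mono_set Ioo_subset_Icc_self
  · filter_upwards [self_mem_ae_restrict measurableSet_Ioo] with t ht
    exact pow_nonneg ht.1.le k

theorem FF_sq : ∃ C : ℝ, 0 < C ∧ ∀ f : Hardy,
    ∫⁻ t in Ioo (0 : ℝ) 1, ENNReal.ofReal (FF f t ^ 2) ≤ ENNReal.ofReal (C * ‖f‖ ^ 2) := by
  refine ⟨16, by norm_num, fun f => ?_⟩
  have hmeas : ∀ k : ℕ, Measurable fun t : ℝ => ENNReal.ofReal (t ^ k) := fun k =>
    (measurable_id.pow_const k).ennreal_ofReal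
  have h1 : ∀ t ∈ Ioo (0 : ℝ) 1, ENNReal.ofReal (FF f t ^ 2) =
      ∑' n : ℕ, ∑' m : ℕ, ENNReal.ofReal (‖co f n‖ * ‖co f m‖) * ENNReal.ofReal (t ^ (n + m)) := by
    intro t ht
    have h2 : ENNReal.ofReal (FF f t) = ∑' n : ℕ, ENNReal.ofReal (‖co f n‖ * t ^ n) := by
      unfold FF
      rw [ENNReal.ofReal_tsum_of_nonneg _ (summable_FF f ht.1.le ht.2)]
      intro n
      have := ht.1.le
      positivity
    rw [ENNReal.ofReal_pow (FF_nonneg f ht.1.le), h2, pow_two, ← ENNReal.tsum_mul_right]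
    refine tsum_congr fun n => ?_
    rw [← ENNReal.tsum_mul_left]
    refine tsum_congr fun m => ?_
    have ht0 := ht.1.le
    rw [← ENNReal.ofReal_mul (by positivity), ← ENNReal.ofReal_mul (by positivity)]
    congr 1
    rw [pow_add]
    ring
  rw [setLIntegral_congr_fun measurableSet_Ioo h1]
  rw [lintegral_tsum (fun n => by
    refine AEMeasurable.tsum fun m => ?_
    exact ((hmeas (n + m)).const_mul _).aemeasurable)]
  have h3 : ∀ n : ℕ, ∫⁻ t in Ioo (0 : ℝ) 1, ∑' m : ℕ, ENNReal.ofReal (‖co f n‖ * ‖co f m‖) *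
      ENNReal.ofReal (t ^ (n + m)) =
      ∑' m : ℕ, ENNReal.ofReal (‖co f n‖ * ‖co f m‖ * (1 / ((n : ℝ) + m + 1))) := by
    intro n
    rw [lintegral_tsum (fun m => ((hmeas (n + m)).const_mul _).aemeasurable)]
    refine tsum_congr fun m => ?_
    rw [lintegral_const_mul _ (hmeas (n + m)), schur_int,
      ← ENNReal.ofReal_mul (by positivity)]
    push_cast
    rfl
  rw [tsum_congr h3]
  have h4 : ∀ n m : ℕ, ENNReal.ofReal (‖co f n‖ * ‖co f m‖ * (1 / ((n : ℝ) + m + 1))) ≤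
      ENNReal.ofReal (‖co f n‖ ^ 2 * √((n : ℝ) + 1) *
        (1 / (√((m : ℝ) + 1) * ((n : ℝ) + m + 1)))) +
      ENNReal.ofReal (‖co f m‖ ^ 2 * √((m : ℝ) + 1) *
        (1 / (√((n : ℝ) + 1) * ((m : ℝ) + n + 1)))) := by
    intro n m
    rw [← ENNReal.ofReal_add (by positivity) (by positivity)]
    exact ENNReal.ofReal_le_ofReal (schur_amgm n m _ _)
  have h5 : ∑' n : ℕ, ∑' m : ℕ, ENNReal.ofReal (‖co f n‖ ^ 2 * √((n : ℝ) + 1) *
      (1 / (√((m : ℝ) + 1) * ((n : ℝ) + m + 1)))) ≤ ENNReal.ofReal (8 * ‖f‖ ^ 2) := by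
    have h6 : ∀ n : ℕ, ∑' m : ℕ, ENNReal.ofReal (‖co f n‖ ^ 2 * √((n : ℝ) + 1) *
        (1 / (√((m : ℝ) + 1) * ((n : ℝ) + m + 1)))) ≤ ENNReal.ofReal (8 * ‖co f n‖ ^ 2) := by
      intro n
      refine ENNReal.tsum_le_of_sum_range_le fun N => ?_
      rw [← ENNReal.ofReal_sum_of_nonneg (fun m _ => by positivity), ← Finset.mul_sum]
      apply ENNReal.ofReal_le_ofReal
      have hp : 0 < √((n : ℝ) + 1) := Real.sqrt_pos.2 (by positivity)
      calc ‖co f n‖ ^ 2 * √((n : ℝ) + 1) *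
            ∑ m ∈ Finset.range N, 1 / (√((m : ℝ) + 1) * ((n : ℝ) + m + 1))
          ≤ ‖co f n‖ ^ 2 * √((n : ℝ) + 1) * (8 / √((n : ℝ) + 1)) :=
            mul_le_mul_of_nonneg_left (schur_sum n N) (by positivity)
        _ = 8 * ‖co f n‖ ^ 2 := by
            field_simp
    refine (ENNReal.tsum_le_tsum h6).trans ?_
    have h7 := (hasSum_sq_co f).mul_left 8
    rw [← ENNReal.ofReal_tsum_of_nonneg (fun n => by positivity) h7.summable, h7.tsum_eq]
  calc ∑' n : ℕ, ∑' m : ℕ, ENNReal.ofReal (‖co f n‖ * ‖co f m‖ * (1 / ((n : ℝ) + m + 1)))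
      ≤ ∑' n : ℕ, ∑' m : ℕ, (ENNReal.ofReal (‖co f n‖ ^ 2 * √((n : ℝ) + 1) *
        (1 / (√((m : ℝ) + 1) * ((n : ℝ) + m + 1)))) +
      ENNReal.ofReal (‖co f m‖ ^ 2 * √((m : ℝ) + 1) *
        (1 / (√((n : ℝ) + 1) * ((m : ℝ) + n + 1))))) :=
        ENNReal.tsum_le_tsum fun n => ENNReal.tsum_le_tsum fun m => h4 n m
    _ = ∑' n : ℕ, ∑' m : ℕ, ENNReal.ofReal (‖co f n‖ ^ 2 * √((n : ℝ) + 1) *
        (1 / (√((m : ℝ) + 1) * ((n : ℝ) + m + 1)))) +
        ∑' n : ℕ, ∑' m : ℕ, ENNReal.ofReal (‖co f m‖ ^ 2 * √((m : ℝ) + 1) *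
        (1 / (√((n : ℝ) + 1) * ((m : ℝ) + n + 1)))) := by
        rw [← ENNReal.tsum_add]
        exact tsum_congr fun n => ENNReal.tsum_add
    _ ≤ ENNReal.ofReal (8 * ‖f‖ ^ 2) + ENNReal.ofReal (8 * ‖f‖ ^ 2) := by
        refine add_le_add h5 ?_
        rw [ENNReal.tsum_comm]
        exact h5
    _ = ENNReal.ofReal (16 * ‖f‖ ^ 2) := by
        rw [← ENNReal.ofReal_add (by positivity) (by positivity)]
        congr 1
        ring

end Pool.Agent.TBir
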