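import Mathlib

/-!
# Completely irreducible Toeplitz operators: the definitions of the statement
-/

open MeasureTheory Complex Set Metric AddCircle
open scoped ComplexConjugate

namespace Pool.Agent.TBir

/-- The point `exp (2 pi i x)` of the unit circle. -/
noncomputable def e (x : UnitAddCircle) : ℂ := (toCircle x : ℂ)

/-- `L^2` of the circle, for the normalised arc length measure. -/
abbrev L2 : Type := Lp ℂ 2 (haarAddCircle (T := (1 : ℝ)))

/-- The Hardy space: the functions of `L2` whose Fourier coefficients of negative index vanish. -/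
noncomputable def H2 : Submodule ℂ L2 where
  carrier := {f | ∀ n : ℤ, n < 0 → fourierCoeff (f : UnitAddCircle → ℂ) n = 0}
  zero_mem' := by
    intro n _
    rw [← fourierBasis_repr, map_zero]; rfl
  add_mem' := by
    intro f g hf hg n hn
    have h1 := hf n hn
    have h2 := hg n hn
    rw [← fourierBasis_repr] at h1 h2 ⊢
    rw [map_add]
    change (fourierBasis.repr f) n + (fourierBasis.repr g) n = 0
    rw [h1, h2, add_zero]
  smul_mem' := by
    intro c f hf n hn
    have h1 := hf n hn
    rw [← fourierBasis_repr] at h1 ⊢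
    rw [map_smul]
    change c • (fourierBasis.repr f) n = 0
    rw [h1, smul_zero]

/-- `g = T_phi f`, that is, `f` and `g` are in the Hardy space and `g = P (phi f)`, where `P` is the
orthogonal projection of `L2` onto the Hardy space: `g` and the product `phi f` have the same Fourier
coefficients of nonnegative index. -/
def IsToeplitz (phi : ℂ → ℂ) (f g : L2) : Prop :=
  f ∈ H2 ∧ g ∈ H2 ∧ ∀ n : ℤ, 0 ≤ n → fourierCoeff (g : UnitAddCircle → ℂ) n =
    fourierCoeff (fun x => phi (e x) * (f : UnitAddCircle → ℂ) x) n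

/-- Let `R f g` mean `g = T f` for an operator `T` on the closed subspace `H` of `E`. The operator `T`
is completely irreducible (BIR): `H` is not the direct sum of two closed `T`-invariant subspaces, both
different from the null space. -/
def BIR {E : Type} [NormedAddCommGroup E] [NormedSpace ℂ E] (H : Submodule ℂ E)
    (R : E → E → Prop) : Prop :=
  ∀ M N : Submodule ℂ E, M ≤ H → N ≤ H → IsClosed (M : Set E) → IsClosed (N : Set E) →
    (∀ f g, f ∈ M → R f g → g ∈ M) → (∀ f g, f ∈ N → R f g → g ∈ N) →
    M ⊓ N = ⊥ → M ⊔ N = H → M = ⊥ ∨ N = ⊥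

/-- `(2 pi i)⁻¹ ∮ psi'(w) / psi(w) dw` over the unit circle: the winding number of `psi` around the
origin. -/
noncomputable def wind (psi : ℂ → ℂ) : ℂ :=
  (2 * Real.pi * I)⁻¹ * ∮ w in C(0, 1), deriv psi w / psi w

/-- `phi` is analytic in a neighbourhood of the unit circle and `phi(circle)` is a normal curve:
`phi'` has no zero on the circle, no value is taken three times, and at a double point the two
branches are transversal. -/
structure Normal (phi : ℂ → ℂ) : Prop where
  ana : AnalyticOnNhd ℂ phi (sphere 0 1)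
  der : ∀ z ∈ sphere (0 : ℂ) 1, deriv phi z ≠ 0
  triple : ∀ z1 ∈ sphere (0 : ℂ) 1, ∀ z2 ∈ sphere (0 : ℂ) 1, ∀ z3 ∈ sphere (0 : ℂ) 1,
    phi z1 = phi z2 → phi z2 = phi z3 → z1 = z2 ∨ z2 = z3 ∨ z1 = z3
  trans : ∀ z1 ∈ sphere (0 : ℂ) 1, ∀ z2 ∈ sphere (0 : ℂ) 1, z1 ≠ z2 → phi z1 = phi z2 →
    ((z1 * deriv phi z1) * conj (z2 * deriv phi z2)).im ≠ 0

end Pool.Agent.TBir
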