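import Pool.Agent.TBir.EvA

/-!
# The sequence estimate

MODULE. Paper proof. Put `A m = sum_{j ≤ m} bp_j v^(m-j)`, `G = ev (conj v) g = sum g_n conj v^n`,
`F = ev z f`. Since `|bp_j| |v|^(-j) ≤ C exp(-eta j/2)`, the sum `E = sum_j bp_j v^(-j)` converges,
`|E| ≤ C/(1 - exp(-eta/2))`, and
`A m = v^m (E - sum_{j > m} bp_j v^(-j))`, with
`|v^m sum_{j > m} bp_j v^(-j)| ≤ C sum_{j > m} exp(-eta j) exp(eta (j-m)/2) ≤ C2 exp(-eta m)`.
So `sum_n A(n+k+1) conj g_n = E v^(k+1) conj G + e_k` with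
`|e_k| ≤ C2 exp(-eta (k+1)) sum_n exp(-eta n) |g_n| ≤ C3 exp(-eta k) ‖g‖` (Cauchy-Schwarz,
`hasSum_sq_co`; or `|g_n| ≤ ‖g‖`). In the same way
`sum_n Dd(n+k+1) f_n = E' z^(k+1) F + e'_k`. The sum over `k` of the products is
`E E' conj G F * (z v)/(1 - z v) + E conj G sum v^(k+1) e'_k + E' F sum z^(k+1) e_k + sum e_k e'_k`,
and `|z v / (1 - z v)| ≤ 1/c`. So it is at most `K (|F| + ‖f‖)(|G| + ‖g‖)`. All series converge
absolutely.
-/

open MeasureTheory Complex Set Filter Topology Metric AddCircle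
open scoped ComplexConjugate InnerProductSpace ENNReal

namespace Pool.Agent.TBir

/-- one factor of the double series -/
theorem seqE_side {C q : ℝ} (hC : 0 < C) (hq0 : 0 < q) (hq1 : q < 1) (b : ℕ → ℂ)
    (hb : ∀ j, ‖b j‖ ≤ C * q ^ (2 * j)) (v : ℂ) (hv1 : ‖v‖ < 1) (hv : q ≤ ‖v‖) (γ : ℕ → ℂ)
    (B : ℝ) (hB : 0 ≤ B) (hγ : ∀ n, ‖γ n‖ ≤ B) :
    ∃ E : ℂ, ∃ e : ℕ → ℂ, ‖E‖ ≤ C / (1 - q) ∧
      (∀ k, ‖e k‖ ≤ C / (1 - q) / (1 - q) * B * q ^ k) ∧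
      ∀ k, ∑' n : ℕ, (∑ j ∈ Finset.range (n + k + 1 + 1), b j * v ^ (n + k + 1 - j)) * γ n
        = E * v ^ (k + 1) * (∑' n : ℕ, γ n * v ^ n) - e k := by
  have hvpos : 0 < ‖v‖ := lt_of_lt_of_le hq0 hv
  have hv0 : v ≠ 0 := norm_pos_iff.mp hvpos
  have h1q : 0 < 1 - q := by linarith
  have hgeo : Summable fun i : ℕ => q ^ i := summable_geometric_of_lt_one hq0.le hq1
  have hgeoS : ∑' i : ℕ, q ^ i = (1 - q)⁻¹ := tsum_geometric_of_lt_one hq0.le hq1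
  have hvinv : ∀ j : ℕ, ‖(v⁻¹) ^ j‖ ≤ (q⁻¹) ^ j := by
    intro j
    rw [norm_pow, norm_inv]
    exact pow_le_pow_left₀ (by positivity) (inv_anti₀ hq0 hv) j
  -- the terms of E
  have ht : ∀ j, ‖b j * (v⁻¹) ^ j‖ ≤ C * q ^ j := by
    intro j
    rw [norm_mul]
    calc ‖b j‖ * ‖(v⁻¹) ^ j‖ ≤ (C * q ^ (2 * j)) * (q⁻¹) ^ j :=
          mul_le_mul (hb j) (hvinv j) (norm_nonneg _) (by positivity)
      _ = C * q ^ j := by
          rw [two_mul, pow_add, inv_pow]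
          field_simp
  have hCs : Summable fun j : ℕ => C * q ^ j := hgeo.mul_left C
  have hEs : Summable fun j => b j * (v⁻¹) ^ j := Summable.of_norm_bounded hCs ht
  set E : ℂ := ∑' j, b j * (v⁻¹) ^ j with hE
  have hEn : ‖E‖ ≤ C / (1 - q) := by
    refine (tsum_of_norm_bounded (hCs.hasSum) ht).trans ?_
    rw [tsum_mul_left, hgeoS, div_eq_mul_inv]
  -- the tails
  set R : ℕ → ℂ := fun m => v ^ m * ∑' i : ℕ, b (i + (m + 1)) * (v⁻¹) ^ (i + (m + 1)) with hR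
  have hRn : ∀ m, ‖R m‖ ≤ C / (1 - q) * q ^ (2 * m) := by
    intro m
    have h1 : R m = ∑' i : ℕ, b (i + (m + 1)) * (v⁻¹) ^ (i + 1) := by
      rw [hR]
      simp only
      rw [← tsum_mul_left]
      refine tsum_congr (fun i => ?_)
      have : (v⁻¹) ^ (i + (m + 1)) = (v⁻¹) ^ (i + 1) * (v⁻¹) ^ m := by
        rw [← pow_add]; congr 1; ring
      rw [this]
      have h2 : v ^ m * (v⁻¹) ^ m = 1 := by
        rw [← mul_pow, mul_inv_cancel₀ hv0, one_pow]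
      calc v ^ m * (b (i + (m + 1)) * ((v⁻¹) ^ (i + 1) * (v⁻¹) ^ m))
          = b (i + (m + 1)) * (v⁻¹) ^ (i + 1) * (v ^ m * (v⁻¹) ^ m) := by ring
        _ = _ := by rw [h2, mul_one]
    have h2 : ∀ i : ℕ, ‖b (i + (m + 1)) * (v⁻¹) ^ (i + 1)‖ ≤ (C * q ^ (2 * m)) * q ^ i := by
      intro i
      rw [norm_mul]
      calc ‖b (i + (m + 1))‖ * ‖(v⁻¹) ^ (i + 1)‖
          ≤ (C * q ^ (2 * (i + (m + 1)))) * (q⁻¹) ^ (i + 1) :=
            mul_le_mul (hb _) (hvinv _) (norm_nonneg _) (by positivity)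
        _ = (C * q ^ (2 * m)) * q ^ (i + 1) := by
            have : 2 * (i + (m + 1)) = 2 * m + (i + 1) + (i + 1) := by ring
            rw [this, pow_add, pow_add, inv_pow]
            field_simp
        _ ≤ (C * q ^ (2 * m)) * q ^ i := by
            refine mul_le_mul_of_nonneg_left ?_ (by positivity)
            exact pow_le_pow_of_le_one hq0.le hq1.le (Nat.le_succ i)
    rw [h1]
    refine (tsum_of_norm_bounded ((hgeo.mul_left (C * q ^ (2 * m))).hasSum) h2).trans ?_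
    rw [tsum_mul_left, hgeoS]
    apply le_of_eq
    field_simp
  have hA : ∀ m, (∑ j ∈ Finset.range (m + 1), b j * v ^ (m - j)) = v ^ m * E - R m := by
    intro m
    have h1 := hEs.sum_add_tsum_nat_add (m + 1)
    rw [← hE] at h1
    rw [hR]
    simp only
    rw [← h1, mul_add, add_sub_cancel_right, Finset.mul_sum]
    refine Finset.sum_congr rfl (fun j hj => ?_)
    have hjm : j ≤ m := Nat.lt_succ_iff.mp (Finset.mem_range.mp hj)
    have h3 : v ^ m = v ^ (m - j) * v ^ j := by rw [← pow_add, Nat.sub_add_cancel hjm]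
    have h2 : v ^ j * (v⁻¹) ^ j = 1 := by
      rw [← mul_pow, mul_inv_cancel₀ hv0, one_pow]
    rw [h3]
    calc b j * v ^ (m - j) = b j * v ^ (m - j) * (v ^ j * (v⁻¹) ^ j) := by rw [h2, mul_one]
      _ = _ := by ring
  -- summability of the series in n
  have hΓs : Summable fun n => γ n * v ^ n := by
    refine Summable.of_norm_bounded
      (g := fun n => B * ‖v‖ ^ n) ((summable_geometric_of_lt_one (norm_nonneg _) hv1).mul_left B)
      (fun n => ?_)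
    rw [norm_mul, norm_pow]
    exact mul_le_mul_of_nonneg_right (hγ n) (by positivity)
  have hRγ : ∀ k n, ‖R (n + k + 1) * γ n‖ ≤ (C / (1 - q) * B * q ^ k) * q ^ n := by
    intro k n
    rw [norm_mul]
    calc ‖R (n + k + 1)‖ * ‖γ n‖ ≤ (C / (1 - q) * q ^ (2 * (n + k + 1))) * B :=
          mul_le_mul (hRn _) (hγ n) (norm_nonneg _) (by positivity)
      _ = (C / (1 - q) * B) * q ^ (2 * (n + k + 1)) := by ring
      _ ≤ (C / (1 - q) * B) * q ^ (k + n) := by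
          refine mul_le_mul_of_nonneg_left ?_ (by positivity)
          exact pow_le_pow_of_le_one hq0.le hq1.le (by omega)
      _ = _ := by rw [pow_add]; ring
  have hRs : ∀ k, Summable fun n => R (n + k + 1) * γ n := fun k =>
    Summable.of_norm_bounded (hgeo.mul_left (C / (1 - q) * B * q ^ k)) (hRγ k)
  refine ⟨E, fun k => ∑' n, R (n + k + 1) * γ n, hEn, fun k => ?_, fun k => ?_⟩
  · refine (tsum_of_norm_bounded ((hgeo.mul_left (C / (1 - q) * B * q ^ k)).hasSum)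
      (hRγ k)).trans ?_
    rw [tsum_mul_left, hgeoS]
    apply le_of_eq
    field_simp
  · have h1 : (fun n : ℕ => (∑ j ∈ Finset.range (n + k + 1 + 1), b j * v ^ (n + k + 1 - j)) * γ n)
        = fun n => (E * v ^ (k + 1)) * (γ n * v ^ n) - R (n + k + 1) * γ n := by
      funext n
      rw [hA]
      have : v ^ (n + k + 1) = v ^ (k + 1) * v ^ n := by
        rw [← pow_add]; congr 1; ring
      rw [this]; ring
    rw [h1, (hΓs.mul_left (E * v ^ (k + 1))).tsum_sub (hRs k), tsum_mul_left]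

theorem seqE_co_le (g : Hardy) (n : ℕ) : ‖co g n‖ ≤ ‖g‖ := by
  rw [← coL_apply]
  calc ‖coL n g‖ ≤ ‖coL n‖ * ‖g‖ := (coL n).le_opNorm g
    _ ≤ 1 * ‖g‖ := mul_le_mul_of_nonneg_right (norm_coL_le n) (norm_nonneg _)
    _ = ‖g‖ := one_mul _

theorem seqE_dec {C eta : ℝ} {b : ℕ → ℂ} (h : Dec C eta b) (j : ℕ) :
    ‖b j‖ ≤ C * Real.exp (-(eta / 2)) ^ (2 * j) := by
  have h1 := h j
  have h2 : Real.exp (-(eta / 2)) ^ (2 * j) = Real.exp (-(eta * j)) := by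
    rw [← Real.exp_nat_mul]
    congr 1
    push_cast
    ring
  rw [h2]
  exact h1

theorem seq_est {C eta c : ℝ} (hC : 0 < C) (heta : 0 < eta) (hc : 0 < c) :
    ∃ K : ℝ, 0 < K ∧ ∀ bp bm : ℕ → ℂ, Dec C eta bp → Dec C eta bm → ∀ z v : ℂ,
      ‖z‖ < 1 → ‖v‖ < 1 → Real.exp (-(eta / 2)) ≤ ‖z‖ → Real.exp (-(eta / 2)) ≤ ‖v‖ →
      c ≤ ‖1 - z * v‖ → ∀ f g : Hardy,
      ‖∑' k : ℕ,
        (∑' n : ℕ, (∑ j ∈ Finset.range (n + k + 1 + 1), bp j * v ^ (n + k + 1 - j)) *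
          conj (co g n)) *
        (∑' n : ℕ, (∑ j ∈ Finset.range (n + k + 1 + 1), bm j * z ^ (n + k + 1 - j)) *
          co f n)‖ ≤
        K * (‖ev z f‖ + ‖f‖) * (‖ev (conj v) g‖ + ‖g‖) := by
  set q : ℝ := Real.exp (-(eta / 2)) with hq
  have hq0 : 0 < q := Real.exp_pos _
  have hq1 : q < 1 := by
    rw [hq, Real.exp_lt_one_iff]
    linarith
  have h1q : 0 < 1 - q := by linarith
  have hgeo : Summable fun i : ℕ => q ^ i := summable_geometric_of_lt_one hq0.le hq1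
  have hgeoS : ∑' i : ℕ, q ^ i = (1 - q)⁻¹ := tsum_geometric_of_lt_one hq0.le hq1
  set M : ℝ := C / (1 - q) with hM
  set M2 : ℝ := C / (1 - q) / (1 - q) with hM2
  have hMp : 0 < M := by positivity
  have hM2p : 0 < M2 := by positivity
  set K : ℝ := M * M * c⁻¹ + M * M2 * (1 - q)⁻¹ + M2 * M2 * (1 - q)⁻¹ with hK
  have hKp : 0 < K := by positivity
  refine ⟨K, hKp, ?_⟩
  intro bp bm hbp hbm z v hz1 hv1 hz hv hzv f g
  obtain ⟨E, e, hE, he, hS⟩ := seqE_side hC hq0 hq1 bp (seqE_dec hbp) v hv1 hv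
    (fun n => conj (co g n)) ‖g‖ (norm_nonneg _) (fun n => by
      rw [RCLike.norm_conj]; exact seqE_co_le g n)
  obtain ⟨E', e', hE', he', hS'⟩ := seqE_side hC hq0 hq1 bm (seqE_dec hbm) z hz1 hz
    (fun n => co f n) ‖f‖ (norm_nonneg _) (fun n => seqE_co_le f n)
  have hF : ∑' n : ℕ, co f n * z ^ n = ev z f := (hasSum_ev hz1 f).tsum_eq
  have hvc : ‖(conj v : ℂ)‖ < 1 := by rw [RCLike.norm_conj]; exact hv1
  have hG : ∑' n : ℕ, conj (co g n) * v ^ n = conj (ev (conj v) g) := by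
    have h1 := (Complex.hasSum_conj').mpr (hasSum_ev hvc g)
    have h2 : (fun n => conj (co g n * (conj v) ^ n)) = fun n => conj (co g n) * v ^ n := by
      funext n
      rw [map_mul, map_pow, Complex.conj_conj]
    rw [h2] at h1
    exact h1.tsum_eq
  set F : ℂ := ev z f with hFd
  set Γ : ℂ := conj (ev (conj v) g) with hGd
  have hΓn : ‖Γ‖ = ‖ev (conj v) g‖ := by rw [hGd, RCLike.norm_conj]
  rw [← hΓn]
  simp_rw [hS, hS', hF, hG]
  have hzvn : ‖v * z‖ < 1 := by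
    rw [norm_mul]
    calc ‖v‖ * ‖z‖ ≤ 1 * ‖z‖ := mul_le_mul_of_nonneg_right hv1.le (norm_nonneg _)
      _ = ‖z‖ := one_mul _
      _ < 1 := hz1
  have hpow1 : ∀ (w : ℂ), ‖w‖ < 1 → ∀ k : ℕ, ‖w ^ k‖ ≤ 1 := by
    intro w hw k
    rw [norm_pow]
    exact pow_le_one₀ (norm_nonneg _) hw.le
  have hqk : ∀ k : ℕ, q ^ k ≤ 1 := fun k => pow_le_one₀ hq0.le hq1.le
  -- the four series
  have b2 : ∀ k, ‖v ^ (k + 1) * e' k‖ ≤ (M2 * ‖f‖) * q ^ k := by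
    intro k
    rw [norm_mul]
    calc ‖v ^ (k + 1)‖ * ‖e' k‖ ≤ 1 * (M2 * ‖f‖ * q ^ k) :=
          mul_le_mul (hpow1 v hv1 _) (he' k) (norm_nonneg _) zero_le_one
      _ = _ := one_mul _
  have b3 : ∀ k, ‖z ^ (k + 1) * e k‖ ≤ (M2 * ‖g‖) * q ^ k := by
    intro k
    rw [norm_mul]
    calc ‖z ^ (k + 1)‖ * ‖e k‖ ≤ 1 * (M2 * ‖g‖ * q ^ k) :=
          mul_le_mul (hpow1 z hz1 _) (he k) (norm_nonneg _) zero_le_one
      _ = _ := one_mul _
  have b4 : ∀ k, ‖e k * e' k‖ ≤ (M2 * M2 * ‖f‖ * ‖g‖) * q ^ k := by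
    intro k
    rw [norm_mul]
    calc ‖e k‖ * ‖e' k‖ ≤ (M2 * ‖g‖ * q ^ k) * (M2 * ‖f‖ * 1) := by
          refine mul_le_mul (he k) ((he' k).trans ?_) (norm_nonneg _) (by positivity)
          exact mul_le_mul_of_nonneg_left (hqk k) (by positivity)
      _ = _ := by ring
  have s1 : Summable fun k : ℕ => (v * z) ^ k := summable_geometric_of_norm_lt_one hzvn
  have s2 : Summable fun k => v ^ (k + 1) * e' k :=
    Summable.of_norm_bounded (hgeo.mul_left (M2 * ‖f‖)) b2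
  have s3 : Summable fun k => z ^ (k + 1) * e k :=
    Summable.of_norm_bounded (hgeo.mul_left (M2 * ‖g‖)) b3
  have s4 : Summable fun k => e k * e' k :=
    Summable.of_norm_bounded (hgeo.mul_left (M2 * M2 * ‖f‖ * ‖g‖)) b4
  have hexp : (fun k : ℕ => (E * v ^ (k + 1) * Γ - e k) * (E' * z ^ (k + 1) * F - e' k))
      = fun k => ((E * E' * Γ * F * (v * z)) * (v * z) ^ k + e k * e' k)
          - ((E * Γ) * (v ^ (k + 1) * e' k) + (E' * F) * (z ^ (k + 1) * e k)) := by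
    funext k
    have h1 : (v * z) * (v * z) ^ k = v ^ (k + 1) * z ^ (k + 1) := by
      rw [← pow_succ', mul_pow]
    linear_combination (- (E * E' * Γ * F)) * h1
  rw [hexp, ((s1.mul_left _).add s4).tsum_sub ((s2.mul_left _).add (s3.mul_left _)),
    (s1.mul_left _).tsum_add s4, (s2.mul_left _).tsum_add (s3.mul_left _), tsum_mul_left,
    tsum_mul_left, tsum_mul_left, tsum_geometric_of_norm_lt_one hzvn]
  have n2 : ‖∑' k, v ^ (k + 1) * e' k‖ ≤ M2 * ‖f‖ * (1 - q)⁻¹ := by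
    refine (tsum_of_norm_bounded ((hgeo.mul_left (M2 * ‖f‖)).hasSum) b2).trans ?_
    rw [tsum_mul_left, hgeoS]
  have n3 : ‖∑' k, z ^ (k + 1) * e k‖ ≤ M2 * ‖g‖ * (1 - q)⁻¹ := by
    refine (tsum_of_norm_bounded ((hgeo.mul_left (M2 * ‖g‖)).hasSum) b3).trans ?_
    rw [tsum_mul_left, hgeoS]
  have n4 : ‖∑' k, e k * e' k‖ ≤ M2 * M2 * ‖f‖ * ‖g‖ * (1 - q)⁻¹ := by
    refine (tsum_of_norm_bounded ((hgeo.mul_left (M2 * M2 * ‖f‖ * ‖g‖)).hasSum) b4).trans ?_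
    rw [tsum_mul_left, hgeoS]
  have n1 : ‖E * E' * Γ * F * (v * z) * (1 - v * z)⁻¹‖ ≤ M * M * c⁻¹ * (‖Γ‖ * ‖F‖) := by
    rw [norm_mul, norm_mul, norm_mul, norm_mul, norm_mul, norm_inv]
    have h1 : ‖1 - v * z‖⁻¹ ≤ c⁻¹ := by
      rw [mul_comm v z]
      exact inv_anti₀ hc hzv
    calc ‖E‖ * ‖E'‖ * ‖Γ‖ * ‖F‖ * ‖v * z‖ * ‖1 - v * z‖⁻¹
        = (‖E‖ * ‖E'‖) * (‖Γ‖ * ‖F‖) * ‖v * z‖ * ‖1 - v * z‖⁻¹ := by ring
      _ ≤ (M * M) * (‖Γ‖ * ‖F‖) * 1 * c⁻¹ := by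
          refine mul_le_mul (mul_le_mul (mul_le_mul_of_nonneg_right
            (mul_le_mul hE hE' (norm_nonneg _) hMp.le) (by positivity)) hzvn.le (norm_nonneg _)
            (by positivity)) h1 (by positivity) (by positivity)
      _ = _ := by ring
  have n2' : ‖E * Γ * ∑' k, v ^ (k + 1) * e' k‖ ≤ M * M2 * (1 - q)⁻¹ * (‖Γ‖ * ‖f‖) := by
    rw [norm_mul, norm_mul]
    calc ‖E‖ * ‖Γ‖ * ‖∑' k, v ^ (k + 1) * e' k‖ ≤ M * ‖Γ‖ * (M2 * ‖f‖ * (1 - q)⁻¹) :=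
          mul_le_mul (mul_le_mul_of_nonneg_right hE (norm_nonneg _)) n2 (norm_nonneg _)
            (by positivity)
      _ = _ := by ring
  have n3' : ‖E' * F * ∑' k, z ^ (k + 1) * e k‖ ≤ M * M2 * (1 - q)⁻¹ * (‖F‖ * ‖g‖) := by
    rw [norm_mul, norm_mul]
    calc ‖E'‖ * ‖F‖ * ‖∑' k, z ^ (k + 1) * e k‖ ≤ M * ‖F‖ * (M2 * ‖g‖ * (1 - q)⁻¹) :=
          mul_le_mul (mul_le_mul_of_nonneg_right hE' (norm_nonneg _)) n3 (norm_nonneg _)
            (by positivity)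
      _ = _ := by ring
  have a1 : 0 ≤ ‖Γ‖ * ‖F‖ := by positivity
  have a2 : 0 ≤ ‖Γ‖ * ‖f‖ := by positivity
  have a3 : 0 ≤ ‖F‖ * ‖g‖ := by positivity
  have a4 : 0 ≤ ‖f‖ * ‖g‖ := by positivity
  have k1 : M * M * c⁻¹ ≤ K := by
    have p1 : 0 ≤ M * M2 * (1 - q)⁻¹ := by positivity
    have p2 : 0 ≤ M2 * M2 * (1 - q)⁻¹ := by positivity
    rw [hK]; linarith
  have k2 : M * M2 * (1 - q)⁻¹ ≤ K := by
    have p1 : 0 ≤ M * M * c⁻¹ := by positivity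
    have p2 : 0 ≤ M2 * M2 * (1 - q)⁻¹ := by positivity
    rw [hK]; linarith
  have k3 : M2 * M2 * (1 - q)⁻¹ ≤ K := by
    have p1 : 0 ≤ M * M * c⁻¹ := by positivity
    have p2 : 0 ≤ M * M2 * (1 - q)⁻¹ := by positivity
    rw [hK]; linarith
  have c1 := n1.trans (mul_le_mul_of_nonneg_right k1 a1)
  have c2 := n2'.trans (mul_le_mul_of_nonneg_right k2 a2)
  have c3 := n3'.trans (mul_le_mul_of_nonneg_right k2 a3)
  have c4 : ‖∑' k, e k * e' k‖ ≤ K * (‖f‖ * ‖g‖) := by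
    refine n4.trans ((le_of_eq ?_).trans (mul_le_mul_of_nonneg_right k3 a4))
    ring
  refine (norm_sub_le _ _).trans ?_
  refine (add_le_add (norm_add_le _ _) (norm_add_le _ _)).trans ?_
  calc _ ≤ (K * (‖Γ‖ * ‖F‖) + K * (‖f‖ * ‖g‖)) + (K * (‖Γ‖ * ‖f‖) + K * (‖F‖ * ‖g‖)) :=
        add_le_add (add_le_add c1 c4) (add_le_add c2 c3)
    _ = K * (‖F‖ + ‖f‖) * (‖Γ‖ + ‖g‖) := by ring

end Pool.Agent.TBir
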