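import Pool.Agent.TBir.Main

/-!
# Completely irreducible Toeplitz operators: the classification, in terms of Fourier coefficients
-/

open MeasureTheory Complex Set Filter Topology Metric AddCircle
open scoped ComplexConjugate InnerProductSpace ENNReal

namespace Pool.Agent.TBir

theorem coeff_T (Phi : CT) (f : Hardy) (n : ℕ) :
    fourierCoeff (incl (T Phi f) : UnitAddCircle → ℂ) n =
      fourierCoeff (fun x => Phi x * (incl f : UnitAddCircle → ℂ) x) n := by
  rw [TpB_apply, TpB_coeff_proj]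
  exact congrFun (fourierCoeff_congr_ae (mul_ae Phi (incl f))) n

theorem exists_symbol {phi : ℂ → ℂ} (hphi : Normal phi) : ∃ Phi : CT, ∀ x, Phi x = phi (e x) := by
  have hc : Continuous fun x : UnitAddCircle => phi (e x) := by
    have h1 : Continuous e := continuous_subtype_val.comp continuous_toCircle
    have h2 : ContinuousOn phi (sphere 0 1) := hphi.ana.continuousOn
    refine h2.comp_continuous h1 fun x => ?_
    rw [mem_sphere_zero_iff_norm]
    exact norm_e x
  exact ⟨⟨_, hc⟩, fun _ => rfl⟩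

theorem ext_coeff {f g : L2} (h : ∀ n : ℤ, fourierCoeff (f : UnitAddCircle → ℂ) n =
    fourierCoeff (g : UnitAddCircle → ℂ) n) : f = g := by
  apply fourierBasis.repr.injective
  ext n
  rw [fourierBasis_repr, fourierBasis_repr, h n]

theorem incl_mem (f : Hardy) : incl f ∈ H2 := f.2

theorem exists_incl {f : L2} (hf : f ∈ H2) : ∃ f' : Hardy, incl f' = f := ⟨⟨f, hf⟩, rfl⟩

theorem incl_inj {f g : Hardy} (h : incl f = incl g) : f = g := Subtype.ext h

theorem isToeplitz_incl {phi : ℂ → ℂ} {Phi : CT} (hPhi : ∀ x, Phi x = phi (e x)) (f : Hardy) :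
    IsToeplitz phi (incl f) (incl (T Phi f)) := by
  refine ⟨incl_mem f, incl_mem _, fun n hn => ?_⟩
  obtain ⟨k, rfl⟩ := Int.eq_ofNat_of_zero_le hn
  have := coeff_T Phi f k
  simp only [hPhi] at this
  exact this

theorem isToeplitz_unique {phi : ℂ → ℂ} {f g g' : L2} (h : IsToeplitz phi f g)
    (h' : IsToeplitz phi f g') : g = g' := by
  refine ext_coeff fun n => ?_
  rcases lt_or_ge n 0 with hn | hn
  · rw [h.2.1 n hn, h'.2.1 n hn]
  · rw [h.2.2 n hn, h'.2.2 n hn]

theorem isClosedEmbedding_incl : IsClosedEmbedding (incl : Hardy → L2) :=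
  isClosed_H2.isClosedEmbedding_subtypeVal

theorem bir_iff_rel {phi : ℂ → ℂ} {Phi : CT} (hPhi : ∀ x, Phi x = phi (e x)) :
    BIR H2 (IsToeplitz phi) ↔ CompletelyIrreducible (T Phi) := by
  have hker : LinearMap.ker (incl : Hardy →ₗ[ℂ] L2) = ⊥ :=
    LinearMap.ker_eq_bot.2 fun _ _ h => incl_inj h
  constructor
  · intro h M N hM hN hTM hTN h1 h2
    have key := h (M.map (incl : Hardy →ₗ[ℂ] L2)) (N.map (incl : Hardy →ₗ[ℂ] L2)) ?_ ?_ ?_ ?_ ?_ ?_
      ?_ ?_
    · rcases key with key | key
      · left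
        rw [eq_bot_iff]
        intro f hf
        have h3 : incl f ∈ M.map (incl : Hardy →ₗ[ℂ] L2) := ⟨f, hf, rfl⟩
        rw [key, Submodule.mem_bot] at h3
        exact incl_inj (h3.trans (map_zero incl).symm)
      · right
        rw [eq_bot_iff]
        intro f hf
        have h3 : incl f ∈ N.map (incl : Hardy →ₗ[ℂ] L2) := ⟨f, hf, rfl⟩
        rw [key, Submodule.mem_bot] at h3
        exact incl_inj (h3.trans (map_zero incl).symm)
    · rintro _ ⟨f, _, rfl⟩; exact incl_mem f
    · rintro _ ⟨f, _, rfl⟩; exact incl_mem f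
    · rw [Submodule.map_coe]
      exact isClosedEmbedding_incl.isClosedMap _ hM
    · rw [Submodule.map_coe]
      exact isClosedEmbedding_incl.isClosedMap _ hN
    · rintro _ g ⟨f, hf, rfl⟩ hg
      exact ⟨T Phi f, hTM f hf, (isToeplitz_unique hg (isToeplitz_incl hPhi f)).symm⟩
    · rintro _ g ⟨f, hf, rfl⟩ hg
      exact ⟨T Phi f, hTN f hf, (isToeplitz_unique hg (isToeplitz_incl hPhi f)).symm⟩
    · rw [eq_bot_iff]
      rintro _ ⟨⟨f, hf, rfl⟩, ⟨g, hg, hgf⟩⟩
      have hfg : g = f := incl_inj hgf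
      subst hfg
      have : g ∈ M ⊓ N := ⟨hf, hg⟩
      rw [h1, Submodule.mem_bot] at this
      rw [this, map_zero]
      exact Submodule.zero_mem _
    · rw [← Submodule.map_sup, h2]
      ext f
      constructor
      · rintro ⟨g, _, rfl⟩; exact incl_mem g
      · intro hf
        obtain ⟨f', rfl⟩ := exists_incl hf
        exact ⟨f', trivial, rfl⟩
  · intro h M N hMH hNH hM hN hTM hTN h1 h2
    have key := h (M.comap (incl : Hardy →ₗ[ℂ] L2)) (N.comap (incl : Hardy →ₗ[ℂ] L2)) ?_ ?_ ?_ ?_ ?_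
      ?_
    · rcases key with key | key
      · left
        rw [eq_bot_iff]
        intro f hf
        obtain ⟨f', rfl⟩ := exists_incl (hMH hf)
        have h3 : f' ∈ M.comap (incl : Hardy →ₗ[ℂ] L2) := hf
        rw [key, Submodule.mem_bot] at h3
        rw [h3, map_zero]
        exact Submodule.zero_mem _
      · right
        rw [eq_bot_iff]
        intro f hf
        obtain ⟨f', rfl⟩ := exists_incl (hNH hf)
        have h3 : f' ∈ N.comap (incl : Hardy →ₗ[ℂ] L2) := hf
        rw [key, Submodule.mem_bot] at h3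
        rw [h3, map_zero]
        exact Submodule.zero_mem _
    · exact hM.preimage incl.continuous
    · exact hN.preimage incl.continuous
    · intro f hf
      exact hTM _ _ hf (isToeplitz_incl hPhi f)
    · intro f hf
      exact hTN _ _ hf (isToeplitz_incl hPhi f)
    · rw [← Submodule.comap_inf, h1]
      exact hker
    · rw [eq_top_iff]
      intro x _
      have hx : incl x ∈ M ⊔ N := by rw [h2]; exact incl_mem x
      obtain ⟨m, hm, n, hn, hmn⟩ := Submodule.mem_sup.1 hx
      obtain ⟨m', rfl⟩ := exists_incl (hMH hm)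
      obtain ⟨n', rfl⟩ := exists_incl (hNH hn)
      have hx' : x = m' + n' := incl_inj (by rw [map_add, hmn])
      rw [hx']
      exact Submodule.add_mem_sup hm hn

theorem main_coeff {phi : ℂ → ℂ} (hphi : Normal phi) :
    (∀ f ∈ H2, ∃! g, IsToeplitz phi f g) ∧ (BIR H2 (IsToeplitz phi) ↔
      ¬ ∃ l l' : ℂ, l ∉ phi '' sphere 0 1 ∧ l' ∉ phi '' sphere 0 1 ∧
        (wind fun w => phi w - l).re < 0 ∧ 0 < (wind fun w => phi w - l').re) := by
  obtain ⟨Phi, hPhi⟩ := exists_symbol hphi
  refine ⟨fun f hf => ?_, ?_⟩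
  · obtain ⟨f', rfl⟩ := exists_incl hf
    exact ⟨_, isToeplitz_incl hPhi f', fun g hg => isToeplitz_unique hg (isToeplitz_incl hPhi f')⟩
  · rw [bir_iff_rel hPhi]
    exact main hphi hPhi

end Pool.Agent.TBir
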