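import Pool.Agent.TBir.FGr
import Pool.Agent.TBir.EigB

/-!
# The limit on the annihilator

MODULE. Paper proof. Let `F` be as in `exists_F`. For `l` with `K.w n l ≠ 0`, `l` is off `KN ∪ KP`
(`w_zero_near`), so `l ∉ J` and `resolvent (T Phi) l y = (l - T Phi)⁻¹ y = - h` with
`(T Phi - l) h = y`; so `ev z (resolvent (T Phi) l y) = F l` and, by `Cut.P_apply`,
`ev z (K.P Phi n y) = - pi⁻¹ ∫ w l F l`, `w = K.w n = kap * dbar chi`.

Let `Th_R l = smoothTransition (2 - |l|^2/R^2)`: `1` for `|l| ≤ R`, `0` for `|l|^2 ≥ 2 R^2`, smooth,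
`|dbar Th_R| ≤ A / R`. Let `R0` be so large that `ball 0 (R0 - 3)` contains `tsupport chi`, `Q`, `J`,
`KN`, `KP` and `‖T Phi‖ < R0 / 2`; let `R ≥ R0`. Put `G = kap (1 - chi) Th_R`. It is `C^1` with compact support
and vanishes near every point of `KN` (near a point of `Q` `kap = 0`, near another point of `KN`
`chi = 1`), so `G F` is `C^1` with compact support and `dbar (G F) = dbar G * F`. Hence
`0 = ∫ dbar (G F) = ∫ dbar G * F` (apply `Pool.Lib.integral_dbar_div_sub` to `l ↦ (l - a) G l F l` at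
`a`, with any `a`). Here
`dbar G = dbar kap (1 - chi) Th_R - kap dbar chi Th_R + kap (1 - chi) dbar Th_R
= dbar kap (1 - chi) - w + dbar Th_R` (for `|l| ≥ R`: `kap = 1`, `chi = 0`; for `|l| ≤ R`: `Th_R = 1`).
So `- pi⁻¹ ∫ w F = - pi⁻¹ ∫ dbar kap (1 - chi) F - pi⁻¹ ∫ dbar Th_R F`.   (1)

The last term does not depend on `R ≥ R0` (by (1)), and it equals `ev z y`: for `|l| ≥ R0`,
`|F l - ev z y / l| ≤ C / |l|^2` (Neumann series: `resolvent A l y - y / l = l⁻¹ A resolvent A l y`,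
`‖resolvent A l‖ ≤ 1/(|l| - ‖A‖)`), `∫ |dbar Th_R| C/|l|^2 ≤ C' / R → 0`, and
`- pi⁻¹ ∫ dbar Th_R l / l = Th_R 0 = 1` (`Pool.Lib.integral_dbar_div_sub` at `0`).

The first term tends to `0` as `n → ∞`: by `norm_dbar_kap_le`, `dbar_kap_ne` and `growth`: given `eps`,
for `n` large and every `l` with `dbar kap l ≠ 0`, `chi l ≠ 1`: `|l - q| |F l| < eps` for some `q ∈ Q`
with `1/(n+1) ≤ |l - q| ≤ 2/(n+1)`, so `|F l| ≤ eps (n+1)`; the integral is at most
`C (n+1) * eps (n+1) * card Q * 4 pi /(n+1)^2`.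
-/

open MeasureTheory Complex Set Filter Topology Metric AddCircle
open scoped ComplexConjugate InnerProductSpace ENNReal
open Pool.Lib (dbar)

namespace Pool.Agent.TBir

private theorem stok_dbar_mul {f g : ℂ → ℂ} {z : ℂ} (hf : DifferentiableAt ℝ f z)
    (hg : DifferentiableAt ℝ g z) :
    dbar (fun l => f l * g l) z = dbar f z * g z + f z * dbar g z := by
  unfold Pool.Lib.dbar
  rw [fderiv_fun_mul hf hg]
  simp only [ContinuousLinearMap.add_apply, ContinuousLinearMap.smul_apply, smul_eq_mul]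
  ring

private theorem stok_integral_dbar (g : ℂ → ℂ) (hg : ContDiff ℝ 1 g) (hc : HasCompactSupport g) :
    ∫ l, dbar g l = 0 := by
  have h := Pool.Lib.integral_dbar_div_sub (fun l => l * g l) (contDiff_id.mul hg) hc.mul_left 0
  rw [zero_mul, mul_zero] at h
  rw [← h]
  apply integral_congr_ae
  have h0 : ∀ᵐ l : ℂ, l ≠ 0 := by
    rw [ae_iff]
    have : {a : ℂ | ¬a ≠ 0} = {0} := by ext; simp
    rw [this]; exact measure_singleton 0
  filter_upwards [h0] with l hl
  rw [stok_dbar_mul (f := fun l => l) differentiableAt_id ((hg.differentiable one_ne_zero) l)]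
  have h1 : dbar (fun l : ℂ => l) l = 0 := Pool.Lib.dbar_eq_zero differentiableAt_id
  simp only [h1, sub_zero, zero_mul, zero_add]
  field_simp

private noncomputable def th (R : ℝ) (l : ℂ) : ℂ :=
  ((Real.smoothTransition (2 - R⁻¹ ^ 2 * ‖l‖ ^ 2) : ℝ) : ℂ)

private theorem contDiff_th (R : ℝ) : ContDiff ℝ 1 (th R) := by
  have h1 : ContDiff ℝ 1 (fun l : ℂ => 2 - R⁻¹ ^ 2 * ‖l‖ ^ 2) :=
    contDiff_const.sub (contDiff_const.mul (contDiff_id.norm_sq ℝ))
  have h2 : ContDiff ℝ 1 (fun l : ℂ => Real.smoothTransition (2 - R⁻¹ ^ 2 * ‖l‖ ^ 2)) :=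
    (Real.smoothTransition.contDiff).comp h1
  exact Complex.ofRealCLM.contDiff.comp h2

private theorem th_one {R : ℝ} (hR : 0 < R) {l : ℂ} (h : ‖l‖ ≤ R) : th R l = 1 := by
  unfold th
  rw [Real.smoothTransition.one_of_one_le, ofReal_one]
  have h1 : R⁻¹ ^ 2 * ‖l‖ ^ 2 ≤ 1 := by
    rw [← mul_pow]
    have h2 : R⁻¹ * ‖l‖ ≤ 1 := by
      rw [inv_mul_le_iff₀ hR, mul_one]; exact h
    exact pow_le_one₀ (by positivity) h2
  linarith

private theorem th_zero {R : ℝ} (hR : 0 < R) {l : ℂ} (h : 2 * R ≤ ‖l‖) : th R l = 0 := by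
  unfold th
  rw [Real.smoothTransition.zero_of_nonpos, ofReal_zero]
  have h2 : 2 ≤ R⁻¹ * ‖l‖ := by
    rw [le_inv_mul_iff₀ hR]; linarith
  have h1 : 2 ^ 2 ≤ R⁻¹ ^ 2 * ‖l‖ ^ 2 := by
    rw [← mul_pow]
    exact pow_le_pow_left₀ (by norm_num) h2 2
  linarith

private theorem th_cpt {R : ℝ} (hR : 0 < R) : HasCompactSupport (th R) := by
  apply HasCompactSupport.intro (isCompact_closedBall (0 : ℂ) (2 * R))
  intro l hl
  apply th_zero hR
  rw [mem_closedBall_zero_iff, not_le] at hl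
  exact hl.le

private theorem dbar_th {R : ℝ} (l : ℂ) :
    dbar (th R) l = (R⁻¹ : ℝ) * dbar (th 1) ((R⁻¹ : ℝ) • l) := by
  have h0 : th R = fun l => th 1 ((R⁻¹ : ℝ) • l) := by
    funext l
    unfold th
    rw [norm_smul, mul_pow, Real.norm_eq_abs, sq_abs, inv_one, one_pow, one_mul]
  have h1 : HasFDerivAt (th 1) (fderiv ℝ (th 1) ((R⁻¹ : ℝ) • l)) ((R⁻¹ : ℝ) • l) :=
    (((contDiff_th 1).differentiable one_ne_zero) _).hasFDerivAt
  have h2 : HasFDerivAt (fun l : ℂ => (R⁻¹ : ℝ) • l) ((R⁻¹ : ℝ) • ContinuousLinearMap.id ℝ ℂ) l :=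
    (hasFDerivAt_id l).const_smul R⁻¹
  have h3 := (h1.comp l h2).fderiv
  have h4 : fderiv ℝ (th R) l = (fderiv ℝ (th 1) ((R⁻¹ : ℝ) • l)).comp
      ((R⁻¹ : ℝ) • ContinuousLinearMap.id ℝ ℂ) := by
    rw [h0]; exact h3
  unfold Pool.Lib.dbar
  rw [h4]
  simp only [ContinuousLinearMap.comp_apply, ContinuousLinearMap.smul_apply,
    ContinuousLinearMap.id_apply]
  rw [map_smul, map_smul]
  simp only [Complex.real_smul]
  ring

private theorem dbar_th_le : ∃ A : ℝ, 0 ≤ A ∧ ∀ R > 0, ∀ l, ‖dbar (th R) l‖ ≤ A / R := by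
  have hc : Continuous (dbar (th 1)) := Pool.Lib.continuous_dbar (contDiff_th 1)
  have hs : HasCompactSupport (dbar (th 1)) :=
    (th_cpt one_pos).of_isClosed_subset (isClosed_tsupport _) (Pool.Lib.tsupport_dbar_subset _)
  obtain ⟨A, hA⟩ := hc.bounded_above_of_compact_support hs
  refine ⟨A, (norm_nonneg _).trans (hA 0), fun R hR l => ?_⟩
  rw [dbar_th, norm_mul, Complex.norm_real, Real.norm_of_nonneg (by positivity), div_eq_mul_inv,
    mul_comm]
  exact mul_le_mul_of_nonneg_right (hA _) (by positivity)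

private theorem dbar_th_ne {R : ℝ} (hR : 0 < R) {l : ℂ} (h : dbar (th R) l ≠ 0) :
    R ≤ ‖l‖ ∧ ‖l‖ ≤ 2 * R := by
  constructor
  · by_contra h1
    push Not at h1
    apply h
    have h2 : th R =ᶠ[𝓝 l] fun _ => 1 := by
      filter_upwards [isOpen_ball.mem_nhds (mem_ball_zero_iff.2 h1)] with x hx
      exact th_one hR (mem_ball_zero_iff.1 hx).le
    rw [Pool.Lib.dbar_congr h2]
    exact Pool.Lib.dbar_eq_zero (differentiableAt_const _)
  · by_contra h1
    push Not at h1
    apply h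
    have h2 : th R =ᶠ[𝓝 l] fun _ => 0 := by
      have h3 : l ∈ (closedBall (0 : ℂ) (2 * R))ᶜ := by
        rw [mem_compl_iff, mem_closedBall_zero_iff, not_le]; exact h1
      filter_upwards [isClosed_closedBall.isOpen_compl.mem_nhds h3] with x hx
      rw [mem_compl_iff, mem_closedBall_zero_iff, not_le] at hx
      exact th_zero hR hx.le
    rw [Pool.Lib.dbar_congr h2]
    exact Pool.Lib.dbar_eq_zero (differentiableAt_const _)

private theorem integral_dbar_th_div {R : ℝ} (hR : 0 < R) :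
    ∫ l, dbar (th R) l / l = -Real.pi := by
  rw [Pool.Lib.integral_dbar_div (th R) (contDiff_th R) (th_cpt hR), th_one hR (by simpa using hR.le),
    mul_one]

/-- an integral over the plane of a function bounded by `b` on `closedBall 0 (2 R)` and zero
outside -/
private theorem norm_integral_le_ball {f : ℂ → ℂ} {b R : ℝ} (hR : 0 < R) (q : ℂ)
    (h1 : ∀ l, ‖l - q‖ ≤ R → ‖f l‖ ≤ b) (h2 : ∀ l, R < ‖l - q‖ → f l = 0) :
    ‖∫ l, f l‖ ≤ b * (Real.pi * R ^ 2) := by
  have h3 : ∫ l in closedBall q R, f l = ∫ l, f l := by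
    apply setIntegral_eq_integral_of_forall_compl_eq_zero
    intro l hl
    rw [mem_closedBall, dist_eq_norm, not_le] at hl
    exact h2 l hl
  rw [← h3]
  have hv : volume (closedBall q R) = ENNReal.ofReal R ^ 2 * NNReal.pi := Complex.volume_closedBall q R
  have hfin : volume (closedBall q R) < ⊤ := measure_closedBall_lt_top
  have h4 := norm_setIntegral_le_of_norm_le_const (f := f) (C := b) hfin
    (fun l hl => h1 l (by rwa [mem_closedBall, dist_eq_norm] at hl))
  refine h4.trans (le_of_eq ?_)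
  congr 1
  rw [Measure.real, hv, ENNReal.toReal_mul, ENNReal.toReal_pow, ENNReal.toReal_ofReal hR.le]
  rw [mul_comm]
  rfl


private theorem stok_res_right {B : Hardy →L[ℂ] Hardy} {l : ℂ} (h : l ∈ resolventSet ℂ B)
    (v : Hardy) : l • resolvent B l v - B (resolvent B l v) = v := by
  have e1 : (algebraMap ℂ (Hardy →L[ℂ] Hardy) l - B) * resolvent B l = 1 :=
    Ring.mul_inverse_cancel _ h
  have h5 := congrArg (fun C : Hardy →L[ℂ] Hardy => C v) e1
  rw [Algebra.algebraMap_eq_smul_one] at h5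
  exact h5

private theorem stok_res_left {B : Hardy →L[ℂ] Hardy} {l : ℂ} (h : l ∈ resolventSet ℂ B)
    (v : Hardy) : l • resolvent B l v - resolvent B l (B v) = v := by
  have e1 : resolvent B l * (algebraMap ℂ (Hardy →L[ℂ] Hardy) l - B) = 1 :=
    Ring.inverse_mul_cancel _ h
  have h5 := congrArg (fun C : Hardy →L[ℂ] Hardy => C v) e1
  rw [Algebra.algebraMap_eq_smul_one] at h5
  have h6 : resolvent B l (l • v - B v) = v := h5
  rwa [map_sub, map_smul] at h6

private theorem stok_F_eq {phi : ℂ → ℂ} (hphi : Normal phi) {Phi : CT}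
    (hPhi : ∀ x, Phi x = phi (e x)) {y : Hardy} {z : ℂ} {F : ℂ → ℂ}
    (hF' : ∀ l, l ∉ J phi → l ∉ KN phi → ∀ h : Hardy,
        (T Phi - l • (1 : Hardy →L[ℂ] Hardy)) h = y → F l = -ev z h)
    {l : ℂ} (h1 : l ∉ KN phi) (h2 : l ∉ KP phi) : F l = ev z (resolvent (T Phi) l y) := by
  obtain ⟨hJ, hw⟩ := off hphi h1 h2
  have hr := mem_resolventSet_of_wd hphi.ana hPhi hJ hw
  have h4 := hF' l hJ h1 (-(resolvent (T Phi) l y)) (by
    have h5 := stok_res_right hr y
    rw [map_neg]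
    change -(T Phi (resolvent (T Phi) l y) - l • resolvent (T Phi) l y) = y
    rw [neg_sub]
    exact h5)
  rw [h4, map_neg, neg_neg]

private theorem stok_w {phi : ℂ → ℂ} (K : Cut phi) {n : ℕ} {l : ℂ} (h : K.w n l ≠ 0) :
    l ∉ KN phi ∧ l ∉ KP phi := by
  constructor
  · intro h1
    exact h ((K.w_zero_near n (Or.inl h1)).self_of_nhds)
  · intro h1
    exact h ((K.w_zero_near n (Or.inr h1)).self_of_nhds)

private theorem stok_P {phi : ℂ → ℂ} (hphi : Normal phi) {Phi : CT}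
    (hPhi : ∀ x, Phi x = phi (e x)) (K : Cut phi) {y : Hardy} {z : ℂ} {F : ℂ → ℂ}
    (hF' : ∀ l, l ∉ J phi → l ∉ KN phi → ∀ h : Hardy,
        (T Phi - l • (1 : Hardy →L[ℂ] Hardy)) h = y → F l = -ev z h) (n : ℕ) :
    Integrable (fun l => K.w n l * F l) ∧
      ev z (K.P Phi n y) = -(Real.pi : ℂ)⁻¹ * ∫ l, K.w n l * F l := by
  have h0 : (fun l => K.w n l * F l) = fun l => ev z (K.w n l • resolvent (T Phi) l y) := by
    funext l
    by_cases hl : K.w n l = 0
    · rw [hl, zero_mul, zero_smul, map_zero]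
    · obtain ⟨h1, h2⟩ := stok_w K hl
      rw [stok_F_eq hphi hPhi hF' h1 h2, map_smul, smul_eq_mul]
  have h1 : Integrable (fun l => K.w n l • resolvent (T Phi) l y) :=
    (K.integrable_res hphi hPhi n).apply_continuousLinearMap y
  refine ⟨?_, ?_⟩
  · rw [h0]
    exact (ev z).integrable_comp h1
  · rw [K.P_apply hphi hPhi, map_smul, smul_eq_mul, ← (ev z).integral_comp_comm h1, h0]

/-- all the data are in a large disc -/
private theorem stok_R0 {phi : ℂ → ℂ} (hphi : Normal phi) (Phi : CT) (K : Cut phi) :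
    ∃ R0 : ℝ, 0 < R0 ∧ (∀ l, l ∈ KN phi → ‖l‖ < R0) ∧ (∀ l, l ∈ KP phi → ‖l‖ < R0) ∧
      (∀ l, l ∈ tsupport K.chi → ‖l‖ < R0) ∧ (∀ q ∈ K.Q, ‖q‖ + 3 ≤ R0) ∧
      2 * ‖T Phi‖ ≤ R0 := by
  have hb : Bornology.IsBounded (KN phi ∪ KP phi ∪ tsupport K.chi ∪ (K.Q : Set ℂ)) :=
    (((isCompact_KN hphi.ana).isBounded.union (isCompact_KP hphi.ana).isBounded).union
      K.cpt.isCompact.isBounded).union K.Q.finite_toSet.isBounded
  obtain ⟨R1, hR1⟩ := hb.subset_closedBall (0 : ℂ)
  refine ⟨max 1 (max (R1 + 3) (2 * ‖T Phi‖)), lt_of_lt_of_le one_pos (le_max_left _ _), ?_, ?_,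
    ?_, ?_, ?_⟩
  · intro l hl
    have h := mem_closedBall_zero_iff.1 (hR1 (Or.inl (Or.inl (Or.inl hl))))
    exact lt_of_lt_of_le (by linarith) ((le_max_left (R1 + 3) _).trans (le_max_right _ _))
  · intro l hl
    have h := mem_closedBall_zero_iff.1 (hR1 (Or.inl (Or.inl (Or.inr hl))))
    exact lt_of_lt_of_le (by linarith) ((le_max_left (R1 + 3) _).trans (le_max_right _ _))
  · intro l hl
    have h := mem_closedBall_zero_iff.1 (hR1 (Or.inl (Or.inr hl)))
    exact lt_of_lt_of_le (by linarith) ((le_max_left (R1 + 3) _).trans (le_max_right _ _))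
  · intro l hl
    have h := mem_closedBall_zero_iff.1 (hR1 (Or.inr hl))
    exact le_trans (by linarith) ((le_max_left (R1 + 3) _).trans (le_max_right _ _))
  · exact (le_max_right (R1 + 3) _).trans (le_max_right _ _)

/-- `kap` vanishes near the points of `Q` -/
private theorem stok_kap_near {phi : ℂ → ℂ} (K : Cut phi) (n : ℕ) {q : ℂ} (hq : q ∈ K.Q) :
    ∀ᶠ l in 𝓝 q, kap K.Q n l = 0 := by
  have h1 : (0 : ℝ) < 1 / ((n : ℝ) + 1) := by positivity
  filter_upwards [ball_mem_nhds q h1] with l hl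
  apply kap_eq_zero hq
  rw [mem_ball, dist_eq_norm] at hl
  exact hl.le

/-- the function `G` -/
private noncomputable def GG {phi : ℂ → ℂ} (K : Cut phi) (n : ℕ) (R : ℝ) (l : ℂ) : ℂ :=
  kap K.Q n l * (1 - K.chi l) * th R l

private theorem GG_near_KN {phi : ℂ → ℂ} (K : Cut phi) (n : ℕ) (R : ℝ) {l : ℂ} (hl : l ∈ KN phi) :
    ∀ᶠ l' in 𝓝 l, GG K n R l' = 0 := by
  by_cases hq : l ∈ K.Q
  · filter_upwards [stok_kap_near K n hq] with l' h
    rw [GG, h, zero_mul, zero_mul]
  · filter_upwards [K.neg l hl hq] with l' h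
    rw [GG, h, sub_self, mul_zero, zero_mul]

private theorem chi_at {phi : ℂ → ℂ} (K : Cut phi) {l : ℂ} (hq : l ∉ K.Q) :
    ContDiffAt ℝ 1 K.chi l := by
  have h : (K.Q : Set ℂ)ᶜ ∈ 𝓝 l :=
    K.Q.finite_toSet.isClosed.isOpen_compl.mem_nhds (by simpa using hq)
  exact K.smooth.contDiffAt h

private theorem GG_at {phi : ℂ → ℂ} (K : Cut phi) (n : ℕ) (R : ℝ) (l : ℂ) :
    ContDiffAt ℝ 1 (GG K n R) l := by
  by_cases hq : l ∈ K.Q
  · have h : GG K n R =ᶠ[𝓝 l] fun _ => 0 := by
      filter_upwards [stok_kap_near K n hq] with l' h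
      rw [GG, h, zero_mul, zero_mul]
    exact contDiffAt_const.congr_of_eventuallyEq h
  · exact (((contDiff_kap K.Q n).contDiffAt).mul (contDiffAt_const.sub (chi_at K hq))).mul
      (contDiff_th R).contDiffAt

/-- the formula for `dbar G` -/
private theorem dbar_GG {phi : ℂ → ℂ} (K : Cut phi) (n : ℕ) {R : ℝ} (hR : 0 < R)
    (h1 : ∀ l, l ∈ tsupport K.chi → ‖l‖ < R) (h2 : ∀ q ∈ K.Q, ‖q‖ + 3 ≤ R) (l : ℂ) :
    dbar (GG K n R) l = dbar (kap K.Q n) l * (1 - K.chi l) - K.w n l + dbar (th R) l := by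
  have hn : 2 / ((n : ℝ) + 1) ≤ 2 := by
    rw [div_le_iff₀ (by positivity)]
    have : (0 : ℝ) ≤ n := n.cast_nonneg
    linarith
  by_cases hq : l ∈ K.Q
  · have e1 : dbar (GG K n R) l = 0 := by
      have h : GG K n R =ᶠ[𝓝 l] fun _ => 0 := by
        filter_upwards [stok_kap_near K n hq] with l' h
        rw [GG, h, zero_mul, zero_mul]
      rw [Pool.Lib.dbar_congr h]
      exact Pool.Lib.dbar_eq_zero (differentiableAt_const _)
    have e2 : dbar (kap K.Q n) l = 0 := by
      have h : kap K.Q n =ᶠ[𝓝 l] fun _ => 0 := by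
        filter_upwards [stok_kap_near K n hq] with l' h using h
      rw [Pool.Lib.dbar_congr h]
      exact Pool.Lib.dbar_eq_zero (differentiableAt_const _)
    have e3 : K.w n l = 0 := by
      rw [Cut.w, (stok_kap_near K n hq).self_of_nhds, zero_mul]
    have e4 : dbar (th R) l = 0 := by
      by_contra h
      have h3 := (dbar_th_ne hR h).1
      have h4 := h2 l hq
      linarith
    rw [e1, e2, e3, e4]; ring
  · have d1 : DifferentiableAt ℝ (kap K.Q n) l :=
      ((contDiff_kap K.Q n).differentiable one_ne_zero) l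
    have d2 : DifferentiableAt ℝ K.chi l := (chi_at K hq).differentiableAt one_ne_zero
    have d3 : DifferentiableAt ℝ (fun l => 1 - K.chi l) l := (differentiableAt_const _).sub d2
    have d4 : DifferentiableAt ℝ (th R) l := ((contDiff_th R).differentiable one_ne_zero) l
    have e0 : dbar (fun l => 1 - K.chi l) l = - dbar K.chi l := by
      unfold Pool.Lib.dbar
      rw [fderiv_const_sub]
      simp only [ContinuousLinearMap.neg_apply]
      ring
    have e1 : dbar (GG K n R) l = (dbar (kap K.Q n) l * (1 - K.chi l) +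
        kap K.Q n l * (- dbar K.chi l)) * th R l +
        (kap K.Q n l * (1 - K.chi l)) * dbar (th R) l := by
      have := stok_dbar_mul (f := fun l => kap K.Q n l * (1 - K.chi l)) (g := th R) (d1.mul d3) d4
      rw [stok_dbar_mul d1 d3, e0] at this
      exact this
    have e2 : dbar (kap K.Q n) l * th R l = dbar (kap K.Q n) l := by
      by_cases h : dbar (kap K.Q n) l = 0
      · rw [h, zero_mul]
      · obtain ⟨q, hq', _, h4⟩ := dbar_kap_ne h
        have h5 := h2 q hq'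
        have h6 : ‖l‖ ≤ ‖l - q‖ + ‖q‖ := by
          have := norm_add_le (l - q) q
          rwa [sub_add_cancel] at this
        rw [th_one hR (by linarith), mul_one]
    have e3 : dbar K.chi l * th R l = dbar K.chi l := by
      by_cases h : dbar K.chi l = 0
      · rw [h, zero_mul]
      · have h3 : l ∈ tsupport K.chi :=
          Pool.Lib.tsupport_dbar_subset _ (subset_tsupport _ h)
        rw [th_one hR (h1 l h3).le, mul_one]
    have e4 : (kap K.Q n l * (1 - K.chi l)) * dbar (th R) l = dbar (th R) l := by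
      by_cases h : dbar (th R) l = 0
      · rw [h, mul_zero]
      · have h3 := (dbar_th_ne hR h).1
        have h4 : K.chi l = 0 := by
          by_contra h5
          have := h1 l (subset_tsupport _ h5)
          linarith
        have h5 : kap K.Q n l = 1 := by
          apply kap_eq_one
          intro q hq'
          have h5 := h2 q hq'
          have h6 : ‖l‖ ≤ ‖l - q‖ + ‖q‖ := by
            have := norm_add_le (l - q) q
            rwa [sub_add_cancel] at this
          linarith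
        rw [h4, h5]; ring
    rw [e1, e4, Cut.w]
    linear_combination (1 - K.chi l) * e2 - kap K.Q n l * e3

private theorem F_at {phi : ℂ → ℂ} (hphi : Normal phi) {F : ℂ → ℂ}
    (hF : DifferentiableOn ℂ F (KN phi)ᶜ) {l : ℂ} (hl : l ∉ KN phi) :
    ContDiffAt ℝ 1 F l ∧ DifferentiableAt ℂ F l := by
  have ho : IsOpen (KN phi)ᶜ := (isCompact_KN hphi.ana).isClosed.isOpen_compl
  have h1 : AnalyticAt ℂ F l := hF.analyticAt (ho.mem_nhds hl)
  exact ⟨h1.contDiffAt.restrict_scalars ℝ, h1.differentiableAt⟩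

private theorem GGF {phi : ℂ → ℂ} (hphi : Normal phi) (K : Cut phi) {F : ℂ → ℂ}
    (hF : DifferentiableOn ℂ F (KN phi)ᶜ) (n : ℕ) (R : ℝ) :
    ContDiff ℝ 1 (fun l => GG K n R l * F l) ∧
      ∀ l, dbar (fun l => GG K n R l * F l) l = dbar (GG K n R) l * F l := by
  have h0 : ∀ l ∈ KN phi, (fun l => GG K n R l * F l) =ᶠ[𝓝 l] fun _ => 0 := by
    intro l hl
    filter_upwards [GG_near_KN K n R hl] with l' h
    rw [h, zero_mul]
  constructor
  · rw [contDiff_iff_contDiffAt]
    intro l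
    by_cases hl : l ∈ KN phi
    · exact contDiffAt_const.congr_of_eventuallyEq (h0 l hl)
    · exact (GG_at K n R l).mul (F_at hphi hF hl).1
  · intro l
    by_cases hl : l ∈ KN phi
    · rw [Pool.Lib.dbar_congr (h0 l hl), Pool.Lib.dbar_eq_zero (differentiableAt_const _)]
      have h1 : GG K n R =ᶠ[𝓝 l] fun _ => 0 := GG_near_KN K n R hl
      rw [Pool.Lib.dbar_congr h1, Pool.Lib.dbar_eq_zero (differentiableAt_const _), zero_mul]
    · rw [stok_dbar_mul ((GG_at K n R l).differentiableAt one_ne_zero)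
        ((F_at hphi hF hl).1.differentiableAt one_ne_zero),
        Pool.Lib.dbar_eq_zero (F_at hphi hF hl).2, mul_zero, add_zero]

private theorem integrable_dbar {g : ℂ → ℂ} (hg : ContDiff ℝ 1 g) (hc : HasCompactSupport g) :
    Integrable (dbar g) :=
  (Pool.Lib.continuous_dbar hg).integrable_of_hasCompactSupport
    (hc.of_isClosed_subset (isClosed_tsupport _) (Pool.Lib.tsupport_dbar_subset _))

private theorem integrable_th {phi : ℂ → ℂ} (hphi : Normal phi) {F : ℂ → ℂ}
    (hF : DifferentiableOn ℂ F (KN phi)ᶜ) {R : ℝ} (hR : 0 < R) (h1 : ∀ l, l ∈ KN phi → ‖l‖ < R) :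
    Integrable (fun l => dbar (th R) l * F l) := by
  apply Continuous.integrable_of_hasCompactSupport
  · rw [continuous_iff_continuousAt]
    intro l
    by_cases hl : l ∈ KN phi
    · have h2 : (fun l => dbar (th R) l * F l) =ᶠ[𝓝 l] fun _ => 0 := by
        filter_upwards [isOpen_ball.mem_nhds (mem_ball_zero_iff.2 (h1 l hl))] with x hx
        have h3 : dbar (th R) x = 0 := by
          by_contra h
          have := (dbar_th_ne hR h).1
          have := mem_ball_zero_iff.1 hx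
          linarith
        rw [h3, zero_mul]
      exact continuousAt_const.congr h2.symm
    · exact (Pool.Lib.continuous_dbar (contDiff_th R)).continuousAt.mul
        (F_at hphi hF hl).1.continuousAt
  · exact HasCompactSupport.mul_right
      ((th_cpt hR).of_isClosed_subset (isClosed_tsupport _) (Pool.Lib.tsupport_dbar_subset _))

/-- Stokes -/
private theorem stok_stokes {phi : ℂ → ℂ} (hphi : Normal phi) {Phi : CT}
    (hPhi : ∀ x, Phi x = phi (e x)) (K : Cut phi) {y : Hardy} {z : ℂ} {F : ℂ → ℂ}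
    (hF : DifferentiableOn ℂ F (KN phi)ᶜ)
    (hF' : ∀ l, l ∉ J phi → l ∉ KN phi → ∀ h : Hardy,
        (T Phi - l • (1 : Hardy →L[ℂ] Hardy)) h = y → F l = -ev z h) (n : ℕ) {R : ℝ} (hR : 0 < R)
    (h0 : ∀ l, l ∈ KN phi → ‖l‖ < R)
    (h1 : ∀ l, l ∈ tsupport K.chi → ‖l‖ < R) (h2 : ∀ q ∈ K.Q, ‖q‖ + 3 ≤ R) :
    ev z (K.P Phi n y) = -(Real.pi : ℂ)⁻¹ * (∫ l, dbar (kap K.Q n) l * (1 - K.chi l) * F l) +
      -(Real.pi : ℂ)⁻¹ * ∫ l, dbar (th R) l * F l := by
  obtain ⟨hi, hP⟩ := stok_P hphi hPhi K hF' n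
  obtain ⟨hs, hd⟩ := GGF hphi K hF n R
  have hc : HasCompactSupport (fun l => GG K n R l * F l) := by
    have : HasCompactSupport (GG K n R) := (th_cpt hR).mul_left
    exact this.mul_right
  have hz := stok_integral_dbar _ hs hc
  have hi2 := integrable_dbar hs hc
  have hi3 := integrable_th hphi hF hR h0
  have e1 : (fun l => dbar (fun l => GG K n R l * F l) l) =
      fun l => dbar (kap K.Q n) l * (1 - K.chi l) * F l - K.w n l * F l + dbar (th R) l * F l := by
    funext l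
    rw [hd l, dbar_GG K n hR h1 h2 l]; ring
  have hi4 : Integrable (fun l => dbar (kap K.Q n) l * (1 - K.chi l) * F l) := by
    have h3 := (hi2.add hi).sub hi3
    refine h3.congr (Eventually.of_forall fun l => ?_)
    have h4 : dbar (fun l => GG K n R l * F l) l = dbar (kap K.Q n) l * (1 - K.chi l) * F l -
      K.w n l * F l + dbar (th R) l * F l := congrFun e1 l
    simp only [Pi.add_apply, Pi.sub_apply]
    rw [h4]; ring
  rw [e1] at hz
  have e2 := integral_add (hi4.sub hi) hi3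
  simp only [Pi.sub_apply] at e2
  rw [e2, integral_sub hi4 hi] at hz
  rw [hP]
  linear_combination -(Real.pi : ℂ)⁻¹ * (-1) * hz

/-- behaviour of `F` at infinity -/
private theorem stok_inf {phi : ℂ → ℂ} (hphi : Normal phi) {Phi : CT}
    (hPhi : ∀ x, Phi x = phi (e x)) {y : Hardy} {z : ℂ} {F : ℂ → ℂ}
    (hF' : ∀ l, l ∉ J phi → l ∉ KN phi → ∀ h : Hardy,
        (T Phi - l • (1 : Hardy →L[ℂ] Hardy)) h = y → F l = -ev z h) :
    ∃ C : ℝ, 0 ≤ C ∧ ∀ l, l ∉ KN phi → l ∉ KP phi → l ≠ 0 → 2 * ‖T Phi‖ ≤ ‖l‖ →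
      ‖F l - ev z y / l‖ ≤ C / ‖l‖ ^ 2 := by
  refine ⟨2 * ‖ev z‖ * ‖T Phi y‖, by positivity, fun l h1 h2 h3 h4 => ?_⟩
  have hl : 0 < ‖l‖ := norm_pos_iff.2 h3
  obtain ⟨hJ, hw⟩ := off hphi h1 h2
  have hr := mem_resolventSet_of_wd hphi.ana hPhi hJ hw
  have e3 := stok_res_right hr
  have e4 := stok_res_left hr
  have e5 : ∀ v : Hardy, ‖resolvent (T Phi) l v‖ ≤ 2 * ‖v‖ / ‖l‖ := by
    intro v
    have h5 : ‖l‖ * ‖resolvent (T Phi) l v‖ ≤ ‖v‖ + ‖T Phi‖ * ‖resolvent (T Phi) l v‖ := by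
      have h6 : l • resolvent (T Phi) l v = v + T Phi (resolvent (T Phi) l v) := by
        have := e3 v
        rw [sub_eq_iff_eq_add] at this
        exact this
      have h7 := congrArg norm h6
      rw [norm_smul] at h7
      rw [h7]
      exact (norm_add_le _ _).trans (add_le_add_right ((T Phi).le_opNorm _) _)
    rw [le_div_iff₀ hl]
    have h8 : 2 * ‖T Phi‖ * ‖resolvent (T Phi) l v‖ ≤ ‖l‖ * ‖resolvent (T Phi) l v‖ :=
      mul_le_mul_of_nonneg_right h4 (norm_nonneg _)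
    linarith
  have e6 : F l - ev z y / l = ev z (resolvent (T Phi) l (T Phi y)) / l := by
    rw [stok_F_eq hphi hPhi hF' h1 h2, ← sub_eq_zero]
    have h5 := congrArg (ev z) (e4 y)
    rw [map_sub, map_smul, smul_eq_mul] at h5
    field_simp
    linear_combination h5
  rw [e6, norm_div, div_le_div_iff₀ hl (by positivity)]
  have e7 : ‖ev z (resolvent (T Phi) l (T Phi y))‖ ≤ ‖ev z‖ * (2 * ‖T Phi y‖ / ‖l‖) :=
    ((ev z).le_opNorm _).trans (mul_le_mul_of_nonneg_left (e5 _) (norm_nonneg _))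
  calc ‖ev z (resolvent (T Phi) l (T Phi y))‖ * ‖l‖ ^ 2
      ≤ ‖ev z‖ * (2 * ‖T Phi y‖ / ‖l‖) * ‖l‖ ^ 2 := mul_le_mul_of_nonneg_right e7 (by positivity)
    _ = 2 * ‖ev z‖ * ‖T Phi y‖ * ‖l‖ := by field_simp

/-- the term at infinity -/
private theorem stok_far {phi : ℂ → ℂ} (hphi : Normal phi) {Phi : CT}
    (hPhi : ∀ x, Phi x = phi (e x)) {y : Hardy} {z : ℂ} {F : ℂ → ℂ}
    (hF : DifferentiableOn ℂ F (KN phi)ᶜ)
    (hF' : ∀ l, l ∉ J phi → l ∉ KN phi → ∀ h : Hardy,
        (T Phi - l • (1 : Hardy →L[ℂ] Hardy)) h = y → F l = -ev z h) {R0 : ℝ} (hR0 : 0 < R0)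
    (h0 : ∀ l, l ∈ KN phi → ‖l‖ < R0) (h1 : ∀ l, l ∈ KP phi → ‖l‖ < R0)
    (h2 : 2 * ‖T Phi‖ ≤ R0) :
    ∃ C : ℝ, ∀ R, R0 ≤ R →
      ‖-(Real.pi : ℂ)⁻¹ * (∫ l, dbar (th R) l * F l) - ev z y‖ ≤ C / R := by
  obtain ⟨C, hC, hC'⟩ := stok_inf hphi hPhi hF'
  obtain ⟨A, hA, hA'⟩ := dbar_th_le
  refine ⟨4 * A * C, fun R hR => ?_⟩
  have hRp : 0 < R := hR0.trans_le hR
  have hpi : (Real.pi : ℂ) ≠ 0 := by exact_mod_cast Real.pi_ne_zero
  have hi1 : Integrable (fun l => dbar (th R) l * F l) :=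
    integrable_th hphi hF hRp (fun l hl => (h0 l hl).trans_le hR)
  have hi2 : Integrable (fun l => dbar (th R) l / l) := by
    by_contra h
    have h3 := integral_dbar_th_div hRp
    rw [integral_undef h] at h3
    have h4 : (Real.pi : ℂ) = 0 := by
      have := h3.symm
      rwa [neg_eq_zero] at this
    exact hpi h4
  have hi3 : Integrable (fun l => dbar (th R) l / l * ev z y) := hi2.mul_const _
  have e1 : -(Real.pi : ℂ)⁻¹ * (∫ l, dbar (th R) l * F l) - ev z y =
      -(Real.pi : ℂ)⁻¹ * ∫ l, dbar (th R) l * (F l - ev z y / l) := by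
    have e2 : (fun l => dbar (th R) l * (F l - ev z y / l)) =
        fun l => dbar (th R) l * F l - dbar (th R) l / l * ev z y := by
      funext l; ring
    rw [e2, integral_sub hi1 hi3, integral_mul_const, integral_dbar_th_div hRp]
    field_simp
    ring
  rw [e1, norm_mul, norm_neg, norm_inv, Complex.norm_real, Real.norm_of_nonneg Real.pi_pos.le]
  have e3 : ‖∫ l, dbar (th R) l * (F l - ev z y / l)‖ ≤
      (A / R * (C / R ^ 2)) * (Real.pi * (2 * R) ^ 2) := by
    apply norm_integral_le_ball (by positivity) 0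
    · intro l _
      by_cases h : dbar (th R) l = 0
      · rw [h, zero_mul, norm_zero]; positivity
      · have h3 := (dbar_th_ne hRp h).1
        have h4 : l ∉ KN phi := fun h5 => by have := h0 l h5; linarith
        have h5 : l ∉ KP phi := fun h5 => by have := h1 l h5; linarith
        have h6 : l ≠ 0 := by
          rintro rfl
          rw [norm_zero] at h3; linarith
        have h7 := hC' l h4 h5 h6 (by linarith)
        rw [norm_mul]
        refine mul_le_mul (hA' R hRp l) (h7.trans ?_) (norm_nonneg _) (by positivity)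
        exact div_le_div_of_nonneg_left hC (by positivity) (pow_le_pow_left₀ hRp.le h3 2)
    · intro l hl
      rw [sub_zero] at hl
      have h : dbar (th R) l = 0 := by
        by_contra h
        have := (dbar_th_ne hRp h).2
        linarith
      rw [h, zero_mul]
  calc Real.pi⁻¹ * ‖∫ l, dbar (th R) l * (F l - ev z y / l)‖
      ≤ Real.pi⁻¹ * ((A / R * (C / R ^ 2)) * (Real.pi * (2 * R) ^ 2)) :=
        mul_le_mul_of_nonneg_left e3 (by positivity)
    _ = 4 * A * C / R := by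
        have := Real.pi_pos
        field_simp
        ring

/-- the term at the crossings -/
private theorem stok_near {phi : ℂ → ℂ} (hphi : Normal phi) {Phi : CT}
    (hPhi : ∀ x, Phi x = phi (e x)) (K : Cut phi) {y : Hardy} (hy : y ∈ NN phi Phi) {z : ℂ}
    (hz : ‖z‖ < 1) {F : ℂ → ℂ}
    (hF : DifferentiableOn ℂ F (KN phi)ᶜ)
    (hF' : ∀ l, l ∉ J phi → l ∉ KN phi → ∀ h : Hardy,
        (T Phi - l • (1 : Hardy →L[ℂ] Hardy)) h = y → F l = -ev z h) :
    Tendsto (fun n : ℕ => ∫ l, dbar (kap K.Q n) l * (1 - K.chi l) * F l) atTop (𝓝 0) := by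
  obtain ⟨C, hC, hC'⟩ := norm_dbar_kap_le K.Q
  rw [Metric.tendsto_atTop]
  intro eps heps
  -- the small constant
  set N : ℝ := (K.Q.card : ℝ) + 1 with hN
  have hNp : 0 < N := by positivity
  set ep : ℝ := eps / (C * N * (4 * Real.pi) * 2) with hep
  have hepp : 0 < ep := by have := Real.pi_pos; positivity
  have hg : ∀ q : K.Q, ∃ dl > 0, ∀ l ∈ ball (q : ℂ) dl, l ≠ q → K.chi l ≠ 1 →
      ‖l - q‖ * ‖F l‖ < ep := fun q => growth hphi hPhi K hy hz hF hF' q.2 hepp
  choose dl hdl hdl' using hg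
  -- a common radius
  obtain ⟨d, hd, hdd⟩ : ∃ d > 0, ∀ q : K.Q, d ≤ dl q := by
    by_cases hne : Nonempty K.Q
    · obtain ⟨q0, hq0⟩ := Finite.exists_min dl
      exact ⟨dl q0, hdl q0, hq0⟩
    · exact ⟨1, one_pos, fun q => absurd ⟨q⟩ hne⟩
  obtain ⟨M, hM⟩ := exists_nat_gt (2 / d)
  refine ⟨M, fun n hn => ?_⟩
  rw [dist_zero_right]
  have hn1 : (0 : ℝ) < (n : ℝ) + 1 := by positivity
  have hnd : 2 / ((n : ℝ) + 1) < d := by
    have h1 : (M : ℝ) ≤ n := by exact_mod_cast hn
    rw [div_lt_iff₀ hn1]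
    rw [div_lt_iff₀ hd] at hM
    nlinarith
  -- pointwise bound
  have hpt : ∀ l, ‖dbar (kap K.Q n) l * (1 - K.chi l) * F l‖ ≤
      ∑ q ∈ K.Q, (closedBall q (2 / ((n : ℝ) + 1))).indicator
        (fun _ => C * ((n : ℝ) + 1) * (ep * ((n : ℝ) + 1))) l := by
    intro l
    have hnn : ∀ q ∈ K.Q, 0 ≤ (closedBall q (2 / ((n : ℝ) + 1))).indicator
        (fun _ => C * ((n : ℝ) + 1) * (ep * ((n : ℝ) + 1))) l := fun q _ =>
      indicator_nonneg (fun _ _ => by positivity) _
    by_cases h1 : dbar (kap K.Q n) l = 0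
    · rw [h1, zero_mul, zero_mul, norm_zero]
      exact Finset.sum_nonneg hnn
    · by_cases h2 : K.chi l = 1
      · rw [h2, sub_self, mul_zero, zero_mul, norm_zero]
        exact Finset.sum_nonneg hnn
      · obtain ⟨q, hq, h3, h4⟩ := dbar_kap_ne h1
        have h5 : l ∈ ball q (dl ⟨q, hq⟩) := by
          rw [mem_ball, dist_eq_norm]
          exact (h4.trans_lt hnd).trans_le (hdd ⟨q, hq⟩)
        have h6 : 0 < ‖l - q‖ := lt_of_lt_of_le (by positivity) h3
        have h7 : l ≠ q := by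
          rintro rfl
          simp at h6
        have h8 := hdl' ⟨q, hq⟩ l h5 h7 h2
        have h9 : ‖F l‖ ≤ ep * ((n : ℝ) + 1) := by
          have h10 : 1 / ((n : ℝ) + 1) * ‖F l‖ ≤ ep :=
            (mul_le_mul_of_nonneg_right h3 (norm_nonneg _)).trans h8.le
          rw [one_div, inv_mul_le_iff₀ hn1] at h10
          linarith
        refine le_trans ?_ (Finset.single_le_sum hnn hq)
        rw [indicator_of_mem (by rw [mem_closedBall, dist_eq_norm]; exact h4)]
        rw [norm_mul, norm_mul]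
        have h11 : ‖dbar (kap K.Q n) l‖ * ‖1 - K.chi l‖ ≤ C * ((n : ℝ) + 1) := by
          calc ‖dbar (kap K.Q n) l‖ * ‖1 - K.chi l‖
              ≤ C * ((n : ℝ) + 1) * 1 :=
                mul_le_mul (hC' n l) (K.norm_le' l) (norm_nonneg _) (by positivity)
            _ = C * ((n : ℝ) + 1) := mul_one _
        exact mul_le_mul h11 h9 (norm_nonneg _) (by positivity)
  have hvol : ∀ q : ℂ, (volume.real (closedBall q (2 / ((n : ℝ) + 1)))) =
      Real.pi * (2 / ((n : ℝ) + 1)) ^ 2 := by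
    intro q
    have hv : volume (closedBall q (2 / ((n : ℝ) + 1))) =
      ENNReal.ofReal (2 / ((n : ℝ) + 1)) ^ 2 * NNReal.pi := Complex.volume_closedBall q _
    rw [Measure.real, hv, ENNReal.toReal_mul, ENNReal.toReal_pow,
      ENNReal.toReal_ofReal (by positivity), mul_comm]
    rfl
  have hint : ∀ q ∈ K.Q, Integrable ((closedBall q (2 / ((n : ℝ) + 1))).indicator
      (fun _ : ℂ => C * ((n : ℝ) + 1) * (ep * ((n : ℝ) + 1)))) := by
    intro q _
    rw [integrable_indicator_iff measurableSet_closedBall]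
    exact integrableOn_const (measure_closedBall_lt_top.ne)
  calc ‖∫ l, dbar (kap K.Q n) l * (1 - K.chi l) * F l‖
      ≤ ∫ l, ∑ q ∈ K.Q, (closedBall q (2 / ((n : ℝ) + 1))).indicator
        (fun _ : ℂ => C * ((n : ℝ) + 1) * (ep * ((n : ℝ) + 1))) l :=
        norm_integral_le_of_norm_le (integrable_finset_sum _ hint) (Eventually.of_forall hpt)
    _ = ∑ q ∈ K.Q, Real.pi * (2 / ((n : ℝ) + 1)) ^ 2 *
        (C * ((n : ℝ) + 1) * (ep * ((n : ℝ) + 1))) := by
        rw [integral_finset_sum _ hint]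
        refine Finset.sum_congr rfl fun q _ => ?_
        rw [integral_indicator measurableSet_closedBall, setIntegral_const, hvol, smul_eq_mul]
    _ = K.Q.card * (4 * Real.pi * C * ep) := by
        rw [Finset.sum_const, nsmul_eq_mul]
        congr 1
        field_simp
        ring
    _ ≤ N * (4 * Real.pi * C * ep) := by
        have := Real.pi_pos
        apply mul_le_mul_of_nonneg_right (by rw [hN]; linarith) (by positivity)
    _ = eps / 2 := by
        have := Real.pi_pos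
        rw [hep]
        field_simp
    _ < eps := by linarith

theorem lim_ev {phi : ℂ → ℂ} (hphi : Normal phi) {Phi : CT}
    (hPhi : ∀ x, Phi x = phi (e x)) (K : Cut phi) {y : Hardy} (hy : y ∈ NN phi Phi) {z : ℂ}
    (hz : ‖z‖ < 1) : Tendsto (fun n => ev z (K.P Phi n y)) atTop (𝓝 (ev z y)) := by
  obtain ⟨F, hF, hF'⟩ := exists_F hphi hPhi hy hz
  obtain ⟨R0, hR0, h1, h2, h3, h4, h5⟩ := stok_R0 hphi Phi K
  obtain ⟨C, hC⟩ := stok_far hphi hPhi hF hF' hR0 h1 h2 h5
  have key : ∀ n : ℕ, ev z (K.P Phi n y) =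
      -(Real.pi : ℂ)⁻¹ * (∫ l, dbar (kap K.Q n) l * (1 - K.chi l) * F l) + ev z y := by
    intro n
    rw [← sub_eq_zero, ← norm_eq_zero]
    apply le_antisymm _ (norm_nonneg _)
    have h6 : ∀ R, R0 ≤ R → ‖ev z (K.P Phi n y) -
        (-(Real.pi : ℂ)⁻¹ * (∫ l, dbar (kap K.Q n) l * (1 - K.chi l) * F l) + ev z y)‖ ≤ C / R := by
      intro R hR
      have h7 := stok_stokes hphi hPhi K hF hF' n (hR0.trans_le hR)
        (fun l hl => (h1 l hl).trans_le hR) (fun l hl => (h3 l hl).trans_le hR)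
        (fun q hq => (h4 q hq).trans hR)
      have h8 := hC R hR
      rw [h7]
      have h9 : -(Real.pi : ℂ)⁻¹ * (∫ l, dbar (kap K.Q n) l * (1 - K.chi l) * F l) +
          -(Real.pi : ℂ)⁻¹ * (∫ l, dbar (th R) l * F l) -
          (-(Real.pi : ℂ)⁻¹ * (∫ l, dbar (kap K.Q n) l * (1 - K.chi l) * F l) + ev z y) =
          -(Real.pi : ℂ)⁻¹ * (∫ l, dbar (th R) l * F l) - ev z y := by ring
      rw [h9]
      exact h8
    have h10 : Tendsto (fun R : ℝ => C / R) atTop (𝓝 0) := tendsto_const_nhds.div_atTop tendsto_id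
    exact ge_of_tendsto h10 ((eventually_ge_atTop R0).mono h6)
  have h11 := (stok_near hphi hPhi K hy hz hF hF').const_mul (-(Real.pi : ℂ)⁻¹)
  have h12 := h11.add_const (ev z y)
  rw [mul_zero, zero_add] at h12
  exact h12.congr fun n => (key n).symm

end Pool.Agent.TBir
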