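import Pool.Agent.TBir.Base

/-!
# Multiplication operators on `L2` of the circle

MODULE. `mul psi` is defined in Defs as a Hoelder product (`ContinuousLinearMap.holderL`,
Mathlib/MeasureTheory/Function/Holder.lean) of the class of `psi` in `L^infty` with `f`.

Proofs. `mul_ae`: `coeFn_holder` and `ContinuousMap.coeFn_toLp`. The algebraic rules follow from
`mul_ae` by `Lp.ext`. Norm: `norm_holder_apply_apply_le`, `norm (ContinuousLinearMap.mul) ≤ 1` and
`ContinuousMap.toLp_norm_le` (probability measure), or directly with `Lp.norm_le_mul_norm_of_ae_le_mul`.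
`inner_mul`: `L2.inner_def` and `mul_ae`.

`hasSum_fourierCoeff_mul`: `fourierCoeff (psi f) m = inner (fourier m) (psi f)
= inner (star psi * fourier m) f`, Parseval in the Hilbert basis `fourierBasis` (`HilbertBasis.hasSum_inner_mul_inner`);
`inner (star psi * fourier m) (fourier n) = ∫ psi * fourier (n - m) = fourierCoeff psi (m - n)`.
-/

open MeasureTheory Complex Set Filter Topology Metric AddCircle
open scoped ComplexConjugate InnerProductSpace ENNReal

namespace Pool.Agent.TBir

theorem mul_ae (psi : CT) (f : L2) :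
    (mul psi f : UnitAddCircle → ℂ) =ᵐ[haarAddCircle] fun x => psi x * f x := by
  have h1 := (ContinuousLinearMap.mul ℂ ℂ).coeFn_holder (r := 2)
    (ContinuousMap.toLp (p := ∞) haarAddCircle ℂ psi) f
  have h2 := ContinuousMap.coeFn_toLp (p := ∞) (𝕜 := ℂ) (haarAddCircle (T := (1 : ℝ))) psi
  have h3 : mul psi f = (ContinuousLinearMap.mul ℂ ℂ).holder 2
    (ContinuousMap.toLp (p := ∞) haarAddCircle ℂ psi) f := rfl
  rw [h3]
  filter_upwards [h1, h2] with x hx hy
  rw [hx, ContinuousLinearMap.mul_apply', hy]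

theorem mul_add_symbol (psi chi : CT) : mul (psi + chi) = mul psi + mul chi := by
  refine ContinuousLinearMap.ext fun f => Lp.ext ?_
  rw [add_apply]
  filter_upwards [mul_ae (psi + chi) f, mul_ae psi f, mul_ae chi f,
    Lp.coeFn_add (mul psi f) (mul chi f)] with x h1 h2 h3 h4
  rw [h1, h4, Pi.add_apply, h2, h3, ContinuousMap.add_apply, add_mul]

theorem mul_smul_symbol (c : ℂ) (psi : CT) : mul (c • psi) = c • mul psi := by
  refine ContinuousLinearMap.ext fun f => Lp.ext ?_
  rw [smul_apply]
  filter_upwards [mul_ae (c • psi) f, mul_ae psi f, Lp.coeFn_smul c (mul psi f)] with x h1 h2 h3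
  rw [h1, h3, Pi.smul_apply, h2, ContinuousMap.smul_apply, smul_eq_mul, smul_eq_mul, mul_assoc]

theorem mul_one_symbol : mul (1 : CT) = ContinuousLinearMap.id ℂ L2 := by
  refine ContinuousLinearMap.ext fun f => Lp.ext ?_
  filter_upwards [mul_ae (1 : CT) f] with x h1
  rw [h1, ContinuousMap.one_apply, one_mul]
  rfl

theorem mul_mul_symbol (psi chi : CT) : mul (psi * chi) = mul psi ∘L mul chi := by
  refine ContinuousLinearMap.ext fun f => Lp.ext ?_
  rw [ContinuousLinearMap.comp_apply]
  filter_upwards [mul_ae (psi * chi) f, mul_ae psi (mul chi f), mul_ae chi f] with x h1 h2 h3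
  rw [h1, h2, h3, ContinuousMap.mul_apply, mul_assoc]

theorem norm_mul_symbol_le (psi : CT) : ‖mul psi‖ ≤ ‖psi‖ := by
  refine ContinuousLinearMap.opNorm_le_bound _ (norm_nonneg _) fun f => ?_
  refine Lp.norm_le_mul_norm_of_ae_le_mul ?_
  filter_upwards [mul_ae psi f] with x h1
  rw [h1, norm_mul]
  exact mul_le_mul_of_nonneg_right (psi.norm_coe_le_norm x) (norm_nonneg _)

theorem inner_mul_symbol (psi : CT) (f g : L2) :
    inner ℂ g (mul psi f) = inner ℂ (mul (star psi) g) f := by
  rw [L2.inner_def, L2.inner_def]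
  refine integral_congr_ae ?_
  filter_upwards [mul_ae psi f, mul_ae (star psi) g] with x h1 h2
  rw [h1, h2, RCLike.inner_apply, RCLike.inner_apply, ContinuousMap.star_apply]
  simp only [map_mul, RCLike.star_def, RCLike.conj_conj]
  ring

private theorem tpa_inner (psi : CT) (m n : ℤ) :
    inner ℂ (mul (star psi) (fourierLp 2 m : L2)) (fourierLp 2 n : L2) =
      fourierCoeff psi (m - n) := by
  rw [← inner_mul_symbol, L2.inner_def, fourierCoeff]
  refine integral_congr_ae ?_
  filter_upwards [mul_ae psi (fourierLp 2 n : L2), coeFn_fourierLp (T := (1 : ℝ)) 2 m,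
    coeFn_fourierLp (T := (1 : ℝ)) 2 n] with x h1 h2 h3
  rw [h1, h2, h3, RCLike.inner_apply, smul_eq_mul, ← fourier_neg]
  have h4 : -(m - n) = n + -m := by ring
  rw [h4, fourier_add]
  ring

theorem hasSum_fourierCoeff_mul (psi : CT) (f : L2) (m : ℤ) :
    HasSum (fun n : ℤ => fourierCoeff psi (m - n) * fourierCoeff (f : UnitAddCircle → ℂ) n)
      (fourierCoeff (mul psi f : UnitAddCircle → ℂ) m) := by
  have h := (fourierBasis (T := (1 : ℝ))).hasSum_inner_mul_inner
    (mul (star psi) (fourierLp 2 m : L2)) f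
  have h1 : inner ℂ (mul (star psi) (fourierLp 2 m : L2)) f =
      fourierCoeff (mul psi f : UnitAddCircle → ℂ) m := by
    rw [← inner_mul_symbol, ← fourierBasis_repr, HilbertBasis.repr_apply_apply, coe_fourierBasis]
  rw [h1] at h
  have h2 : (fun i : ℤ => inner ℂ (mul (star psi) (fourierLp 2 m : L2))
      ((fourierBasis (T := (1 : ℝ))) i) * inner ℂ ((fourierBasis (T := (1 : ℝ))) i) f) =
      fun n : ℤ => fourierCoeff psi (m - n) * fourierCoeff (f : UnitAddCircle → ℂ) n := by
    funext n
    rw [← fourierBasis_repr, HilbertBasis.repr_apply_apply, coe_fourierBasis, tpa_inner]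
  rw [h2] at h
  exact h

end Pool.Agent.TBir
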