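import Pool.Agent.TBir.TpA

/-!
# Toeplitz operators: calculus

MODULE. Proofs. Linearity and the norm bound from `TpA` (`‖P‖ ≤ 1`); `exists_TL` with
`LinearMap.mkContinuous`.

If `u` is `Plus` then `mul u` maps `H2` into `H2`: for `f` in `H2` and `m < 0` every term of
`hasSum_fourierCoeff_mul` vanishes (`n < 0`: `f_n = 0`; `n ≥ 0`: `m - n < 0`). Hence
`T (psi u) f = P (psi u f) = P (psi (T u f)) = T psi (T u f)`.

Adjoint: `inner g (T psi f) = inner g (psi f) = inner (star psi g) f = inner (P (star psi g)) f`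
for `f`, `g` in `H2`.

`Minus v`: then `star v` is `Plus` (`fourierCoeff (star v) n = conj (fourierCoeff v (-n))`), and
`T (v psi) = (T (star psi * star v))^* = (T (star psi) T (star v))^* = T v T psi`.
-/

open MeasureTheory Complex Set Filter Topology Metric AddCircle
open scoped ComplexConjugate InnerProductSpace ENNReal

namespace Pool.Agent.TBir

theorem TpB_proj_incl (f : Hardy) : proj (incl f) = f :=
  Submodule.orthogonalProjectionOnto_mem_subspace_eq_self (K := H2) f

theorem TpB_incl_proj {x : L2} (hx : x ∈ H2) : incl (proj x) = x := by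
  have h := TpB_proj_incl (⟨x, hx⟩ : H2)
  have h1 : incl (⟨x, hx⟩ : H2) = x := rfl
  rw [h1] at h
  rw [h]
  rfl

theorem TpB_norm_incl (f : Hardy) : ‖incl f‖ = ‖f‖ := rfl

theorem TpB_norm_proj (x : L2) : ‖proj x‖ ≤ ‖x‖ :=
  Submodule.norm_orthogonalProjectionOnto_apply_le H2 x

theorem TpB_inner_proj (g : Hardy) (x : L2) : inner ℂ g (proj x) = inner ℂ (incl g) x :=
  Submodule.inner_orthogonalProjectionOnto_eq_of_mem_left (K := H2) g x

theorem TpB_inner_proj' (g : Hardy) (x : L2) : inner ℂ (proj x) g = inner ℂ x (incl g) :=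
  Submodule.inner_orthogonalProjectionOnto_eq_of_mem_right (K := H2) g x

theorem TpB_apply (psi : CT) (f : Hardy) : T psi f = proj (mul psi (incl f)) := rfl

theorem T_add (psi chi : CT) : T (psi + chi) = T psi + T chi := by
  ext f
  rw [ContinuousLinearMap.add_apply, TpB_apply, TpB_apply, TpB_apply, mul_add_symbol,
    ContinuousLinearMap.add_apply, map_add]

theorem T_smul (c : ℂ) (psi : CT) : T (c • psi) = c • T psi := by
  ext f
  rw [ContinuousLinearMap.smul_apply, TpB_apply, TpB_apply, mul_smul_symbol,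
    ContinuousLinearMap.smul_apply, map_smul]

theorem T_one : T (1 : CT) = 1 := by
  ext f
  rw [TpB_apply, mul_one_symbol, ContinuousLinearMap.id_apply, TpB_proj_incl]
  rfl

theorem norm_T_le (psi : CT) : ‖T psi‖ ≤ ‖psi‖ := by
  refine ContinuousLinearMap.opNorm_le_bound _ (norm_nonneg _) fun f => ?_
  rw [TpB_apply, ← TpB_norm_incl f]
  refine (TpB_norm_proj _).trans ((ContinuousLinearMap.le_opNorm _ _).trans ?_)
  exact mul_le_mul_of_nonneg_right (norm_mul_symbol_le psi) (norm_nonneg _)

theorem exists_TL : ∃ TL : CT →L[ℂ] (Hardy →L[ℂ] Hardy), ∀ psi, TL psi = T psi := by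
  let l : CT →ₗ[ℂ] (Hardy →L[ℂ] Hardy) :=
    { toFun := T
      map_add' := T_add
      map_smul' := T_smul }
  refine ⟨l.mkContinuous 1 fun psi => ?_, fun psi => rfl⟩
  rw [one_mul]
  exact norm_T_le psi

theorem T_sub (psi chi : CT) : T (psi - chi) = T psi - T chi := by
  obtain ⟨TL, h⟩ := exists_TL
  rw [← h, ← h, ← h, map_sub]

theorem T_algebraMap (c : ℂ) : T (algebraMap ℂ CT c) = c • (1 : Hardy →L[ℂ] Hardy) := by
  rw [Algebra.algebraMap_eq_smul_one, T_smul, T_one]

theorem fourierCoeff_star (v : CT) (n : ℤ) :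
    fourierCoeff (star v : CT) n = conj (fourierCoeff v (-n)) := by
  unfold fourierCoeff
  rw [← integral_conj]
  refine integral_congr_ae (Filter.Eventually.of_forall fun t => ?_)
  simp only [neg_neg, smul_eq_mul, map_mul]
  rw [fourier_neg, ContinuousMap.star_apply]
  rfl

/-- `mul u` maps the Hardy space into itself when `u` is `Plus`. -/
theorem mul_mem {u : CT} (hu : Plus u) (f : Hardy) : mul u (incl f) ∈ H2 := by
  intro m hm
  have hf : (incl f : L2) ∈ H2 := f.2
  have h := hasSum_fourierCoeff_mul u (incl f) m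
  have h0 : (fun n : ℤ => fourierCoeff u (m - n) * fourierCoeff (incl f : UnitAddCircle → ℂ) n) =
      fun _ => 0 := by
    funext n
    rcases lt_or_ge n 0 with hn | hn
    · rw [hf n hn, mul_zero]
    · rw [hu (m - n) (by omega), zero_mul]
  rw [h0] at h
  exact h.unique hasSum_zero

theorem incl_T {u : CT} (hu : Plus u) (f : Hardy) : incl (T u f) = mul u (incl f) := by
  rw [TpB_apply]
  exact TpB_incl_proj (mul_mem hu f)

theorem T_mul_right (psi : CT) {u : CT} (hu : Plus u) : T (psi * u) = T psi * T u := by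
  ext f
  rw [ContinuousLinearMap.mul_apply, TpB_apply, TpB_apply psi (T u f), incl_T hu, mul_mul_symbol]
  rfl

theorem adjoint_T (psi : CT) : ContinuousLinearMap.adjoint (T psi) = T (star psi) := by
  symm
  rw [ContinuousLinearMap.eq_adjoint_iff]
  intro x y
  rw [TpB_apply, TpB_apply, TpB_inner_proj', TpB_inner_proj, inner_mul_symbol]

theorem T_mul_left {v : CT} (hv : Minus v) (psi : CT) : T (v * psi) = T v * T psi := by
  have hs : Plus (star v) := by
    intro n hn
    rw [fourierCoeff_star, hv (-n) (by omega), map_zero]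
  have h1 : T (v * psi) = ContinuousLinearMap.adjoint (T (star psi * star v)) := by
    rw [adjoint_T, star_mul, star_star, star_star]
  rw [h1, T_mul_right _ hs]
  have h2 : T (star psi) * T (star v) = (T (star psi)).comp (T (star v)) := rfl
  rw [h2, ContinuousLinearMap.adjoint_comp, adjoint_T, adjoint_T, star_star, star_star]
  rfl

theorem TpB_coeff_proj (x : L2) (m : ℕ) :
    fourierCoeff (incl (proj x) : UnitAddCircle → ℂ) (m : ℤ) =
      fourierCoeff (x : UnitAddCircle → ℂ) (m : ℤ) := by
  rw [← fourierBasis_repr, ← fourierBasis_repr, HilbertBasis.repr_apply_apply,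
    HilbertBasis.repr_apply_apply]
  have h1 : (fourierBasis (m : ℤ) : L2) = incl (mono m) := by
    rw [coe_fourierBasis]
    rfl
  rw [h1, ← TpB_inner_proj, ← TpB_inner_proj, TpB_proj_incl]

/-- The coefficients of `T psi f`. -/
theorem hasSum_co_T (psi : CT) (f : Hardy) (m : ℕ) :
    HasSum (fun n : ℕ => fourierCoeff psi ((m : ℤ) - n) * co f n) (co (T psi f) m) := by
  have hf : (incl f : L2) ∈ H2 := f.2
  have h := hasSum_fourierCoeff_mul psi (incl f) m
  have h1 : co (T psi f) m = fourierCoeff (mul psi (incl f) : UnitAddCircle → ℂ) (m : ℤ) := by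
    unfold co
    rw [TpB_apply, TpB_coeff_proj]
  rw [h1]
  have hinj : Function.Injective (Nat.cast : ℕ → ℤ) := Nat.cast_injective
  refine (hinj.hasSum_iff ?_).2 h
  intro n hn
  have hn0 : n < 0 := by
    by_contra hcon
    push Not at hcon
    exact hn ⟨n.toNat, by simp [hcon]⟩
  rw [hf n hn0, mul_zero]

end Pool.Agent.TBir
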